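import Mathlib

set_option autoImplicit false

open Finset

namespace Pool.Agent.H297

variable {α : Type*} [DecidableEq α]

/-- Expectation of `φ` under the product measure on the subsets of `s` in which `e` is present
with probability `q e`. -/
noncomputable def Ex (q : α → ℝ) (s : Finset α) (φ : Finset α → ℝ) : ℝ :=
  ∑ J ∈ s.powerset, (∏ e ∈ s, if e ∈ J then q e else 1 - q e) * φ J

lemma Ex_insert (q : α → ℝ) {s : Finset α} {a : α} (ha : a ∉ s) (φ : Finset α → ℝ) :
    Ex q (insert a s) φ = (1 - q a) * Ex q s φ + q a * Ex q s (fun J => φ (insert a J)) := by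
  unfold Ex
  rw [sum_powerset_insert ha, mul_sum, mul_sum]
  congr 1
  · refine sum_congr rfl fun J hJ => ?_
    have haJ : a ∉ J := fun h => ha (mem_powerset.1 hJ h)
    rw [prod_insert ha, if_neg haJ, mul_assoc]
  · refine sum_congr rfl fun J hJ => ?_
    rw [prod_insert ha, if_pos (mem_insert_self a J), mul_assoc]
    congr 2
    refine prod_congr rfl fun e he => ?_
    have : e ≠ a := fun h => ha (h ▸ he)
    simp [this]

lemma Ex_congr {q q' : α → ℝ} {s : Finset α} {φ φ' : Finset α → ℝ}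
    (hq : ∀ e ∈ s, q e = q' e) (hφ : ∀ J, J ⊆ s → φ J = φ' J) : Ex q s φ = Ex q' s φ' := by
  unfold Ex
  refine sum_congr rfl fun J hJ => ?_
  rw [hφ J (mem_powerset.1 hJ)]
  congr 1
  refine prod_congr rfl fun e he => ?_
  rw [hq e he]

lemma weight_nonneg {q : α → ℝ} {s : Finset α} (h0 : ∀ e ∈ s, 0 ≤ q e) (h1 : ∀ e ∈ s, q e ≤ 1)
    (J : Finset α) : 0 ≤ ∏ e ∈ s, (if e ∈ J then q e else 1 - q e) := by
  refine prod_nonneg fun e he => ?_
  split_ifs
  · exact h0 e he
  · linarith [h1 e he]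

lemma Ex_mono {q : α → ℝ} {s : Finset α} (h0 : ∀ e ∈ s, 0 ≤ q e) (h1 : ∀ e ∈ s, q e ≤ 1)
    {φ ψ : Finset α → ℝ} (h : ∀ J, J ⊆ s → φ J ≤ ψ J) : Ex q s φ ≤ Ex q s ψ := by
  unfold Ex
  refine sum_le_sum fun J hJ => ?_
  exact mul_le_mul_of_nonneg_left (h J (mem_powerset.1 hJ)) (weight_nonneg h0 h1 J)

lemma Ex_prod (q c : α → ℝ) (s : Finset α) :
    Ex q s (fun J => ∏ e ∈ J, c e) = ∏ e ∈ s, (1 - q e + q e * c e) := by
  induction s using Finset.induction_on with
  | empty => simp [Ex]
  | insert a s ha ih =>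
    rw [Ex_insert q ha, prod_insert ha, ih]
    have : Ex q s (fun J => ∏ e ∈ insert a J, c e) = c a * Ex q s (fun J => ∏ e ∈ J, c e) := by
      unfold Ex
      rw [mul_sum]
      refine sum_congr rfl fun J hJ => ?_
      have haJ : a ∉ J := fun h => ha (mem_powerset.1 hJ h)
      simp only [prod_insert haJ]
      ring
    rw [this, ih]
    ring

lemma Ex_const (q : α → ℝ) (s : Finset α) (c : ℝ) : Ex q s (fun _ => c) = c := by
  have h := Ex_prod q (fun _ => (1 : ℝ)) s
  simp only [prod_const_one, mul_one, sub_add_cancel] at h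
  have : Ex q s (fun _ => c) = c * Ex q s (fun _ => 1) := by
    unfold Ex
    rw [mul_sum]
    refine sum_congr rfl fun J _ => ?_
    ring
  rw [this, h, mul_one]

lemma Ex_sum {ι : Type*} (q : α → ℝ) (s : Finset α) (T : Finset ι) (φ : ι → Finset α → ℝ) :
    Ex q s (fun J => ∑ i ∈ T, φ i J) = ∑ i ∈ T, Ex q s (φ i) := by
  unfold Ex
  rw [sum_comm]
  refine sum_congr rfl fun J _ => ?_
  rw [mul_sum]

lemma Ex_mul_left (q : α → ℝ) (s : Finset α) (c : ℝ) (φ : Finset α → ℝ) :
    Ex q s (fun J => c * φ J) = c * Ex q s φ := by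
  unfold Ex
  rw [mul_sum]
  refine sum_congr rfl fun J _ => ?_
  ring

/-- The scalar inequality behind the induction. -/
lemma scalar_ineq (d0 d1 : ℝ) (h0 : 0 < d0) (h1 : 0 ≤ d1) (h : d1 ≤ d0) :
    Real.exp ((1 / 16) * ((d0 - d1) / (2 * d0)) ^ 2) * √d0 + √d1 ≤ √(2 * (d0 + d1)) := by
  set q : ℝ := (d0 - d1) / (2 * d0) with hq
  set u : ℝ := √d0 with hu
  set v : ℝ := √d1 with hv
  have hu0 : 0 < u := Real.sqrt_pos.2 h0
  have hv0 : 0 ≤ v := Real.sqrt_nonneg _
  have huv : v ≤ u := Real.sqrt_le_sqrt h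
  have hu2 : u ^ 2 = d0 := Real.sq_sqrt h0.le
  have hv2 : v ^ 2 = d1 := Real.sq_sqrt h1
  have hq0 : 0 ≤ q := div_nonneg (by linarith) (by linarith)
  have hq1 : q ≤ 1 / 2 := by
    rw [hq, div_le_iff₀ (by linarith)]
    linarith
  -- u - v ≥ q u
  have hqu : q * u ≤ u - v := by
    have : q * (2 * u ^ 2) = u ^ 2 - v ^ 2 := by
      rw [hu2, hv2, hq]
      field_simp
    have h2 : q * (2 * u ^ 2) ≤ (u - v) * (2 * u) := by
      rw [this]; nlinarith
    have h3 : (q * u) * (2 * u) ≤ (u - v) * (2 * u) := by nlinarith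
    exact le_of_mul_le_mul_right h3 (by linarith)
  set η : ℝ := Real.exp ((1 / 16) * q ^ 2) - 1 with hη
  have hη0 : 0 ≤ η := by
    have : 1 ≤ Real.exp ((1 / 16) * q ^ 2) := Real.one_le_exp (by positivity)
    linarith
  have hη1 : η ≤ (1 / 8) * q ^ 2 := by
    have hx : |(1 / 16) * q ^ 2| ≤ 1 := by
      rw [abs_of_nonneg (by positivity)]; nlinarith
    have := Real.abs_exp_sub_one_le hx
    rw [abs_of_nonneg hη0, abs_of_nonneg (by positivity)] at this
    linarith
  have hexp : Real.exp ((1 / 16) * q ^ 2) = 1 + η := by rw [hη]; ring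
  rw [hexp]
  apply Real.le_sqrt_of_sq_le
  rw [← hu2, ← hv2]
  have hq2 : (q * u) ^ 2 ≤ (u - v) ^ 2 := by
    apply pow_le_pow_left₀ (by positivity) hqu
  have e1 : ((1 + η) * u + v) ^ 2 ≤ (u + v) ^ 2 + (4 * η + η ^ 2) * u ^ 2 := by
    nlinarith [mul_nonneg hη0 (mul_nonneg hu0.le (sub_nonneg.2 huv))]
  have e2 : 4 * η + η ^ 2 ≤ q ^ 2 := by
    have hqq : q ^ 2 ≤ 1 / 4 := by nlinarith
    have hηq : η ^ 2 ≤ ((1 / 8) * q ^ 2) ^ 2 := pow_le_pow_left₀ hη0 hη1 2
    nlinarith [sq_nonneg q]
  have e3 : (4 * η + η ^ 2) * u ^ 2 ≤ q ^ 2 * u ^ 2 :=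
    mul_le_mul_of_nonneg_right e2 (by positivity)
  nlinarith

/-- **Monotone coupling.**  Let `D` be a nonempty down-closed family of subsets of `s`.  To every
`g ∈ D` one can attach edge probabilities `q g` such that adding to a uniform random member `g` of
`D` an independent `q g`-random set `J` gives a uniform random subset of `s`, while `∑ q²` has a
controlled exponential moment. -/
theorem coupling (s : Finset α) : ∀ D : Finset (Finset α), D.Nonempty →
    (∀ g ∈ D, g ⊆ s) → (∀ g ∈ D, ∀ g', g' ⊆ g → g' ∈ D) →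
    ∃ q : Finset α → α → ℝ, (∀ g e, 0 ≤ q g e ∧ q g e ≤ 1 / 2) ∧
      (∀ φ : Finset α → ℝ, (D.card : ℝ) * ∑ G ∈ s.powerset, φ G
        = 2 ^ s.card * ∑ g ∈ D, Ex (q g) s (fun J => φ (g ∪ J))) ∧
      ∑ g ∈ D, Real.exp ((1 / 16) * ∑ e ∈ s, (q g e) ^ 2) ≤ √(2 ^ s.card * D.card) := by
  induction s using Finset.induction_on with
  | empty =>
    intro D hD hs _
    have hD' : D = {∅} := by
      apply Finset.eq_singleton_iff_nonempty_unique_mem.2 ⟨hD, fun g hg => ?_⟩
      exact subset_empty.1 (hs g hg)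
    refine ⟨fun _ _ => 0, fun _ _ => ⟨le_refl _, by norm_num⟩, fun φ => ?_, ?_⟩
    · simp [hD', Ex]
    · simp [hD']
  | insert a s ha ih =>
    intro D hD hs hdown
    set D0 : Finset (Finset α) := D.filter (fun g => a ∉ g) with hD0
    set D1 : Finset (Finset α) := D0.filter (fun g => insert a g ∈ D) with hD1
    have hsub0 : ∀ g ∈ D0, g ⊆ s := by
      intro g hg
      rw [hD0, mem_filter] at hg
      intro x hx
      rcases mem_insert.1 (hs g hg.1 hx) with h | h
      · exact absurd (h ▸ hx) hg.2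
      · exact h
    have hdown0 : ∀ g ∈ D0, ∀ g', g' ⊆ g → g' ∈ D0 := by
      intro g hg g' hg'
      rw [hD0, mem_filter] at hg ⊢
      exact ⟨hdown g hg.1 g' hg', fun h => hg.2 (hg' h)⟩
    have hdown1 : ∀ g ∈ D1, ∀ g', g' ⊆ g → g' ∈ D1 := by
      intro g hg g' hg'
      rw [hD1, mem_filter] at hg ⊢
      exact ⟨hdown0 g hg.1 g' hg', hdown _ hg.2 _ (insert_subset_insert a hg')⟩
    have hne0 : D0.Nonempty := by
      obtain ⟨g, hg⟩ := hD
      exact ⟨∅, by rw [hD0, mem_filter]; exact ⟨hdown g hg ∅ (empty_subset _), notMem_empty a⟩⟩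
    -- D = D0 ∪ (insert a) D1
    have hDsplit : D = D0 ∪ D1.image (insert a) := by
      ext g
      constructor
      · intro hg
        by_cases hag : a ∈ g
        · refine mem_union_right _ (mem_image.2 ⟨g.erase a, ?_, insert_erase hag⟩)
          rw [hD1, mem_filter, hD0, mem_filter]
          refine ⟨⟨hdown g hg _ (erase_subset _ _), notMem_erase a g⟩, ?_⟩
          rw [insert_erase hag]; exact hg
        · exact mem_union_left _ (mem_filter.2 ⟨hg, hag⟩)
      · intro hg
        rcases mem_union.1 hg with h | h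
        · exact (mem_filter.1 h).1
        · obtain ⟨g', hg', rfl⟩ := mem_image.1 h
          exact (mem_filter.1 hg').2
    have hdisj : Disjoint D0 (D1.image (insert a)) := by
      rw [disjoint_left]
      intro g hg hg'
      obtain ⟨g', _, rfl⟩ := mem_image.1 hg'
      exact (mem_filter.1 hg).2 (mem_insert_self a g')
    have hinj : Set.InjOn (insert a) (D1 : Set (Finset α)) := by
      intro g hg g' hg' h
      have h1 : a ∉ g := (mem_filter.1 (mem_filter.1 hg).1).2
      have h2 : a ∉ g' := (mem_filter.1 (mem_filter.1 hg').1).2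
      rw [← erase_insert h1, h, erase_insert h2]
    have hcard : D.card = D0.card + D1.card := by
      rw [hDsplit, card_union_of_disjoint hdisj, card_image_of_injOn hinj]
    have hle : D1.card ≤ D0.card := card_le_card (filter_subset _ _)
    set d0 : ℝ := (D0.card : ℝ) with hd0
    set d1 : ℝ := (D1.card : ℝ) with hd1
    have hd0pos : 0 < d0 := by rw [hd0]; exact_mod_cast hne0.card_pos
    have hd1nn : 0 ≤ d1 := Nat.cast_nonneg _
    have hd10 : d1 ≤ d0 := by rw [hd0, hd1]; exact_mod_cast hle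
    have hcardR : (D.card : ℝ) = d0 + d1 := by rw [hcard]; push_cast; rfl
    have hsumsplit : ∀ f : Finset α → ℝ,
        ∑ g ∈ D, f g = ∑ g ∈ D0, f g + ∑ g ∈ D1, f (insert a g) := by
      intro f
      rw [hDsplit, sum_union hdisj, sum_image hinj]
    obtain ⟨q0, hq0b, hq0φ, hq0e⟩ := ih D0 hne0 hsub0 hdown0
    have hex1 : ∃ q1 : Finset α → α → ℝ, (∀ g e, 0 ≤ q1 g e ∧ q1 g e ≤ 1 / 2) ∧
        (∀ φ : Finset α → ℝ, d1 * ∑ G ∈ s.powerset, φ G
          = 2 ^ s.card * ∑ g ∈ D1, Ex (q1 g) s (fun J => φ (g ∪ J))) ∧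
        ∑ g ∈ D1, Real.exp ((1 / 16) * ∑ e ∈ s, (q1 g e) ^ 2) ≤ √(2 ^ s.card * d1) := by
      rcases D1.eq_empty_or_nonempty with h | h
      · have hz : d1 = 0 := by rw [hd1, h, card_empty, Nat.cast_zero]
        refine ⟨fun _ _ => 0, fun _ _ => ⟨le_refl _, by norm_num⟩, fun φ => ?_, ?_⟩
        · rw [hz, h, sum_empty, mul_zero, zero_mul]
        · rw [hz, h, sum_empty]; exact Real.sqrt_nonneg _
      · exact ih D1 h (fun g hg => hsub0 g (mem_filter.1 hg).1) hdown1
    obtain ⟨q1, hq1b, hq1φ, hq1e⟩ := hex1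
    set qa : ℝ := (d0 - d1) / (2 * d0) with hqa
    have hqa0 : 0 ≤ qa := div_nonneg (by linarith) (by linarith)
    have hqa1 : qa ≤ 1 / 2 := by
      rw [hqa, div_le_iff₀ (by linarith)]; linarith
    refine ⟨fun g e => if a ∈ g then (if e = a then 0 else q1 (g.erase a) e)
        else (if e = a then qa else q0 g e), ?_, ?_, ?_⟩
    · intro g e
      dsimp only
      split_ifs
      · exact ⟨le_refl _, by norm_num⟩
      · exact hq1b _ _
      · exact ⟨hqa0, hqa1⟩
      · exact hq0b _ _
    · intro φ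
      rw [hsumsplit]
      have e0 : ∀ g ∈ D0, Ex (fun e => if a ∈ g then (if e = a then 0 else q1 (g.erase a) e)
          else (if e = a then qa else q0 g e)) (insert a s) (fun J => φ (g ∪ J))
          = (1 - qa) * Ex (q0 g) s (fun J => φ (g ∪ J))
            + qa * Ex (q0 g) s (fun J => φ (insert a (g ∪ J))) := by
        intro g hg
        have hag : a ∉ g := (mem_filter.1 hg).2
        rw [Ex_insert _ ha]
        simp only [if_neg hag, if_true]
        congr 2
        · refine Ex_congr (fun e he => ?_) (fun J _ => rfl)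
          rw [if_neg (ne_of_mem_of_not_mem he ha)]
        · refine Ex_congr (fun e he => ?_) (fun J _ => ?_)
          · rw [if_neg (ne_of_mem_of_not_mem he ha)]
          · rw [union_insert]
      have e1 : ∀ g ∈ D1, Ex (fun e => if a ∈ insert a g then
            (if e = a then 0 else q1 ((insert a g).erase a) e)
          else (if e = a then qa else q0 (insert a g) e)) (insert a s)
            (fun J => φ (insert a g ∪ J))
          = Ex (q1 g) s (fun J => φ (insert a (g ∪ J))) := by
        intro g hg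
        have hag : a ∉ g := (mem_filter.1 (mem_filter.1 hg).1).2
        rw [Ex_insert _ ha]
        simp only [mem_insert_self, if_true, sub_zero, one_mul, zero_mul, add_zero]
        refine Ex_congr (fun e he => ?_) (fun J _ => ?_)
        · rw [if_neg (ne_of_mem_of_not_mem he ha), erase_insert hag]
        · rw [insert_union]
      rw [sum_congr rfl e0, sum_congr rfl e1, sum_add_distrib, ← mul_sum, ← mul_sum]
      have f0 := hq0φ φ
      have f1 := hq0φ (fun G => φ (insert a G))
      have f2 := hq1φ (fun G => φ (insert a G))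
      rw [sum_powerset_insert ha, card_insert_of_notMem ha, hcardR, pow_succ]
      set A := ∑ G ∈ s.powerset, φ G
      set B := ∑ G ∈ s.powerset, φ (insert a G)
      set X0 := ∑ g ∈ D0, Ex (q0 g) s (fun J => φ (g ∪ J))
      set X1 := ∑ g ∈ D0, Ex (q0 g) s (fun J => φ (insert a (g ∪ J)))
      set X2 := ∑ g ∈ D1, Ex (q1 g) s (fun J => φ (insert a (g ∪ J)))
      have hqa' : qa * (2 * d0) = d0 - d1 := by
        rw [hqa]; field_simp
      have : (2 : ℝ) ^ s.card * 2 * ((1 - qa) * X0 + qa * X1 + X2)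
          = 2 * (1 - qa) * (2 ^ s.card * X0) + 2 * qa * (2 ^ s.card * X1)
            + 2 * (2 ^ s.card * X2) := by ring
      rw [this, ← f0, ← f1, ← f2]
      have h1 : 2 * (1 - qa) * (d0 * A) = (2 * d0 - (d0 - d1)) * A := by rw [← hqa']; ring
      have h2 : 2 * qa * (d0 * B) = (d0 - d1) * B := by rw [← hqa']; ring
      rw [h1, h2]
      ring
    · rw [hsumsplit]
      have e0 : ∀ g ∈ D0, Real.exp ((1 / 16) * ∑ e ∈ insert a s,
          (if a ∈ g then (if e = a then 0 else q1 (g.erase a) e)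
            else (if e = a then qa else q0 g e)) ^ 2)
          = Real.exp ((1 / 16) * qa ^ 2) * Real.exp ((1 / 16) * ∑ e ∈ s, (q0 g e) ^ 2) := by
        intro g hg
        have hag : a ∉ g := (mem_filter.1 hg).2
        rw [sum_insert ha]
        simp only [if_neg hag, if_true]
        rw [mul_add, Real.exp_add]
        congr 3
        refine sum_congr rfl fun e he => ?_
        rw [if_neg (ne_of_mem_of_not_mem he ha)]
      have e1 : ∀ g ∈ D1, Real.exp ((1 / 16) * ∑ e ∈ insert a s,
          (if a ∈ insert a g then (if e = a then 0 else q1 ((insert a g).erase a) e)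
            else (if e = a then qa else q0 (insert a g) e)) ^ 2)
          = Real.exp ((1 / 16) * ∑ e ∈ s, (q1 g e) ^ 2) := by
        intro g hg
        have hag : a ∉ g := (mem_filter.1 (mem_filter.1 hg).1).2
        rw [sum_insert ha]
        simp only [mem_insert_self, if_true, ne_eq, OfNat.ofNat_ne_zero, not_false_eq_true,
          zero_pow, zero_add]
        congr 2
        refine sum_congr rfl fun e he => ?_
        rw [if_neg (ne_of_mem_of_not_mem he ha), erase_insert hag]
      rw [sum_congr rfl e0, sum_congr rfl e1, ← mul_sum, card_insert_of_notMem ha, hcardR]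
      have hP : (0 : ℝ) ≤ 2 ^ s.card := by positivity
      have key := scalar_ineq d0 d1 hd0pos hd1nn hd10
      rw [← hqa] at key
      calc Real.exp ((1 / 16) * qa ^ 2) * ∑ g ∈ D0, Real.exp ((1 / 16) * ∑ e ∈ s, (q0 g e) ^ 2)
            + ∑ g ∈ D1, Real.exp ((1 / 16) * ∑ e ∈ s, (q1 g e) ^ 2)
          ≤ Real.exp ((1 / 16) * qa ^ 2) * √(2 ^ s.card * d0) + √(2 ^ s.card * d1) := by
            gcongr
        _ = √(2 ^ s.card) * (Real.exp ((1 / 16) * qa ^ 2) * √d0 + √d1) := by
            rw [Real.sqrt_mul hP, Real.sqrt_mul hP]; ring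
        _ ≤ √(2 ^ s.card) * √(2 * (d0 + d1)) := by gcongr
        _ = √(2 ^ (s.card + 1) * (d0 + d1)) := by
            rw [← Real.sqrt_mul hP]; congr 1; ring

end Pool.Agent.H297
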