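import Mathlib
import Pool.Agent.H297.Coupling

set_option autoImplicit false

open Finset

namespace Pool.Agent.H297

variable {α : Type*} [DecidableEq α]

lemma scalar_ineq2 (H0 H1 : ℝ) (h0 : 0 ≤ H0) (h1 : 0 ≤ H1) :
    Real.exp ((1 / 16) * (max 0 ((H0 - H1) / (2 * H0))) ^ 2) * √H0
      + Real.exp ((1 / 16) * (max 0 ((H1 - H0) / (2 * H1))) ^ 2) * √H1 ≤ √(2 * (H0 + H1)) := by
  -- symmetric version of `scalar_ineq`
  have key : ∀ a b : ℝ, 0 ≤ a → 0 ≤ b → b ≤ a →
      Real.exp ((1 / 16) * (max 0 ((a - b) / (2 * a))) ^ 2) * √a
      + Real.exp ((1 / 16) * (max 0 ((b - a) / (2 * b))) ^ 2) * √b ≤ √(2 * (a + b)) := by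
    intro a b ha hb hba
    have hm : max 0 ((b - a) / (2 * b)) = 0 :=
      max_eq_left (div_nonpos_of_nonpos_of_nonneg (by linarith) (by linarith))
    rw [hm]
    rcases ha.eq_or_lt with h | h
    · have hb0 : b = 0 := by linarith
      rw [← h, hb0]
      simp
    · have hq : max 0 ((a - b) / (2 * a)) = (a - b) / (2 * a) :=
        max_eq_right (div_nonneg (by linarith) (by linarith))
      rw [hq]
      have := scalar_ineq a b h hb hba
      simpa using this
  rcases le_total H1 H0 with h | h
  · exact key H0 H1 h0 h1 h
  · have := key H1 H0 h1 h0 h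
    rw [add_comm, add_comm H0 H1]
    exact this

/-- **Coupling, general form.**  Let `h ≥ 0` be a weight on the subsets of `s`.  There are
probabilities `q g e ∈ [0,1/2]` such that if `g` is chosen with probability proportional to `h` and
`J` is then a `q g`-random set, the symmetric difference `g ∆ J` is uniform; moreover
`∑ √h · exp (∑ q² / 16) ≤ √(2^|s| ∑ h)`. -/
theorem coupling2 (s : Finset α) : ∀ h : Finset α → ℝ, (∀ g, 0 ≤ h g) →
    ∃ q : Finset α → α → ℝ, (∀ g e, 0 ≤ q g e ∧ q g e ≤ 1 / 2) ∧
      (∀ φ : Finset α → ℝ, (∑ g ∈ s.powerset, h g) * ∑ G ∈ s.powerset, φ G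
        = 2 ^ s.card * ∑ g ∈ s.powerset, h g * Ex (q g) s (fun J => φ (symmDiff g J))) ∧
      ∑ g ∈ s.powerset, √(h g) * Real.exp ((1 / 16) * ∑ e ∈ s, (q g e) ^ 2)
        ≤ √(2 ^ s.card * ∑ g ∈ s.powerset, h g) := by
  induction s using Finset.induction_on with
  | empty =>
    intro h hh
    refine ⟨fun _ _ => 0, fun _ _ => ⟨le_refl _, by norm_num⟩, fun φ => ?_, ?_⟩
    · simp [Ex]
    · simp
  | insert a s ha ih =>
    intro h hh
    obtain ⟨q0, hq0b, hq0φ, hq0e⟩ := ih h hh
    obtain ⟨q1, hq1b, hq1φ, hq1e⟩ := ih (fun g => h (insert a g)) (fun g => hh _)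
    set H0 : ℝ := ∑ g ∈ s.powerset, h g with hH0
    set H1 : ℝ := ∑ g ∈ s.powerset, h (insert a g) with hH1
    have hH0nn : 0 ≤ H0 := sum_nonneg fun g _ => hh g
    have hH1nn : 0 ≤ H1 := sum_nonneg fun g _ => hh _
    set qa : ℝ := max 0 ((H0 - H1) / (2 * H0)) with hqa
    set qb : ℝ := max 0 ((H1 - H0) / (2 * H1)) with hqb
    have hhalf : ∀ x y : ℝ, 0 ≤ x → 0 ≤ y → max 0 ((x - y) / (2 * x)) ≤ 1 / 2 := by
      intro x y hx hy
      apply max_le (by norm_num)
      rcases hx.eq_or_lt with h | h
      · rw [← h]; simp
      · rw [div_le_iff₀ (by linarith)]; linarith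
    have hqa1 : qa ≤ 1 / 2 := hhalf H0 H1 hH0nn hH1nn
    have hqb1 : qb ≤ 1 / 2 := hhalf H1 H0 hH1nn hH0nn
    have hqa0 : 0 ≤ qa := le_max_left _ _
    have hqb0 : 0 ≤ qb := le_max_left _ _
    -- the mass identity
    have hmass : (1 - qa) * H0 + qb * H1 = (H0 + H1) / 2 ∧
        qa * H0 + (1 - qb) * H1 = (H0 + H1) / 2 := by
      rcases le_total H1 H0 with hle | hle
      · have e1 : qb = 0 := by
          rw [hqb]
          exact max_eq_left (div_nonpos_of_nonpos_of_nonneg (by linarith) (by linarith))
        have e2 : qa * H0 = (H0 - H1) / 2 := by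
          rw [hqa, max_eq_right (div_nonneg (by linarith) (by linarith))]
          rcases hH0nn.eq_or_lt with h | h
          · have : H1 = 0 := by linarith
            rw [← h, this]; simp
          · field_simp
        rw [e1]
        constructor <;> nlinarith
      · have e1 : qa = 0 := by
          rw [hqa]
          exact max_eq_left (div_nonpos_of_nonpos_of_nonneg (by linarith) (by linarith))
        have e2 : qb * H1 = (H1 - H0) / 2 := by
          rw [hqb, max_eq_right (div_nonneg (by linarith) (by linarith))]
          rcases hH1nn.eq_or_lt with h | h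
          · have : H0 = 0 := by linarith
            rw [← h, this]; simp
          · field_simp
        rw [e1]
        constructor <;> nlinarith
    have hnot : ∀ g ∈ s.powerset, a ∉ g := fun g hg h => ha (mem_powerset.1 hg h)
    refine ⟨fun g e => if a ∈ g then (if e = a then qb else q1 (g.erase a) e)
        else (if e = a then qa else q0 g e), ?_, ?_, ?_⟩
    · intro g e
      dsimp only
      split_ifs
      · exact ⟨hqb0, hqb1⟩
      · exact hq1b _ _
      · exact ⟨hqa0, hqa1⟩
      · exact hq0b _ _
    · intro φ
      rw [sum_powerset_insert ha, sum_powerset_insert ha, sum_powerset_insert ha]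
      have e0 : ∀ g ∈ s.powerset, h g * Ex (fun e => if a ∈ g then
            (if e = a then qb else q1 (g.erase a) e)
          else (if e = a then qa else q0 g e)) (insert a s) (fun J => φ (symmDiff g J))
          = (1 - qa) * (h g * Ex (q0 g) s (fun J => φ (symmDiff g J)))
            + qa * (h g * Ex (q0 g) s (fun J => φ (insert a (symmDiff g J)))) := by
        intro g hg
        have hag : a ∉ g := hnot g hg
        rw [Ex_insert _ ha]
        simp only [if_neg hag, if_true]
        have t1 : Ex (fun e => if e = a then qa else q0 g e) s (fun J => φ (symmDiff g J))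
            = Ex (q0 g) s (fun J => φ (symmDiff g J)) := by
          refine Ex_congr (fun e he => ?_) (fun J _ => rfl)
          rw [if_neg (ne_of_mem_of_not_mem he ha)]
        have t2 : Ex (fun e => if e = a then qa else q0 g e) s
              (fun J => φ (symmDiff g (insert a J)))
            = Ex (q0 g) s (fun J => φ (insert a (symmDiff g J))) := by
          refine Ex_congr (fun e he => ?_) (fun J hJ => ?_)
          · rw [if_neg (ne_of_mem_of_not_mem he ha)]
          · congr 1
            ext x
            simp only [mem_symmDiff, mem_insert]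
            by_cases hx : x = a
            · subst hx
              have : x ∉ J := fun h => ha (hJ h)
              simp [hag]
            · simp [hx]
        rw [t1, t2]
        ring
      have e1 : ∀ g ∈ s.powerset, h (insert a g) * Ex (fun e => if a ∈ insert a g then
            (if e = a then qb else q1 ((insert a g).erase a) e)
          else (if e = a then qa else q0 (insert a g) e)) (insert a s)
            (fun J => φ (symmDiff (insert a g) J))
          = (1 - qb) * (h (insert a g) * Ex (q1 g) s (fun J => φ (insert a (symmDiff g J))))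
            + qb * (h (insert a g) * Ex (q1 g) s (fun J => φ (symmDiff g J))) := by
        intro g hg
        have hag : a ∉ g := hnot g hg
        rw [Ex_insert _ ha]
        simp only [mem_insert_self, if_true]
        have t1 : Ex (fun e => if e = a then qb else q1 ((insert a g).erase a) e) s
              (fun J => φ (symmDiff (insert a g) J))
            = Ex (q1 g) s (fun J => φ (insert a (symmDiff g J))) := by
          refine Ex_congr (fun e he => ?_) (fun J hJ => ?_)
          · rw [if_neg (ne_of_mem_of_not_mem he ha), erase_insert hag]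
          · congr 1
            ext x
            simp only [mem_symmDiff, mem_insert]
            by_cases hx : x = a
            · subst hx
              have : x ∉ J := fun h => ha (hJ h)
              simp [this]
            · simp [hx]
        have t2 : Ex (fun e => if e = a then qb else q1 ((insert a g).erase a) e) s
              (fun J => φ (symmDiff (insert a g) (insert a J)))
            = Ex (q1 g) s (fun J => φ (symmDiff g J)) := by
          refine Ex_congr (fun e he => ?_) (fun J hJ => ?_)
          · rw [if_neg (ne_of_mem_of_not_mem he ha), erase_insert hag]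
          · congr 1
            ext x
            simp only [mem_symmDiff, mem_insert]
            by_cases hx : x = a
            · subst hx
              have : x ∉ J := fun h => ha (hJ h)
              simp [hag, this]
            · simp [hx]
        rw [t1, t2]
        ring
      rw [sum_congr rfl e0, sum_congr rfl e1, sum_add_distrib, sum_add_distrib, ← mul_sum,
        ← mul_sum, ← mul_sum, ← mul_sum]
      have f0 := hq0φ φ
      have f1 := hq0φ (fun G => φ (insert a G))
      have f2 := hq1φ φ
      have f3 := hq1φ (fun G => φ (insert a G))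
      rw [card_insert_of_notMem ha, pow_succ]
      set A := ∑ G ∈ s.powerset, φ G
      set B := ∑ G ∈ s.powerset, φ (insert a G)
      set X0 := ∑ g ∈ s.powerset, h g * Ex (q0 g) s (fun J => φ (symmDiff g J))
      set X1 := ∑ g ∈ s.powerset, h g * Ex (q0 g) s (fun J => φ (insert a (symmDiff g J)))
      set X2 := ∑ g ∈ s.powerset, h (insert a g) * Ex (q1 g) s (fun J => φ (symmDiff g J))
      set X3 := ∑ g ∈ s.powerset, h (insert a g)
        * Ex (q1 g) s (fun J => φ (insert a (symmDiff g J)))
      have : (2 : ℝ) ^ s.card * 2 * ((1 - qa) * X0 + qa * X1 + ((1 - qb) * X3 + qb * X2))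
          = 2 * (1 - qa) * (2 ^ s.card * X0) + 2 * qa * (2 ^ s.card * X1)
            + 2 * (1 - qb) * (2 ^ s.card * X3) + 2 * qb * (2 ^ s.card * X2) := by ring
      rw [this, ← f0, ← f1, ← f2, ← f3]
      have h1 : 2 * (1 - qa) * (H0 * A) + 2 * qa * (H0 * B) + 2 * (1 - qb) * (H1 * B)
          + 2 * qb * (H1 * A) = 2 * ((1 - qa) * H0 + qb * H1) * A
            + 2 * (qa * H0 + (1 - qb) * H1) * B := by ring
      rw [h1, hmass.1, hmass.2]
      ring
    · rw [sum_powerset_insert ha, sum_powerset_insert ha]
      have e0 : ∀ g ∈ s.powerset, √(h g) * Real.exp ((1 / 16) * ∑ e ∈ insert a s,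
          (if a ∈ g then (if e = a then qb else q1 (g.erase a) e)
            else (if e = a then qa else q0 g e)) ^ 2)
          = Real.exp ((1 / 16) * qa ^ 2) *
            (√(h g) * Real.exp ((1 / 16) * ∑ e ∈ s, (q0 g e) ^ 2)) := by
        intro g hg
        have hag : a ∉ g := hnot g hg
        rw [sum_insert ha]
        simp only [if_neg hag, if_true]
        rw [mul_add, Real.exp_add]
        have : ∑ e ∈ s, (if e = a then qa else q0 g e) ^ 2 = ∑ e ∈ s, (q0 g e) ^ 2 := by
          refine sum_congr rfl fun e he => ?_
          rw [if_neg (ne_of_mem_of_not_mem he ha)]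
        rw [this]
        ring
      have e1 : ∀ g ∈ s.powerset, √(h (insert a g)) * Real.exp ((1 / 16) * ∑ e ∈ insert a s,
          (if a ∈ insert a g then (if e = a then qb else q1 ((insert a g).erase a) e)
            else (if e = a then qa else q0 (insert a g) e)) ^ 2)
          = Real.exp ((1 / 16) * qb ^ 2) *
            (√(h (insert a g)) * Real.exp ((1 / 16) * ∑ e ∈ s, (q1 g e) ^ 2)) := by
        intro g hg
        have hag : a ∉ g := hnot g hg
        rw [sum_insert ha]
        simp only [mem_insert_self, if_true]
        rw [mul_add, Real.exp_add]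
        have : ∑ e ∈ s, (if e = a then qb else q1 ((insert a g).erase a) e) ^ 2
            = ∑ e ∈ s, (q1 g e) ^ 2 := by
          refine sum_congr rfl fun e he => ?_
          rw [if_neg (ne_of_mem_of_not_mem he ha), erase_insert hag]
        rw [this]
        ring
      rw [sum_congr rfl e0, sum_congr rfl e1, ← mul_sum, ← mul_sum, card_insert_of_notMem ha]
      have hP : (0 : ℝ) ≤ 2 ^ s.card := by positivity
      have key := scalar_ineq2 H0 H1 hH0nn hH1nn
      rw [← hqa, ← hqb] at key
      calc Real.exp ((1 / 16) * qa ^ 2) * ∑ g ∈ s.powerset,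
              √(h g) * Real.exp ((1 / 16) * ∑ e ∈ s, (q0 g e) ^ 2)
            + Real.exp ((1 / 16) * qb ^ 2) * ∑ g ∈ s.powerset,
              √(h (insert a g)) * Real.exp ((1 / 16) * ∑ e ∈ s, (q1 g e) ^ 2)
          ≤ Real.exp ((1 / 16) * qa ^ 2) * √(2 ^ s.card * H0)
            + Real.exp ((1 / 16) * qb ^ 2) * √(2 ^ s.card * H1) := by
            gcongr
        _ = √(2 ^ s.card) * (Real.exp ((1 / 16) * qa ^ 2) * √H0
              + Real.exp ((1 / 16) * qb ^ 2) * √H1) := by
            rw [Real.sqrt_mul hP, Real.sqrt_mul hP]; ring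
        _ ≤ √(2 ^ s.card) * √(2 * (H0 + H1)) := by gcongr
        _ = √(2 ^ (s.card + 1) * (H0 + H1)) := by
            rw [← Real.sqrt_mul hP]; congr 1; ring

end Pool.Agent.H297
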