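import Mathlib
import Pool.Agent.H297.Coupling2

set_option autoImplicit false

open Finset

namespace Pool.Agent.H297

variable {α : Type*} [DecidableEq α]

lemma sqrt_lower (x : ℝ) (hx : -1 ≤ x) : 1 + x / 2 - x ^ 2 / 2 ≤ √(1 + x) := by
  rcases le_or_gt (1 + x / 2 - x ^ 2 / 2) 0 with h | h
  · exact h.trans (Real.sqrt_nonneg _)
  · apply Real.le_sqrt_of_sq_le
    -- (1 + x/2 - x²/2)² ≤ 1 + x; note 1 + x/2 - x²/2 = (1+x)(2-x)/2
    have e : 1 + x / 2 - x ^ 2 / 2 = (1 + x) * (2 - x) / 2 := by ring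
    rw [e] at h ⊢
    have h1 : 0 ≤ 1 + x := by linarith
    have h2 : 0 < 2 - x := by
      by_contra hcon
      push Not at hcon
      have : (1 + x) * (2 - x) ≤ 0 := mul_nonpos_of_nonneg_of_nonpos h1 hcon
      linarith
    have h3 : (1 + x) * (2 - x) ^ 2 ≤ 4 := by
      nlinarith [sq_nonneg x, mul_nonneg (sq_nonneg x) (by linarith : (0:ℝ) ≤ 3 - x + 0),
        mul_nonneg (sq_nonneg x) h2.le]
    calc ((1 + x) * (2 - x) / 2) ^ 2 = (1 + x) * ((1 + x) * (2 - x) ^ 2) / 4 := by ring
      _ ≤ (1 + x) * 4 / 4 := by gcongr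
      _ = 1 + x := by ring

/-- **Half-density bound.** Let `T` be a property of subsets of `s` such that a product random
subset with probabilities `q ≤ 1/2` satisfies `T` with probability at most `C ∑ q²`. If `F` is a
family of subsets of `s` such that the agreement set `s \ (A ∆ B)` of any two members satisfies
`T`, then `|F| ≤ (1/2 - 1/(1024 C)) 2^|s|`. -/
theorem half_bound (s : Finset α) (T : Finset α → Prop) (C : ℝ) (hC : 1 ≤ C)
    (hT : ∀ q : α → ℝ, (∀ e, 0 ≤ q e) → (∀ e, q e ≤ 1 / 2) → ∀ φ : Finset α → ℝ,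
      (∀ J, J ⊆ s → φ J ≤ 1) → (∀ J, J ⊆ s → ¬ T J → φ J ≤ 0) →
      Ex q s φ ≤ C * ∑ e ∈ s, q e ^ 2)
    (F : Finset (Finset α)) (hF : ∀ A ∈ F, A ⊆ s)
    (hagree : ∀ A ∈ F, ∀ B ∈ F, T (s \ symmDiff A B)) :
    (F.card : ℝ) ≤ (1 / 2 - 1 / (1024 * C)) * 2 ^ s.card := by
  classical
  obtain ⟨P, hP⟩ : ∃ P : ℝ, P = 2 ^ s.card := ⟨_, rfl⟩
  have hP0 : 0 < P := by rw [hP]; positivity
  obtain ⟨a, ha⟩ : ∃ a : ℝ, a = (F.card : ℝ) / P := ⟨_, rfl⟩
  have haF : (F.card : ℝ) = a * P := by rw [ha]; field_simp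
  have ha0 : 0 ≤ a := by rw [ha]; positivity
  have hcard : ((s.powerset.card : ℕ) : ℝ) = P := by rw [card_powerset, hP]; push_cast; rfl
  have ha1 : a ≤ 1 := by
    rw [ha, div_le_one hP0, ← hcard]
    exact_mod_cast card_le_card (fun A hA => mem_powerset.2 (hF A hA))
  have hCpos : 0 < C := by linarith
  set lam : ℝ := 1 / (128 * C) with hlam
  have hlam0 : 0 < lam := by positivity
  have hlam1 : lam ≤ 1 / 128 := by
    rw [hlam]
    apply one_div_le_one_div_of_le (by norm_num)
    linarith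
  have hclam : 1 / (1024 * C) = lam / 8 := by rw [hlam]; field_simp; norm_num
  rw [haF, ← hP, hclam]
  apply mul_le_mul_of_nonneg_right _ hP0.le
  rcases lt_or_ge a (1 / 4) with hsmall | hbig
  · linarith
  have hapos : 0 < a := by linarith
  -- the weight
  set D : Finset α → Prop := fun g => s \ g ∈ F with hD
  set h : Finset α → ℝ := fun g => if D g then 1 + lam * (1 - a) / a else 1 - lam with hh
  have hmid : 0 ≤ lam * (1 - a) / a := by
    have : 0 ≤ 1 - a := by linarith
    positivity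
  have hh0 : ∀ g, 0 ≤ h g := by
    intro g; rw [hh]; dsimp only; split_ifs
    · linarith
    · linarith
  have hcardD : (((s.powerset.filter D).card : ℕ) : ℝ) = a * P := by
    rw [← haF]
    congr 1
    apply card_bij (fun g _ => s \ g)
    · intro g hg
      exact (mem_filter.1 hg).2
    · intro g hg g' hg' heq
      have h1 : g ⊆ s := mem_powerset.1 (mem_filter.1 hg).1
      have h2 : g' ⊆ s := mem_powerset.1 (mem_filter.1 hg').1
      have h3 : s \ (s \ g) = g := by rw [sdiff_sdiff_right_self]; exact inf_eq_right.2 h1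
      have h4 : s \ (s \ g') = g' := by rw [sdiff_sdiff_right_self]; exact inf_eq_right.2 h2
      rw [← h3, ← h4, heq]
    · intro A hA
      have h3 : s \ (s \ A) = A := by rw [sdiff_sdiff_right_self]; exact inf_eq_right.2 (hF A hA)
      refine ⟨s \ A, mem_filter.2 ⟨mem_powerset.2 sdiff_subset, ?_⟩, h3⟩
      rw [hD]; dsimp only; rw [h3]; exact hA
  have hcardDc : (((s.powerset.filter (fun g => ¬ D g)).card : ℕ) : ℝ) = (1 - a) * P := by
    have h1 := card_filter_add_card_filter_not (s := s.powerset) D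
    have h2 : (((s.powerset.filter D).card : ℕ) : ℝ)
      + (((s.powerset.filter (fun g => ¬ D g)).card : ℕ) : ℝ) = P := by
      rw [← hcard, ← h1]; push_cast; rfl
    linarith
  have sum_ite_D : ∀ x y : ℝ, ∑ g ∈ s.powerset, (if D g then x else y)
      = a * P * x + (1 - a) * P * y := by
    intro x y
    rw [sum_ite, sum_const, sum_const, nsmul_eq_mul, nsmul_eq_mul, hcardD, hcardDc]
  have hsumh : ∑ g ∈ s.powerset, h g = P := by
    rw [hh]; dsimp only
    rw [sum_ite_D]
    field_simp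
    ring
  obtain ⟨q, hqb, hqφ, hqe⟩ := coupling2 s h hh0
  rw [hsumh, ← hP] at hqe
  rw [Real.sqrt_mul_self hP0.le] at hqe
  -- second moment bound
  have hsqrt : P * (1 - 2 * lam ^ 2 * (1 - a)) ≤ ∑ g ∈ s.powerset, √(h g) := by
    have h1 : ∀ g ∈ s.powerset, 1 + (h g - 1) / 2 - (h g - 1) ^ 2 / 2 ≤ √(h g) := by
      intro g _
      have := sqrt_lower (h g - 1) (by linarith [hh0 g])
      rwa [show 1 + (h g - 1) = h g by ring] at this
    refine le_trans ?_ (sum_le_sum h1)
    have h2 : ∀ g ∈ s.powerset, 1 + (h g - 1) / 2 - (h g - 1) ^ 2 / 2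
      = if D g then 1 + (lam * (1 - a) / a) / 2 - (lam * (1 - a) / a) ^ 2 / 2
        else 1 + (-lam) / 2 - (-lam) ^ 2 / 2 := by
      intro g _
      rw [hh]; dsimp only
      split_ifs <;> ring
    rw [sum_congr rfl h2, sum_ite_D]
    have h3 : a * P * (1 + (lam * (1 - a) / a) / 2 - (lam * (1 - a) / a) ^ 2 / 2)
        + (1 - a) * P * (1 + (-lam) / 2 - (-lam) ^ 2 / 2)
        = P * (1 - lam ^ 2 * (1 - a) / (2 * a)) := by
      field_simp
      ring
    rw [h3]
    apply mul_le_mul_of_nonneg_left _ hP0.le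
    have h4 : lam ^ 2 * (1 - a) / (2 * a) ≤ 2 * lam ^ 2 * (1 - a) := by
      rw [div_le_iff₀ (by positivity)]
      have : 0 ≤ lam ^ 2 * (1 - a) := by
        have : 0 ≤ 1 - a := by linarith
        positivity
      nlinarith
    linarith
  have hE : ∑ g ∈ s.powerset, √(h g) * (∑ e ∈ s, (q g e) ^ 2) ≤ 32 * lam ^ 2 * (1 - a) * P := by
    have h1 : ∑ g ∈ s.powerset, (√(h g) + √(h g) * (∑ e ∈ s, (q g e) ^ 2) / 16) ≤ P := by
      refine le_trans (sum_le_sum fun g _ => ?_) hqe
      have h2 := Real.add_one_le_exp ((1 / 16) * ∑ e ∈ s, (q g e) ^ 2)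
      have h3 := Real.sqrt_nonneg (h g)
      nlinarith
    rw [sum_add_distrib, ← sum_div] at h1
    linarith
  have hE2 : ∑ g ∈ s.powerset, h g * (∑ e ∈ s, (q g e) ^ 2) ≤ 64 * lam ^ 2 * (1 - a) * P := by
    have h1 : ∀ g ∈ s.powerset, h g * (∑ e ∈ s, (q g e) ^ 2)
        ≤ 2 * (√(h g) * (∑ e ∈ s, (q g e) ^ 2)) := by
      intro g _
      have h2 : √(h g) ≤ 2 := by
        rw [Real.sqrt_le_left (by norm_num)]
        rw [hh]; dsimp only
        split_ifs
        · have : lam * (1 - a) / a ≤ 3 := by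
            rw [div_le_iff₀ hapos]
            nlinarith
          linarith
        · linarith
      have h3 : h g = √(h g) * √(h g) := (Real.mul_self_sqrt (hh0 g)).symm
      have h4 : 0 ≤ ∑ e ∈ s, (q g e) ^ 2 := sum_nonneg fun _ _ => sq_nonneg _
      have h5 : 0 ≤ √(h g) := Real.sqrt_nonneg _
      calc h g * (∑ e ∈ s, (q g e) ^ 2) = √(h g) * (√(h g) * (∑ e ∈ s, (q g e) ^ 2)) := by
            rw [← mul_assoc, ← h3]
        _ ≤ 2 * (√(h g) * (∑ e ∈ s, (q g e) ^ 2)) := by gcongr
    refine (sum_le_sum h1).trans ?_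
    rw [← mul_sum]
    linarith
  -- the main inequality
  have hmain := hqφ (fun G => if G ∈ F then (1 : ℝ) else 0)
  have hRsum : ∑ G ∈ s.powerset, (if G ∈ F then (1 : ℝ) else 0) = a * P := by
    rw [← sum_filter, sum_const, nsmul_eq_mul, mul_one, ← haF]
    congr 2
    ext A
    rw [mem_filter]
    exact ⟨fun h => h.2, fun h => ⟨mem_powerset.2 (hF A h), h⟩⟩
  rw [hRsum, hsumh, ← hP] at hmain
  have hmain2 : ∑ g ∈ s.powerset, h g * Ex (q g) s
      (fun J => if symmDiff g J ∈ F then (1 : ℝ) else 0) = a * P := by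
    have : P * (a * P) = P * ∑ g ∈ s.powerset, h g * Ex (q g) s
      (fun J => if symmDiff g J ∈ F then (1 : ℝ) else 0) := hmain
    exact (mul_left_cancel₀ hP0.ne' this).symm
  -- pointwise bound
  have hpt : ∀ g ∈ s.powerset, h g * Ex (q g) s
      (fun J => if symmDiff g J ∈ F then (1 : ℝ) else 0)
      ≤ (if D g then 0 else h g) + C * (h g * ∑ e ∈ s, (q g e) ^ 2) := by
    intro g hg
    have hgs : g ⊆ s := mem_powerset.1 hg
    have hq0 : ∀ e, 0 ≤ q g e := fun e => (hqb g e).1
    have hq1 : ∀ e, q g e ≤ 1 / 2 := fun e => (hqb g e).2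
    have hq1' : ∀ e ∈ s, q g e ≤ 1 := fun e _ => (hqb g e).2.trans (by norm_num)
    have hnn : 0 ≤ C * (h g * ∑ e ∈ s, (q g e) ^ 2) := by
      have : 0 ≤ ∑ e ∈ s, (q g e) ^ 2 := sum_nonneg fun _ _ => sq_nonneg _
      have := hh0 g
      positivity
    by_cases hDg : D g
    · rw [if_pos hDg, zero_add]
      have h1 := hT (q g) hq0 hq1 (fun J => if symmDiff g J ∈ F then (1 : ℝ) else 0)
        (by intro J _; split_ifs <;> norm_num)
        (by
          intro J hJ hTJ
          rw [if_neg]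
          intro hcon
          apply hTJ
          have h2 := hagree _ hDg _ hcon
          have h3 : s \ symmDiff (s \ g) (symmDiff g J) = J := by
            ext e
            simp only [mem_sdiff, mem_symmDiff]
            constructor
            · rintro ⟨hes, hnot⟩
              by_contra heJ
              apply hnot
              by_cases heg : e ∈ g
              · right; simp [heg, heJ]
              · left; simp [heg, heJ, hes]
            · intro heJ
              refine ⟨hJ heJ, ?_⟩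
              have := hJ heJ
              tauto
          rwa [h3] at h2)
      calc h g * Ex (q g) s (fun J => if symmDiff g J ∈ F then (1 : ℝ) else 0)
          ≤ h g * (C * ∑ e ∈ s, (q g e) ^ 2) := mul_le_mul_of_nonneg_left h1 (hh0 g)
        _ = C * (h g * ∑ e ∈ s, (q g e) ^ 2) := by ring
    · rw [if_neg hDg]
      have h1 : Ex (q g) s (fun J => if symmDiff g J ∈ F then (1 : ℝ) else 0) ≤ 1 := by
        have h3 : Ex (q g) s (fun J => if symmDiff g J ∈ F then (1 : ℝ) else 0)
            ≤ Ex (q g) s (fun _ => 1) :=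
          Ex_mono (fun e _ => hq0 e) hq1' fun J _ => by split_ifs <;> norm_num
        rwa [Ex_const] at h3
      have := hh0 g
      nlinarith
  have hfin : a * P ≤ (1 - a) * P * (1 - lam) + C * (64 * lam ^ 2 * (1 - a) * P) := by
    rw [← hmain2]
    refine (sum_le_sum hpt).trans ?_
    rw [sum_add_distrib, ← mul_sum]
    have h1 : ∑ g ∈ s.powerset, (if D g then 0 else h g) = (1 - a) * P * (1 - lam) := by
      have h2 : ∀ g ∈ s.powerset, (if D g then 0 else h g) = if D g then 0 else (1 - lam) := by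
        intro g _
        rw [hh]; dsimp only
        split_ifs <;> rfl
      rw [sum_congr rfl h2, sum_ite_D]
      ring
    rw [h1]
    gcongr
  -- C * 64 * lam² = lam / 2
  have hCl : C * (64 * lam ^ 2) = lam / 2 := by
    rw [hlam]; field_simp; norm_num
  have hfin2 : a ≤ (1 - a) * (1 - lam) + lam / 2 * (1 - a) := by
    have h1 : a * P ≤ ((1 - a) * (1 - lam) + lam / 2 * (1 - a)) * P := by
      calc a * P ≤ _ := hfin
        _ = ((1 - a) * (1 - lam) + C * (64 * lam ^ 2) * (1 - a)) * P := by ring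
        _ = _ := by rw [hCl]
    exact le_of_mul_le_mul_right h1 hP0
  nlinarith

end Pool.Agent.H297
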