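import Mathlib
import Pool.Agent.H297.Coupling

set_option autoImplicit false

open Finset

namespace Pool.Agent.H297

section esymm

variable {ι : Type*} [DecidableEq ι]

lemma pow_succ_lower (σ p : ℝ) (hσ : 0 ≤ σ) (hp : 0 ≤ p) (m : ℕ) :
    σ ^ (m + 1) + (m + 1) * p * σ ^ m ≤ (σ + p) ^ (m + 1) := by
  induction m with
  | zero => simp
  | succ m ih =>
    have h1 : (σ + p) * (σ ^ (m + 1) + (m + 1) * p * σ ^ m) ≤ (σ + p) * (σ + p) ^ (m + 1) :=
      mul_le_mul_of_nonneg_left ih (by positivity)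
    have h2 : (σ + p) * (σ ^ (m + 1) + (m + 1) * p * σ ^ m)
        = σ ^ (m + 2) + (m + 2) * p * σ ^ (m + 1) + (m + 1) * p ^ 2 * σ ^ m := by ring
    have h3 : 0 ≤ ((m : ℝ) + 1) * p ^ 2 * σ ^ m := by positivity
    have h4 : (σ + p) * (σ + p) ^ (m + 1) = (σ + p) ^ (m + 1 + 1) := by ring
    push_cast
    have h5 : σ ^ (m + 1 + 1) + ((m : ℝ) + 1 + 1) * p * σ ^ (m + 1)
        = σ ^ (m + 2) + (m + 2) * p * σ ^ (m + 1) := by ring
    rw [h5]
    linarith

lemma sum_powersetCard_prod_le (p : ι → ℝ) (hp : ∀ i, 0 ≤ p i) (T : Finset ι) :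
    ∀ m : ℕ, ∑ U ∈ T.powersetCard m, ∏ i ∈ U, p i ≤ (∑ i ∈ T, p i) ^ m / m.factorial := by
  induction T using Finset.induction_on with
  | empty =>
    intro m
    rcases m with _ | m
    · simp
    · rw [powersetCard_eq_empty.2 (by simp)]
      simp
  | insert x T hx ih =>
    intro m
    rcases m with _ | m
    · simp
    · rw [powersetCard_succ_insert hx]
      have hdisj : Disjoint (powersetCard (m + 1) T) ((powersetCard m T).image (insert x)) := by
        rw [disjoint_left]
        intro U hU hU'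
        obtain ⟨W, _, rfl⟩ := mem_image.1 hU'
        exact hx ((mem_powersetCard.1 hU).1 (mem_insert_self x W))
      have hinj : Set.InjOn (insert x) ((powersetCard m T : Finset (Finset ι)) : Set (Finset ι)) := by
        intro g hg g' hg' h
        have h1 : x ∉ g := fun h => hx ((mem_powersetCard.1 hg).1 h)
        have h2 : x ∉ g' := fun h => hx ((mem_powersetCard.1 hg').1 h)
        rw [← erase_insert h1, h, erase_insert h2]
      rw [sum_union hdisj, sum_image hinj, sum_insert hx]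
      have h1 : ∑ U ∈ powersetCard m T, ∏ i ∈ insert x U, p i
          = p x * ∑ U ∈ powersetCard m T, ∏ i ∈ U, p i := by
        rw [mul_sum]
        refine sum_congr rfl fun U hU => ?_
        exact prod_insert (fun h => hx ((mem_powersetCard.1 hU).1 h))
      rw [h1]
      set σ := ∑ i ∈ T, p i with hσ
      have hσ0 : 0 ≤ σ := sum_nonneg fun i _ => hp i
      have ih1 := ih (m + 1)
      have ih2 := ih m
      have hf : (0 : ℝ) < m.factorial := by exact_mod_cast m.factorial_pos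
      have hf1 : ((m + 1).factorial : ℝ) = (m + 1) * m.factorial := by
        rw [Nat.factorial_succ]; push_cast; ring
      have h2 : p x * ∑ U ∈ powersetCard m T, ∏ i ∈ U, p i ≤ p x * (σ ^ m / m.factorial) :=
        mul_le_mul_of_nonneg_left ih2 (hp x)
      have h3 := pow_succ_lower σ (p x) hσ0 (hp x) m
      have h4 : σ ^ (m + 1) / ((m + 1).factorial : ℝ) + p x * (σ ^ m / m.factorial)
          ≤ (p x + σ) ^ (m + 1) / ((m + 1).factorial : ℝ) := by
        rw [hf1, le_div_iff₀ (by positivity)]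
        have : (σ ^ (m + 1) / ((m + 1) * (m.factorial : ℝ)) + p x * (σ ^ m / m.factorial))
            * ((m + 1) * m.factorial) = σ ^ (m + 1) + (m + 1) * p x * σ ^ m := by
          field_simp
        rw [this, add_comm (p x) σ]
        exact h3
      linarith

end esymm

variable {V : Type*} [DecidableEq V]

/-- The number of members of `J` that contain `v` and lie inside `U`. -/
def dg (J : Finset (Finset V)) (U : Finset V) (v : V) : ℕ :=
  (J.filter (fun e => v ∈ e ∧ e ⊆ U)).card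

/-- `J` (a set of edges) has a nonempty vertex set inside which all degrees are at least `k`. -/
def Dense (k : ℕ) (J : Finset (Finset V)) : Prop :=
  ∃ U : Finset V, U.Nonempty ∧ ∀ v ∈ U, k ≤ dg J U v

lemma dg_mono {J J' : Finset (Finset V)} (h : J ⊆ J') (U : Finset V) (v : V) :
    dg J U v ≤ dg J' U v := card_le_card (filter_subset_filter _ h)

lemma Dense.mono {k : ℕ} {J J' : Finset (Finset V)} (h : J ⊆ J') (hJ : Dense k J) :
    Dense k J' := by
  obtain ⟨U, hU, hd⟩ := hJ
  exact ⟨U, hU, fun v hv => (hd v hv).trans (dg_mono h U v)⟩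

lemma card_edges_le {J : Finset (Finset V)} (hJ : ∀ e ∈ J, e.card = 2) (U : Finset V) (v : V) :
    (J.filter (fun e => v ∈ e ∧ e ⊆ U)).card ≤ U.card := by
  have : J.filter (fun e => v ∈ e ∧ e ⊆ U) ⊆ U.image (fun u => ({v, u} : Finset V)) := by
    intro e he
    obtain ⟨heJ, hve, heU⟩ := mem_filter.1 he
    obtain ⟨a, b, hab, rfl⟩ := card_eq_two.1 (hJ e heJ)
    rcases mem_insert.1 hve with h | h
    · subst h
      exact mem_image.2 ⟨b, heU (by simp), rfl⟩
    · rw [mem_singleton] at h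
      subst h
      exact mem_image.2 ⟨a, heU (by simp), by rw [pair_comm]⟩
  exact (card_le_card this).trans card_image_le

/-- Exchange of products. -/
lemma prod_dg (z : V → ℝ) (J : Finset (Finset V)) (U : Finset V) :
    ∏ v ∈ U, z v ^ dg J U v = ∏ e ∈ J, (if e ⊆ U then ∏ v ∈ e, z v else 1) := by
  have h1 : ∀ v ∈ U, z v ^ dg J U v = ∏ e ∈ J, (if v ∈ e ∧ e ⊆ U then z v else 1) := by
    intro v _
    unfold dg
    rw [prod_ite, prod_const, prod_const_one, mul_one]
  rw [prod_congr rfl h1, prod_comm]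
  refine prod_congr rfl fun e _ => ?_
  by_cases he : e ⊆ U
  · rw [if_pos he]
    have : ∀ v ∈ U, (if v ∈ e ∧ e ⊆ U then z v else 1) = (if v ∈ e then z v else 1) := by
      intro v _
      simp [he]
    rw [prod_congr rfl this, ← prod_filter]
    congr 1
    ext v
    rw [mem_filter]
    exact ⟨fun h => h.2, fun h => ⟨he h, h⟩⟩
  · rw [if_neg he]
    apply prod_eq_one
    intro v _
    rw [if_neg (fun h => he h.2)]

/-- The probability that all degrees inside a fixed `U` are at least `k`. -/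
lemma prob_AU (k : ℕ) (hk : 4 ≤ k) (s : Finset (Finset V)) (hs : ∀ e ∈ s, e.card = 2)
    (q : Finset V → ℝ) (hq0 : ∀ e ∈ s, 0 ≤ q e) (hq1 : ∀ e ∈ s, q e ≤ 1)
    (p : V → ℝ) (hp : ∀ v, 0 < p v) (U : Finset V) (hU : U.Nonempty)
    (hpU : ∑ v ∈ U, p v ≤ 1)
    (hB : ∀ v, ∑ e ∈ s.filter (fun e => v ∈ e), (q e) ^ 2 ≤ ((k : ℝ) / 64) ^ 2 * p v)
    (φ : Finset (Finset V) → ℝ)
    (hφ : ∀ J, J ⊆ s → φ J ≤ if (∀ v ∈ U, k ≤ dg J U v) then 1 else 0) :
    Ex q s φ ≤ ((Real.exp 1 / 8) ^ k) ^ U.card * (U.card : ℝ) ^ U.card * ∏ v ∈ U, p v := by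
  set m : ℝ := (U.card : ℝ) with hm
  have hm0 : 0 < m := by rw [hm]; exact_mod_cast hU.card_pos
  set h : V → ℝ := fun v => max 1 (1 / (m * p v)) with hh
  have hh1 : ∀ v, 1 ≤ h v := fun v => le_max_left _ _
  set t : V → ℝ := fun v => √(√(h v)) with ht
  have ht1 : ∀ v, 1 ≤ t v := by
    intro v
    rw [ht]
    exact Real.one_le_sqrt.2 (Real.one_le_sqrt.2 (hh1 v))
  have ht2 : ∀ v, t v ^ 2 = √(h v) := fun v => Real.sq_sqrt (Real.sqrt_nonneg _)
  have ht4 : ∀ v, t v ^ 4 = h v := by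
    intro v
    have : t v ^ 4 = (t v ^ 2) ^ 2 := by ring
    rw [this, ht2, Real.sq_sqrt (by linarith [hh1 v])]
  set z : V → ℝ := fun v => 8 * t v with hz
  have hz1 : ∀ v, 1 ≤ z v := by intro v; rw [hz]; dsimp only; linarith [ht1 v]
  have hz0 : ∀ v, 0 < z v := fun v => lt_of_lt_of_le one_pos (hz1 v)
  -- lower bound for z^k
  have hzk : ∀ v, (z v ^ k)⁻¹ ≤ (1 / 8) ^ k * (m * p v) := by
    intro v
    have h1 : h v ≤ t v ^ k := by
      rw [← ht4 v]
      exact pow_le_pow_right₀ (ht1 v) hk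
    have h2 : 1 / (m * p v) ≤ t v ^ k := (le_max_right _ _).trans h1
    have hmp : 0 < m * p v := mul_pos hm0 (hp v)
    have h3 : (t v ^ k)⁻¹ ≤ m * p v := by
      rw [inv_le_comm₀ (by have := ht1 v; positivity) hmp, ← one_div]
      exact h2
    have h4 : (z v ^ k)⁻¹ = (1 / 8) ^ k * (t v ^ k)⁻¹ := by
      rw [hz]; dsimp only
      rw [mul_pow, mul_inv, one_div, inv_pow]
    rw [h4]
    exact mul_le_mul_of_nonneg_left h3 (by positivity)
  -- pointwise bound
  have hpt : ∀ J, J ⊆ s → φ J ≤ (∏ v ∈ U, (z v ^ k)⁻¹) *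
      ∏ e ∈ J, (if e ⊆ U then ∏ v ∈ e, z v else 1) := by
    intro J hJ
    refine (hφ J hJ).trans ?_
    rw [← prod_dg, ← prod_mul_distrib]
    split_ifs with hc
    · have : ∀ v ∈ U, (1 : ℝ) ≤ (z v ^ k)⁻¹ * z v ^ dg J U v := by
        intro v hv
        rw [inv_mul_eq_div, le_div_iff₀ (pow_pos (hz0 v) k), one_mul]
        exact pow_le_pow_right₀ (hz1 v) (hc v hv)
      calc (1 : ℝ) = ∏ v ∈ U, (1 : ℝ) := by rw [prod_const_one]
        _ ≤ _ := prod_le_prod (fun _ _ => zero_le_one) this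
    · exact prod_nonneg fun v _ => by have := hz0 v; positivity
  have hEx : Ex q s φ ≤ (∏ v ∈ U, (z v ^ k)⁻¹) *
      ∏ e ∈ s, (1 - q e + q e * (if e ⊆ U then ∏ v ∈ e, z v else 1)) := by
    rw [← Ex_prod, ← Ex_mul_left]
    exact Ex_mono hq0 hq1 hpt
  -- the exponential bound
  have hc1 : ∀ e, (1 : ℝ) ≤ (if e ⊆ U then ∏ v ∈ e, z v else 1) := by
    intro e
    split_ifs
    · calc (1 : ℝ) = ∏ v ∈ e, (1 : ℝ) := by rw [prod_const_one]
        _ ≤ _ := prod_le_prod (fun _ _ => zero_le_one) (fun v _ => hz1 v)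
    · exact le_refl _
  have hprodexp : ∏ e ∈ s, (1 - q e + q e * (if e ⊆ U then ∏ v ∈ e, z v else 1))
      ≤ Real.exp (∑ e ∈ s.filter (fun e => e ⊆ U), q e * ∏ v ∈ e, z v) := by
    rw [sum_filter, Real.exp_sum]
    refine prod_le_prod (fun e he => ?_) (fun e he => ?_)
    · have := hc1 e
      nlinarith [hq0 e he, hq1 e he, mul_le_mul_of_nonneg_left this (hq0 e he)]
    · by_cases heU : e ⊆ U
      · rw [if_pos heU, if_pos heU]
        have h1 := Real.add_one_le_exp (q e * ∏ v ∈ e, z v)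
        have h2 := hq0 e he
        linarith
      · rw [if_neg heU, if_neg heU, Real.exp_zero]
        linarith
  have hexpo : ∑ e ∈ s.filter (fun e => e ⊆ U), q e * ∏ v ∈ e, z v ≤ k * m := by
    -- AM-GM on each edge
    have h1 : ∀ e ∈ s.filter (fun e => e ⊆ U), q e * ∏ v ∈ e, z v
        ≤ q e * (32 * ∑ v ∈ e, √(h v)) := by
      intro e he
      have hes := (mem_filter.1 he).1
      refine mul_le_mul_of_nonneg_left ?_ (hq0 e hes)
      obtain ⟨a, b, hab, rfl⟩ := card_eq_two.1 (hs e hes)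
      rw [prod_pair hab, sum_pair hab, ← ht2 a, ← ht2 b, hz]
      dsimp only
      nlinarith [sq_nonneg (t a - t b)]
    refine (sum_le_sum h1).trans ?_
    -- swap
    have h2 : ∑ e ∈ s.filter (fun e => e ⊆ U), q e * (32 * ∑ v ∈ e, √(h v))
        = 32 * ∑ v ∈ U, √(h v) * ∑ e ∈ s.filter (fun e => v ∈ e ∧ e ⊆ U), q e := by
      have h3 : ∀ e ∈ s.filter (fun e => e ⊆ U), q e * (32 * ∑ v ∈ e, √(h v))
          = ∑ v ∈ U, if v ∈ e then 32 * (√(h v) * q e) else 0 := by
        intro e he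
        have heU : e ⊆ U := (mem_filter.1 he).2
        rw [← sum_filter]
        have : U.filter (fun v => v ∈ e) = e := by
          ext v
          rw [mem_filter]
          exact ⟨fun h => h.2, fun h => ⟨heU h, h⟩⟩
        rw [this, mul_sum, mul_sum]
        refine sum_congr rfl fun v _ => ?_
        ring
      rw [sum_congr rfl h3, sum_comm, mul_sum]
      refine sum_congr rfl fun v _ => ?_
      rw [← sum_filter, filter_filter, mul_sum, mul_sum]
      refine sum_congr ?_ fun _ _ => rfl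
      ext e
      simp only [mem_filter]
      tauto
    rw [h2]
    have h4 : ∀ v ∈ U, √(h v) * ∑ e ∈ s.filter (fun e => v ∈ e ∧ e ⊆ U), q e
        ≤ ((k : ℝ) / 64) * (1 + m * p v) := by
      intro v _
      set T := s.filter (fun e => v ∈ e ∧ e ⊆ U) with hT
      have hmp : 0 < m * p v := mul_pos hm0 (hp v)
      have hcardT : (T.card : ℝ) ≤ m := by
        rw [hm]; exact_mod_cast card_edges_le hs U v
      have hsq : (∑ e ∈ T, q e) ^ 2 ≤ m * (((k : ℝ) / 64) ^ 2 * p v) := by
        have hcs := sq_sum_le_card_mul_sum_sq (s := T) (f := q)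
        have hsub : ∑ e ∈ T, q e ^ 2 ≤ ∑ e ∈ s.filter (fun e => v ∈ e), (q e) ^ 2 := by
          refine sum_le_sum_of_subset_of_nonneg ?_ (fun _ _ _ => sq_nonneg _)
          intro e he
          rw [hT, mem_filter] at he
          exact mem_filter.2 ⟨he.1, he.2.1⟩
        have hBv := hB v
        have h5 : 0 ≤ ∑ e ∈ T, q e ^ 2 := sum_nonneg fun _ _ => sq_nonneg _
        calc (∑ e ∈ T, q e) ^ 2 ≤ T.card * ∑ e ∈ T, q e ^ 2 := hcs
          _ ≤ m * ∑ e ∈ T, q e ^ 2 := by gcongr
          _ ≤ m * (((k : ℝ) / 64) ^ 2 * p v) := by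
            gcongr
            exact hsub.trans hBv
      have hsum0 : 0 ≤ ∑ e ∈ T, q e := sum_nonneg fun e he => hq0 e (mem_filter.1 he).1
      have hhx : h v * (m * p v) ≤ (1 + m * p v) ^ 2 := by
        rw [hh]; dsimp only
        rcases le_total 1 (1 / (m * p v)) with hc | hc
        · rw [max_eq_right hc, one_div, inv_mul_cancel₀ hmp.ne']
          nlinarith
        · rw [max_eq_left hc]
          nlinarith
      have : (√(h v) * ∑ e ∈ T, q e) ^ 2 ≤ (((k : ℝ) / 64) * (1 + m * p v)) ^ 2 := by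
        rw [mul_pow, Real.sq_sqrt (by linarith [hh1 v]), mul_pow]
        calc h v * (∑ e ∈ T, q e) ^ 2 ≤ h v * (m * (((k : ℝ) / 64) ^ 2 * p v)) :=
              mul_le_mul_of_nonneg_left hsq (by linarith [hh1 v])
          _ = ((k : ℝ) / 64) ^ 2 * (h v * (m * p v)) := by ring
          _ ≤ ((k : ℝ) / 64) ^ 2 * (1 + m * p v) ^ 2 :=
              mul_le_mul_of_nonneg_left hhx (by positivity)
      exact abs_le_of_sq_le_sq' this (by positivity) |>.2
    calc 32 * ∑ v ∈ U, √(h v) * ∑ e ∈ s.filter (fun e => v ∈ e ∧ e ⊆ U), q e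
        ≤ 32 * ∑ v ∈ U, ((k : ℝ) / 64) * (1 + m * p v) := by
          exact mul_le_mul_of_nonneg_left (sum_le_sum fun v hv => h4 v hv) (by norm_num)
      _ = 32 * (((k : ℝ) / 64) * (m + m * ∑ v ∈ U, p v)) := by
          rw [← mul_sum, sum_add_distrib, ← mul_sum, sum_const, nsmul_eq_mul, mul_one]
      _ ≤ 32 * (((k : ℝ) / 64) * (m + m * 1)) := by gcongr
      _ = k * m := by ring
  calc Ex q s φ ≤ _ := hEx
    _ ≤ (∏ v ∈ U, ((1 / 8) ^ k * (m * p v))) * Real.exp (k * m) := by
        refine mul_le_mul ?_ (hprodexp.trans (Real.exp_le_exp.2 hexpo)) ?_ ?_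
        · exact prod_le_prod (fun v _ => by have := hz0 v; positivity) (fun v _ => hzk v)
        · exact prod_nonneg fun e he => by
            have := hc1 e
            nlinarith [hq0 e he, hq1 e he, mul_le_mul_of_nonneg_left this (hq0 e he)]
        · exact prod_nonneg fun v _ => by have := hp v; positivity
    _ = ((Real.exp 1 / 8) ^ k) ^ U.card * m ^ U.card * ∏ v ∈ U, p v := by
        rw [prod_mul_distrib, prod_mul_distrib, prod_const, prod_const]
        have : Real.exp (k * m) = ((Real.exp 1) ^ k) ^ U.card := by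
          rw [← Real.exp_nat_mul, ← Real.exp_nat_mul, hm]
          congr 1
          ring
        have e8 : (Real.exp 1 / 8) ^ k = (1 / 8) ^ k * (Real.exp 1) ^ k := by
          rw [← mul_pow]; congr 1; ring
        rw [this, e8, mul_pow]
        ring

end Pool.Agent.H297
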