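import Mathlib
import Pool.Agent.H297.Coupling2
import Pool.Agent.H297.Degen

set_option autoImplicit false

open Finset

namespace Pool.Agent.H297

section general

variable {α : Type*} [DecidableEq α]

lemma Ex_subset (q : α → ℝ) (s : Finset α) : ∀ T : Finset α, T ⊆ s →
    Ex q s (fun J => if T ⊆ J then 1 else 0) = ∏ e ∈ T, q e := by
  induction s using Finset.induction_on with
  | empty =>
    intro T hT
    rw [subset_empty.1 hT]
    simp [Ex]
  | insert a s ha ih =>
    intro T hT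
    rw [Ex_insert q ha]
    by_cases haT : a ∈ T
    · have hT' : T.erase a ⊆ s := by
        intro x hx
        rcases mem_insert.1 (hT (mem_of_mem_erase hx)) with h | h
        · exact absurd h (ne_of_mem_erase hx)
        · exact h
      have e0 : Ex q s (fun J => if T ⊆ J then (1 : ℝ) else 0) = 0 := by
        rw [Ex_congr (q' := q) (φ' := fun _ => (0 : ℝ)) (fun _ _ => rfl) (fun J hJ => ?_), Ex_const]
        rw [if_neg]
        intro h
        exact ha (hJ (h haT))
      have e1 : Ex q s (fun J => if T ⊆ insert a J then (1 : ℝ) else 0)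
          = Ex q s (fun J => if T.erase a ⊆ J then (1 : ℝ) else 0) := by
        refine Ex_congr (fun _ _ => rfl) (fun J hJ => ?_)
        have : T ⊆ insert a J ↔ T.erase a ⊆ J := by
          rw [subset_insert_iff]
        simp only [this]
      rw [e0, e1, ih _ hT', ← mul_prod_erase T q haT]
      ring
    · have hT' : T ⊆ s := by
        intro x hx
        rcases mem_insert.1 (hT hx) with h | h
        · exact absurd (h ▸ hx) haT
        · exact h
      have e1 : Ex q s (fun J => if T ⊆ insert a J then (1 : ℝ) else 0)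
          = Ex q s (fun J => if T ⊆ J then (1 : ℝ) else 0) := by
        refine Ex_congr (fun _ _ => rfl) (fun J hJ => ?_)
        have : T ⊆ insert a J ↔ T ⊆ J := by
          rw [subset_insert_iff, erase_eq_of_notMem haT]
        simp only [this]
      rw [e1, ih _ hT']
      ring

/-- AM–GM with equal weights. -/
lemma prod_le_mean_pow {ι : Type*} (T : Finset ι) (f : ι → ℝ) (hf : ∀ i ∈ T, 0 ≤ f i)
    (hT : 0 < T.card) : ∏ i ∈ T, f i ≤ ((∑ i ∈ T, f i) / T.card) ^ T.card := by
  have hc : (0 : ℝ) < T.card := by exact_mod_cast hT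
  have h := Real.geom_mean_le_arith_mean_weighted T (fun _ => 1 / (T.card : ℝ)) f
    (fun _ _ => by positivity) (by rw [sum_const, nsmul_eq_mul]; field_simp) hf
  have h1 : (∏ i ∈ T, f i ^ (1 / (T.card : ℝ))) ^ T.card = ∏ i ∈ T, f i := by
    rw [← prod_pow]
    refine prod_congr rfl fun i hi => ?_
    rw [← Real.rpow_natCast, ← Real.rpow_mul (hf i hi), one_div, inv_mul_cancel₀ hc.ne',
      Real.rpow_one]
  rw [← h1]
  have h2 : ∑ i ∈ T, 1 / (T.card : ℝ) * f i = (∑ i ∈ T, f i) / T.card := by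
    rw [← mul_sum]; ring
  rw [h2] at h
  exact pow_le_pow_left₀ (prod_nonneg fun i hi => Real.rpow_nonneg (hf i hi) _) h _

end general

variable {V : Type*} [DecidableEq V]

/-- The pairs of `U` that contain `v`: there are `|U| - 1` of them. -/
lemma card_pairs_through (U : Finset V) (v : V) (hv : v ∈ U) :
    ((powersetCard 2 U).filter (fun e => v ∈ e)).card = U.card - 1 := by
  have : (powersetCard 2 U).filter (fun e => v ∈ e)
      = (U.erase v).image (fun u => ({v, u} : Finset V)) := by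
    ext e
    rw [mem_filter, mem_powersetCard, mem_image]
    constructor
    · rintro ⟨⟨heU, hec⟩, hve⟩
      obtain ⟨a, b, hab, rfl⟩ := card_eq_two.1 hec
      rcases mem_insert.1 hve with h | h
      · subst h
        exact ⟨b, mem_erase.2 ⟨hab.symm, heU (by simp)⟩, rfl⟩
      · rw [mem_singleton] at h
        subst h
        exact ⟨a, mem_erase.2 ⟨hab, heU (by simp)⟩, by rw [pair_comm]⟩
    · rintro ⟨u, hu, rfl⟩
      obtain ⟨hne, huU⟩ := mem_erase.1 hu
      refine ⟨⟨?_, card_pair hne.symm⟩, by simp⟩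
      intro x hx
      simp only [mem_insert, mem_singleton] at hx
      rcases hx with rfl | rfl
      · exact hv
      · exact huU
  rw [this, card_image_of_injOn, card_erase_of_mem hv]
  intro u hu w hw h
  rw [mem_coe, mem_erase] at hu hw
  simp only at h
  have h1 : u ∈ ({v, w} : Finset V) := by rw [← h]; simp
  simp only [mem_insert, mem_singleton] at h1
  rcases h1 with h1 | h1
  · exact absurd h1 hu.1
  · exact h1

/-- The product of `q` over all pairs inside a `t`-set. -/
lemma prod_pairs_le (t : ℕ) (ht : 5 ≤ t) (s : Finset (Finset V)) (q : Finset V → ℝ)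
    (hq0 : ∀ e, 0 ≤ q e) (hq1 : ∀ e, q e ≤ 1 / 2)
    (U : Finset V) (hU : U.card = t) (hUs : powersetCard 2 U ⊆ s) :
    ∏ e ∈ powersetCard 2 U, q e
      ≤ (1 / 2) ^ (t.choose 2) *
        ∏ v ∈ U, (4 / ((t : ℝ) - 1) * ∑ e ∈ s.filter (fun e => v ∈ e), (q e) ^ 2) := by
  set y : V → ℝ := fun v => 4 / ((t : ℝ) - 1) * ∑ e ∈ s.filter (fun e => v ∈ e), (q e) ^ 2 with hy
  have htR : (5 : ℝ) ≤ t := by exact_mod_cast ht
  have ht1 : (0 : ℝ) < (t : ℝ) - 1 := by linarith
  have hy0 : ∀ v, 0 ≤ y v := by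
    intro v
    rw [hy]
    have : 0 ≤ ∑ e ∈ s.filter (fun e => v ∈ e), (q e) ^ 2 := sum_nonneg fun _ _ => sq_nonneg _
    positivity
  -- the bound at one vertex
  have hv : ∀ v ∈ U, ∏ e ∈ (powersetCard 2 U).filter (fun e => v ∈ e), (q e) ^ 2
      ≤ (1 / 4) ^ (t - 1) * y v ^ 4 := by
    intro v hvU
    set T := (powersetCard 2 U).filter (fun e => v ∈ e) with hT
    have hTc : T.card = t - 1 := by rw [hT, card_pairs_through U v hvU, hU]
    have hTcR : (T.card : ℝ) = (t : ℝ) - 1 := by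
      rw [hTc, Nat.cast_sub (by omega)]; simp
    have hquarter : ∀ e, (q e) ^ 2 ≤ 1 / 4 := fun e => by nlinarith [hq0 e, hq1 e]
    rcases le_or_gt 1 (y v) with h | h
    · calc ∏ e ∈ T, (q e) ^ 2 ≤ ∏ e ∈ T, (1 / 4 : ℝ) :=
            prod_le_prod (fun _ _ => sq_nonneg _) (fun e _ => hquarter e)
        _ = (1 / 4) ^ (t - 1) := by rw [prod_const, hTc]
        _ ≤ (1 / 4) ^ (t - 1) * y v ^ 4 := by
            have : (1 : ℝ) ≤ y v ^ 4 := one_le_pow₀ h
            have h4 : (0 : ℝ) ≤ (1 / 4) ^ (t - 1) := by positivity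
            nlinarith
    · have h1 := prod_le_mean_pow T (fun e => (q e) ^ 2) (fun _ _ => sq_nonneg _)
        (by rw [hTc]; omega)
      have hsub : ∑ e ∈ T, (q e) ^ 2 ≤ ∑ e ∈ s.filter (fun e => v ∈ e), (q e) ^ 2 := by
        refine sum_le_sum_of_subset_of_nonneg ?_ (fun _ _ _ => sq_nonneg _)
        intro e he
        rw [hT, mem_filter] at he
        exact mem_filter.2 ⟨hUs he.1, he.2⟩
      have h2 : (∑ e ∈ T, (q e) ^ 2) / T.card ≤ (1 / 4) * y v := by
        rw [hTcR, hy]
        dsimp only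
        rw [div_le_iff₀ ht1]
        have : 1 / 4 * (4 / ((t : ℝ) - 1) * ∑ e ∈ s.filter (fun e => v ∈ e), (q e) ^ 2)
            * ((t : ℝ) - 1) = ∑ e ∈ s.filter (fun e => v ∈ e), (q e) ^ 2 := by
          field_simp
        rw [this]
        exact hsub
      have h0 : 0 ≤ (∑ e ∈ T, (q e) ^ 2) / T.card :=
        div_nonneg (sum_nonneg fun _ _ => sq_nonneg _) (Nat.cast_nonneg _)
      calc ∏ e ∈ T, (q e) ^ 2 ≤ ((∑ e ∈ T, (q e) ^ 2) / T.card) ^ T.card := h1
        _ ≤ ((1 / 4) * y v) ^ T.card := pow_le_pow_left₀ h0 h2 _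
        _ = (1 / 4) ^ (t - 1) * y v ^ (t - 1) := by rw [hTc, mul_pow]
        _ ≤ (1 / 4) ^ (t - 1) * y v ^ 4 := by
            have : y v ^ (t - 1) ≤ y v ^ 4 := pow_le_pow_of_le_one (hy0 v) h.le (by omega)
            gcongr
  -- the fourth power
  have hfourth : (∏ e ∈ powersetCard 2 U, q e) ^ 4
      = ∏ v ∈ U, ∏ e ∈ (powersetCard 2 U).filter (fun e => v ∈ e), (q e) ^ 2 := by
    have h1 : ∀ v ∈ U, ∏ e ∈ (powersetCard 2 U).filter (fun e => v ∈ e), (q e) ^ 2
        = ∏ e ∈ powersetCard 2 U, if v ∈ e then (q e) ^ 2 else 1 := fun v _ => by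
      rw [prod_filter]
    rw [prod_congr rfl h1, prod_comm, ← prod_pow]
    refine prod_congr rfl fun e he => ?_
    rw [← prod_filter, prod_const]
    have h2 : U.filter (fun v => v ∈ e) = e := by
      ext v
      rw [mem_filter]
      exact ⟨fun h => h.2, fun h => ⟨(mem_powersetCard.1 he).1 h, h⟩⟩
    rw [h2, (mem_powersetCard.1 he).2]
    ring
  have hchoose : 4 * t.choose 2 = 2 * (t * (t - 1)) := by
    have := Nat.choose_two_right t
    have h2 : 2 ∣ t * (t - 1) := (Nat.even_mul_pred_self t).two_dvd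
    omega
  have hfin : (∏ e ∈ powersetCard 2 U, q e) ^ 4
      ≤ ((1 / 2) ^ (t.choose 2) * ∏ v ∈ U, y v) ^ 4 := by
    rw [hfourth, mul_pow, ← pow_mul, mul_comm (t.choose 2) 4, hchoose, pow_mul, ← prod_pow]
    calc ∏ v ∈ U, ∏ e ∈ (powersetCard 2 U).filter (fun e => v ∈ e), (q e) ^ 2
        ≤ ∏ v ∈ U, ((1 / 4) ^ (t - 1) * y v ^ 4) :=
          prod_le_prod (fun _ _ => prod_nonneg fun _ _ => sq_nonneg _) hv
      _ = ((1 / 2) ^ 2) ^ (t * (t - 1)) * ∏ v ∈ U, y v ^ 4 := by
          rw [prod_mul_distrib, prod_const, hU, ← pow_mul, mul_comm (t - 1) t]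
          norm_num
  exact le_of_pow_le_pow_left₀ (by norm_num)
    (mul_nonneg (by positivity) (prod_nonneg fun v _ => hy0 v)) hfin

/-- The probability that a random edge set with `∑ q² ≤ 12 t²` contains a `K_t`. -/
lemma prob_clique [Fintype V] (t : ℕ) (ht : 5 ≤ t) (q : Finset V → ℝ)
    (hq0 : ∀ e, 0 ≤ q e) (hq1 : ∀ e, q e ≤ 1 / 2)
    (hS : ∑ e ∈ powersetCard 2 (univ : Finset V), (q e) ^ 2 ≤ 12 * (t : ℝ) ^ 2) (P : Finset (Finset V) → ℝ)
    (hP : ∀ J, P J ≤ ∑ U ∈ powersetCard t (univ : Finset V),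
      if powersetCard 2 U ⊆ J then 1 else 0) :
    Ex q (powersetCard 2 (univ : Finset V)) P ≤ (1 / 2) ^ (t.choose 2) * (326.5 : ℝ) ^ t := by
  set s := powersetCard 2 (univ : Finset V) with hs
  have htR : (5 : ℝ) ≤ t := by exact_mod_cast ht
  have ht1 : (0 : ℝ) < (t : ℝ) - 1 := by linarith
  have hq1' : ∀ e ∈ s, q e ≤ 1 := fun e _ => (hq1 e).trans (by norm_num)
  have h1 : Ex q s P ≤ ∑ U ∈ powersetCard t (univ : Finset V), ∏ e ∈ powersetCard 2 U, q e := by
    refine (Ex_mono (fun e _ => hq0 e) hq1' (fun J _ => hP J)).trans ?_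
    rw [Ex_sum]
    refine le_of_eq (sum_congr rfl fun U _ => ?_)
    exact Ex_subset q s _ (powersetCard_mono (subset_univ U))
  set y : V → ℝ := fun v => 4 / ((t : ℝ) - 1) * ∑ e ∈ s.filter (fun e => v ∈ e), (q e) ^ 2 with hy
  have hy0 : ∀ v, 0 ≤ y v := by
    intro v
    rw [hy]
    have : 0 ≤ ∑ e ∈ s.filter (fun e => v ∈ e), (q e) ^ 2 := sum_nonneg fun _ _ => sq_nonneg _
    positivity
  have h2 : ∑ U ∈ powersetCard t (univ : Finset V), ∏ e ∈ powersetCard 2 U, q e
      ≤ (1 / 2) ^ (t.choose 2) * ∑ U ∈ powersetCard t (univ : Finset V), ∏ v ∈ U, y v := by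
    rw [mul_sum]
    refine sum_le_sum fun U hU => ?_
    exact prod_pairs_le t ht s q hq0 hq1 U (mem_powersetCard.1 hU).2
      (powersetCard_mono (subset_univ U))
  have h3 := sum_powersetCard_prod_le y hy0 univ t
  have hysum : ∑ v, y v ≤ 120 * t := by
    have e1 : ∑ v, y v = 4 / ((t : ℝ) - 1) * (2 * ∑ e ∈ s, (q e) ^ 2) := by
      rw [hy]
      dsimp only
      rw [← mul_sum]
      congr 1
      have : ∀ v : V, ∑ e ∈ s.filter (fun e => v ∈ e), (q e) ^ 2
          = ∑ e ∈ s, if v ∈ e then (q e) ^ 2 else 0 := fun v => by rw [sum_filter]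
      rw [sum_congr rfl (fun v _ => this v), sum_comm, mul_sum]
      refine sum_congr rfl fun e he => ?_
      rw [← sum_filter, sum_const]
      have h2 : (univ.filter (fun v => v ∈ e)) = e := by ext v; simp
      rw [h2, (mem_powersetCard.1 he).2]
      simp
    rw [e1]
    have e2 : 4 / ((t : ℝ) - 1) * (2 * ∑ e ∈ s, (q e) ^ 2)
        ≤ 4 / ((t : ℝ) - 1) * (2 * (12 * (t : ℝ) ^ 2)) := by gcongr
    refine e2.trans ?_
    rw [div_mul_eq_mul_div, div_le_iff₀ ht1]
    nlinarith
  have hf : (0 : ℝ) < t.factorial := by exact_mod_cast t.factorial_pos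
  have h4 : (∑ v, y v) ^ t / (t.factorial : ℝ) ≤ (326.5 : ℝ) ^ t := by
    have h5 : (t : ℝ) ^ t / (t.factorial : ℝ) ≤ Real.exp t :=
      Real.pow_div_factorial_le_exp t (Nat.cast_nonneg t) t
    have h6 : (∑ v, y v) ^ t ≤ (120 * (t : ℝ)) ^ t :=
      pow_le_pow_left₀ (sum_nonneg fun v _ => hy0 v) hysum t
    have he1 : Real.exp 1 < 2.7182818286 := Real.exp_one_lt_d9
    calc (∑ v, y v) ^ t / (t.factorial : ℝ) ≤ (120 * (t : ℝ)) ^ t / (t.factorial : ℝ) := by gcongr
      _ = 120 ^ t * ((t : ℝ) ^ t / (t.factorial : ℝ)) := by rw [mul_pow]; ring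
      _ ≤ 120 ^ t * Real.exp t := by gcongr
      _ = (120 * Real.exp 1) ^ t := by
          rw [mul_pow, ← Real.exp_nat_mul, mul_one]
      _ ≤ (326.5 : ℝ) ^ t := by
          gcongr
          nlinarith
  calc Ex q s P ≤ _ := h1
    _ ≤ _ := h2
    _ ≤ (1 / 2) ^ (t.choose 2) * (326.5 : ℝ) ^ t := by
        gcongr
        exact h3.trans h4

open Classical in
/-- **Families agreeing on a `K_t`.** -/
theorem agreeing_bound [Fintype V] (t : ℕ) (ht : 5 ≤ t) (F : Finset (Finset (Finset V)))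
    (hF : ∀ A ∈ F, A ⊆ powersetCard 2 (univ : Finset V))
    (hint : ∀ A ∈ F, ∀ B ∈ F, ∃ U : Finset V, U.card = t ∧
      Disjoint (powersetCard 2 U) (symmDiff A B)) :
    (F.card : ℝ) ≤ 327 ^ t * 2 ^ ((Fintype.card V).choose 2) / 2 ^ (t.choose 2) := by
  set s : Finset (Finset V) := powersetCard 2 (univ : Finset V) with hs
  set N : ℕ := s.card with hN
  have hNc : N = (Fintype.card V).choose 2 := by
    rw [hN, hs, card_powersetCard, card_univ]
  rw [← hNc]
  rcases F.eq_empty_or_nonempty with hFe | hFne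
  · rw [hFe, card_empty, Nat.cast_zero]
    positivity
  set h : Finset (Finset V) → ℝ := fun g => if s \ g ∈ F ∧ g ⊆ s then 1 else 0 with hh
  have hh0 : ∀ g, 0 ≤ h g := by
    intro g; rw [hh]; dsimp only; split_ifs <;> norm_num
  obtain ⟨a, ha⟩ : ∃ a : ℝ, a = (F.card : ℝ) := ⟨_, rfl⟩
  have ha0 : 0 < a := by rw [ha]; exact_mod_cast hFne.card_pos
  have hhsum : ∑ g ∈ s.powerset, h g = a := by
    rw [hh, ha]
    dsimp only
    rw [← sum_filter, sum_const, nsmul_eq_mul, mul_one]
    congr 1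
    apply card_bij (fun g _ => s \ g)
    · intro g hg
      exact ((mem_filter.1 hg).2).1
    · intro g hg g' hg' heq
      have h1 : g ⊆ s := ((mem_filter.1 hg).2).2
      have h2 : g' ⊆ s := ((mem_filter.1 hg').2).2
      have h3 : s \ (s \ g) = g := by rw [sdiff_sdiff_right_self]; exact inf_eq_right.2 h1
      have h4 : s \ (s \ g') = g' := by rw [sdiff_sdiff_right_self]; exact inf_eq_right.2 h2
      rw [← h3, ← h4, heq]
    · intro A hA
      have h3 : s \ (s \ A) = A := by rw [sdiff_sdiff_right_self]; exact inf_eq_right.2 (hF A hA)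
      refine ⟨s \ A, mem_filter.2 ⟨mem_powerset.2 sdiff_subset, ?_, sdiff_subset⟩, h3⟩
      rw [h3]; exact hA
  obtain ⟨q, hqb, hqφ, hqe⟩ := coupling2 s h hh0
  have htR : (5 : ℝ) ≤ t := by exact_mod_cast ht
  set C : ℕ := t.choose 2 with hC
  set β : ℝ := (1 / 2) ^ C * (326.5 : ℝ) ^ t with hβ
  set S0 : ℝ := 12 * (t : ℝ) ^ 2 with hS0
  set η : ℝ := Real.exp (-((1 / 16) * S0)) with hη
  have hmain := hqφ (fun G => if G ∈ F then (1 : ℝ) else 0)
  have hRsum : ∑ G ∈ s.powerset, (if G ∈ F then (1 : ℝ) else 0) = a := by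
    rw [← sum_filter, sum_const, nsmul_eq_mul, mul_one, ha]
    congr 2
    ext A
    rw [mem_filter]
    exact ⟨fun h => h.2, fun h => ⟨mem_powerset.2 (hF A h), h⟩⟩
  rw [hRsum, hhsum] at hmain
  have hterm : ∀ g ∈ s.powerset, h g * Ex (q g) s
        (fun J => if (symmDiff g J) ∈ F then (1 : ℝ) else 0)
      ≤ h g * β + η * (√(h g) * Real.exp ((1 / 16) * ∑ e ∈ s, (q g e) ^ 2)) := by
    intro g hg
    have hβ0 : 0 ≤ β := by positivity
    have hη0 : 0 ≤ η := (Real.exp_pos _).le
    by_cases hc : s \ g ∈ F ∧ g ⊆ s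
    · have hhg : h g = 1 := by rw [hh]; dsimp only; rw [if_pos hc]
      rw [hhg, Real.sqrt_one, one_mul, one_mul, one_mul]
      have hq0 : ∀ e, 0 ≤ q g e := fun e => (hqb g e).1
      have hq1 : ∀ e, q g e ≤ 1 / 2 := fun e => (hqb g e).2
      have hq1' : ∀ e ∈ s, q g e ≤ 1 := fun e _ => (hqb g e).2.trans (by norm_num)
      rcases le_or_gt (∑ e ∈ s, (q g e) ^ 2) S0 with hle | hgt
      · have h1 : Ex (q g) s (fun J => if (symmDiff g J) ∈ F then (1 : ℝ) else 0)
            ≤ Ex (q g) s (fun J => if J ⊆ s ∧ (symmDiff g J) ∈ F then (1 : ℝ) else 0) := by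
          refine Ex_mono (fun e _ => hq0 e) hq1' fun J hJ => ?_
          simp [hJ]
        have h2 := prob_clique t ht (q g) hq0 hq1 hle
          (fun J => if J ⊆ s ∧ (symmDiff g J) ∈ F then (1 : ℝ) else 0) (by
            intro J
            by_cases hJc : J ⊆ s ∧ symmDiff g J ∈ F
            · rw [if_pos hJc]
              obtain ⟨U, hU, hdisj⟩ := hint _ hc.1 _ hJc.2
              have hUJ : powersetCard 2 U ⊆ J := by
                intro e he
                have hes : e ∈ s := powersetCard_mono (subset_univ U) he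
                have hnd : e ∉ symmDiff (s \ g) (symmDiff g J) :=
                  fun hcon => (disjoint_left.1 hdisj) he hcon
                simp only [mem_symmDiff, mem_sdiff] at hnd
                by_contra heJ
                apply hnd
                by_cases heg : e ∈ g
                · right; simp [heg, heJ]
                · left; simp [heg, heJ, hes]
              have hnn : ∀ W ∈ powersetCard t (univ : Finset V),
                  (0 : ℝ) ≤ if powersetCard 2 W ⊆ J then 1 else 0 :=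
                fun W _ => by split_ifs <;> norm_num
              refine le_trans ?_ (single_le_sum hnn
                (mem_powersetCard.2 ⟨subset_univ U, hU⟩))
              rw [if_pos hUJ]
            · rw [if_neg hJc]
              exact sum_nonneg fun W _ => by split_ifs <;> norm_num)
        have h3 : 0 ≤ η * Real.exp ((1 / 16) * ∑ e ∈ s, (q g e) ^ 2) := by positivity
        calc Ex (q g) s (fun J => if (symmDiff g J) ∈ F then (1 : ℝ) else 0) ≤ _ := h1
          _ ≤ β := h2
          _ ≤ _ := by linarith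
      · have h1 : Ex (q g) s (fun J => if (symmDiff g J) ∈ F then (1 : ℝ) else 0) ≤ 1 := by
          have h3 : Ex (q g) s (fun J => if (symmDiff g J) ∈ F then (1 : ℝ) else 0)
              ≤ Ex (q g) s (fun _ => 1) :=
            Ex_mono (fun e _ => hq0 e) hq1' fun J _ => by split_ifs <;> norm_num
          rwa [Ex_const] at h3
        have h2 : 1 ≤ η * Real.exp ((1 / 16) * ∑ e ∈ s, (q g e) ^ 2) := by
          rw [hη, ← Real.exp_add]
          apply Real.one_le_exp
          linarith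
        linarith
    · have hhg : h g = 0 := by rw [hh]; dsimp only; rw [if_neg hc]
      rw [hhg, Real.sqrt_zero]
      simp
  have hsum : ∑ g ∈ s.powerset, h g * Ex (q g) s
        (fun J => if (symmDiff g J) ∈ F then (1 : ℝ) else 0)
      ≤ a * β + η * √(2 ^ N * a) := by
    refine (sum_le_sum hterm).trans ?_
    rw [sum_add_distrib, ← sum_mul, hhsum, ← mul_sum]
    rw [hhsum] at hqe
    have hη0 : 0 ≤ η := (Real.exp_pos _).le
    gcongr
  have hP : (0 : ℝ) < 2 ^ N := by positivity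
  have hineq : a * a ≤ 2 ^ N * (a * β + η * √(2 ^ N * a)) := by
    rw [hmain]; gcongr
  rw [← ha]
  -- u = √(a / 2^N)
  set u : ℝ := √(a / 2 ^ N) with hu
  have hu0 : 0 < u := Real.sqrt_pos.2 (by positivity)
  have hu2 : u ^ 2 = a / 2 ^ N := Real.sq_sqrt (by positivity)
  have hau : a = 2 ^ N * u ^ 2 := by rw [hu2]; field_simp
  have hsq : √(2 ^ N * a) = 2 ^ N * u := by
    rw [hau]
    have : (2 : ℝ) ^ N * (2 ^ N * u ^ 2) = (2 ^ N * u) ^ 2 := by ring
    rw [this, Real.sqrt_sq (by positivity)]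
  rw [hsq, hau] at hineq
  have hcube : u ^ 3 ≤ u * β + η := by
    have h1 : ((2 : ℝ) ^ N) ^ 2 * u * u ^ 3 ≤ ((2 : ℝ) ^ N) ^ 2 * u * (u * β + η) := by
      calc ((2 : ℝ) ^ N) ^ 2 * u * u ^ 3 = 2 ^ N * u ^ 2 * (2 ^ N * u ^ 2) := by ring
        _ ≤ _ := hineq
        _ = ((2 : ℝ) ^ N) ^ 2 * u * (u * β + η) := by ring
    exact le_of_mul_le_mul_left h1 (by positivity)
  -- either u² ≤ 2^{-C} or the error term is negligible
  set γ : ℝ := (1 / 2) ^ C with hγ
  have hγ0 : 0 < γ := by positivity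
  have hgoal : u ^ 2 ≤ 327 ^ t * γ := by
    rcases le_or_gt (u ^ 2) γ with hle | hgt
    · have : (1 : ℝ) ≤ 327 ^ t := one_le_pow₀ (by norm_num)
      nlinarith
    · -- η ≤ u * γ
      have hη3 : η ≤ γ ^ 2 := by
        -- γ² = 2^{-t(t-1)} ≥ exp(-0.75 t²)
        have hC2 : 2 * C = t * (t - 1) := by
          have := Nat.choose_two_right t
          have h2 : 2 ∣ t * (t - 1) := (Nat.even_mul_pred_self t).two_dvd
          omega
        have hγ2 : γ ^ 2 = Real.exp (-(Real.log 2 * ((t * (t - 1) : ℕ) : ℝ))) := by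
          have hexp : Real.exp (Real.log 2 * ((t * (t - 1) : ℕ) : ℝ)) = 2 ^ (t * (t - 1)) := by
            rw [mul_comm, Real.exp_nat_mul, Real.exp_log (by norm_num)]
          rw [hγ, ← pow_mul, mul_comm C 2, hC2, Real.exp_neg, hexp, one_div, inv_pow]
        rw [hγ2, hη]
        apply Real.exp_le_exp.2
        rw [hS0]
        have h1 : ((t * (t - 1) : ℕ) : ℝ) ≤ (t : ℝ) ^ 2 := by
          have : t * (t - 1) ≤ t ^ 2 := by rw [sq]; exact Nat.mul_le_mul_left t (Nat.sub_le t 1)
          exact_mod_cast this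
        have h2 : Real.log 2 ≤ 0.75 := by
          have := Real.log_two_lt_d9; linarith
        have h3 : 0 ≤ Real.log 2 := Real.log_nonneg (by norm_num)
        have h4 : Real.log 2 * ((t * (t - 1) : ℕ) : ℝ) ≤ 0.75 * (t : ℝ) ^ 2 := by
          gcongr
        linarith
      have hγ1 : γ ≤ 1 := pow_le_one₀ (by norm_num) (by norm_num)
      have huγ : γ ≤ u := by
        nlinarith [hγ0, hu0]
      have h5 : u * u ^ 2 ≤ u * (β + γ) := by
        calc u * u ^ 2 = u ^ 3 := by ring
          _ ≤ u * β + η := hcube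
          _ ≤ u * β + γ ^ 2 := by linarith
          _ ≤ u * β + u * γ := by nlinarith
          _ = u * (β + γ) := by ring
      have h6 : u ^ 2 ≤ β + γ := le_of_mul_le_mul_left h5 hu0
      have h7 : (326.5 : ℝ) ^ t + 1 ≤ 327 ^ t := by
        have h8 : (326.5 : ℝ) ^ t + t * 0.5 * (326.5 : ℝ) ^ (t - 1) ≤ 327 ^ t := by
          obtain ⟨m, rfl⟩ : ∃ m, t = m + 1 := ⟨t - 1, by omega⟩
          have := pow_succ_lower (326.5 : ℝ) 0.5 (by norm_num) (by norm_num) m
          have e : (326.5 : ℝ) + 0.5 = 327 := by norm_num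
          rw [e] at this
          push_cast
          simpa using this
        have h9 : (1 : ℝ) ≤ (326.5 : ℝ) ^ (t - 1) := one_le_pow₀ (by norm_num)
        nlinarith
      calc u ^ 2 ≤ β + γ := h6
        _ = ((326.5 : ℝ) ^ t + 1) * γ := by rw [hβ]; ring
        _ ≤ 327 ^ t * γ := by gcongr
  calc a = 2 ^ N * u ^ 2 := hau
    _ ≤ 2 ^ N * (327 ^ t * γ) := by gcongr
    _ = 327 ^ t * 2 ^ N / 2 ^ C := by
        rw [hγ, one_div, inv_pow]; ring

end Pool.Agent.H297
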