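import Mathlib
import Pool.Agent.H297.KtMain
import Pool.Agent.H297.HalfMain

set_option autoImplicit false

open Finset

namespace Pool.Agent.H297

set_option linter.unusedSectionVars false

variable {V : Type*} [DecidableEq V] [Fintype V]

/-- Squared Frobenius norm. -/
noncomputable def fro (A : Matrix V V ℝ) : ℝ := ∑ u, ∑ v, (A u v) ^ 2

lemma fro_nonneg (A : Matrix V V ℝ) : 0 ≤ fro A :=
  sum_nonneg fun _ _ => sum_nonneg fun _ _ => sq_nonneg _

lemma fro_mul (A B : Matrix V V ℝ) : fro (A * B) ≤ fro A * fro B := by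
  unfold fro
  have h1 : ∀ u v, ((A * B) u v) ^ 2 ≤ (∑ w, (A u w) ^ 2) * (∑ w, (B w v) ^ 2) := by
    intro u v
    rw [Matrix.mul_apply]
    exact sum_mul_sq_le_sq_mul_sq univ (fun w => A u w) (fun w => B w v)
  calc ∑ u, ∑ v, ((A * B) u v) ^ 2 ≤ ∑ u, ∑ v, (∑ w, (A u w) ^ 2) * (∑ w, (B w v) ^ 2) :=
        sum_le_sum fun u _ => sum_le_sum fun v _ => h1 u v
    _ = (∑ u, ∑ w, (A u w) ^ 2) * (∑ v, ∑ w, (B w v) ^ 2) := by
        rw [sum_mul]
        refine sum_congr rfl fun u _ => ?_
        rw [mul_sum]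
    _ = _ := by
        congr 1
        rw [sum_comm]

lemma fro_pow (A : Matrix V V ℝ) (k : ℕ) : fro (A ^ (k + 1)) ≤ fro A ^ (k + 1) := by
  induction k with
  | zero => simp
  | succ k ih =>
    rw [pow_succ]
    calc fro (A ^ (k + 1) * A) ≤ fro (A ^ (k + 1)) * fro A := fro_mul _ _
      _ ≤ fro A ^ (k + 1) * fro A := by
          gcongr
          exact fro_nonneg A
      _ = fro A ^ (k + 2) := by ring

lemma trace_mul_sq (A B : Matrix V V ℝ) : (∑ u, (A * B) u u) ^ 2 ≤ fro A * fro B := by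
  have h1 : ∑ u, (A * B) u u = ∑ p : V × V, A p.1 p.2 * B p.2 p.1 := by
    rw [Fintype.sum_prod_type]
    refine sum_congr rfl fun u _ => ?_
    rw [Matrix.mul_apply]
  rw [h1]
  refine (sum_mul_sq_le_sq_mul_sq univ (fun p : V × V => A p.1 p.2)
    (fun p : V × V => B p.2 p.1)).trans ?_
  have e1 : ∑ p : V × V, (A p.1 p.2) ^ 2 = fro A := by
    rw [Fintype.sum_prod_type]; rfl
  have e2 : ∑ p : V × V, (B p.2 p.1) ^ 2 = fro B := by
    rw [Fintype.sum_prod_type]
    unfold fro
    rw [sum_comm]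
  rw [e1, e2]

lemma trace_pow_le (A : Matrix V V ℝ) (k : ℕ) :
    ∑ u, (A ^ (k + 2)) u u ≤ (√(fro A)) ^ (k + 2) := by
  have h0 : 0 ≤ (√(fro A)) ^ (k + 2) := by positivity
  have h1 : (∑ u, (A ^ (k + 2)) u u) ^ 2 ≤ ((√(fro A)) ^ (k + 2)) ^ 2 := by
    have e : A ^ (k + 2) = A * A ^ (k + 1) := by rw [← pow_succ']
    rw [e]
    refine (trace_mul_sq A (A ^ (k + 1))).trans ?_
    calc fro A * fro (A ^ (k + 1)) ≤ fro A * fro A ^ (k + 1) :=
          mul_le_mul_of_nonneg_left (fro_pow A k) (fro_nonneg A)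
      _ = fro A ^ (k + 2) := by ring
      _ = ((√(fro A)) ^ (k + 2)) ^ 2 := by
          rw [← pow_mul, mul_comm (k + 2) 2, pow_mul, Real.sq_sqrt (fro_nonneg A)]
  exact (le_abs_self _).trans (abs_le_of_sq_le_sq h1 h0)

/-- The weighted adjacency matrix of edge weights. -/
noncomputable def wm (q : Sym2 V → ℝ) : Matrix V V ℝ := fun u v => if u = v then 0 else q s(u, v)

lemma wm_nonneg (q : Sym2 V → ℝ) (hq : ∀ e, 0 ≤ q e) (u v : V) : 0 ≤ wm q u v := by
  unfold wm
  split_ifs
  · exact le_rfl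
  · exact hq _

lemma wm_pow_nonneg (q : Sym2 V → ℝ) (hq : ∀ e, 0 ≤ q e) (k : ℕ) (u v : V) :
    0 ≤ (wm q ^ k) u v := by
  induction k generalizing u v with
  | zero =>
    rw [pow_zero, Matrix.one_apply]
    split_ifs <;> norm_num
  | succ k ih =>
    rw [pow_succ', Matrix.mul_apply]
    exact sum_nonneg fun w _ => mul_nonneg (wm_nonneg q hq _ _) (ih _ _)

/-- Sum over all walks of length `k` in the complete graph of the product of the weights. -/
lemma sum_walks_le (q : Sym2 V → ℝ) (hq : ∀ e, 0 ≤ q e) (k : ℕ) (u v : V) :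
    ∑ p ∈ (⊤ : SimpleGraph V).finsetWalkLength k u v, (p.edges.map q).prod ≤ (wm q ^ k) u v := by
  induction k generalizing u v with
  | zero =>
    rw [pow_zero, Matrix.one_apply]
    by_cases h : u = v
    · subst h
      simp [SimpleGraph.finsetWalkLength]
    · simp [SimpleGraph.finsetWalkLength, h]
  | succ k ih =>
    rw [pow_succ', Matrix.mul_apply, SimpleGraph.finsetWalkLength]
    have hnn : ∀ (w w' : V) (p : (⊤ : SimpleGraph V).Walk w w'), 0 ≤ (p.edges.map q).prod := by
      intro w w' p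
      apply List.prod_nonneg
      intro x hx
      obtain ⟨e, _, rfl⟩ := List.mem_map.1 hx
      exact hq e
    have e : ∀ (w : V) (hw : (⊤ : SimpleGraph V).Adj u w) (p : (⊤ : SimpleGraph V).Walk w v),
        ((SimpleGraph.Walk.cons hw p).edges.map q).prod = wm q u w * (p.edges.map q).prod := by
      intro w hw p
      rw [SimpleGraph.Walk.edges_cons, List.map_cons, List.prod_cons]
      unfold wm
      rw [if_neg hw.ne]
    rw [sum_biUnion]
    · calc _ ≤ ∑ w : (⊤ : SimpleGraph V).neighborSet u, wm q u w * (wm q ^ k) w v := by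
            refine sum_le_sum fun w _ => ?_
            rw [sum_map]
            calc _ = ∑ p ∈ (⊤ : SimpleGraph V).finsetWalkLength k w v,
                  wm q u w * (p.edges.map q).prod :=
                  sum_congr rfl fun p _ => e w w.property p
              _ = wm q u w * ∑ p ∈ (⊤ : SimpleGraph V).finsetWalkLength k w v,
                  (p.edges.map q).prod := by rw [mul_sum]
              _ ≤ _ := mul_le_mul_of_nonneg_left (ih _ _) (wm_nonneg q hq _ _)
        _ = ∑ w ∈ ((⊤ : SimpleGraph V).neighborSet u).toFinset, wm q u w * (wm q ^ k) w v :=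
            Finset.sum_set_coe (s := (⊤ : SimpleGraph V).neighborSet u)
              (f := fun w => wm q u w * (wm q ^ k) w v)
        _ ≤ _ := sum_le_sum_of_subset_of_nonneg (subset_univ _) fun w _ _ =>
            mul_nonneg (wm_nonneg q hq _ _) (wm_pow_nonneg q hq k _ _)
    · intro w _ w' _ hne
      rw [Function.onFun, disjoint_left]
      intro p hp hp'
      obtain ⟨p1, _, h1⟩ := mem_map.1 hp
      obtain ⟨p2, _, h2⟩ := mem_map.1 hp'
      apply hne
      have h3 : ∀ (w w' : V) (hw : (⊤ : SimpleGraph V).Adj u w) (hw' : (⊤ : SimpleGraph V).Adj u w')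
          (p1 : (⊤ : SimpleGraph V).Walk w v) (p2 : (⊤ : SimpleGraph V).Walk w' v),
          SimpleGraph.Walk.cons hw p1 = SimpleGraph.Walk.cons hw' p2 → w = w' := by
        intro w w' hw hw' p1 p2 h
        injection h
      exact Subtype.ext (h3 w w' w.property w'.property p1 p2 (h1.trans h2.symm))

/-- The edge pairs of the complete graph. -/
noncomputable def allE (V : Type*) [DecidableEq V] [Fintype V] : Finset (Sym2 V) :=
  (⊤ : SimpleGraph V).edgeFinset

lemma fro_wm (q : Sym2 V → ℝ) : fro (wm q) ≤ 2 * ∑ e ∈ allE V, q e ^ 2 := by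
  have h1 : fro (wm q) = ∑ p ∈ (univ : Finset (V × V)).filter (fun p => p.1 ≠ p.2),
      q s(p.1, p.2) ^ 2 := by
    unfold fro wm
    rw [sum_filter, Fintype.sum_prod_type]
    refine sum_congr rfl fun u _ => sum_congr rfl fun v _ => ?_
    by_cases h : u = v
    · simp [h]
    · simp [h]
  rw [h1, mul_sum]
  have hmaps : ∀ p ∈ (univ : Finset (V × V)).filter (fun p => p.1 ≠ p.2),
      s(p.1, p.2) ∈ allE V := by
    intro p hp
    unfold allE
    rw [SimpleGraph.mem_edgeFinset, SimpleGraph.mem_edgeSet]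
    exact (mem_filter.1 hp).2
  rw [← sum_fiberwise_of_maps_to hmaps]
  refine sum_le_sum fun e _ => ?_
  have h2 : ∀ p ∈ ((univ : Finset (V × V)).filter (fun p => p.1 ≠ p.2)).filter
      (fun p => s(p.1, p.2) = e), q s(p.1, p.2) ^ 2 = q e ^ 2 := by
    intro p hp
    rw [(mem_filter.1 hp).2]
  rw [sum_congr rfl h2, sum_const, nsmul_eq_mul]
  apply mul_le_mul_of_nonneg_right _ (sq_nonneg _)
  have h3 : (((univ : Finset (V × V)).filter (fun p => p.1 ≠ p.2)).filter
      (fun p => s(p.1, p.2) = e)).card ≤ 2 := by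
    induction e using Sym2.ind with
    | _ a b =>
      refine (card_le_card (t := {(a, b), (b, a)}) ?_).trans card_le_two
      intro p hp
      have := (mem_filter.1 hp).2
      rw [Sym2.eq_iff] at this
      rw [mem_insert, mem_singleton]
      rcases this with h | h
      · left; exact Prod.ext h.1 h.2
      · right; exact Prod.ext h.1 h.2
  exact_mod_cast h3

/-- `J` contains (the edge set of) a cycle. -/
def HasCyc (J : Finset (Sym2 V)) : Prop :=
  ∃ (v : V) (c : (⊤ : SimpleGraph V).Walk v v), c.IsCycle ∧ ∀ e ∈ c.edges, e ∈ J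

lemma cyc_length_le {v : V} (c : (⊤ : SimpleGraph V).Walk v v) (hc : c.IsCycle) :
    c.length ≤ Fintype.card V := by
  have h1 := hc.support_nodup
  have h2 := h1.length_le_card
  have h3 : c.support.tail.length = c.length := by
    rw [List.length_tail, SimpleGraph.Walk.length_support]
    omega
  omega

/-- A product random graph with edge probabilities `q ≤ 1/2` contains a cycle with probability at
most `8 ∑ q²`. -/
lemma prob_cycle (q : Sym2 V → ℝ) (hq0 : ∀ e, 0 ≤ q e) (hq1 : ∀ e, q e ≤ 1 / 2)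
    (φ : Finset (Sym2 V) → ℝ) (hφ1 : ∀ J, J ⊆ allE V → φ J ≤ 1)
    (hφ0 : ∀ J, J ⊆ allE V → ¬ HasCyc J → φ J ≤ 0) :
    Ex q (allE V) φ ≤ 8 * ∑ e ∈ allE V, q e ^ 2 := by
  classical
  set S : ℝ := ∑ e ∈ allE V, q e ^ 2 with hS
  have hq1' : ∀ e ∈ allE V, q e ≤ 1 := fun e _ => (hq1 e).trans (by norm_num)
  have hS0 : 0 ≤ S := sum_nonneg fun _ _ => sq_nonneg _
  rcases lt_or_ge (1 / 8) S with hbig | hsmall
  · have h1 : Ex q (allE V) φ ≤ Ex q (allE V) (fun _ => 1) :=
      Ex_mono (fun e _ => hq0 e) hq1' hφ1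
    rw [Ex_const] at h1
    linarith
  set n : ℕ := Fintype.card V with hn
  -- union bound
  set W : ℕ → (v : V) → Finset ((⊤ : SimpleGraph V).Walk v v) := fun k v =>
    ((⊤ : SimpleGraph V).finsetWalkLength k v v).filter (fun c => c.IsCycle) with hW
  have hub : ∀ J, J ⊆ allE V → φ J ≤ ∑ k ∈ Icc 3 n, ∑ v, ∑ c ∈ W k v,
      (if c.edges.toFinset ⊆ J then (1 : ℝ) else 0) := by
    intro J hJ
    have hnn : ∀ k v, ∀ c ∈ W k v, (0 : ℝ) ≤ if c.edges.toFinset ⊆ J then 1 else 0 :=
      fun k v c _ => by split_ifs <;> norm_num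
    by_cases hc : HasCyc J
    · refine (hφ1 J hJ).trans ?_
      obtain ⟨v, c, hcyc, hed⟩ := hc
      have hk : c.length ∈ Icc 3 n :=
        mem_Icc.2 ⟨hcyc.three_le_length, cyc_length_le c hcyc⟩
      have hcW : c ∈ W c.length v :=
        mem_filter.2 ⟨SimpleGraph.mem_finsetWalkLength_iff.2 rfl, hcyc⟩
      calc (1 : ℝ) = if c.edges.toFinset ⊆ J then (1 : ℝ) else 0 := by
            rw [if_pos]
            intro e he
            exact hed e (List.mem_toFinset.1 he)
        _ ≤ ∑ c ∈ W c.length v, (if c.edges.toFinset ⊆ J then (1 : ℝ) else 0) :=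
            single_le_sum (f := fun c : (⊤ : SimpleGraph V).Walk v v =>
              (if c.edges.toFinset ⊆ J then (1 : ℝ) else 0)) (hnn _ _) hcW
        _ ≤ ∑ v, ∑ c ∈ W c.length v, (if c.edges.toFinset ⊆ J then (1 : ℝ) else 0) :=
            single_le_sum (f := fun v => ∑ c' ∈ W c.length v,
              (if c'.edges.toFinset ⊆ J then (1 : ℝ) else 0))
              (fun v _ => sum_nonneg (hnn _ _)) (mem_univ v)
        _ ≤ _ := single_le_sum (f := fun k => ∑ v, ∑ c' ∈ W k v,
              (if c'.edges.toFinset ⊆ J then (1 : ℝ) else 0))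
              (fun k _ => sum_nonneg fun v _ => sum_nonneg (hnn _ _)) hk
    · exact (hφ0 J hJ hc).trans (sum_nonneg fun k _ => sum_nonneg fun v _ => sum_nonneg (hnn _ _))
  have h1 := Ex_mono (q := q) (fun e _ => hq0 e) hq1' hub
  refine h1.trans ?_
  rw [Ex_sum]
  simp only [Ex_sum]
  have h2 : ∀ k ∈ Icc 3 n, ∑ v, ∑ c ∈ W k v,
      Ex q (allE V) (fun J => if c.edges.toFinset ⊆ J then (1 : ℝ) else 0) ≤ (√(fro (wm q))) ^ k := by
    intro k hk
    obtain ⟨m, rfl⟩ : ∃ m, k = m + 2 := ⟨k - 2, by have := (mem_Icc.1 hk).1; omega⟩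
    refine le_trans ?_ (trace_pow_le (wm q) m)
    refine sum_le_sum fun v _ => ?_
    refine le_trans ?_ (sum_walks_le q hq0 (m + 2) v v)
    have h3 : ∀ c ∈ W (m + 2) v,
        Ex q (allE V) (fun J => if c.edges.toFinset ⊆ J then (1 : ℝ) else 0)
          = (c.edges.map q).prod := by
      intro c hc
      have hcyc : c.IsCycle := (mem_filter.1 hc).2
      rw [Ex_subset q (allE V) c.edges.toFinset]
      · rw [← List.prod_toFinset q hcyc.isTrail.edges_nodup]
      · intro e he
        unfold allE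
        rw [SimpleGraph.mem_edgeFinset]
        exact c.edges_subset_edgeSet (List.mem_toFinset.1 he)
    rw [sum_congr rfl h3]
    refine sum_le_sum_of_subset_of_nonneg (filter_subset _ _) fun c _ _ => ?_
    apply List.prod_nonneg
    intro x hx
    obtain ⟨e, _, rfl⟩ := List.mem_map.1 hx
    exact hq0 e
  refine (sum_le_sum h2).trans ?_
  set x : ℝ := √(fro (wm q)) with hx
  have hx0 : 0 ≤ x := Real.sqrt_nonneg _
  have hx2 : x ^ 2 ≤ 2 * S := by
    rw [hx, Real.sq_sqrt (fro_nonneg _)]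
    exact fro_wm q
  have hx12 : x ≤ 1 / 2 := by nlinarith
  have hgeo : ∀ m : ℕ, ∑ k ∈ Icc 3 m, x ^ k ≤ 2 * x ^ 3 - 2 * x ^ (max m 2 + 1) := by
    intro m
    induction m with
    | zero => simp
    | succ m ih =>
      rcases Nat.lt_or_ge m 2 with hm | hm
      · have : Icc 3 (m + 1) = ∅ := by rw [Icc_eq_empty]; omega
        rw [this, sum_empty, max_eq_right (by omega)]
        simp
      · rw [sum_Icc_succ_top (by omega : 3 ≤ m + 1)]
        rw [max_eq_left hm] at ih
        rw [max_eq_left (by omega : 2 ≤ m + 1)]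
        have h4 : 0 ≤ x ^ (m + 1) := by positivity
        have h5 : x ^ (m + 1 + 1) = x ^ (m + 1) * x := pow_succ _ _
        nlinarith
  have h6 := hgeo n
  have h7 : 0 ≤ x ^ (max n 2 + 1) := by positivity
  have h8 : x ^ 3 = x ^ 2 * x := pow_succ _ _
  have h9 : 0 ≤ x ^ 2 := by positivity
  calc ∑ k ∈ Icc 3 n, x ^ k ≤ 2 * x ^ 3 := by linarith
    _ ≤ x ^ 2 := by nlinarith
    _ ≤ 8 * S := by linarith

end Pool.Agent.H297
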