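import Mathlib

set_option autoImplicit false
set_option linter.unusedSectionVars false

open Finset

namespace Pool.Agent.H297.SF

variable {α : Type*} [DecidableEq α] [Fintype α]

/-- Uniform average over all subsets of `α`. -/
noncomputable def Ev (g : Finset α → ℝ) : ℝ := (∑ x, g x) / (Fintype.card (Finset α) : ℝ)

lemma cardpos : (0 : ℝ) < (Fintype.card (Finset α) : ℝ) := by
  exact_mod_cast Fintype.card_pos

lemma Ev_add (g h : Finset α → ℝ) : Ev (fun x => g x + h x) = Ev g + Ev h := by
  unfold Ev; rw [sum_add_distrib, add_div]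

lemma Ev_sub (g h : Finset α → ℝ) : Ev (fun x => g x - h x) = Ev g - Ev h := by
  unfold Ev; rw [sum_sub_distrib, sub_div]

lemma Ev_mul_left (c : ℝ) (g : Finset α → ℝ) : Ev (fun x => c * g x) = c * Ev g := by
  unfold Ev; rw [← mul_sum, mul_div_assoc]

lemma Ev_div (c : ℝ) (g : Finset α → ℝ) : Ev (fun x => g x / c) = Ev g / c := by
  unfold Ev; rw [← sum_div]; ring

lemma Ev_const (c : ℝ) : Ev (fun _ : Finset α => c) = c := by
  unfold Ev
  rw [sum_const, nsmul_eq_mul, card_univ]
  have := cardpos (α := α)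
  field_simp

lemma Ev_sum {ι : Type*} (s : Finset ι) (g : ι → Finset α → ℝ) :
    Ev (fun x => ∑ i ∈ s, g i x) = ∑ i ∈ s, Ev (g i) := by
  unfold Ev; rw [sum_comm, sum_div]

lemma Ev_mono {g h : Finset α → ℝ} (H : ∀ x, g x ≤ h x) : Ev g ≤ Ev h := by
  unfold Ev
  apply div_le_div_of_nonneg_right _ cardpos.le
  exact sum_le_sum fun x _ => H x

lemma Ev_nonneg {g : Finset α → ℝ} (H : ∀ x, 0 ≤ g x) : 0 ≤ Ev g := by
  unfold Ev
  exact div_nonneg (sum_nonneg fun x _ => H x) cardpos.le

lemma Ev_le_one_exists (g : Finset α → ℝ) : ∃ x, g x ≤ Ev g := by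
  by_contra hcon
  push Not at hcon
  have h1 : ∑ _x : Finset α, Ev g < ∑ x, g x := by
    apply sum_lt_sum_of_nonempty univ_nonempty
    intro x _
    exact hcon x
  rw [sum_const, nsmul_eq_mul, card_univ] at h1
  unfold Ev at h1
  have := cardpos (α := α)
  rw [mul_div_cancel₀ _ this.ne'] at h1
  exact lt_irrefl _ h1

/-- Flip the coordinate `e`. -/
def fl (e : α) (x : Finset α) : Finset α := symmDiff x {e}

lemma fl_fl (e : α) (x : Finset α) : fl e (fl e x) = x := by
  unfold fl; exact symmDiff_symmDiff_cancel_right _ _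

lemma fl_comm (e e' : α) (x : Finset α) : fl e (fl e' x) = fl e' (fl e x) := by
  unfold fl; rw [symmDiff_right_comm]

lemma mem_fl_self (e : α) (x : Finset α) : e ∈ fl e x ↔ e ∉ x := by
  unfold fl; simp [mem_symmDiff]

lemma mem_fl_ne {e e' : α} (h : e' ≠ e) (x : Finset α) : e' ∈ fl e x ↔ e' ∈ x := by
  unfold fl; simp [mem_symmDiff, h]

lemma Ev_fl (e : α) (g : Finset α → ℝ) : Ev (fun x => g (fl e x)) = Ev g := by
  unfold Ev
  congr 1
  refine sum_nbij' (fl e) (fl e) ?_ ?_ ?_ ?_ ?_
  · intro x _; exact mem_univ _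
  · intro x _; exact mem_univ _
  · intro x _; exact fl_fl e x
  · intro x _; exact fl_fl e x
  · intro x _; rfl

lemma Ev_half (e : α) (g : Finset α → ℝ) : Ev (fun x => (g x + g (fl e x)) / 2) = Ev g := by
  rw [Ev_div, Ev_add, Ev_fl]; ring

/-- A pair of configurations differing in `e`: sums over the pair. -/
lemma pair_sum (e : α) (x : Finset α) (g : Finset α → ℝ) :
    g (x.erase e) + g (insert e x) = g x + g (fl e x) := by
  by_cases h : e ∈ x
  · have h1 : insert e x = x := insert_eq_self.2 h
    have h2 : fl e x = x.erase e := by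
      ext a
      by_cases ha : a = e
      · subst ha; simp [mem_fl_self, h]
      · rw [mem_fl_ne ha, mem_erase]; tauto
    rw [h1, h2]; ring
  · have h1 : x.erase e = x := erase_eq_of_notMem h
    have h2 : fl e x = insert e x := by
      ext a
      by_cases ha : a = e
      · subst ha; simp [mem_fl_self, h]
      · rw [mem_fl_ne ha, mem_insert]; tauto
    rw [h1, h2]

/-- Sign of a coordinate. -/
def sg (e : α) (x : Finset α) : ℝ := if e ∈ x then -1 else 1

lemma sg_fl_self (e : α) (x : Finset α) : sg e (fl e x) = - sg e x := by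
  unfold sg
  by_cases h : e ∈ x
  · rw [if_pos h, if_neg (by rw [mem_fl_self]; tauto)]; norm_num
  · rw [if_neg h, if_pos (by rw [mem_fl_self]; tauto)]

lemma sg_fl_ne {e e' : α} (h : e' ≠ e) (x : Finset α) : sg e' (fl e x) = sg e' x := by
  unfold sg; simp only [mem_fl_ne h]

lemma sg_sq (e : α) (x : Finset α) : sg e x ^ 2 = 1 := by
  unfold sg; split_ifs <;> norm_num

/-- Walsh character. -/
def chi (T x : Finset α) : ℝ := ∏ e ∈ T, sg e x

lemma chi_fl_notMem {e : α} {T : Finset α} (h : e ∉ T) (x : Finset α) :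
    chi T (fl e x) = chi T x := by
  unfold chi
  refine prod_congr rfl fun a ha => ?_
  apply sg_fl_ne
  rintro rfl
  exact h ha

lemma chi_insert {e : α} {T : Finset α} (h : e ∉ T) (x : Finset α) :
    chi (insert e T) x = sg e x * chi T x := by
  unfold chi; rw [prod_insert h]

lemma chi_fl_mem {e : α} {T : Finset α} (h : e ∈ T) (x : Finset α) :
    chi T (fl e x) = - chi T x := by
  rw [← insert_erase h, chi_insert (notMem_erase _ _), chi_insert (notMem_erase _ _),
    chi_fl_notMem (notMem_erase _ _), sg_fl_self]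
  ring

/-- Configuration equal to `x` outside `R` and to `z` on `R`. -/
def mix (R x z : Finset α) : Finset α := (x \ R) ∪ (z ∩ R)

lemma mem_mix {R x z : Finset α} {a : α} :
    a ∈ mix R x z ↔ (a ∈ x ∧ a ∉ R) ∨ (a ∈ z ∧ a ∈ R) := by
  unfold mix; simp [mem_union, mem_sdiff, mem_inter]

lemma mix_fl_left {R : Finset α} {e : α} (h : e ∈ R) (x z : Finset α) :
    mix R (fl e x) z = mix R x z := by
  ext a
  rw [mem_mix, mem_mix]
  by_cases ha : a = e
  · subst ha; tauto
  · rw [mem_fl_ne ha]

lemma mix_fl_right {R : Finset α} {e : α} (h : e ∉ R) (x z : Finset α) :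
    mix R x (fl e z) = mix R x z := by
  ext a
  rw [mem_mix, mem_mix]
  by_cases ha : a = e
  · subst ha; tauto
  · rw [mem_fl_ne ha]

/-- Fourier coefficient at `T` of `f` with the coordinates outside `R` fixed to those of `x`. -/
noncomputable def coef (f : Finset α → ℝ) (R x T : Finset α) : ℝ :=
  Ev (fun z => chi T z * f (mix R x z))

lemma coef_fl (f : Finset α → ℝ) {R : Finset α} {e : α} (h : e ∈ R) (x T : Finset α) :
    coef f R (fl e x) T = coef f R x T := by
  unfold coef
  congr 1
  ext z
  rw [mix_fl_left h]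

lemma coef_zero (f : Finset α → ℝ) {R T : Finset α} (x : Finset α) (h : ¬ T ⊆ R) :
    coef f R x T = 0 := by
  rw [not_subset] at h
  obtain ⟨e, heT, heR⟩ := h
  unfold coef
  rw [← Ev_half e]
  have : (fun z => (chi T z * f (mix R x z) + chi T (fl e z) * f (mix R x (fl e z))) / 2)
      = fun _ : Finset α => (0 : ℝ) := by
    ext z
    rw [chi_fl_mem heT, mix_fl_right heR]; ring
  rw [this, Ev_const]

lemma coef_erase (f : Finset α → ℝ) {R T : Finset α} {e : α} (x : Finset α) (heR : e ∈ R)
    (heT : e ∉ T) :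
    coef f (R.erase e) x T = coef f R x T + sg e x * coef f R x (insert e T) := by
  unfold coef
  rw [← Ev_mul_left, ← Ev_add, ← Ev_half e (fun z => chi T z * f (mix R x z) + sg e x *
    (chi (insert e T) z * f (mix R x z)))]
  congr 1
  ext z
  rw [chi_insert heT, chi_insert heT, chi_fl_notMem heT, sg_fl_self]
  by_cases hx : e ∈ x
  · by_cases hz : e ∈ z
    · have h1 : mix R x z = mix (R.erase e) x z := by
        ext a
        rw [mem_mix, mem_mix, mem_erase]
        by_cases ha : a = e
        · subst ha; tauto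
        · tauto
      have h2 : sg e x = -1 := by unfold sg; rw [if_pos hx]
      have h3 : sg e z = -1 := by unfold sg; rw [if_pos hz]
      rw [h1, h2, h3]; ring
    · have h1 : mix R x (fl e z) = mix (R.erase e) x z := by
        ext a
        rw [mem_mix, mem_mix, mem_erase]
        by_cases ha : a = e
        · subst ha; rw [mem_fl_self]; tauto
        · rw [mem_fl_ne ha]; tauto
      have h2 : sg e x = -1 := by unfold sg; rw [if_pos hx]
      have h3 : sg e z = 1 := by unfold sg; rw [if_neg hz]
      rw [h1, h2, h3]; ring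
  · by_cases hz : e ∈ z
    · have h1 : mix R x (fl e z) = mix (R.erase e) x z := by
        ext a
        rw [mem_mix, mem_mix, mem_erase]
        by_cases ha : a = e
        · subst ha; rw [mem_fl_self]; tauto
        · rw [mem_fl_ne ha]; tauto
      have h2 : sg e x = 1 := by unfold sg; rw [if_neg hx]
      have h3 : sg e z = -1 := by unfold sg; rw [if_pos hz]
      rw [h1, h2, h3]; ring
    · have h1 : mix R x z = mix (R.erase e) x z := by
        ext a
        rw [mem_mix, mem_mix, mem_erase]
        by_cases ha : a = e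
        · subst ha; tauto
        · tauto
      have h2 : sg e x = 1 := by unfold sg; rw [if_neg hx]
      have h3 : sg e z = 1 := by unfold sg; rw [if_neg hz]
      rw [h1, h2, h3]; ring

lemma coef_erase_fl (f : Finset α → ℝ) {R T : Finset α} {e : α} (x : Finset α) (heR : e ∈ R)
    (heT : e ∉ T) :
    coef f (R.erase e) (fl e x) T = coef f R x T - sg e x * coef f R x (insert e T) := by
  rw [coef_erase f (fl e x) heR heT, coef_fl f heR, coef_fl f heR, sg_fl_self]; ring

/-- Weighted Fourier energy. -/
noncomputable def Sw (f : Finset α → ℝ) (w : Finset α → ℝ) (R x : Finset α) : ℝ :=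
  4 * ∑ T ∈ R.powerset, w T * coef f R x T ^ 2

lemma Sw_half (f w : Finset α → ℝ) {R : Finset α} {e : α} (x : Finset α) (heR : e ∈ R) :
    (Sw f w (R.erase e) x + Sw f w (R.erase e) (fl e x)) / 2
      = Sw f (fun T => w (T.erase e)) R x := by
  unfold Sw
  have h1 : ∑ T ∈ R.powerset, w (T.erase e) * coef f R x T ^ 2
      = ∑ T ∈ (R.erase e).powerset, (w T * coef f R x T ^ 2 + w T * coef f R x (insert e T) ^ 2) := by
    conv_lhs => rw [← insert_erase heR]
    rw [sum_powerset_insert (notMem_erase e R), ← sum_add_distrib]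
    refine sum_congr rfl fun T hT => ?_
    have heT : e ∉ T := fun h => notMem_erase e R (mem_powerset.1 hT h)
    rw [insert_erase heR, erase_eq_of_notMem heT, erase_insert heT]
  rw [h1, ← mul_add, ← sum_add_distrib, mul_div_assoc, sum_div]
  congr 1
  refine sum_congr rfl fun T hT => ?_
  have heT : e ∉ T := fun h => notMem_erase e R (mem_powerset.1 hT h)
  rw [coef_erase f x heR heT, coef_erase_fl f x heR heT]
  have := sg_sq e x
  calc (w T * (coef f R x T + sg e x * coef f R x (insert e T)) ^ 2
        + w T * (coef f R x T - sg e x * coef f R x (insert e T)) ^ 2) / 2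
      = w T * coef f R x T ^ 2 + w T * (sg e x ^ 2) * coef f R x (insert e T) ^ 2 := by ring
    _ = _ := by rw [this]; ring

lemma coef_empty_empty (f : Finset α → ℝ) (x : Finset α) : coef f ∅ x ∅ = f x := by
  unfold coef
  have : (fun z => chi ∅ z * f (mix ∅ x z)) = fun _ : Finset α => f x := by
    ext z
    have h1 : mix ∅ x z = x := by ext a; rw [mem_mix]; simp
    rw [h1]; unfold chi; rw [prod_empty, one_mul]
  rw [this, Ev_const]

/-- Parseval for `{0,1}`-valued `f`. -/
lemma parseval (f : Finset α → ℝ) (hf : ∀ x, f x = 0 ∨ f x = 1) (R x : Finset α) :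
    Sw f (fun _ => 1) R x = 4 * coef f R x ∅ := by
  induction R using Finset.induction_on generalizing x with
  | empty =>
    unfold Sw
    rw [powerset_empty, sum_singleton, coef_empty_empty]
    rcases hf x with h | h <;> rw [h] <;> norm_num
  | insert e R heR ih =>
    have h1 := Sw_half f (fun _ => 1) x (mem_insert_self e R)
    rw [erase_insert heR, ih, ih] at h1
    rw [← h1]
    have h2 := coef_erase f x (mem_insert_self e R) (notMem_empty e)
    have h3 := coef_erase_fl f x (mem_insert_self e R) (notMem_empty e)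
    rw [erase_insert heR] at h2 h3
    rw [h2, h3]; ring

lemma Sw_mono {f w w' : Finset α → ℝ} {R : Finset α} (x : Finset α)
    (h : ∀ T ⊆ R, w T ≤ w' T) : Sw f w R x ≤ Sw f w' R x := by
  unfold Sw
  apply mul_le_mul_of_nonneg_left _ (by norm_num : (0:ℝ) ≤ 4)
  exact sum_le_sum fun T hT => mul_le_mul_of_nonneg_right (h T (mem_powerset.1 hT)) (sq_nonneg _)

lemma Sw_nonneg {f w : Finset α → ℝ} {R : Finset α} (x : Finset α)
    (h : ∀ T ⊆ R, 0 ≤ w T) : 0 ≤ Sw f w R x := by
  unfold Sw
  apply mul_nonneg (by norm_num : (0:ℝ) ≤ 4)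
  exact sum_nonneg fun T hT => mul_nonneg (h T (mem_powerset.1 hT)) (sq_nonneg _)

lemma Sw_sum {ι : Type*} (f : Finset α → ℝ) (s : Finset ι) (w : ι → Finset α → ℝ)
    (R x : Finset α) :
    ∑ i ∈ s, Sw f (w i) R x = Sw f (fun T => ∑ i ∈ s, w i T) R x := by
  unfold Sw
  rw [← mul_sum]
  congr 1
  rw [sum_comm]
  refine sum_congr rfl fun T _ => ?_
  rw [sum_mul]

end Pool.Agent.H297.SF
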