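import Mathlib
import Pool.Agent.H297.Flip

set_option autoImplicit false
set_option linter.unusedSectionVars false

open Finset

namespace Pool.Agent.H297.SF

section Abstract

variable {V : Type*} [DecidableEq V]

/-- Abstract pointwise inequality behind the `K²` lemma. -/
lemma pointwise_sq (N : Finset V) (b c al : V → ℝ) (P Q be be' d ka : V → V → ℝ)
    (hb0 : ∀ w, 0 ≤ b w) (hc0 : ∀ w, 0 ≤ c w) (hal0 : ∀ w, 0 ≤ al w)
    (hP0 : ∀ w u, 0 ≤ P w u) (hbe0 : ∀ w u, 0 ≤ be w u)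
    (hbe'0 : ∀ w u, 0 ≤ be' w u) (hd0 : ∀ w u, 0 ≤ d w u) (hka0 : ∀ w u, 0 ≤ ka w u)
    (hc1 : ∀ w, c w ≤ 1) (hal4 : ∀ w, al w ≤ 4) (hP1 : ∀ w u, P w u ≤ 1)
    (hd1 : ∀ w u, d w u ≤ 1)
    (h1 : ∀ w, al w ≤ 2 * b w + 2 * c w)
    (h2 : ∀ w u, w ≠ u → c w ≤ 2 * P w u + 2 * be w u)
    (h3 : ∀ w u, w ≠ u → c u ≤ 2 * Q w u + 2 * be' w u)
    (h4 : ∀ w u, w ≠ u → Q w u ≤ 2 * d w u + 2 * ka w u)
    (h5 : ∀ w u, w ≠ u → P w u ≤ 2 * c w + 2 * be w u)
    (hbs : ∑ w ∈ N, b w ≤ 2) (hds : ∀ w, ∑ u ∈ N, d w u ≤ 2) :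
    (∑ w ∈ N, al w) ^ 2 ≤ 8 * ∑ w ∈ N, al w + 136 * ∑ w ∈ N, c w
      + ∑ w ∈ N, ∑ u ∈ N, (72 * be w u + 16 * be' w u + 32 * (P w u * ka w u)) := by
  have key : ∀ w u, al w * al u ≤ (if w = u then 4 * al w else 0) + 2 * b u * al w
      + 4 * b w * c u + 64 * (c w * d w u)
      + (72 * be w u + 16 * be' w u + 32 * (P w u * ka w u)) := by
    intro w u
    have e1 := mul_nonneg (hb0 u) (hal0 w)
    have e2 := mul_nonneg (hb0 w) (hc0 u)
    have e3 := mul_nonneg (hc0 w) (hd0 w u)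
    have e4 := mul_nonneg (hP0 w u) (hka0 w u)
    have e5 := hbe0 w u
    have e6 := hbe'0 w u
    by_cases hwu : w = u
    · subst hwu
      rw [if_pos rfl]
      have := mul_le_mul_of_nonneg_left (hal4 w) (hal0 w)
      nlinarith
    · rw [if_neg hwu]
      have f1 : al w * al u ≤ al w * (2 * b u + 2 * c u) :=
        mul_le_mul_of_nonneg_left (h1 u) (hal0 w)
      have f2 : al w * c u ≤ (2 * b w + 2 * c w) * c u :=
        mul_le_mul_of_nonneg_right (h1 w) (hc0 u)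
      have f3 : c w * c u ≤ (2 * P w u + 2 * be w u) * c u :=
        mul_le_mul_of_nonneg_right (h2 w u hwu) (hc0 u)
      have f4 : be w u * c u ≤ be w u * 1 := mul_le_mul_of_nonneg_left (hc1 u) (hbe0 w u)
      have f5 : P w u * c u ≤ P w u * (2 * Q w u + 2 * be' w u) :=
        mul_le_mul_of_nonneg_left (h3 w u hwu) (hP0 w u)
      have f6 : P w u * be' w u ≤ 1 * be' w u :=
        mul_le_mul_of_nonneg_right (hP1 w u) (hbe'0 w u)
      have f7 : P w u * Q w u ≤ P w u * (2 * d w u + 2 * ka w u) :=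
        mul_le_mul_of_nonneg_left (h4 w u hwu) (hP0 w u)
      have f8 : P w u * d w u ≤ (2 * c w + 2 * be w u) * d w u :=
        mul_le_mul_of_nonneg_right (h5 w u hwu) (hd0 w u)
      have f9 : be w u * d w u ≤ be w u * 1 := mul_le_mul_of_nonneg_left (hd1 w u) (hbe0 w u)
      nlinarith
  have hsq : (∑ w ∈ N, al w) ^ 2 = ∑ w ∈ N, ∑ u ∈ N, al w * al u := by
    rw [sq, sum_mul_sum]
  rw [hsq]
  have hsum := sum_le_sum fun w (_ : w ∈ N) => sum_le_sum fun u (_ : u ∈ N) => key w u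
  refine hsum.trans ?_
  simp only [sum_add_distrib]
  have g1 : ∑ w ∈ N, ∑ u ∈ N, (if w = u then 4 * al w else 0) = 4 * ∑ w ∈ N, al w := by
    rw [mul_sum]
    refine sum_congr rfl fun w hw => ?_
    rw [sum_ite_eq, if_pos hw]
  have g2 : ∑ w ∈ N, ∑ u ∈ N, 2 * b u * al w ≤ 4 * ∑ w ∈ N, al w := by
    have : ∑ w ∈ N, ∑ u ∈ N, 2 * b u * al w = 2 * (∑ u ∈ N, b u) * ∑ w ∈ N, al w := by
      rw [mul_sum]
      refine sum_congr rfl fun w _ => ?_
      rw [← sum_mul, ← mul_sum]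
    rw [this]
    have hs : 0 ≤ ∑ w ∈ N, al w := sum_nonneg fun w _ => hal0 w
    nlinarith
  have g3 : ∑ w ∈ N, ∑ u ∈ N, 4 * b w * c u ≤ 8 * ∑ w ∈ N, c w := by
    have : ∑ w ∈ N, ∑ u ∈ N, 4 * b w * c u = 4 * (∑ u ∈ N, b u) * ∑ w ∈ N, c w := by
      rw [mul_assoc, sum_mul_sum, mul_sum]
      refine sum_congr rfl fun w _ => ?_
      rw [mul_sum]
      refine sum_congr rfl fun u _ => ?_
      ring
    rw [this]
    have hs : 0 ≤ ∑ w ∈ N, c w := sum_nonneg fun w _ => hc0 w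
    nlinarith
  have g4 : ∑ w ∈ N, ∑ u ∈ N, 64 * (c w * d w u) ≤ 128 * ∑ w ∈ N, c w := by
    rw [mul_sum]
    refine sum_le_sum fun w _ => ?_
    rw [← mul_sum, ← mul_sum]
    have := mul_le_mul_of_nonneg_left (hds w) (hc0 w)
    linarith
  linarith

end Abstract

variable {V : Type*} [DecidableEq V] [Fintype V] {ι : Type*} [Fintype ι]

/-- Weighted squared norm. -/
noncomputable def nw (m : V → ι → ℝ) (w : V) (h : ι → ℝ) : ℝ := ∑ i, m w i * h i ^ 2

/-- Squared norm. -/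
noncomputable def nn (h : ι → ℝ) : ℝ := ∑ i, h i ^ 2

lemma nn_nonneg (h : ι → ℝ) : 0 ≤ nn h := sum_nonneg fun _ _ => sq_nonneg _

lemma nw_nonneg {m : V → ι → ℝ} (hm0 : ∀ w i, 0 ≤ m w i) (w : V) (h : ι → ℝ) :
    0 ≤ nw m w h := sum_nonneg fun _ _ => mul_nonneg (hm0 _ _) (sq_nonneg _)

lemma nw_le {m : V → ι → ℝ} (hm1 : ∀ w i, m w i ≤ 1) (w : V) (h : ι → ℝ) :
    nw m w h ≤ nn h := by
  unfold nw nn
  refine sum_le_sum fun i _ => ?_
  have := mul_le_mul_of_nonneg_right (hm1 w i) (sq_nonneg (h i))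
  linarith

lemma sum_nw {m : V → ι → ℝ} (hm2 : ∀ i, ∑ w, m w i ≤ 2) (h : ι → ℝ) :
    ∑ w, nw m w h ≤ 2 * nn h := by
  unfold nw nn
  rw [sum_comm, mul_sum]
  refine sum_le_sum fun i _ => ?_
  rw [← sum_mul]
  exact mul_le_mul_of_nonneg_right (hm2 i) (sq_nonneg _)

lemma sum_nw_sub {m : V → ι → ℝ} (hm0 : ∀ w i, 0 ≤ m w i) (hm2 : ∀ i, ∑ w, m w i ≤ 2)
    (N : Finset V) (h : ι → ℝ) : ∑ w ∈ N, nw m w h ≤ 2 * nn h :=
  (sum_le_sum_of_subset_of_nonneg (subset_univ N) fun w _ _ => nw_nonneg hm0 w h).trans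
    (sum_nw hm2 h)

lemma nw_tri {m : V → ι → ℝ} (hm0 : ∀ w i, 0 ≤ m w i) (w : V) (p q : ι → ℝ) :
    nw m w p ≤ 2 * nw m w q + 2 * nw m w (p - q) := by
  unfold nw
  rw [mul_sum, mul_sum, ← sum_add_distrib]
  refine sum_le_sum fun i _ => ?_
  have h1 : p i ^ 2 ≤ 2 * q i ^ 2 + 2 * (p - q) i ^ 2 := by
    rw [Pi.sub_apply]
    nlinarith [sq_nonneg (p i - 2 * q i)]
  have := mul_le_mul_of_nonneg_left h1 (hm0 w i)
  linarith

lemma nw_tri' {m : V → ι → ℝ} (hm0 : ∀ w i, 0 ≤ m w i) (w : V) (p q : ι → ℝ) :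
    nw m w (p - q) ≤ 2 * nw m w q + 2 * nw m w p := by
  unfold nw
  rw [mul_sum, mul_sum, ← sum_add_distrib]
  refine sum_le_sum fun i _ => ?_
  have h1 : (p - q) i ^ 2 ≤ 2 * q i ^ 2 + 2 * p i ^ 2 := by
    rw [Pi.sub_apply]
    nlinarith [sq_nonneg (p i + q i)]
  have := mul_le_mul_of_nonneg_left h1 (hm0 w i)
  linarith

lemma nw_symm (m : V → ι → ℝ) (w : V) (p q : ι → ℝ) : nw m w (p - q) = nw m w (q - p) := by
  unfold nw
  refine sum_congr rfl fun i _ => ?_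
  rw [Pi.sub_apply, Pi.sub_apply]; ring

lemma nn_sub_le (p q : ι → ℝ) : nn (p - q) ≤ 2 * nn p + 2 * nn q := by
  unfold nn
  rw [mul_sum, mul_sum, ← sum_add_distrib]
  refine sum_le_sum fun i _ => ?_
  rw [Pi.sub_apply]
  nlinarith [sq_nonneg (p i + q i)]

/-- The vertices joined to `v` by a pair in `S`. -/
def Nb (S : Finset (Sym2 V)) (v : V) : Finset V := univ.filter fun w => s(v, w) ∈ S

lemma sum_pairs_le (S : Finset (Sym2 V)) (g : Sym2 V → ℝ) (hg : ∀ e, 0 ≤ g e) :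
    ∑ v, ∑ u ∈ Nb S v, g s(v, u) ≤ 2 * ∑ e ∈ S, g e := by
  have h1 : ∑ v, ∑ u ∈ Nb S v, g s(v, u)
      = ∑ p ∈ (univ : Finset (V × V)).filter (fun p => s(p.1, p.2) ∈ S), g s(p.1, p.2) := by
    rw [sum_filter, Fintype.sum_prod_type]
    refine sum_congr rfl fun v _ => ?_
    unfold Nb
    rw [sum_filter]
  rw [h1, mul_sum]
  have hmaps : ∀ p ∈ (univ : Finset (V × V)).filter (fun p => s(p.1, p.2) ∈ S),
      s(p.1, p.2) ∈ S := fun p hp => (mem_filter.1 hp).2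
  rw [← sum_fiberwise_of_maps_to hmaps]
  refine sum_le_sum fun e _ => ?_
  have h2 : ∀ p ∈ ((univ : Finset (V × V)).filter (fun p => s(p.1, p.2) ∈ S)).filter
      (fun p => s(p.1, p.2) = e), g s(p.1, p.2) = g e := by
    intro p hp
    rw [(mem_filter.1 hp).2]
  rw [sum_congr rfl h2, sum_const, nsmul_eq_mul]
  apply mul_le_mul_of_nonneg_right _ (hg e)
  have h3 : (((univ : Finset (V × V)).filter (fun p => s(p.1, p.2) ∈ S)).filter
      (fun p => s(p.1, p.2) = e)).card ≤ 2 := by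
    induction e using Sym2.ind with
    | _ a b =>
      refine (card_le_card (t := {(a, b), (b, a)}) ?_).trans card_le_two
      intro p hp
      have := (mem_filter.1 hp).2
      rw [Sym2.eq_iff] at this
      rw [mem_insert, mem_singleton]
      rcases this with h | h
      · left; exact Prod.ext h.1 h.2
      · right; exact Prod.ext h.1 h.2
  exact_mod_cast h3

/-- Flip energy. -/
noncomputable def Wen (S : Finset (Sym2 V)) (U : Finset (Sym2 V) → ι → ℝ) : ℝ :=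
  Ev fun x => ∑ e ∈ S, nn (U (fl e x) - U x)

/-- The averaged quantity of the `K²` lemma. -/
noncomputable def Tq (S : Finset (Sym2 V)) (a : V → Finset (Sym2 V) → ℝ)
    (U : Finset (Sym2 V) → ι → ℝ) (m : V → ι → ℝ) : ℝ :=
  Ev fun x => ∑ v, a v x * ∑ w ∈ Nb S v, nw m w (U (fl s(v, w) x))

lemma Wen_nonneg (S : Finset (Sym2 V)) (U : Finset (Sym2 V) → ι → ℝ) : 0 ≤ Wen S U :=
  Ev_nonneg fun _ => sum_nonneg fun _ _ => nn_nonneg _

/-- Averages of triple sums. -/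
lemma triple1 (S : Finset (Sym2 V)) (U : Finset (Sym2 V) → ι → ℝ) (m : V → ι → ℝ)
    (hm0 : ∀ w i, 0 ≤ m w i) (hm2 : ∀ i, ∑ w, m w i ≤ 2) :
    Ev (fun x => ∑ v, ∑ w ∈ Nb S v, ∑ u ∈ Nb S v,
      nw m w (U (fl s(v, u) (fl s(v, w) x)) - U (fl s(v, w) x))) ≤ 4 * Wen S U := by
  rw [Ev_sum]
  simp only [Ev_sum]
  have h1 : ∀ v w u, Ev (fun x => nw m w (U (fl s(v, u) (fl s(v, w) x)) - U (fl s(v, w) x)))
      = Ev (fun x => nw m w (U (fl s(v, u) x) - U x)) := fun v w u =>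
    Ev_fl s(v, w) (fun x => nw m w (U (fl s(v, u) x) - U x))
  simp only [h1]
  have h2 : ∀ v, ∑ w ∈ Nb S v, ∑ u ∈ Nb S v, Ev (fun x => nw m w (U (fl s(v, u) x) - U x))
      ≤ ∑ u ∈ Nb S v, Ev (fun x => 2 * nn (U (fl s(v, u) x) - U x)) := by
    intro v
    rw [sum_comm]
    refine sum_le_sum fun u _ => ?_
    rw [← Ev_sum]
    exact Ev_mono fun x => sum_nw_sub hm0 hm2 _ _
  refine (sum_le_sum fun v _ => h2 v).trans ?_
  simp only [← Ev_sum]
  unfold Wen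
  rw [← Ev_mul_left]
  refine Ev_mono fun x => ?_
  have := sum_pairs_le S (fun e => 2 * nn (U (fl e x) - U x))
    (fun e => mul_nonneg (by norm_num) (nn_nonneg _))
  refine this.trans ?_
  rw [← mul_sum]; linarith

lemma triple2 (S : Finset (Sym2 V)) (U : Finset (Sym2 V) → ι → ℝ) (m : V → ι → ℝ)
    (hm0 : ∀ w i, 0 ≤ m w i) (hm2 : ∀ i, ∑ w, m w i ≤ 2) :
    Ev (fun x => ∑ v, ∑ w ∈ Nb S v, ∑ u ∈ Nb S v,
      nw m u (U (fl s(v, u) (fl s(v, w) x)) - U (fl s(v, u) x))) ≤ 4 * Wen S U := by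
  refine le_trans (le_of_eq ?_) (triple1 S U m hm0 hm2)
  congr 1
  ext x
  refine sum_congr rfl fun v _ => ?_
  rw [sum_comm]
  refine sum_congr rfl fun u _ => sum_congr rfl fun w _ => ?_
  rw [fl_comm]

lemma triple3 (S : Finset (Sym2 V)) (U : Finset (Sym2 V) → ι → ℝ) (m : V → ι → ℝ)
    (hU : ∀ x, nn (U x) ≤ 1)
    (hm0 : ∀ w i, 0 ≤ m w i) (hm1 : ∀ w i, m w i ≤ 1) (hm2 : ∀ i, ∑ w, m w i ≤ 2) :
    Ev (fun x => ∑ v, ∑ w ∈ Nb S v, ∑ u ∈ Nb S v,
      nw m w (U (fl s(v, u) (fl s(v, w) x))) *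
      nw m u (U (fl s(v, w) x) - U (fl s(v, u) (fl s(v, w) x)))) ≤ 4 * Wen S U := by
  rw [Ev_sum]
  simp only [Ev_sum]
  have h1 : ∀ v w u, Ev (fun x => nw m w (U (fl s(v, u) (fl s(v, w) x))) *
      nw m u (U (fl s(v, w) x) - U (fl s(v, u) (fl s(v, w) x))))
      = Ev (fun x => nw m w (U x) * nw m u (U (fl s(v, u) x) - U x)) := by
    intro v w u
    have e1 := Ev_fl s(v, u) (fun x => nw m w (U x) * nw m u (U (fl s(v, u) x) - U x))
    have e2 := Ev_fl s(v, w) (fun x => nw m w (U (fl s(v, u) x)) *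
      nw m u (U (fl s(v, u) (fl s(v, u) x)) - U (fl s(v, u) x)))
    rw [e1] at e2
    rw [← e2]
    congr 1
    ext x
    rw [fl_fl]
  simp only [h1]
  have h2 : ∀ v, ∑ w ∈ Nb S v, ∑ u ∈ Nb S v,
      Ev (fun x => nw m w (U x) * nw m u (U (fl s(v, u) x) - U x))
      ≤ ∑ u ∈ Nb S v, Ev (fun x => 2 * nn (U (fl s(v, u) x) - U x)) := by
    intro v
    rw [sum_comm]
    refine sum_le_sum fun u _ => ?_
    rw [← Ev_sum]
    refine Ev_mono fun x => ?_
    rw [← sum_mul]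
    have a1 : ∑ w ∈ Nb S v, nw m w (U x) ≤ 2 :=
      (sum_nw_sub hm0 hm2 _ _).trans (by linarith [hU x])
    have a2 := nw_le hm1 u (U (fl s(v, u) x) - U x)
    have a3 := nw_nonneg hm0 u (U (fl s(v, u) x) - U x)
    calc (∑ w ∈ Nb S v, nw m w (U x)) * nw m u (U (fl s(v, u) x) - U x)
        ≤ 2 * nw m u (U (fl s(v, u) x) - U x) := mul_le_mul_of_nonneg_right a1 a3
      _ ≤ _ := mul_le_mul_of_nonneg_left a2 (by norm_num)
  refine (sum_le_sum fun v _ => h2 v).trans ?_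
  simp only [← Ev_sum]
  unfold Wen
  rw [← Ev_mul_left]
  refine Ev_mono fun x => ?_
  have := sum_pairs_le S (fun e => 2 * nn (U (fl e x) - U x))
    (fun e => mul_nonneg (by norm_num) (nn_nonneg _))
  refine this.trans ?_
  rw [← mul_sum]; linarith

/-- Cauchy–Schwarz for averages with sub-probability weights. -/
lemma Ev_cs (a : V → Finset (Sym2 V) → ℝ) (ha0 : ∀ v x, 0 ≤ a v x)
    (ha1 : ∀ x, ∑ v, a v x ≤ 1) (g : V → Finset (Sym2 V) → ℝ) :
    (Ev fun x => ∑ v, a v x * g v x) ^ 2 ≤ Ev fun x => ∑ v, a v x * g v x ^ 2 := by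
  set t : ℝ := Ev fun x => ∑ v, a v x * g v x with ht
  have h1 : 0 ≤ Ev fun x => ∑ v, a v x * (g v x - t) ^ 2 :=
    Ev_nonneg fun x => sum_nonneg fun v _ => mul_nonneg (ha0 v x) (sq_nonneg _)
  have h2 : (Ev fun x => ∑ v, a v x * (g v x - t) ^ 2)
      = (Ev fun x => ∑ v, a v x * g v x ^ 2) - 2 * t * t + t ^ 2 * Ev fun x => ∑ v, a v x := by
    have : (fun x => ∑ v, a v x * (g v x - t) ^ 2)
        = fun x => (∑ v, a v x * g v x ^ 2 - (2 * t) * ∑ v, a v x * g v x)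
          + t ^ 2 * ∑ v, a v x := by
      ext x
      rw [mul_sum, mul_sum, ← sum_sub_distrib, ← sum_add_distrib]
      refine sum_congr rfl fun v _ => ?_
      ring
    rw [this, Ev_add, Ev_sub, Ev_mul_left, Ev_mul_left, ← ht]
  have h3 : (Ev fun x => ∑ v, a v x) ≤ 1 := by
    have := Ev_mono (g := fun x => ∑ v, a v x) (h := fun _ => 1) ha1
    rwa [Ev_const] at this
  have h4 : t ^ 2 * (Ev fun x => ∑ v, a v x) ≤ t ^ 2 * 1 :=
    mul_le_mul_of_nonneg_left h3 (sq_nonneg t)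
  rw [h2] at h1
  nlinarith

/-- **The `K²` lemma.** -/
theorem ksq (S : Finset (Sym2 V)) (a : V → Finset (Sym2 V) → ℝ) (ha0 : ∀ v x, 0 ≤ a v x)
    (ha1 : ∀ x, ∑ v, a v x ≤ 1) (U : Finset (Sym2 V) → ι → ℝ) (hU : ∀ x, nn (U x) ≤ 1)
    (m : V → ι → ℝ) (hm0 : ∀ w i, 0 ≤ m w i) (hm1 : ∀ w i, m w i ≤ 1)
    (hm2 : ∀ i, ∑ w, m w i ≤ 2) (θ : ℝ) (hθ : 0 < θ) :
    Tq S a U m ≤ 700 + 22 * (θ * Wen S U + 1 / θ) := by
  set W := Wen S U with hW
  have hW0 : 0 ≤ W := Wen_nonneg S U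
  have hav : ∀ v x, a v x ≤ 1 := fun v x =>
    (single_le_sum (f := fun v => a v x) (fun v _ => ha0 v x) (mem_univ v)).trans (ha1 x)
  set T := Tq S a U m with hT
  set T' : ℝ := Ev fun x => ∑ v, a v x * ∑ w ∈ Nb S v, nw m w (U (fl s(v, w) x) - U x) with hT'
  have hT'0 : 0 ≤ T' := Ev_nonneg fun x => sum_nonneg fun v _ =>
    mul_nonneg (ha0 v x) (sum_nonneg fun w _ => nw_nonneg hm0 _ _)
  -- T ≤ 4 + 2 T'
  have hTT' : T ≤ 4 + 2 * T' := by
    have h1 : T ≤ Ev fun x => 4 + 2 * ∑ v, a v x * ∑ w ∈ Nb S v,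
        nw m w (U (fl s(v, w) x) - U x) := by
      refine Ev_mono fun x => ?_
      have h2 : ∀ v, ∑ w ∈ Nb S v, nw m w (U (fl s(v, w) x))
          ≤ 4 + 2 * ∑ w ∈ Nb S v, nw m w (U (fl s(v, w) x) - U x) := by
        intro v
        have h3 : ∑ w ∈ Nb S v, nw m w (U (fl s(v, w) x))
            ≤ ∑ w ∈ Nb S v, (2 * nw m w (U x) + 2 * nw m w (U (fl s(v, w) x) - U x)) :=
          sum_le_sum fun w _ => nw_tri hm0 w _ _
        rw [sum_add_distrib, ← mul_sum, ← mul_sum] at h3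
        have h4 := sum_nw_sub hm0 hm2 (Nb S v) (U x)
        linarith [hU x]
      calc ∑ v, a v x * ∑ w ∈ Nb S v, nw m w (U (fl s(v, w) x))
          ≤ ∑ v, a v x * (4 + 2 * ∑ w ∈ Nb S v, nw m w (U (fl s(v, w) x) - U x)) :=
            sum_le_sum fun v _ => mul_le_mul_of_nonneg_left (h2 v) (ha0 v x)
        _ = 4 * ∑ v, a v x + 2 * ∑ v, a v x * ∑ w ∈ Nb S v,
              nw m w (U (fl s(v, w) x) - U x) := by
            rw [mul_sum, mul_sum, ← sum_add_distrib]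
            refine sum_congr rfl fun v _ => ?_
            ring
        _ ≤ _ := by linarith [ha1 x]
    rw [Ev_add, Ev_const, Ev_mul_left] at h1
    exact h1
  -- T'² ≤ Z
  have hCS := Ev_cs a ha0 ha1 (fun v x => ∑ w ∈ Nb S v, nw m w (U (fl s(v, w) x) - U x))
  rw [← hT'] at hCS
  -- Z ≤ 8 T' + 136 T + 480 W
  have hZ : (Ev fun x => ∑ v, a v x * (∑ w ∈ Nb S v, nw m w (U (fl s(v, w) x) - U x)) ^ 2)
      ≤ 8 * T' + 136 * T + 480 * W := by
    have hpt : ∀ x, ∑ v, a v x * (∑ w ∈ Nb S v, nw m w (U (fl s(v, w) x) - U x)) ^ 2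
        ≤ 8 * (∑ v, a v x * ∑ w ∈ Nb S v, nw m w (U (fl s(v, w) x) - U x))
          + 136 * (∑ v, a v x * ∑ w ∈ Nb S v, nw m w (U (fl s(v, w) x)))
          + (72 * (∑ v, ∑ w ∈ Nb S v, ∑ u ∈ Nb S v,
              nw m w (U (fl s(v, u) (fl s(v, w) x)) - U (fl s(v, w) x)))
            + 16 * (∑ v, ∑ w ∈ Nb S v, ∑ u ∈ Nb S v,
              nw m u (U (fl s(v, u) (fl s(v, w) x)) - U (fl s(v, u) x)))
            + 32 * (∑ v, ∑ w ∈ Nb S v, ∑ u ∈ Nb S v,
              nw m w (U (fl s(v, u) (fl s(v, w) x))) *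
              nw m u (U (fl s(v, w) x) - U (fl s(v, u) (fl s(v, w) x))))) := by
      intro x
      have hv : ∀ v, (∑ w ∈ Nb S v, nw m w (U (fl s(v, w) x) - U x)) ^ 2
          ≤ 8 * ∑ w ∈ Nb S v, nw m w (U (fl s(v, w) x) - U x)
            + 136 * ∑ w ∈ Nb S v, nw m w (U (fl s(v, w) x))
            + ∑ w ∈ Nb S v, ∑ u ∈ Nb S v,
              (72 * nw m w (U (fl s(v, u) (fl s(v, w) x)) - U (fl s(v, w) x))
              + 16 * nw m u (U (fl s(v, u) (fl s(v, w) x)) - U (fl s(v, u) x))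
              + 32 * (nw m w (U (fl s(v, u) (fl s(v, w) x))) *
              nw m u (U (fl s(v, w) x) - U (fl s(v, u) (fl s(v, w) x))))) := by
        intro v
        have hU1 : ∀ w y, nw m w (U y) ≤ 1 := fun w y => (nw_le hm1 w _).trans (hU y)
        apply pointwise_sq (Nb S v) (fun w => nw m w (U x))
          (fun w => nw m w (U (fl s(v, w) x))) (fun w => nw m w (U (fl s(v, w) x) - U x))
          (fun w u => nw m w (U (fl s(v, u) (fl s(v, w) x))))
          (fun w u => nw m u (U (fl s(v, u) (fl s(v, w) x))))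
          (fun w u => nw m w (U (fl s(v, u) (fl s(v, w) x)) - U (fl s(v, w) x)))
          (fun w u => nw m u (U (fl s(v, u) (fl s(v, w) x)) - U (fl s(v, u) x)))
          (fun w u => nw m u (U (fl s(v, w) x)))
          (fun w u => nw m u (U (fl s(v, w) x) - U (fl s(v, u) (fl s(v, w) x))))
        · exact fun w => nw_nonneg hm0 _ _
        · exact fun w => nw_nonneg hm0 _ _
        · exact fun w => nw_nonneg hm0 _ _
        · exact fun w u => nw_nonneg hm0 _ _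
        · exact fun w u => nw_nonneg hm0 _ _
        · exact fun w u => nw_nonneg hm0 _ _
        · exact fun w u => nw_nonneg hm0 _ _
        · exact fun w u => nw_nonneg hm0 _ _
        · exact fun w => hU1 _ _
        · intro w
          have := nw_le hm1 w (U (fl s(v, w) x) - U x)
          have h2 := nn_sub_le (U (fl s(v, w) x)) (U x)
          linarith [hU x, hU (fl s(v, w) x)]
        · exact fun w u => hU1 _ _
        · exact fun w u => hU1 _ _
        · exact fun w => nw_tri' hm0 w _ _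
        · intro w u _
          have := nw_tri hm0 w (U (fl s(v, w) x)) (U (fl s(v, u) (fl s(v, w) x)))
          rwa [nw_symm] at this
        · intro w u _
          have := nw_tri hm0 u (U (fl s(v, u) x)) (U (fl s(v, u) (fl s(v, w) x)))
          rwa [nw_symm] at this
        · intro w u _
          have := nw_tri hm0 u (U (fl s(v, u) (fl s(v, w) x))) (U (fl s(v, w) x))
          rwa [nw_symm] at this
        · intro w u _
          exact nw_tri hm0 w (U (fl s(v, u) (fl s(v, w) x))) (U (fl s(v, w) x))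
        · exact (sum_nw_sub hm0 hm2 _ _).trans (by linarith [hU x])
        · exact fun w => (sum_nw_sub hm0 hm2 _ _).trans (by linarith [hU (fl s(v, w) x)])
      have hv2 : ∀ v, a v x * (∑ w ∈ Nb S v, nw m w (U (fl s(v, w) x) - U x)) ^ 2
          ≤ 8 * (a v x * ∑ w ∈ Nb S v, nw m w (U (fl s(v, w) x) - U x))
            + 136 * (a v x * ∑ w ∈ Nb S v, nw m w (U (fl s(v, w) x)))
            + ∑ w ∈ Nb S v, ∑ u ∈ Nb S v,
              (72 * nw m w (U (fl s(v, u) (fl s(v, w) x)) - U (fl s(v, w) x))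
              + 16 * nw m u (U (fl s(v, u) (fl s(v, w) x)) - U (fl s(v, u) x))
              + 32 * (nw m w (U (fl s(v, u) (fl s(v, w) x))) *
              nw m u (U (fl s(v, w) x) - U (fl s(v, u) (fl s(v, w) x))))) := by
        intro v
        have e1 := mul_le_mul_of_nonneg_left (hv v) (ha0 v x)
        have e2 : 0 ≤ ∑ w ∈ Nb S v, ∑ u ∈ Nb S v,
              (72 * nw m w (U (fl s(v, u) (fl s(v, w) x)) - U (fl s(v, w) x))
              + 16 * nw m u (U (fl s(v, u) (fl s(v, w) x)) - U (fl s(v, u) x))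
              + 32 * (nw m w (U (fl s(v, u) (fl s(v, w) x))) *
              nw m u (U (fl s(v, w) x) - U (fl s(v, u) (fl s(v, w) x))))) := by
          refine sum_nonneg fun w _ => sum_nonneg fun u _ => ?_
          have f1 := nw_nonneg hm0 w (U (fl s(v, u) (fl s(v, w) x)) - U (fl s(v, w) x))
          have f2 := nw_nonneg hm0 u (U (fl s(v, u) (fl s(v, w) x)) - U (fl s(v, u) x))
          have f3 := mul_nonneg (nw_nonneg hm0 w (U (fl s(v, u) (fl s(v, w) x))))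
            (nw_nonneg hm0 u (U (fl s(v, w) x) - U (fl s(v, u) (fl s(v, w) x))))
          linarith
        have e3 := mul_le_mul_of_nonneg_right (hav v x) e2
        nlinarith
      refine (sum_le_sum fun v _ => hv2 v).trans (le_of_eq ?_)
      simp only [sum_add_distrib, mul_sum]
    refine (Ev_mono hpt).trans ?_
    rw [Ev_add, Ev_add, Ev_add, Ev_add, Ev_mul_left, Ev_mul_left, Ev_mul_left, Ev_mul_left,
      Ev_mul_left]
    have t1 := triple1 S U m hm0 hm2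
    have t2 := triple2 S U m hm0 hm2
    have t3 := triple3 S U m hU hm0 hm1 hm2
    rw [← hW] at t1 t2 t3
    have e1 : (Ev fun x => ∑ v, a v x * ∑ w ∈ Nb S v, nw m w (U (fl s(v, w) x) - U x)) = T' := rfl
    have e2 : (Ev fun x => ∑ v, a v x * ∑ w ∈ Nb S v, nw m w (U (fl s(v, w) x))) = T := rfl
    rw [e1, e2]
    linarith
  -- solve the quadratic inequality
  set s : ℝ := 11 * (θ * W + 1 / θ) with hs
  have hs2 : 484 * W ≤ s ^ 2 := by
    have h1 : θ * W * (1 / θ) = W := by field_simp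
    have h2 : 4 * (θ * W * (1 / θ)) ≤ (θ * W + 1 / θ) ^ 2 := by
      nlinarith [sq_nonneg (θ * W - 1 / θ)]
    rw [h1] at h2
    rw [hs]
    nlinarith
  have hs0 : 0 ≤ s := by rw [hs]; positivity
  have hT'le : T' ≤ 304 + s := by
    by_contra hcon
    push Not at hcon
    have h1 : T' ^ 2 ≤ 280 * T' + 544 + 480 * W := by linarith
    nlinarith
  have : 22 * (θ * W + 1 / θ) = 2 * s := by rw [hs]; ring
  rw [this]
  linarith

end Pool.Agent.H297.SF
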