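import Mathlib
import Pool.Agent.H297.KSq

set_option autoImplicit false
set_option linter.unusedSectionVars false

open Finset

namespace Pool.Agent.H297.SF

variable {V : Type*} [DecidableEq V] [Fintype V]

/-- Number of elements of `T` containing `v`. -/
def dg (v : V) (T : Finset (Sym2 V)) : ℕ := (T.filter fun e => v ∈ e).card

/-- Fraction of elements of `T` containing `v`. -/
noncomputable def wdeg (v : V) (T : Finset (Sym2 V)) : ℝ := (dg v T : ℝ) / (T.card : ℝ)

/-- Share of the Fourier energy at vertex `v`. -/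
noncomputable def Phi (f : Finset (Sym2 V) → ℝ) (v : V) (R x : Finset (Sym2 V)) : ℝ :=
  Sw f (wdeg v) R x

/-- Variance-type quantity. -/
noncomputable def Vr (f : Finset (Sym2 V) → ℝ) (R x : Finset (Sym2 V)) : ℝ :=
  Sw f (fun T => if T = ∅ then 0 else 1) R x

/-- (Signed) influence. -/
noncomputable def dl (f : Finset (Sym2 V) → ℝ) (R x : Finset (Sym2 V)) (e : Sym2 V) : ℝ :=
  2 * coef f R x {e}

/-- Average of `Phi` over the two values of coordinate `e`. -/
noncomputable def Am (f : Finset (Sym2 V) → ℝ) (R x : Finset (Sym2 V)) (e : Sym2 V) (v : V) : ℝ :=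
  (Phi f v (R.erase e) x + Phi f v (R.erase e) (fl e x)) / 2

lemma Vr_eq (f : Finset (Sym2 V) → ℝ) (hf : ∀ x, f x = 0 ∨ f x = 1) (R x : Finset (Sym2 V)) :
    Vr f R x = 4 * (coef f R x ∅ - coef f R x ∅ ^ 2) := by
  have h1 := parseval f hf R x
  have h2 : Sw f (fun _ => 1) R x = Vr f R x + 4 * coef f R x ∅ ^ 2 := by
    unfold Vr Sw
    rw [← mul_add]
    congr 1
    have h3 : ∑ T ∈ R.powerset, (if T = ∅ then coef f R x T ^ 2 else 0) = coef f R x ∅ ^ 2 := by
      rw [sum_ite_eq' R.powerset ∅ (fun T => coef f R x T ^ 2), if_pos (empty_mem_powerset R)]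
    rw [← h3, ← sum_add_distrib]
    refine sum_congr rfl fun T _ => ?_
    beta_reduce
    by_cases hT : T = ∅
    · rw [if_pos hT, if_pos hT]; ring
    · rw [if_neg hT, if_neg hT]; ring
  linarith

lemma Vr_le_one (f : Finset (Sym2 V) → ℝ) (hf : ∀ x, f x = 0 ∨ f x = 1)
    (R x : Finset (Sym2 V)) : Vr f R x ≤ 1 := by
  rw [Vr_eq f hf]
  nlinarith [sq_nonneg (2 * coef f R x ∅ - 1)]

lemma Vr_nonneg (f : Finset (Sym2 V) → ℝ) (R x : Finset (Sym2 V)) : 0 ≤ Vr f R x := by
  unfold Vr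
  refine Sw_nonneg x fun T _ => ?_
  split_ifs <;> norm_num

lemma sum_single (g : Finset (Sym2 V) → ℝ) (R : Finset (Sym2 V)) :
    ∑ T ∈ R.powerset, (if T.card = 1 then g T else 0) = ∑ e ∈ R, g {e} := by
  rw [← sum_filter]
  symm
  refine sum_bij (fun e _ => {e}) ?_ ?_ ?_ ?_
  · intro e he
    rw [mem_filter, mem_powerset, singleton_subset_iff]
    exact ⟨he, card_singleton _⟩
  · intro e _ e' _ h
    exact singleton_injective h
  · intro T hT
    rw [mem_filter, mem_powerset] at hT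
    obtain ⟨e, rfl⟩ := card_eq_one.1 hT.2
    exact ⟨e, singleton_subset_iff.1 hT.1, rfl⟩
  · intro e _; rfl

lemma sum_dl_sq_le (f : Finset (Sym2 V) → ℝ) (R x : Finset (Sym2 V)) :
    ∑ e ∈ R, dl f R x e ^ 2 ≤ Vr f R x := by
  have h1 : ∑ e ∈ R, dl f R x e ^ 2
      = Sw f (fun T => if T.card = 1 then 1 else 0) R x := by
    unfold Sw dl
    have h2 := sum_single (fun T => coef f R x T ^ 2) R
    rw [← mul_sum_of_eq h2]
    rw [mul_sum]
    refine sum_congr rfl fun e _ => ?_
    ring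
  rw [h1]
  unfold Vr
  refine Sw_mono x fun T _ => ?_
  by_cases h : T = ∅
  · subst h; simp
  · rw [if_neg h]
    split_ifs <;> norm_num
where
  mul_sum_of_eq {R : Finset (Sym2 V)} {f : Finset (Sym2 V) → ℝ} {x : Finset (Sym2 V)}
      (h2 : ∑ T ∈ R.powerset, (if T.card = 1 then coef f R x T ^ 2 else 0)
        = ∑ e ∈ R, coef f R x {e} ^ 2) :
      4 * ∑ e ∈ R, coef f R x {e} ^ 2
        = 4 * ∑ T ∈ R.powerset, (if T.card = 1 then (1:ℝ) else 0) * coef f R x T ^ 2 := by
    rw [← h2]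
    congr 1
    refine sum_congr rfl fun T _ => ?_
    split_ifs <;> ring

lemma Vr_half (f : Finset (Sym2 V) → ℝ) {R : Finset (Sym2 V)} {e : Sym2 V} (x : Finset (Sym2 V))
    (he : e ∈ R) :
    (Vr f (R.erase e) x + Vr f (R.erase e) (fl e x)) / 2 = Vr f R x - dl f R x e ^ 2 := by
  unfold Vr
  rw [Sw_half f _ x he]
  unfold Sw dl
  have h1 : ∑ T ∈ R.powerset, (if T = {e} then coef f R x T ^ 2 else 0) = coef f R x {e} ^ 2 := by
    rw [sum_ite_eq' R.powerset {e} (fun T => coef f R x T ^ 2),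
      if_pos (mem_powerset.2 (singleton_subset_iff.2 he))]
  have h2 : ∑ T ∈ R.powerset, (if T.erase e = ∅ then 0 else 1) * coef f R x T ^ 2
      + ∑ T ∈ R.powerset, (if T = {e} then coef f R x T ^ 2 else 0)
      = ∑ T ∈ R.powerset, (if T = ∅ then 0 else 1) * coef f R x T ^ 2 := by
    rw [← sum_add_distrib]
    refine sum_congr rfl fun T _ => ?_
    by_cases hT0 : T = ∅
    · subst hT0
      simp
    · by_cases hT : T = {e}
      · subst hT
        simp
      · have h3 : T.erase e ≠ ∅ := by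
          intro h
          rw [erase_eq_empty_iff] at h
          tauto
        rw [if_neg h3, if_neg hT, if_neg hT0]
        ring
  rw [h1] at h2
  rw [← h2]; ring

lemma dg_le_card (v : V) (T : Finset (Sym2 V)) : dg v T ≤ T.card := card_filter_le _ _

lemma wdeg_nonneg (v : V) (T : Finset (Sym2 V)) : 0 ≤ wdeg v T := by
  unfold wdeg; positivity

lemma wdeg_le_one (v : V) (T : Finset (Sym2 V)) : wdeg v T ≤ 1 := by
  unfold wdeg
  apply div_le_one_of_le₀ _ (by positivity)
  exact_mod_cast dg_le_card v T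

lemma wdeg_empty (v : V) : wdeg v (∅ : Finset (Sym2 V)) = 0 := by
  unfold wdeg; simp

lemma card_mem_le_two (e : Sym2 V) : (univ.filter fun v : V => v ∈ e).card ≤ 2 := by
  induction e using Sym2.ind with
  | _ a b =>
    refine (card_le_card (t := {a, b}) ?_).trans card_le_two
    intro v hv
    have := (mem_filter.1 hv).2
    rw [Sym2.mem_iff] at this
    simpa using this

lemma sum_dg_le (T : Finset (Sym2 V)) : ∑ v, dg v T ≤ 2 * T.card := by
  have h1 : ∑ v, dg v T = ∑ e ∈ T, (univ.filter fun v : V => v ∈ e).card := by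
    unfold dg
    simp only [card_filter]
    rw [sum_comm]
  rw [h1]
  calc ∑ e ∈ T, (univ.filter fun v : V => v ∈ e).card ≤ ∑ _e ∈ T, 2 :=
        sum_le_sum fun e _ => card_mem_le_two e
    _ = 2 * T.card := by rw [sum_const, smul_eq_mul, mul_comm]

lemma sum_wdeg_le (T : Finset (Sym2 V)) : ∑ v, wdeg v T ≤ 2 * (if T = ∅ then 0 else 1) := by
  by_cases h : T = ∅
  · subst h
    rw [if_pos rfl]
    simp [wdeg_empty]
  · rw [if_neg h]
    unfold wdeg
    rw [← sum_div]
    have hpos : (0 : ℝ) < T.card := by exact_mod_cast card_pos.2 (nonempty_iff_ne_empty.2 h)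
    rw [div_le_iff₀ hpos]
    have := sum_dg_le T
    have h2 : ((∑ v, dg v T : ℕ) : ℝ) ≤ ((2 * T.card : ℕ) : ℝ) := by exact_mod_cast this
    push_cast at h2
    linarith

lemma Phi_nonneg (f : Finset (Sym2 V) → ℝ) (v : V) (R x : Finset (Sym2 V)) :
    0 ≤ Phi f v R x := Sw_nonneg x fun T _ => wdeg_nonneg v T

lemma sum_Phi_le (f : Finset (Sym2 V) → ℝ) (R x : Finset (Sym2 V)) :
    ∑ v, Phi f v R x ≤ 2 * Vr f R x := by
  unfold Phi Vr
  rw [Sw_sum]
  have h1 : 2 * Sw f (fun T => if T = ∅ then 0 else 1) R x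
      = Sw f (fun T => 2 * (if T = ∅ then 0 else 1)) R x := by
    unfold Sw
    rw [← mul_assoc, mul_comm 2 4, mul_assoc, mul_sum (a := (2:ℝ))]
    congr 1
    refine sum_congr rfl fun T _ => ?_
    ring
  rw [h1]
  exact Sw_mono x fun T _ => sum_wdeg_le T

lemma Phi_le_Vr (f : Finset (Sym2 V) → ℝ) (v : V) (R x : Finset (Sym2 V)) :
    Phi f v R x ≤ Vr f R x := by
  refine Sw_mono x fun T _ => ?_
  by_cases h : T = ∅
  · subst h; rw [wdeg_empty, if_pos rfl]
  · rw [if_neg h]; exact wdeg_le_one v T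

lemma Am_eq (f : Finset (Sym2 V) → ℝ) {R : Finset (Sym2 V)} {e : Sym2 V} (x : Finset (Sym2 V))
    (v : V) (he : e ∈ R) : Am f R x e v = Sw f (fun T => wdeg v (T.erase e)) R x :=
  Sw_half f _ x he

lemma Am_nonneg (f : Finset (Sym2 V) → ℝ) (R x : Finset (Sym2 V)) (e : Sym2 V) (v : V) :
    0 ≤ Am f R x e v := by
  unfold Am
  have := Phi_nonneg f v (R.erase e) x
  have := Phi_nonneg f v (R.erase e) (fl e x)
  linarith

lemma dg_erase (v : V) {T : Finset (Sym2 V)} {e : Sym2 V} (he : e ∈ T) :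
    (dg v (T.erase e) : ℝ) = dg v T - (if v ∈ e then 1 else 0) := by
  have h1 : dg v T = dg v (T.erase e) + (if v ∈ e then 1 else 0) := by
    unfold dg
    conv_lhs => rw [← insert_erase he, filter_insert]
    by_cases hv : v ∈ e
    · rw [if_pos hv, if_pos hv, card_insert_of_notMem]
      simp
    · rw [if_neg hv, if_neg hv, add_zero]
  rw [h1]
  push_cast
  ring

lemma Am_le_Phi (f : Finset (Sym2 V) → ℝ) {R : Finset (Sym2 V)} {e : Sym2 V}
    (x : Finset (Sym2 V)) {v : V} (he : e ∈ R) (hv : v ∈ e) :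
    Am f R x e v ≤ Phi f v R x := by
  rw [Am_eq f x v he]
  refine Sw_mono x fun T _ => ?_
  by_cases heT : e ∈ T
  · unfold wdeg
    have h1 := dg_erase v heT
    rw [if_pos hv] at h1
    have h2 : ((T.erase e).card : ℝ) = T.card - 1 := by
      rw [card_erase_of_mem heT, Nat.cast_sub (card_pos.2 ⟨e, heT⟩)]; simp
    rw [h1, h2]
    have h3 : (dg v T : ℝ) ≤ T.card := by exact_mod_cast dg_le_card v T
    have h4 : (1 : ℝ) ≤ T.card := by exact_mod_cast card_pos.2 ⟨e, heT⟩
    rcases eq_or_lt_of_le h4 with h5 | h5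
    · rw [← h5]; simp
    · rw [div_le_div_iff₀ (by linarith) (by linarith)]
      nlinarith
  · rw [erase_eq_of_notMem heT]

lemma sum_wdeg_erase (v : V) {R T : Finset (Sym2 V)} (hT : T ⊆ R) :
    ∑ e ∈ R, wdeg v (T.erase e)
      = R.card * wdeg v T - (if T.card = 1 then (dg v T : ℝ) else 0) := by
  have h1 : ∑ e ∈ R, wdeg v (T.erase e)
      = ∑ e ∈ T, wdeg v (T.erase e) + ∑ e ∈ R \ T, wdeg v (T.erase e) := by
    rw [add_comm, sum_sdiff hT]
  have h2 : ∑ e ∈ R \ T, wdeg v (T.erase e) = (R.card - T.card) * wdeg v T := by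
    have : ∀ e ∈ R \ T, wdeg v (T.erase e) = wdeg v T := by
      intro e he
      rw [erase_eq_of_notMem (mem_sdiff.1 he).2]
    rw [sum_congr rfl this, sum_const, nsmul_eq_mul, card_sdiff_of_subset hT,
      Nat.cast_sub (card_le_card hT)]
  have h3 : ∑ e ∈ T, wdeg v (T.erase e)
      = (∑ e ∈ T, ((dg v T : ℝ) - (if v ∈ e then 1 else 0))) / ((T.card : ℝ) - 1) := by
    rw [sum_div]
    refine sum_congr rfl fun e he => ?_
    unfold wdeg
    have h4 : ((T.erase e).card : ℝ) = T.card - 1 := by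
      rw [card_erase_of_mem he, Nat.cast_sub (card_pos.2 ⟨e, he⟩)]; simp
    rw [dg_erase v he, h4]
  have h5 : ∑ e ∈ T, ((dg v T : ℝ) - (if v ∈ e then 1 else 0))
      = T.card * dg v T - dg v T := by
    rw [sum_sub_distrib, sum_const, nsmul_eq_mul]
    congr 1
    unfold dg
    rw [card_filter]
    push_cast
    rfl
  rw [h1, h2, h3, h5]
  rcases Nat.lt_trichotomy T.card 1 with h | h | h
  · have h0 : T.card = 0 := by omega
    have : T = ∅ := card_eq_zero.1 h0
    subst this
    rw [wdeg_empty]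
    simp [dg]
  · rw [if_pos h, h]
    unfold wdeg
    rw [h]
    push_cast
    ring
  · rw [if_neg (by omega)]
    have h6 : (1 : ℝ) < T.card := by exact_mod_cast h
    unfold wdeg
    have h7 : (T.card : ℝ) - 1 ≠ 0 := by linarith
    have h8 : (T.card : ℝ) ≠ 0 := by linarith
    field_simp
    ring

lemma sum_Am (f : Finset (Sym2 V) → ℝ) (R x : Finset (Sym2 V)) (v : V) :
    ∑ e ∈ R, Am f R x e v = R.card * Phi f v R x
      - ∑ e ∈ R, (if v ∈ e then dl f R x e ^ 2 else 0) := by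
  have h1 : ∑ e ∈ R, Am f R x e v = Sw f (fun T => ∑ e ∈ R, wdeg v (T.erase e)) R x := by
    rw [← Sw_sum]
    exact sum_congr rfl fun e he => Am_eq f x v he
  have h2 : ∑ e ∈ R, (if v ∈ e then dl f R x e ^ 2 else 0)
      = 4 * ∑ T ∈ R.powerset, (if T.card = 1 then (dg v T : ℝ) else 0) * coef f R x T ^ 2 := by
    have h3 := sum_single (fun T => (dg v T : ℝ) * coef f R x T ^ 2) R
    have h4 : ∑ T ∈ R.powerset, (if T.card = 1 then (dg v T : ℝ) else 0) * coef f R x T ^ 2
        = ∑ T ∈ R.powerset, (if T.card = 1 then (dg v T : ℝ) * coef f R x T ^ 2 else 0) := by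
      refine sum_congr rfl fun T _ => ?_
      split_ifs <;> ring
    rw [h4, h3, mul_sum]
    refine sum_congr rfl fun e _ => ?_
    unfold dl dg
    rw [filter_singleton]
    split_ifs
    · rw [card_singleton]; push_cast; ring
    · rw [card_empty]; push_cast; ring
  rw [h1, h2]
  unfold Phi Sw
  have h5 : ∑ T ∈ R.powerset, (∑ e ∈ R, wdeg v (T.erase e)) * coef f R x T ^ 2
      = ∑ T ∈ R.powerset, ((R.card * wdeg v T - (if T.card = 1 then (dg v T : ℝ) else 0))
        * coef f R x T ^ 2) := by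
    refine sum_congr rfl fun T hT => ?_
    rw [sum_wdeg_erase v (mem_powerset.1 hT)]
  rw [h5]
  simp only [sub_mul, sum_sub_distrib]
  rw [mul_sub]
  congr 1
  rw [mul_sum, mul_sum, mul_sum]
  refine sum_congr rfl fun T _ => ?_
  ring

end Pool.Agent.H297.SF
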