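import Mathlib
import Pool.Agent.H297.PhiFacts
import Pool.Agent.H297.CycleProb

set_option autoImplicit false
set_option linter.unusedSectionVars false

open Finset

namespace Pool.Agent.H297.SF

variable {V : Type*} [DecidableEq V] [Fintype V]

/-- Symmetrised form of the `K²` lemma. -/
theorem pair_bound {ι : Type*} [Fintype ι] (S : Finset (Sym2 V)) (a : V → Finset (Sym2 V) → ℝ)
    (ha0 : ∀ v x, 0 ≤ a v x)
    (ha1 : ∀ x, ∑ v, a v x ≤ 1) (U : Finset (Sym2 V) → ι → ℝ) (hU : ∀ x, nn (U x) ≤ 1)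
    (m : V → ι → ℝ) (hm0 : ∀ w i, 0 ≤ m w i) (hm1 : ∀ w i, m w i ≤ 1)
    (hm2 : ∀ i, ∑ w, m w i ≤ 2) (θ : ℝ) (hθ : 0 < θ) :
    Ev (fun x => ∑ v, ∑ u ∈ Nb S v, (a v x + a v (fl s(v, u) x)) / 2 *
      ((nw m u (U x) + nw m u (U (fl s(v, u) x))) / 2)) ≤ 351 + 11 * (θ * Wen S U + 1 / θ) := by
  have h1 : Ev (fun x => ∑ v, ∑ u ∈ Nb S v, (a v x + a v (fl s(v, u) x)) / 2 *
      ((nw m u (U x) + nw m u (U (fl s(v, u) x))) / 2))
      = Ev (fun x => (1 / 2) * ∑ v, a v x * ∑ u ∈ Nb S v, nw m u (U x)) + (1 / 2) * Tq S a U m := by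
    unfold Tq
    rw [← Ev_mul_left, ← Ev_add, Ev_sum]
    have e1 : (fun x => (1 / 2) * ∑ v, a v x * ∑ u ∈ Nb S v, nw m u (U x)
        + 1 / 2 * ∑ v, a v x * ∑ w ∈ Nb S v, nw m w (U (fl s(v, w) x)))
        = fun x => ∑ v, ∑ u ∈ Nb S v, ((1 / 2) * (a v x * nw m u (U x)
          + a v x * nw m u (U (fl s(v, u) x)))) := by
      ext x
      rw [mul_sum, mul_sum, ← sum_add_distrib]
      refine sum_congr rfl fun v _ => ?_
      rw [← mul_sum, sum_add_distrib, ← mul_sum, ← mul_sum]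
      ring
    rw [e1, Ev_sum]
    refine sum_congr rfl fun v _ => ?_
    rw [Ev_sum, Ev_sum]
    refine sum_congr rfl fun u _ => ?_
    have e2 := Ev_half s(v, u) (fun x => (1 / 2) * (a v x * nw m u (U x)
          + a v x * nw m u (U (fl s(v, u) x))))
    rw [← e2]
    congr 1
    ext x
    rw [fl_fl]
    ring
  rw [h1]
  have h2 : Ev (fun x => (1 / 2) * ∑ v, a v x * ∑ u ∈ Nb S v, nw m u (U x)) ≤ 1 := by
    have : Ev (fun x => (1 / 2) * ∑ v, a v x * ∑ u ∈ Nb S v, nw m u (U x))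
        ≤ Ev (fun _ : Finset (Sym2 V) => (1 : ℝ)) := by
      refine Ev_mono fun x => ?_
      have h3 : ∑ v, a v x * ∑ u ∈ Nb S v, nw m u (U x) ≤ ∑ v, a v x * 2 := by
        refine sum_le_sum fun v _ => mul_le_mul_of_nonneg_left ?_ (ha0 v x)
        exact (sum_nw_sub hm0 hm2 _ _).trans (by linarith [hU x])
      rw [← sum_mul] at h3
      linarith [ha1 x]
    rwa [Ev_const] at this
  have h3 := ksq S a ha0 ha1 U hU m hm0 hm1 hm2 θ hθ
  linarith

/-- Exchange between choosing an `(r+1)`-set with a marked element and an `r`-set with a marked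
outside element. -/
lemma exchange {α ι : Type*} [DecidableEq α] (E0 : Finset α) (I : Finset ι) (ε : ι → α)
    (h : ι → Finset α → ℝ) (r : ℕ) :
    ∑ R ∈ E0.powersetCard (r + 1), ∑ i ∈ I, (if ε i ∈ R then h i R else 0)
      = ∑ R ∈ E0.powersetCard r, ∑ i ∈ I, (if ε i ∈ E0 \ R then h i (insert (ε i) R) else 0) := by
  rw [sum_comm, sum_comm (s := E0.powersetCard r)]
  refine sum_congr rfl fun i _ => ?_
  rw [← sum_filter, ← sum_filter]
  refine sum_bij' (fun R _ => R.erase (ε i)) (fun R _ => insert (ε i) R) ?_ ?_ ?_ ?_ ?_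
  · intro R hR
    rw [mem_filter, mem_powersetCard] at hR
    obtain ⟨⟨hsub, hcard⟩, hmem⟩ := hR
    rw [mem_filter, mem_powersetCard, mem_sdiff]
    refine ⟨⟨(erase_subset _ _).trans hsub, ?_⟩, hsub hmem, notMem_erase _ _⟩
    rw [card_erase_of_mem hmem, hcard]; rfl
  · intro R hR
    rw [mem_filter, mem_powersetCard, mem_sdiff] at hR
    obtain ⟨⟨hsub, hcard⟩, hmem, hnot⟩ := hR
    rw [mem_filter, mem_powersetCard]
    refine ⟨⟨insert_subset hmem hsub, ?_⟩, mem_insert_self _ _⟩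
    rw [card_insert_of_notMem hnot, hcard]
  · intro R hR
    rw [mem_filter] at hR
    exact insert_erase hR.2
  · intro R hR
    rw [mem_filter, mem_sdiff] at hR
    exact erase_insert hR.2.2
  · intro R hR
    rw [mem_filter] at hR
    rw [insert_erase hR.2]

/-- Sum over `r`-subsets of `E0` of the averages. -/
noncomputable def As (E0 : Finset (Sym2 V)) (r : ℕ)
    (g : Finset (Sym2 V) → Finset (Sym2 V) → ℝ) : ℝ :=
  ∑ R ∈ E0.powersetCard r, Ev (g R)

lemma As_add (E0 : Finset (Sym2 V)) (r : ℕ) (g h : Finset (Sym2 V) → Finset (Sym2 V) → ℝ) :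
    As E0 r (fun R x => g R x + h R x) = As E0 r g + As E0 r h := by
  unfold As
  rw [← sum_add_distrib]
  exact sum_congr rfl fun R _ => Ev_add _ _

lemma As_mul (E0 : Finset (Sym2 V)) (r : ℕ) (c : ℝ)
    (g : Finset (Sym2 V) → Finset (Sym2 V) → ℝ) :
    As E0 r (fun R x => c * g R x) = c * As E0 r g := by
  unfold As
  rw [mul_sum]
  exact sum_congr rfl fun R _ => Ev_mul_left _ _

lemma As_mono (E0 : Finset (Sym2 V)) (r : ℕ) {g h : Finset (Sym2 V) → Finset (Sym2 V) → ℝ}
    (H : ∀ R, R ⊆ E0 → R.card = r → ∀ x, g R x ≤ h R x) : As E0 r g ≤ As E0 r h := by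
  unfold As
  refine sum_le_sum fun R hR => Ev_mono fun x => ?_
  rw [mem_powersetCard] at hR
  exact H R hR.1 hR.2 x

lemma As_congr (E0 : Finset (Sym2 V)) (r : ℕ) {g h : Finset (Sym2 V) → Finset (Sym2 V) → ℝ}
    (H : ∀ R, R ⊆ E0 → R.card = r → ∀ x, g R x = h R x) : As E0 r g = As E0 r h := by
  unfold As
  refine sum_congr rfl fun R hR => ?_
  rw [mem_powersetCard] at hR
  congr 1
  ext x
  exact H R hR.1 hR.2 x

lemma As_const (E0 : Finset (Sym2 V)) (r : ℕ) (c : ℝ) :
    As E0 r (fun _ _ => c) = (E0.card.choose r : ℝ) * c := by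
  unfold As
  simp only [Ev_const]
  rw [sum_const, nsmul_eq_mul, card_powersetCard]

/-- Erasing a random element of a random `(r+1)`-set. -/
lemma As_erase (E0 : Finset (Sym2 V)) (r : ℕ) (g : Finset (Sym2 V) → Finset (Sym2 V) → ℝ) :
    As E0 (r + 1) (fun R x => ∑ e ∈ R, g (R.erase e) x) = ((E0.card : ℝ) - r) * As E0 r g := by
  unfold As
  simp only [Ev_sum]
  have h1 : ∀ R ∈ E0.powersetCard (r + 1), ∑ e ∈ R, Ev (g (R.erase e))
      = ∑ e ∈ E0, (if e ∈ R then Ev (g (R.erase e)) else 0) := by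
    intro R hR
    rw [← sum_filter]
    congr 1
    rw [filter_mem_eq_inter]
    exact (inter_eq_right.2 (mem_powersetCard.1 hR).1).symm
  rw [sum_congr rfl h1]
  have h2 := exchange E0 E0 (fun e => e) (fun e R => Ev (g (R.erase e))) r
  rw [h2, mul_sum]
  refine sum_congr rfl fun R hR => ?_
  rw [mem_powersetCard] at hR
  have h3 : ∀ e ∈ E0, (if e ∈ E0 \ R then Ev (g ((insert e R).erase e)) else 0)
      = if e ∈ E0 \ R then Ev (g R) else 0 := by
    intro e _
    split_ifs with h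
    · rw [erase_insert (mem_sdiff.1 h).2]
    · rfl
  rw [sum_congr rfl h3, ← sum_filter, sum_const, nsmul_eq_mul]
  congr 1
  have h4 : E0.filter (fun e => e ∈ E0 \ R) = E0 \ R := by
    ext e
    rw [mem_filter, mem_sdiff]
    tauto
  rw [h4, card_sdiff_of_subset hR.1, Nat.cast_sub (card_le_card hR.1), hR.2]

lemma dl_avg (f : Finset (Sym2 V) → ℝ) {R : Finset (Sym2 V)} {e e' : Sym2 V}
    (x : Finset (Sym2 V)) (he : e ∉ R) (hne : e' ≠ e) :
    dl f (insert e R) x e' = (dl f R x e' + dl f R (fl e x) e') / 2 := by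
  unfold dl
  have hT : e ∉ ({e'} : Finset (Sym2 V)) := by
    rw [mem_singleton]; exact fun h => hne h.symm
  have h1 := coef_erase f x (mem_insert_self e R) hT
  have h2 := coef_erase_fl f x (mem_insert_self e R) hT
  rw [erase_insert he] at h1 h2
  rw [h1, h2]; ring

lemma dl_diff (f : Finset (Sym2 V) → ℝ) {R : Finset (Sym2 V)} {e e' : Sym2 V}
    (x : Finset (Sym2 V)) (he : e ∉ R) (hne : e' ≠ e) :
    (dl f R (fl e x) e' - dl f R x e') ^ 2 = 16 * coef f (insert e R) x {e, e'} ^ 2 := by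
  unfold dl
  have hT : e ∉ ({e'} : Finset (Sym2 V)) := by
    rw [mem_singleton]; exact fun h => hne h.symm
  have h1 := coef_erase f x (mem_insert_self e R) hT
  have h2 := coef_erase_fl f x (mem_insert_self e R) hT
  rw [erase_insert he] at h1 h2
  rw [h1, h2]
  have h3 : insert e {e'} = ({e, e'} : Finset (Sym2 V)) := rfl
  rw [h3]
  have h4 := sg_sq e x
  have : (2 * (coef f (insert e R) x {e'} - sg e x * coef f (insert e R) x {e, e'})
      - 2 * (coef f (insert e R) x {e'} + sg e x * coef f (insert e R) x {e, e'})) ^ 2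
      = 16 * (sg e x ^ 2) * coef f (insert e R) x {e, e'} ^ 2 := by ring
  rw [this, h4]; ring

lemma dl_zero (f : Finset (Sym2 V) → ℝ) {R : Finset (Sym2 V)} {e : Sym2 V}
    (x : Finset (Sym2 V)) (he : e ∉ R) : dl f R x e = 0 := by
  unfold dl
  rw [coef_zero f x (by rw [singleton_subset_iff]; exact he), mul_zero]

lemma nn_dl (f : Finset (Sym2 V) → ℝ) (R x : Finset (Sym2 V)) :
    nn (fun e => dl f R x e) = ∑ e ∈ R, dl f R x e ^ 2 := by
  unfold nn
  symm
  apply sum_subset (subset_univ R)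
  intro e _ he
  rw [dl_zero f x he]; ring

/-- Second-level Fourier weight. -/
lemma level_two (f : Finset (Sym2 V) → ℝ) (R x : Finset (Sym2 V)) :
    ∑ e ∈ R, ∑ e' ∈ R.erase e, 16 * coef f R x {e, e'} ^ 2 ≤ 8 * Vr f R x := by
  have h1 : ∀ e ∈ R, ∑ e' ∈ R.erase e, 16 * coef f R x {e, e'} ^ 2
      ≤ ∑ T ∈ R.powerset, (if e ∈ T then (if T.card = 2 then 16 * coef f R x T ^ 2 else 0)
        else 0) := by
    intro e he
    have h2 : ∑ e' ∈ R.erase e, 16 * coef f R x {e, e'} ^ 2
        = ∑ T ∈ (R.erase e).image (fun e' => ({e, e'} : Finset (Sym2 V))),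
          16 * coef f R x T ^ 2 := by
      rw [sum_image]
      intro a ha b hb hab
      have ha' : a ≠ e := (mem_erase.1 ha).1
      have hb' : b ≠ e := (mem_erase.1 hb).1
      simp only at hab
      have : a ∈ ({e, b} : Finset (Sym2 V)) := by rw [← hab]; simp
      rw [mem_insert, mem_singleton] at this
      tauto
    rw [h2, ← sum_filter, ← sum_filter]
    apply sum_le_sum_of_subset_of_nonneg
    · intro T hT
      obtain ⟨a, ha, rfl⟩ := mem_image.1 hT
      rw [mem_filter, mem_filter, mem_powerset]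
      rw [mem_erase] at ha
      refine ⟨⟨?_, by simp⟩, card_pair (fun h => ha.1 h.symm)⟩
      intro b hb
      rw [mem_insert, mem_singleton] at hb
      rcases hb with rfl | rfl
      · exact he
      · exact ha.2
    · intro T _ _
      positivity
  refine (sum_le_sum h1).trans ?_
  rw [sum_comm]
  have h3 : ∀ T ∈ R.powerset, ∑ e ∈ R, (if e ∈ T then (if T.card = 2 then
      16 * coef f R x T ^ 2 else 0) else 0) ≤ 8 * (4 * ((if T = ∅ then 0 else 1)
        * coef f R x T ^ 2)) := by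
    intro T hT
    rw [← sum_filter, sum_const, nsmul_eq_mul]
    have h4 : R.filter (fun e => e ∈ T) = T := by
      rw [filter_mem_eq_inter]
      exact inter_eq_right.2 (mem_powerset.1 hT)
    rw [h4]
    by_cases hc : T.card = 2
    · have h5 : T ≠ ∅ := by
        rintro rfl
        simp at hc
      rw [if_pos hc, if_neg h5, hc]
      push_cast
      linarith
    · rw [if_neg hc, mul_zero]
      have := sq_nonneg (coef f R x T)
      split_ifs
      · linarith
      · linarith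
  refine (sum_le_sum h3).trans ?_
  unfold Vr Sw
  rw [← mul_sum, ← mul_sum]

end Pool.Agent.H297.SF
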