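import Mathlib
import Pool.Agent.H297.Aver

set_option autoImplicit false
set_option linter.unusedSectionVars false

open Finset

namespace Pool.Agent.H297.SF

variable {V : Type*} [DecidableEq V] [Fintype V]

/-- Sum of squared influences at `u` of the pairs other than `e`. -/
noncomputable def Eh (f : Finset (Sym2 V) → ℝ) (R x : Finset (Sym2 V)) (e : Sym2 V) (u : V) : ℝ :=
  ∑ e' ∈ R.erase e, (if u ∈ e' then dl f R x e' ^ 2 else 0)

noncomputable def Yq (f : Finset (Sym2 V) → ℝ) (R x : Finset (Sym2 V)) : ℝ :=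
  ∑ v, ∑ u ∈ Nb R v, Am f R x s(v, u) v * Eh f R x s(v, u) u

noncomputable def Y2 (f : Finset (Sym2 V) → ℝ) (R x : Finset (Sym2 V)) : ℝ :=
  ∑ v, ∑ u ∈ Nb R v, Am f R x s(v, u) v * Am f R x s(v, u) u ^ 2

noncomputable def Lq (f : Finset (Sym2 V) → ℝ) (R x : Finset (Sym2 V)) : ℝ :=
  ∑ e ∈ R, ∑ v, (Phi f v (R.erase e) (fl e x) - Phi f v (R.erase e) x) ^ 2

/-- Incidence weights. -/
def minc (w : V) (e : Sym2 V) : ℝ := if w ∈ e then 1 else 0

def mdiag (w : V) (i : V) : ℝ := if i = w then 1 else 0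

lemma minc_nonneg (w : V) (e : Sym2 V) : 0 ≤ minc w e := by unfold minc; split_ifs <;> norm_num
lemma minc_le (w : V) (e : Sym2 V) : minc w e ≤ 1 := by unfold minc; split_ifs <;> norm_num
lemma minc_sum (e : Sym2 V) : ∑ w, minc w e ≤ 2 := by
  unfold minc
  rw [← sum_filter, sum_const, nsmul_eq_mul, mul_one]
  exact_mod_cast card_mem_le_two e

lemma mdiag_nonneg (w i : V) : 0 ≤ mdiag w i := by unfold mdiag; split_ifs <;> norm_num
lemma mdiag_le (w i : V) : mdiag w i ≤ 1 := by unfold mdiag; split_ifs <;> norm_num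
lemma mdiag_sum (i : V) : ∑ w, mdiag w i ≤ 2 := by
  unfold mdiag
  rw [sum_ite_eq univ i (fun _ => (1:ℝ)), if_pos (mem_univ i)]; norm_num

/-- Sums over ordered pairs in `R` and exchange. -/
lemma exchange_pairs (E0 : Finset (Sym2 V)) (r : ℕ) (h : V → V → Finset (Sym2 V) → ℝ) :
    ∑ R ∈ E0.powersetCard (r + 1), ∑ v, ∑ u ∈ Nb R v, h v u R
      = ∑ R ∈ E0.powersetCard r, ∑ v, ∑ u ∈ Nb (E0 \ R) v, h v u (insert s(v, u) R) := by
  have h1 := exchange E0 (univ : Finset (V × V)) (fun p => s(p.1, p.2))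
    (fun p R => h p.1 p.2 R) r
  have h2 : ∀ (S : Finset (Sym2 V)) (g : V → V → ℝ), ∑ v, ∑ u ∈ Nb S v, g v u
      = ∑ p : V × V, (if s(p.1, p.2) ∈ S then g p.1 p.2 else 0) := by
    intro S g
    rw [Fintype.sum_prod_type]
    refine sum_congr rfl fun v _ => ?_
    unfold Nb
    rw [sum_filter]
  have h3 : ∀ R, ∑ v, ∑ u ∈ Nb R v, h v u R
      = ∑ p : V × V, (if s(p.1, p.2) ∈ R then h p.1 p.2 R else 0) := fun R =>
    h2 R fun v u => h v u R
  have h4 : ∀ R, ∑ v, ∑ u ∈ Nb (E0 \ R) v, h v u (insert s(v, u) R)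
      = ∑ p : V × V, (if s(p.1, p.2) ∈ E0 \ R then h p.1 p.2 (insert s(p.1, p.2) R) else 0) :=
    fun R => h2 (E0 \ R) fun v u => h v u (insert s(v, u) R)
  simp only [h3, h4]
  exact h1

lemma nw_minc (f : Finset (Sym2 V) → ℝ) (R x : Finset (Sym2 V)) (u : V) :
    nw minc u (fun e => dl f R x e) = ∑ e ∈ R, (if u ∈ e then dl f R x e ^ 2 else 0) := by
  unfold nw
  have h1 : ∀ e, minc u e * dl f R x e ^ 2 = if u ∈ e then dl f R x e ^ 2 else 0 := by
    intro e; unfold minc; split_ifs <;> ring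
  simp only [h1]
  symm
  apply sum_subset (subset_univ R)
  intro e _ he
  rw [dl_zero f x he]
  split_ifs <;> ring

/-- Averaged bound on `Yq`. -/
theorem Yq_avg (f : Finset (Sym2 V) → ℝ) (hf : ∀ x, f x = 0 ∨ f x = 1) (E0 : Finset (Sym2 V))
    (r : ℕ) (θ : ℝ) (hθ : 0 < θ) :
    As E0 (r + 1) (Yq f) ≤ (E0.card.choose r : ℝ) * (702 + 22 / θ)
      + 176 * θ * (E0.card.choose (r + 1) : ℝ) := by
  have h1 : As E0 (r + 1) (Yq f) = ∑ R ∈ E0.powersetCard r, ∑ v, ∑ u ∈ Nb (E0 \ R) v,
      Ev (fun x => Am f (insert s(v, u) R) x s(v, u) v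
        * Eh f (insert s(v, u) R) x s(v, u) u) := by
    unfold As Yq
    rw [← exchange_pairs E0 r (fun v u R => Ev (fun x => Am f R x s(v, u) v
        * Eh f R x s(v, u) u))]
    refine sum_congr rfl fun R _ => ?_
    simp only [Ev_sum]
  have hkey : ∀ R ∈ E0.powersetCard r, ∑ v, ∑ u ∈ Nb (E0 \ R) v,
      Ev (fun x => Am f (insert s(v, u) R) x s(v, u) v
        * Eh f (insert s(v, u) R) x s(v, u) u)
      ≤ 702 + 22 / θ + 22 * θ * Wen (E0 \ R) (fun x e => dl f R x e) := by
    intro R hR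
    have h2 := pair_bound (E0 \ R) (fun v x => Phi f v R x / 2)
      (fun v x => div_nonneg (Phi_nonneg f v R x) (by norm_num))
      (fun x => by
        rw [← sum_div]
        have := sum_Phi_le f R x
        have := Vr_le_one f hf R x
        linarith)
      (fun x e => dl f R x e)
      (fun x => by
        rw [nn_dl]
        exact (sum_dl_sq_le f R x).trans (Vr_le_one f hf R x))
      minc minc_nonneg minc_le minc_sum θ hθ
    simp only [Ev_sum] at h2
    have h3 : ∀ v, ∀ u ∈ Nb (E0 \ R) v, Ev (fun x => Am f (insert s(v, u) R) x s(v, u) v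
        * Eh f (insert s(v, u) R) x s(v, u) u)
        ≤ 2 * Ev (fun x => (Phi f v R x / 2 + Phi f v R (fl s(v, u) x) / 2) / 2 *
          ((nw minc u (fun e => dl f R x e) + nw minc u (fun e => dl f R (fl s(v, u) x) e)) / 2))
        := by
      intro v u hu
      have heR : s(v, u) ∉ R := by
        unfold Nb at hu
        exact (mem_sdiff.1 (mem_filter.1 hu).2).2
      rw [← Ev_mul_left]
      refine Ev_mono fun x => ?_
      have e1 : Am f (insert s(v, u) R) x s(v, u) v
          = (Phi f v R x + Phi f v R (fl s(v, u) x)) / 2 := by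
        unfold Am
        rw [erase_insert heR]
      have e2 : Eh f (insert s(v, u) R) x s(v, u) u
          ≤ (nw minc u (fun e => dl f R x e) + nw minc u (fun e => dl f R (fl s(v, u) x) e)) / 2 := by
        rw [nw_minc, nw_minc, ← sum_add_distrib, sum_div]
        unfold Eh
        rw [erase_insert heR]
        refine sum_le_sum fun e' he' => ?_
        have hne : e' ≠ s(v, u) := fun h => heR (h ▸ he')
        rw [dl_avg f x heR hne]
        split_ifs
        · nlinarith [sq_nonneg (dl f R x e' - dl f R (fl s(v, u) x) e')]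
        · norm_num
      rw [e1]
      have e3 := Phi_nonneg f v R x
      have e4 := Phi_nonneg f v R (fl s(v, u) x)
      calc (Phi f v R x + Phi f v R (fl s(v, u) x)) / 2 * Eh f (insert s(v, u) R) x s(v, u) u
          ≤ (Phi f v R x + Phi f v R (fl s(v, u) x)) / 2 * ((nw minc u (fun e => dl f R x e)
            + nw minc u (fun e => dl f R (fl s(v, u) x) e)) / 2) :=
            mul_le_mul_of_nonneg_left e2 (by linarith)
        _ = _ := by ring
    refine (sum_le_sum fun v _ => sum_le_sum fun u hu => h3 v u hu).trans ?_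
    simp only [← mul_sum]
    have h4 : 22 / θ = 22 * (1 / θ) := by ring
    rw [h4]
    linarith
  rw [h1]
  refine (sum_le_sum hkey).trans ?_
  rw [sum_add_distrib, sum_const, nsmul_eq_mul, card_powersetCard, ← mul_sum]
  have hW : ∑ R ∈ E0.powersetCard r, Wen (E0 \ R) (fun x e => dl f R x e)
      ≤ 8 * (E0.card.choose (r + 1) : ℝ) := by
    have e1 : ∀ R ∈ E0.powersetCard r, Wen (E0 \ R) (fun x e => dl f R x e)
        = ∑ e ∈ E0, (if e ∈ E0 \ R then
          (fun (e : Sym2 V) (R' : Finset (Sym2 V)) => Ev (fun x => ∑ e' ∈ R'.erase e,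
            16 * coef f R' x {e, e'} ^ 2)) e (insert e R) else 0) := by
      intro R _
      unfold Wen
      rw [Ev_sum, ← sum_filter]
      have e2 : E0.filter (fun e => e ∈ E0 \ R) = E0 \ R := by
        ext e
        rw [mem_filter, mem_sdiff]
        tauto
      rw [e2]
      refine sum_congr rfl fun e he => ?_
      have heR : e ∉ R := (mem_sdiff.1 he).2
      beta_reduce
      congr 1
      ext x
      rw [erase_insert heR]
      unfold nn
      symm
      have e3 : ∀ e' ∈ R, 16 * coef f (insert e R) x {e, e'} ^ 2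
          = ((fun e => dl f R (fl e x) e) - fun e => dl f R x e) e' ^ 2
          ∨ True := fun _ _ => Or.inr trivial
      have e4 : ∑ e' ∈ R, 16 * coef f (insert e R) x {e, e'} ^ 2
          = ∑ e' ∈ R, (dl f R (fl e x) e' - dl f R x e') ^ 2 := by
        refine sum_congr rfl fun e' he' => ?_
        have hne : e' ≠ e := fun h => heR (h ▸ he')
        rw [dl_diff f x heR hne]
      rw [e4]
      apply sum_subset (subset_univ R)
      intro e' _ he'
      rw [dl_zero f x he', dl_zero f (fl e x) he']; ring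
    rw [sum_congr rfl e1]
    have e5 := exchange E0 E0 (fun e => e) (fun (e : Sym2 V) (R' : Finset (Sym2 V)) =>
      Ev (fun x => ∑ e' ∈ R'.erase e, 16 * coef f R' x {e, e'} ^ 2)) r
    rw [← e5]
    have e6 : ∀ R ∈ E0.powersetCard (r + 1), ∑ e ∈ E0, (if e ∈ R then
        Ev (fun x => ∑ e' ∈ R.erase e, 16 * coef f R x {e, e'} ^ 2) else 0) ≤ 8 := by
      intro R hR
      rw [← sum_filter]
      have e7 : E0.filter (fun e => e ∈ R) = R := by
        rw [filter_mem_eq_inter]
        exact inter_eq_right.2 (mem_powersetCard.1 hR).1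
      rw [e7, ← Ev_sum]
      have e8 : Ev (fun x => ∑ e ∈ R, ∑ e' ∈ R.erase e, 16 * coef f R x {e, e'} ^ 2)
          ≤ Ev (fun _ : Finset (Sym2 V) => (8:ℝ)) := by
        refine Ev_mono fun x => ?_
        have := level_two f R x
        have := Vr_le_one f hf R x
        linarith
      rwa [Ev_const] at e8
    refine (sum_le_sum e6).trans ?_
    rw [sum_const, nsmul_eq_mul, card_powersetCard, mul_comm]
  have h5 : 22 * θ * ∑ R ∈ E0.powersetCard r, Wen (E0 \ R) (fun x e => dl f R x e)
      ≤ 22 * θ * (8 * (E0.card.choose (r + 1) : ℝ)) :=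
    mul_le_mul_of_nonneg_left hW (by positivity)
  linarith

lemma nw_mdiag (h : V → ℝ) (u : V) : nw mdiag u h = h u ^ 2 := by
  unfold nw mdiag
  have : ∀ i, (if i = u then (1:ℝ) else 0) * h i ^ 2 = if i = u then h i ^ 2 else 0 := by
    intro i; split_ifs <;> ring
  simp only [this]
  rw [sum_ite_eq' univ u (fun i => h i ^ 2), if_pos (mem_univ u)]

lemma Phi_le_one (f : Finset (Sym2 V) → ℝ) (hf : ∀ x, f x = 0 ∨ f x = 1) (v : V)
    (R x : Finset (Sym2 V)) : Phi f v R x ≤ 1 := (Phi_le_Vr f v R x).trans (Vr_le_one f hf R x)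

/-- Averaged bound on `Y2`. -/
theorem Y2_avg (f : Finset (Sym2 V) → ℝ) (hf : ∀ x, f x = 0 ∨ f x = 1) (E0 : Finset (Sym2 V))
    (r : ℕ) (θ : ℝ) (hθ : 0 < θ) :
    As E0 (r + 1) (Y2 f) ≤ (E0.card.choose r : ℝ) * (2808 + 88 / θ)
      + 22 * θ * As E0 (r + 1) (Lq f) := by
  have h1 : As E0 (r + 1) (Y2 f) = ∑ R ∈ E0.powersetCard r, ∑ v, ∑ u ∈ Nb (E0 \ R) v,
      Ev (fun x => Am f (insert s(v, u) R) x s(v, u) v
        * Am f (insert s(v, u) R) x s(v, u) u ^ 2) := by
    unfold As Y2
    rw [← exchange_pairs E0 r (fun v u R => Ev (fun x => Am f R x s(v, u) v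
        * Am f R x s(v, u) u ^ 2))]
    refine sum_congr rfl fun R _ => ?_
    simp only [Ev_sum]
  have hkey : ∀ R ∈ E0.powersetCard r, ∑ v, ∑ u ∈ Nb (E0 \ R) v,
      Ev (fun x => Am f (insert s(v, u) R) x s(v, u) v
        * Am f (insert s(v, u) R) x s(v, u) u ^ 2)
      ≤ 2808 + 88 / θ + 88 * θ * Wen (E0 \ R) (fun x u => Phi f u R x / 2) := by
    intro R hR
    have h2 := pair_bound (E0 \ R) (fun v x => Phi f v R x / 2)
      (fun v x => div_nonneg (Phi_nonneg f v R x) (by norm_num))
      (fun x => by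
        rw [← sum_div]
        have := sum_Phi_le f R x
        have := Vr_le_one f hf R x
        linarith)
      (fun x u => Phi f u R x / 2)
      (fun x => by
        unfold nn
        have e1 : ∀ u, (Phi f u R x / 2) ^ 2 ≤ Phi f u R x / 2 := by
          intro u
          have := Phi_le_one f hf u R x
          have := Phi_nonneg f u R x
          nlinarith
        refine (sum_le_sum fun u _ => e1 u).trans ?_
        rw [← sum_div]
        have := sum_Phi_le f R x
        have := Vr_le_one f hf R x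
        linarith)
      mdiag mdiag_nonneg mdiag_le mdiag_sum θ hθ
    simp only [Ev_sum] at h2
    have h3 : ∀ v, ∀ u ∈ Nb (E0 \ R) v, Ev (fun x => Am f (insert s(v, u) R) x s(v, u) v
        * Am f (insert s(v, u) R) x s(v, u) u ^ 2)
        ≤ 8 * Ev (fun x => (Phi f v R x / 2 + Phi f v R (fl s(v, u) x) / 2) / 2 *
          ((nw mdiag u (fun u => Phi f u R x / 2)
            + nw mdiag u (fun u' => Phi f u' R (fl s(v, u) x) / 2)) / 2)) := by
      intro v u hu
      have heR : s(v, u) ∉ R := by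
        unfold Nb at hu
        exact (mem_sdiff.1 (mem_filter.1 hu).2).2
      rw [← Ev_mul_left]
      refine Ev_mono fun x => ?_
      rw [nw_mdiag, nw_mdiag]
      unfold Am
      rw [erase_insert heR]
      have e3 := Phi_nonneg f v R x
      have e4 := Phi_nonneg f v R (fl s(v, u) x)
      have e5 : ((Phi f u R x + Phi f u R (fl s(v, u) x)) / 2) ^ 2
          ≤ (Phi f u R x ^ 2 + Phi f u R (fl s(v, u) x) ^ 2) / 2 := by
        nlinarith [sq_nonneg (Phi f u R x - Phi f u R (fl s(v, u) x))]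
      calc (Phi f v R x + Phi f v R (fl s(v, u) x)) / 2
            * ((Phi f u R x + Phi f u R (fl s(v, u) x)) / 2) ^ 2
          ≤ (Phi f v R x + Phi f v R (fl s(v, u) x)) / 2
            * ((Phi f u R x ^ 2 + Phi f u R (fl s(v, u) x) ^ 2) / 2) :=
            mul_le_mul_of_nonneg_left e5 (by linarith)
        _ = _ := by ring
    refine (sum_le_sum fun v _ => sum_le_sum fun u hu => h3 v u hu).trans ?_
    simp only [← mul_sum]
    have h4 : 88 / θ = 88 * (1 / θ) := by ring
    rw [h4]
    linarith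
  rw [h1]
  refine (sum_le_sum hkey).trans ?_
  rw [sum_add_distrib, sum_const, nsmul_eq_mul, card_powersetCard, ← mul_sum]
  have hW : ∑ R ∈ E0.powersetCard r, Wen (E0 \ R) (fun x u => Phi f u R x / 2)
      = (1 / 4) * As E0 (r + 1) (Lq f) := by
    have e1 : ∀ R ∈ E0.powersetCard r, Wen (E0 \ R) (fun x u => Phi f u R x / 2)
        = ∑ e ∈ E0, (if e ∈ E0 \ R then
          (fun (e : Sym2 V) (R' : Finset (Sym2 V)) => (1 / 4) * Ev (fun x => ∑ v,
            (Phi f v (R'.erase e) (fl e x) - Phi f v (R'.erase e) x) ^ 2)) e (insert e R)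
            else 0) := by
      intro R _
      unfold Wen
      rw [Ev_sum, ← sum_filter]
      have e2 : E0.filter (fun e => e ∈ E0 \ R) = E0 \ R := by
        ext e
        rw [mem_filter, mem_sdiff]
        tauto
      rw [e2]
      refine sum_congr rfl fun e he => ?_
      have heR : e ∉ R := (mem_sdiff.1 he).2
      beta_reduce
      rw [← Ev_mul_left]
      congr 1
      ext x
      rw [erase_insert heR]
      unfold nn
      rw [mul_sum]
      refine sum_congr rfl fun v _ => ?_
      rw [Pi.sub_apply]; ring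
    rw [sum_congr rfl e1]
    have e5 := exchange E0 E0 (fun e => e) (fun (e : Sym2 V) (R' : Finset (Sym2 V)) =>
      (1 / 4) * Ev (fun x => ∑ v,
            (Phi f v (R'.erase e) (fl e x) - Phi f v (R'.erase e) x) ^ 2)) r
    rw [← e5]
    unfold As Lq
    rw [mul_sum]
    refine sum_congr rfl fun R hR => ?_
    rw [← sum_filter]
    have e7 : E0.filter (fun e => e ∈ R) = R := by
      rw [filter_mem_eq_inter]
      exact inter_eq_right.2 (mem_powersetCard.1 hR).1
    rw [e7, ← mul_sum, Ev_sum]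
  rw [hW]
  linarith

end Pool.Agent.H297.SF
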