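import Mathlib
import Pool.Agent.H297.Aver2

set_option autoImplicit false
set_option linter.unusedSectionVars false

open Finset

namespace Pool.Agent.H297.SF

variable {V : Type*} [DecidableEq V] [Fintype V]

/-- Average over `r`-subsets of `E0`. -/
noncomputable def Av (E0 : Finset (Sym2 V)) (r : ℕ)
    (g : Finset (Sym2 V) → Finset (Sym2 V) → ℝ) : ℝ :=
  As E0 r g / (E0.card.choose r : ℝ)

lemma choose_pos' {N r : ℕ} (h : r ≤ N) : (0 : ℝ) < (N.choose r : ℝ) := by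
  exact_mod_cast Nat.choose_pos h

lemma choose_step {N r : ℕ} (h : r < N) :
    ((r : ℝ) + 1) * (N.choose (r + 1) : ℝ) = ((N : ℝ) - r) * (N.choose r : ℝ) := by
  have h1 := Nat.choose_succ_right_eq N r
  have h2 : ((N.choose (r + 1) * (r + 1) : ℕ) : ℝ) = ((N.choose r * (N - r) : ℕ) : ℝ) := by
    rw [h1]
  push_cast [Nat.cast_sub h.le] at h2
  linarith

lemma Av_add (E0 : Finset (Sym2 V)) (r : ℕ) (g h : Finset (Sym2 V) → Finset (Sym2 V) → ℝ) :
    Av E0 r (fun R x => g R x + h R x) = Av E0 r g + Av E0 r h := by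
  unfold Av; rw [As_add, add_div]

lemma Av_mul (E0 : Finset (Sym2 V)) (r : ℕ) (c : ℝ)
    (g : Finset (Sym2 V) → Finset (Sym2 V) → ℝ) :
    Av E0 r (fun R x => c * g R x) = c * Av E0 r g := by
  unfold Av; rw [As_mul, mul_div_assoc]

lemma Av_mono (E0 : Finset (Sym2 V)) (r : ℕ) {g h : Finset (Sym2 V) → Finset (Sym2 V) → ℝ}
    (H : ∀ R, R ⊆ E0 → R.card = r → ∀ x, g R x ≤ h R x) : Av E0 r g ≤ Av E0 r h := by
  unfold Av
  exact div_le_div_of_nonneg_right (As_mono E0 r H) (by positivity)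

lemma Av_congr (E0 : Finset (Sym2 V)) (r : ℕ) {g h : Finset (Sym2 V) → Finset (Sym2 V) → ℝ}
    (H : ∀ R, R ⊆ E0 → R.card = r → ∀ x, g R x = h R x) : Av E0 r g = Av E0 r h := by
  unfold Av; rw [As_congr E0 r H]

lemma Av_const (E0 : Finset (Sym2 V)) {r : ℕ} (hr : r ≤ E0.card) (c : ℝ) :
    Av E0 r (fun _ _ => c) = c := by
  unfold Av
  rw [As_const]
  have := choose_pos' hr
  field_simp

lemma Av_full (E0 : Finset (Sym2 V)) (g : Finset (Sym2 V) → Finset (Sym2 V) → ℝ) :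
    Av E0 E0.card g = Ev (g E0) := by
  unfold Av As
  rw [powersetCard_self, sum_singleton, Nat.choose_self]
  simp

/-- Telescoping for averages. -/
lemma Av_step (E0 : Finset (Sym2 V)) {r : ℕ} (hr : r < E0.card)
    (g : Finset (Sym2 V) → Finset (Sym2 V) → ℝ) :
    Av E0 (r + 1) (fun R x => ∑ e ∈ R, g (R.erase e) x) = ((r : ℝ) + 1) * Av E0 r g := by
  unfold Av
  rw [As_erase]
  have h1 := choose_step hr
  have h2 := choose_pos' (N := E0.card) (r := r + 1) hr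
  have h3 := choose_pos' (N := E0.card) (r := r) hr.le
  rw [div_eq_iff h2.ne', mul_comm ((r : ℝ) + 1), mul_assoc, h1]
  field_simp

lemma As_sym (E0 : Finset (Sym2 V)) (r : ℕ) (g : Finset (Sym2 V) → Finset (Sym2 V) → ℝ) :
    As E0 r (fun R x => ∑ e ∈ R, (g (R.erase e) x + g (R.erase e) (fl e x)) / 2)
      = As E0 r (fun R x => ∑ e ∈ R, g (R.erase e) x) := by
  unfold As
  refine sum_congr rfl fun R _ => ?_
  rw [Ev_sum, Ev_sum]
  exact sum_congr rfl fun e _ => Ev_half e (g (R.erase e))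

lemma Av_step' (E0 : Finset (Sym2 V)) {r : ℕ} (hr : r < E0.card)
    (g : Finset (Sym2 V) → Finset (Sym2 V) → ℝ) :
    Av E0 (r + 1) (fun R x => ∑ e ∈ R, (g (R.erase e) x + g (R.erase e) (fl e x)) / 2)
      = ((r : ℝ) + 1) * Av E0 r g := by
  rw [← Av_step E0 hr]
  unfold Av
  rw [As_sym]

/-- Normalised average of the sum of squared influences. -/
noncomputable def dd (f : Finset (Sym2 V) → ℝ) (E0 : Finset (Sym2 V)) (n : ℕ) : ℝ :=
  Av E0 n (fun R x => ∑ e ∈ R, dl f R x e ^ 2) / n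

/-- Normalised average of `Lq`. -/
noncomputable def ell (f : Finset (Sym2 V) → ℝ) (E0 : Finset (Sym2 V)) (n : ℕ) : ℝ :=
  Av E0 n (Lq f) / n

noncomputable def Phisq (f : Finset (Sym2 V) → ℝ) (R x : Finset (Sym2 V)) : ℝ :=
  ∑ v, Phi f v R x ^ 2

lemma tele_V (f : Finset (Sym2 V) → ℝ) (E0 : Finset (Sym2 V)) {r : ℕ} (hr : r < E0.card) :
    dd f E0 (r + 1) = Av E0 (r + 1) (Vr f) - Av E0 r (Vr f) := by
  have h1 := Av_step' E0 hr (Vr f)
  have h2 : Av E0 (r + 1) (fun R x => ∑ e ∈ R, (Vr f (R.erase e) x + Vr f (R.erase e) (fl e x)) / 2)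
      = Av E0 (r + 1) (fun R x => ((r : ℝ) + 1) * Vr f R x + (-1) * ∑ e ∈ R, dl f R x e ^ 2) := by
    apply Av_congr
    intro R _ hcard x
    have : ∀ e ∈ R, (Vr f (R.erase e) x + Vr f (R.erase e) (fl e x)) / 2
        = Vr f R x - dl f R x e ^ 2 := fun e he => Vr_half f x he
    rw [sum_congr rfl this, sum_sub_distrib, sum_const, nsmul_eq_mul, hcard]
    push_cast
    ring
  rw [h1, Av_add, Av_mul, Av_mul] at h2
  unfold dd
  push_cast
  have h3 : ((r : ℝ) + 1) ≠ 0 := by positivity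
  rw [div_eq_iff h3]
  linarith

lemma sum_s_le (f : Finset (Sym2 V) → ℝ) (R x : Finset (Sym2 V)) :
    ∑ v : V, ∑ e ∈ R, (if v ∈ e then dl f R x e ^ 2 else 0) ≤ 2 * ∑ e ∈ R, dl f R x e ^ 2 := by
  rw [sum_comm, mul_sum]
  refine sum_le_sum fun e _ => ?_
  rw [← sum_filter, sum_const, nsmul_eq_mul]
  apply mul_le_mul_of_nonneg_right _ (sq_nonneg _)
  exact_mod_cast card_mem_le_two e

lemma tele_Phi_pt (f : Finset (Sym2 V) → ℝ) (hf : ∀ x, f x = 0 ∨ f x = 1)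
    (R x : Finset (Sym2 V)) :
    R.card * Phisq f R x - 4 * ∑ e ∈ R, dl f R x e ^ 2 + 1 / 4 * Lq f R x
      ≤ ∑ e ∈ R, (Phisq f (R.erase e) x + Phisq f (R.erase e) (fl e x)) / 2 := by
  have h1 : ∑ e ∈ R, (Phisq f (R.erase e) x + Phisq f (R.erase e) (fl e x)) / 2
      = ∑ v, ∑ e ∈ R, Am f R x e v ^ 2 + 1 / 4 * Lq f R x := by
    unfold Lq
    rw [sum_comm (s := univ), mul_sum, ← sum_add_distrib]
    refine sum_congr rfl fun e _ => ?_
    unfold Phisq Am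
    rw [mul_sum, ← sum_add_distrib, ← sum_add_distrib, sum_div]
    refine sum_congr rfl fun v _ => ?_
    ring
  rw [h1]
  rcases R.eq_empty_or_nonempty with hR | hR
  · subst hR
    simp
  have hn : (0 : ℝ) < R.card := by exact_mod_cast card_pos.2 hR
  have h2 : ∀ v : V, R.card * Phi f v R x ^ 2
      - 2 * ∑ e ∈ R, (if v ∈ e then dl f R x e ^ 2 else 0) ≤ ∑ e ∈ R, Am f R x e v ^ 2 := by
    intro v
    have e1 := sum_Am f R x v
    set s : ℝ := ∑ e ∈ R, (if v ∈ e then dl f R x e ^ 2 else 0) with hs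
    have hs0 : 0 ≤ s := sum_nonneg fun e _ => by split_ifs <;> positivity
    have e2 : (∑ e ∈ R, Am f R x e v) ^ 2 ≤ R.card * ∑ e ∈ R, Am f R x e v ^ 2 :=
      sq_sum_le_card_mul_sum_sq
    rw [e1] at e2
    have e3 := Phi_nonneg f v R x
    have e4 := Phi_le_one f hf v R x
    have e5 : R.card * (R.card * Phi f v R x ^ 2 - 2 * s) ≤ R.card * ∑ e ∈ R, Am f R x e v ^ 2 := by
      refine le_trans ?_ e2
      have e6 : Phi f v R x * s ≤ 1 * s := mul_le_mul_of_nonneg_right e4 hs0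
      have e7 := mul_le_mul_of_nonneg_left e6 hn.le
      nlinarith [sq_nonneg s]
    exact le_of_mul_le_mul_left e5 hn
  have h3 := sum_le_sum fun v (_ : v ∈ (univ : Finset V)) => h2 v
  rw [sum_sub_distrib, ← mul_sum, ← mul_sum] at h3
  have h4 := sum_s_le f R x
  have h5 : Phisq f R x = ∑ v, Phi f v R x ^ 2 := rfl
  rw [h5]
  linarith

lemma tele_Phi (f : Finset (Sym2 V) → ℝ) (hf : ∀ x, f x = 0 ∨ f x = 1) (E0 : Finset (Sym2 V))
    {r : ℕ} (hr : r < E0.card) :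
    ell f E0 (r + 1) ≤ 4 * (Av E0 r (Phisq f) - Av E0 (r + 1) (Phisq f)) + 16 * dd f E0 (r + 1) := by
  have h1 := Av_step' E0 hr (Phisq f)
  have h2 : Av E0 (r + 1) (fun R x => (((r : ℝ) + 1) * Phisq f R x
      + (-4) * ∑ e ∈ R, dl f R x e ^ 2) + 1 / 4 * Lq f R x)
      ≤ Av E0 (r + 1) (fun R x => ∑ e ∈ R,
        (Phisq f (R.erase e) x + Phisq f (R.erase e) (fl e x)) / 2) := by
    apply Av_mono
    intro R _ hcard x
    have := tele_Phi_pt f hf R x
    rw [hcard] at this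
    push_cast at this
    linarith
  rw [h1, Av_add, Av_add, Av_mul, Av_mul, Av_mul] at h2
  unfold dd ell
  push_cast
  have h3 : (0 : ℝ) < (r : ℝ) + 1 := by positivity
  rw [div_le_iff₀ h3]
  have h4 : (4 * (Av E0 r (Phisq f) - Av E0 (r + 1) (Phisq f))
      + 16 * (Av E0 (r + 1) (fun R x => ∑ e ∈ R, dl f R x e ^ 2) / ((r : ℝ) + 1))) * ((r : ℝ) + 1)
      = 4 * (Av E0 r (Phisq f) - Av E0 (r + 1) (Phisq f)) * ((r : ℝ) + 1)
      + 16 * Av E0 (r + 1) (fun R x => ∑ e ∈ R, dl f R x e ^ 2) := by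
    field_simp
  rw [h4]
  linarith

lemma Av_Vr_le (f : Finset (Sym2 V) → ℝ) (hf : ∀ x, f x = 0 ∨ f x = 1) (E0 : Finset (Sym2 V))
    {r : ℕ} (hr : r ≤ E0.card) : Av E0 r (Vr f) ≤ 1 := by
  have := Av_mono E0 r (g := Vr f) (h := fun _ _ => 1) (fun R _ _ x => Vr_le_one f hf R x)
  rwa [Av_const E0 hr] at this

lemma Av_nonneg (E0 : Finset (Sym2 V)) (r : ℕ) {g : Finset (Sym2 V) → Finset (Sym2 V) → ℝ}
    (H : ∀ R x, 0 ≤ g R x) : 0 ≤ Av E0 r g := by
  unfold Av As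
  apply div_nonneg _ (by positivity)
  exact sum_nonneg fun R _ => Ev_nonneg fun x => H R x

lemma Phisq_le (f : Finset (Sym2 V) → ℝ) (hf : ∀ x, f x = 0 ∨ f x = 1) (R x : Finset (Sym2 V)) :
    Phisq f R x ≤ 2 := by
  unfold Phisq
  have e1 : ∀ v, Phi f v R x ^ 2 ≤ Phi f v R x := by
    intro u
    have := Phi_le_one f hf u R x
    have := Phi_nonneg f u R x
    nlinarith
  refine (sum_le_sum fun u _ => e1 u).trans ?_
  have := sum_Phi_le f R x
  have := Vr_le_one f hf R x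
  linarith

lemma sum_dd (f : Finset (Sym2 V) → ℝ) (hf : ∀ x, f x = 0 ∨ f x = 1) (E0 : Finset (Sym2 V)) :
    ∑ r ∈ range E0.card, dd f E0 (r + 1) ≤ 1 := by
  have h1 : ∀ r ∈ range E0.card, dd f E0 (r + 1) = Av E0 (r + 1) (Vr f) - Av E0 r (Vr f) :=
    fun r hr => tele_V f E0 (mem_range.1 hr)
  rw [sum_congr rfl h1, sum_range_sub (fun r => Av E0 r (Vr f))]
  have h2 := Av_Vr_le f hf E0 le_rfl
  have h3 : 0 ≤ Av E0 0 (Vr f) := Av_nonneg E0 0 fun R x => Vr_nonneg f R x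
  linarith

lemma sum_ell (f : Finset (Sym2 V) → ℝ) (hf : ∀ x, f x = 0 ∨ f x = 1) (E0 : Finset (Sym2 V)) :
    ∑ r ∈ range E0.card, ell f E0 (r + 1) ≤ 24 := by
  have h1 : ∀ r ∈ range E0.card, ell f E0 (r + 1)
      ≤ (-4) * (Av E0 (r + 1) (Phisq f) - Av E0 r (Phisq f)) + 16 * dd f E0 (r + 1) := by
    intro r hr
    have := tele_Phi f hf E0 (mem_range.1 hr)
    linarith
  refine (sum_le_sum h1).trans ?_
  rw [sum_add_distrib, ← mul_sum, ← mul_sum, sum_range_sub (fun r => Av E0 r (Phisq f))]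
  have h2 := sum_dd f hf E0
  have h3 : 0 ≤ Av E0 E0.card (Phisq f) := Av_nonneg E0 _ fun R x => by
    unfold Phisq; exact sum_nonneg fun _ _ => sq_nonneg _
  have h4 : Av E0 0 (Phisq f) ≤ 2 := by
    have := Av_mono E0 0 (g := Phisq f) (h := fun _ _ => 2) (fun R _ _ x => Phisq_le f hf R x)
    rwa [Av_const E0 (Nat.zero_le _)] at this
  linarith

end Pool.Agent.H297.SF
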