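import Mathlib
import Pool.Agent.H297.Tele

set_option autoImplicit false
set_option linter.unusedSectionVars false

open Finset

namespace Pool.Agent.H297.SF

/-- Per-pair bound. -/
lemma cost_edge (δ a b Fp Fq hp hq η : ℝ) (hδ : 0 ≤ δ) (ha : 0 ≤ a) (hb : 0 ≤ b)
    (haF : a ≤ Fp) (hbF : b ≤ Fq) (hhp : 0 ≤ hp) (hhq : 0 ≤ hq) (hη : 0 < η) :
    δ * min a b ≤
      (1 / 2 * η ^ 2 * (δ ^ 2 * Fp / (hp + δ ^ 2)) + a * hq / η ^ 2
        + (if hp < δ ^ 2 ∧ hq < δ ^ 2 then 1 / 2 * η * Fp else 0)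
        + (1 / 2 * η + 1 / 4) * δ ^ 2 + 1 / 2 * (a * b ^ 2) / η ^ 2)
      + (1 / 2 * η ^ 2 * (δ ^ 2 * Fq / (hq + δ ^ 2)) + b * hp / η ^ 2
        + (if hq < δ ^ 2 ∧ hp < δ ^ 2 then 1 / 2 * η * Fq else 0)
        + (1 / 2 * η + 1 / 4) * δ ^ 2 + 1 / 2 * (b * a ^ 2) / η ^ 2) := by
  have hFp : 0 ≤ Fp := ha.trans haF
  have hFq : 0 ≤ Fq := hb.trans hbF
  have n1 : 0 ≤ 1 / 2 * η ^ 2 * (δ ^ 2 * Fp / (hp + δ ^ 2)) := by positivity
  have n2 : 0 ≤ a * hq / η ^ 2 := by positivity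
  have n3 : 0 ≤ (if hp < δ ^ 2 ∧ hq < δ ^ 2 then 1 / 2 * η * Fp else 0) := by
    split_ifs <;> positivity
  have n4 : 0 ≤ (1 / 2 * η + 1 / 4) * δ ^ 2 := by positivity
  have n5 : 0 ≤ 1 / 2 * (a * b ^ 2) / η ^ 2 := by positivity
  have n6 : 0 ≤ 1 / 2 * η ^ 2 * (δ ^ 2 * Fq / (hq + δ ^ 2)) := by positivity
  have n7 : 0 ≤ b * hp / η ^ 2 := by positivity
  have n8 : 0 ≤ (if hq < δ ^ 2 ∧ hp < δ ^ 2 then 1 / 2 * η * Fq else 0) := by
    split_ifs <;> positivity
  have n9 : 0 ≤ 1 / 2 * (b * a ^ 2) / η ^ 2 := by positivity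
  have hm0 : 0 ≤ min a b := le_min ha hb
  have hma : min a b ≤ a := min_le_left a b
  have hmb : min a b ≤ b := min_le_right a b
  -- the non-isolated case
  have noniso : ∀ A F h k : ℝ, 0 ≤ A → A ≤ F → 0 ≤ h → h ≤ k → δ ^ 2 ≤ k →
      δ * A ≤ 1 / 2 * η ^ 2 * (δ ^ 2 * F / (h + δ ^ 2)) + A * k / η ^ 2 := by
    intro A F h k hA hAF hh hhk hk
    have hF : 0 ≤ F := hA.trans hAF
    rcases eq_or_lt_of_le (show 0 ≤ h + δ ^ 2 by positivity) with h0 | h0
    · have : δ = 0 := by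
        have : δ ^ 2 = 0 := by nlinarith [sq_nonneg δ]
        exact pow_eq_zero_iff (two_ne_zero) |>.1 this
      subst this
      have : 0 ≤ k := hh.trans hhk
      have : 0 ≤ A * k / η ^ 2 := by positivity
      simp
      exact this
    · have e1 : δ ≤ 1 / 2 * η ^ 2 * (δ ^ 2 / (h + δ ^ 2)) + k / η ^ 2 := by
        have e2 : (h + δ ^ 2) / 2 ≤ k := by linarith
        have e3 : (h + δ ^ 2) / (2 * η ^ 2) ≤ k / η ^ 2 := by
          rw [div_le_div_iff₀ (by positivity) (by positivity)]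
          have : 0 < η ^ 2 := by positivity
          nlinarith
        refine le_trans ?_ (add_le_add_right e3 _)
        have e4 : 0 ≤ (η ^ 2 * δ - (h + δ ^ 2)) ^ 2 / (2 * η ^ 2 * (h + δ ^ 2)) := by positivity
        have e5 : (η ^ 2 * δ - (h + δ ^ 2)) ^ 2 / (2 * η ^ 2 * (h + δ ^ 2))
            = 1 / 2 * η ^ 2 * (δ ^ 2 / (h + δ ^ 2)) + (h + δ ^ 2) / (2 * η ^ 2) - δ := by
          field_simp
          ring
        linarith
      calc δ * A ≤ (1 / 2 * η ^ 2 * (δ ^ 2 / (h + δ ^ 2)) + k / η ^ 2) * A :=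
            mul_le_mul_of_nonneg_right e1 hA
        _ = 1 / 2 * η ^ 2 * (δ ^ 2 / (h + δ ^ 2)) * A + A * k / η ^ 2 := by ring
        _ ≤ 1 / 2 * η ^ 2 * (δ ^ 2 / (h + δ ^ 2)) * F + A * k / η ^ 2 := by
            gcongr
        _ = _ := by ring
  by_cases hiso : hp < δ ^ 2 ∧ hq < δ ^ 2
  · have hiso' : hq < δ ^ 2 ∧ hp < δ ^ 2 := ⟨hiso.2, hiso.1⟩
    rw [if_pos hiso, if_pos hiso'] at *
    rcases le_or_gt δ η with h1 | h1
    · have e1 : δ * min a b ≤ η * min a b := mul_le_mul_of_nonneg_right h1 hm0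
      have e2 : η * min a b ≤ η * ((Fp + Fq) / 2) := by
        apply mul_le_mul_of_nonneg_left _ hη.le
        linarith
      linarith
    · rcases le_or_gt (min a b) (η ^ 2) with h2 | h2
      · have e1 : δ * min a b ≤ δ * η ^ 2 := mul_le_mul_of_nonneg_left h2 hδ
        have e2 : δ * η ^ 2 ≤ η * δ ^ 2 := by
          have : 0 ≤ η * δ * (δ - η) := by
            apply mul_nonneg (mul_nonneg hη.le hδ); linarith
          nlinarith
        have e3 : η * δ ^ 2 ≤ 2 * ((1 / 2 * η + 1 / 4) * δ ^ 2) := by nlinarith [sq_nonneg δ]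
        linarith [mul_nonneg hη.le hFp, mul_nonneg hη.le hFq]
      · have e1 : δ * min a b ≤ 1 / 2 * δ ^ 2 + 1 / 2 * (min a b) ^ 2 := by
          nlinarith [sq_nonneg (δ - min a b)]
        have e2 : (min a b) ^ 2 ≤ (a * b ^ 2) / η ^ 2 := by
          rw [le_div_iff₀ (by positivity)]
          calc (min a b) ^ 2 * η ^ 2 ≤ (min a b) ^ 2 * min a b :=
                mul_le_mul_of_nonneg_left h2.le (sq_nonneg _)
            _ = min a b * (min a b) ^ 2 := by ring
            _ ≤ a * b ^ 2 := by gcongr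
        have e3 : 1 / 2 * δ ^ 2 ≤ 2 * ((1 / 2 * η + 1 / 4) * δ ^ 2) := by
          nlinarith [sq_nonneg δ, mul_nonneg hη.le (sq_nonneg δ)]
        have e4 : 1 / 2 * (a * b ^ 2) / η ^ 2 = 1 / 2 * ((a * b ^ 2) / η ^ 2) := by ring
        linarith [mul_nonneg hη.le hFp, mul_nonneg hη.le hFq]
  · have hiso' : ¬ (hq < δ ^ 2 ∧ hp < δ ^ 2) := fun h => hiso ⟨h.2, h.1⟩
    rw [if_neg hiso, if_neg hiso'] at *
    rcases le_total hp hq with h1 | h1
    · have hk : δ ^ 2 ≤ hq := by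
        by_contra hcon
        push Not at hcon
        exact hiso ⟨h1.trans_lt hcon, hcon⟩
      have e1 := noniso a Fp hp hq ha haF hhp h1 hk
      have e2 : δ * min a b ≤ δ * a := mul_le_mul_of_nonneg_left hma hδ
      linarith
    · have hk : δ ^ 2 ≤ hp := by
        by_contra hcon
        push Not at hcon
        exact hiso ⟨hcon, h1.trans_lt hcon⟩
      have e1 := noniso b Fq hq hp hb hbF hhq h1 hk
      have e2 : δ * min a b ≤ δ * b := mul_le_mul_of_nonneg_left hmb hδ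
      linarith

variable {V : Type*} [DecidableEq V] [Fintype V]

/-- Endpoints of a pair. -/
noncomputable def p1 (e : Sym2 V) : V := (Quot.out e).1
noncomputable def p2 (e : Sym2 V) : V := (Quot.out e).2

lemma p_eq (e : Sym2 V) : s(p1 e, p2 e) = e := Quot.out_eq e

lemma p_swap (e : Sym2 V) : s(p2 e, p1 e) = e := by rw [Sym2.eq_swap, p_eq]

lemma p1_mem (e : Sym2 V) : p1 e ∈ e := by
  have h := Sym2.mem_mk_left (p1 e) (p2 e)
  rwa [p_eq] at h

lemma p2_mem (e : Sym2 V) : p2 e ∈ e := by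
  have h := Sym2.mem_mk_right (p1 e) (p2 e)
  rwa [p_eq] at h

lemma p_ne {e : Sym2 V} (he : e ∈ allE V) : p1 e ≠ p2 e := by
  unfold allE at he
  rw [← p_eq e, SimpleGraph.mem_edgeFinset, SimpleGraph.mem_edgeSet] at he
  exact he.ne

/-- The cost of an edge. -/
noncomputable def cost (f : Finset (Sym2 V) → ℝ) (R x : Finset (Sym2 V)) (e : Sym2 V) : ℝ :=
  |dl f R x e| * min (Am f R x e (p1 e)) (Am f R x e (p2 e))

lemma sum_edges_le_pairs {R : Finset (Sym2 V)} (hR : R ⊆ allE V) (G : V → V → ℝ)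
    (hG : ∀ v u, 0 ≤ G v u) :
    ∑ e ∈ R, (G (p1 e) (p2 e) + G (p2 e) (p1 e)) ≤ ∑ v, ∑ u ∈ Nb R v, G v u := by
  have h1 : ∑ v, ∑ u ∈ Nb R v, G v u
      = ∑ p ∈ (univ : Finset (V × V)).filter (fun p => s(p.1, p.2) ∈ R), G p.1 p.2 := by
    rw [sum_filter, Fintype.sum_prod_type]
    refine sum_congr rfl fun v _ => ?_
    unfold Nb
    rw [sum_filter]
  have hmaps : ∀ p ∈ (univ : Finset (V × V)).filter (fun p => s(p.1, p.2) ∈ R),
      s(p.1, p.2) ∈ R := fun p hp => (mem_filter.1 hp).2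
  rw [h1, ← sum_fiberwise_of_maps_to hmaps]
  refine sum_le_sum fun e he => ?_
  have hne : ((p1 e, p2 e) : V × V) ≠ (p2 e, p1 e) := by
    intro h
    exact p_ne (hR he) (Prod.ext_iff.1 h).1
  have h2 : G (p1 e) (p2 e) + G (p2 e) (p1 e)
      = ∑ p ∈ ({(p1 e, p2 e), (p2 e, p1 e)} : Finset (V × V)), G p.1 p.2 := by
    rw [sum_pair hne]
  rw [h2]
  apply sum_le_sum_of_subset_of_nonneg
  · intro p hp
    rw [mem_insert, mem_singleton] at hp
    rw [mem_filter, mem_filter]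
    rcases hp with rfl | rfl
    · simp only [mem_univ, true_and]
      rw [p_eq]
      exact ⟨he, rfl⟩
    · simp only [mem_univ, true_and]
      rw [Sym2.eq_swap, p_eq]
      exact ⟨he, rfl⟩
  · intro p _ _
    exact hG _ _

lemma sum_Nb (R : Finset (Sym2 V)) (v : V) (g : Sym2 V → ℝ) :
    ∑ u ∈ Nb R v, g s(v, u) = ∑ e ∈ R, (if v ∈ e then g e else 0) := by
  rw [← sum_filter]
  refine sum_bij (fun u _ => s(v, u)) ?_ ?_ ?_ ?_
  · intro u hu
    unfold Nb at hu
    rw [mem_filter]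
    exact ⟨(mem_filter.1 hu).2, Sym2.mem_mk_left _ _⟩
  · intro u _ u' _ h
    exact Sym2.congr_right.1 h
  · intro e he
    rw [mem_filter] at he
    obtain ⟨u, hu⟩ := Sym2.mem_iff_exists.1 he.2
    refine ⟨u, ?_, hu.symm⟩
    unfold Nb
    rw [mem_filter, ← hu]
    exact ⟨mem_univ _, he.1⟩
  · intro u _; rfl

/-- Total squared influence at a vertex. -/
noncomputable def Et (f : Finset (Sym2 V) → ℝ) (R x : Finset (Sym2 V)) (v : V) : ℝ :=
  ∑ e ∈ R, (if v ∈ e then dl f R x e ^ 2 else 0)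

lemma Eh_nonneg (f : Finset (Sym2 V) → ℝ) (R x : Finset (Sym2 V)) (e : Sym2 V) (v : V) :
    0 ≤ Eh f R x e v := sum_nonneg fun _ _ => by split_ifs <;> positivity

lemma Eh_add (f : Finset (Sym2 V) → ℝ) {R : Finset (Sym2 V)} (x : Finset (Sym2 V)) {e : Sym2 V}
    {v : V} (he : e ∈ R) (hv : v ∈ e) : Eh f R x e v + dl f R x e ^ 2 = Et f R x v := by
  unfold Eh Et
  rw [← sum_erase_add R _ he, if_pos hv]

lemma cost_state (f : Finset (Sym2 V) → ℝ) (hf : ∀ x, f x = 0 ∨ f x = 1)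
    {R : Finset (Sym2 V)} (hR : R ⊆ allE V) (x : Finset (Sym2 V)) (η : ℝ) (hη : 0 < η) :
    ∑ e ∈ R, cost f R x e ≤ η ^ 2 + Yq f R x / η ^ 2 + 2 * η + 1 / 2 * ∑ e ∈ R, dl f R x e ^ 2
      + 1 / 2 * Y2 f R x / η ^ 2 := by
  classical
  set iso : V → V → Prop := fun v u => Eh f R x s(v, u) v < dl f R x s(v, u) ^ 2 ∧
    Eh f R x s(v, u) u < dl f R x s(v, u) ^ 2 with hiso
  set G : V → V → ℝ := fun v u =>
      1 / 2 * η ^ 2 * (dl f R x s(v, u) ^ 2 * Phi f v R x / Et f R x v)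
        + Am f R x s(v, u) v * Eh f R x s(v, u) u / η ^ 2
        + (if iso v u then 1 / 2 * η * Phi f v R x else 0)
        + (1 / 2 * η + 1 / 4) * dl f R x s(v, u) ^ 2
        + 1 / 2 * (Am f R x s(v, u) v * Am f R x s(v, u) u ^ 2) / η ^ 2 with hG
  have hEt0 : ∀ v, 0 ≤ Et f R x v := fun v => sum_nonneg fun _ _ => by split_ifs <;> positivity
  have hG0 : ∀ v u, 0 ≤ G v u := by
    intro v u
    have e1 := Phi_nonneg f v R x
    have e2 := Am_nonneg f R x s(v, u) v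
    have e3 := Am_nonneg f R x s(v, u) u
    have e4 := Eh_nonneg f R x s(v, u) u
    have e5 := hEt0 v
    have e6 : 0 ≤ (if iso v u then 1 / 2 * η * Phi f v R x else 0) := by
      split_ifs <;> positivity
    rw [hG]
    positivity
  have h1 : ∑ e ∈ R, cost f R x e ≤ ∑ e ∈ R, (G (p1 e) (p2 e) + G (p2 e) (p1 e)) := by
    refine sum_le_sum fun e he => ?_
    have h2 := cost_edge |dl f R x e| (Am f R x e (p1 e)) (Am f R x e (p2 e))
      (Phi f (p1 e) R x) (Phi f (p2 e) R x) (Eh f R x e (p1 e)) (Eh f R x e (p2 e)) η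
      (abs_nonneg _) (Am_nonneg _ _ _ _ _) (Am_nonneg _ _ _ _ _)
      (Am_le_Phi f x he (p1_mem e)) (Am_le_Phi f x he (p2_mem e))
      (Eh_nonneg _ _ _ _ _) (Eh_nonneg _ _ _ _ _) hη
    rw [sq_abs, Eh_add f x he (p1_mem e), Eh_add f x he (p2_mem e)] at h2
    unfold cost
    refine h2.trans (le_of_eq ?_)
    simp only [hG, hiso, p_eq, p_swap]
  refine h1.trans ((sum_edges_le_pairs hR G hG0).trans ?_)
  have hsplit : ∑ v, ∑ u ∈ Nb R v, G v u
      = (∑ v, ∑ u ∈ Nb R v, 1 / 2 * η ^ 2 * (dl f R x s(v, u) ^ 2 * Phi f v R x / Et f R x v))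
        + (∑ v, ∑ u ∈ Nb R v, Am f R x s(v, u) v * Eh f R x s(v, u) u / η ^ 2)
        + (∑ v, ∑ u ∈ Nb R v, (if iso v u then 1 / 2 * η * Phi f v R x else 0))
        + (∑ v, ∑ u ∈ Nb R v, (1 / 2 * η + 1 / 4) * dl f R x s(v, u) ^ 2)
        + (∑ v, ∑ u ∈ Nb R v, 1 / 2 * (Am f R x s(v, u) v * Am f R x s(v, u) u ^ 2) / η ^ 2) := by
    rw [hG]
    simp only [sum_add_distrib]
  rw [hsplit]
  have hPhi : ∑ v, Phi f v R x ≤ 2 := by
    have := sum_Phi_le f R x
    have := Vr_le_one f hf R x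
    linarith
  have t1 : (∑ v, ∑ u ∈ Nb R v, 1 / 2 * η ^ 2 * (dl f R x s(v, u) ^ 2 * Phi f v R x
      / Et f R x v)) ≤ η ^ 2 := by
    have e1 : ∀ v, ∑ u ∈ Nb R v, 1 / 2 * η ^ 2 * (dl f R x s(v, u) ^ 2 * Phi f v R x
        / Et f R x v) ≤ 1 / 2 * η ^ 2 * Phi f v R x := by
      intro v
      have e2 : ∑ u ∈ Nb R v, 1 / 2 * η ^ 2 * (dl f R x s(v, u) ^ 2 * Phi f v R x
          / Et f R x v) = 1 / 2 * η ^ 2 * Phi f v R x * (Et f R x v / Et f R x v) := by
        have e3 : Et f R x v = ∑ u ∈ Nb R v, dl f R x s(v, u) ^ 2 :=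
          (sum_Nb R v (fun e => dl f R x e ^ 2)).symm
        rw [mul_div_assoc']
        nth_rw 2 [e3]
        rw [mul_sum, sum_div]
        refine sum_congr rfl fun u _ => ?_
        ring
      rw [e2]
      have e4 : Et f R x v / Et f R x v ≤ 1 := div_self_le_one _
      have e5 := Phi_nonneg f v R x
      have e6 : 0 ≤ 1 / 2 * η ^ 2 * Phi f v R x := by positivity
      nlinarith
    refine (sum_le_sum fun v _ => e1 v).trans ?_
    rw [← mul_sum]
    have : 0 < η ^ 2 := by positivity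
    nlinarith
  have t2 : (∑ v, ∑ u ∈ Nb R v, Am f R x s(v, u) v * Eh f R x s(v, u) u / η ^ 2)
      = Yq f R x / η ^ 2 := by
    unfold Yq
    rw [sum_div]
    refine sum_congr rfl fun v _ => ?_
    rw [sum_div]
  have t3 : (∑ v, ∑ u ∈ Nb R v, (if iso v u then 1 / 2 * η * Phi f v R x else 0)) ≤ η := by
    have e1 : ∀ v, ∑ u ∈ Nb R v, (if iso v u then 1 / 2 * η * Phi f v R x else 0)
        ≤ 1 / 2 * η * Phi f v R x := by
      intro v
      rw [← sum_filter, sum_const, nsmul_eq_mul]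
      have e2 : ((Nb R v).filter (fun u => iso v u)).card ≤ 1 := by
        rw [card_le_one]
        intro u hu u' hu'
        rw [mem_filter] at hu hu'
        by_contra hne
        have m1 : s(v, u) ∈ R := (mem_filter.1 hu.1).2
        have m2 : s(v, u') ∈ R := (mem_filter.1 hu'.1).2
        have hne2 : s(v, u) ≠ s(v, u') := fun h => hne (Sym2.congr_right.1 h)
        have i1 : dl f R x s(v, u') ^ 2 ≤ Eh f R x s(v, u) v := by
          unfold Eh
          have hm : s(v, u') ∈ R.erase s(v, u) := mem_erase.2 ⟨fun h => hne2 h.symm, m2⟩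
          have := single_le_sum (f := fun e' => if v ∈ e' then dl f R x e' ^ 2 else 0)
            (fun e' _ => by split_ifs <;> positivity) hm
          simp only [Sym2.mem_mk_left, if_true] at this
          exact this
        have i2 : dl f R x s(v, u) ^ 2 ≤ Eh f R x s(v, u') v := by
          unfold Eh
          have hm : s(v, u) ∈ R.erase s(v, u') := mem_erase.2 ⟨hne2, m1⟩
          have := single_le_sum (f := fun e' => if v ∈ e' then dl f R x e' ^ 2 else 0)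
            (fun e' _ => by split_ifs <;> positivity) hm
          simp only [Sym2.mem_mk_left, if_true] at this
          exact this
        have i3 := hu.2.1
        have i4 := hu'.2.1
        linarith
      have e3 : 0 ≤ 1 / 2 * η * Phi f v R x := by
        have := Phi_nonneg f v R x
        positivity
      have e4 : (((Nb R v).filter (fun u => iso v u)).card : ℝ) ≤ 1 := by exact_mod_cast e2
      nlinarith
    refine (sum_le_sum fun v _ => e1 v).trans ?_
    rw [← mul_sum]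
    nlinarith
  have t4 : (∑ v, ∑ u ∈ Nb R v, (1 / 2 * η + 1 / 4) * dl f R x s(v, u) ^ 2)
      ≤ η + 1 / 2 * ∑ e ∈ R, dl f R x e ^ 2 := by
    have e1 := sum_pairs_le R (fun e => (1 / 2 * η + 1 / 4) * dl f R x e ^ 2)
      (fun e => by positivity)
    refine e1.trans ?_
    rw [← mul_sum]
    have e2 := (sum_dl_sq_le f R x).trans (Vr_le_one f hf R x)
    have e3 : 0 ≤ ∑ e ∈ R, dl f R x e ^ 2 := sum_nonneg fun _ _ => sq_nonneg _
    nlinarith
  have t5 : (∑ v, ∑ u ∈ Nb R v, 1 / 2 * (Am f R x s(v, u) v * Am f R x s(v, u) u ^ 2) / η ^ 2)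
      = 1 / 2 * Y2 f R x / η ^ 2 := by
    unfold Y2
    rw [mul_sum, sum_div]
    refine sum_congr rfl fun v _ => ?_
    rw [mul_sum, sum_div]
  rw [t2, t5]
  linarith

lemma cost_trivial (f : Finset (Sym2 V) → ℝ) (hf : ∀ x, f x = 0 ∨ f x = 1)
    {R : Finset (Sym2 V)} (hR : R ⊆ allE V) (x : Finset (Sym2 V)) :
    ∑ e ∈ R, cost f R x e ≤ 3 / 2 := by
  set G : V → V → ℝ := fun v u => 1 / 4 * dl f R x s(v, u) ^ 2
    + 1 / 4 * (Phi f v R x * Phi f u R x) with hG
  have hG0 : ∀ v u, 0 ≤ G v u := by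
    intro v u
    have e1 := Phi_nonneg f v R x
    have e2 := Phi_nonneg f u R x
    rw [hG]; positivity
  have h1 : ∑ e ∈ R, cost f R x e ≤ ∑ e ∈ R, (G (p1 e) (p2 e) + G (p2 e) (p1 e)) := by
    refine sum_le_sum fun e he => ?_
    simp only [hG, p_eq, p_swap]
    unfold cost
    have a0 := Am_nonneg f R x e (p1 e)
    have b0 := Am_nonneg f R x e (p2 e)
    have a1 := Am_le_Phi f x he (p1_mem e)
    have b1 := Am_le_Phi f x he (p2_mem e)
    set a := Am f R x e (p1 e)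
    set b := Am f R x e (p2 e)
    have hm0 : 0 ≤ min a b := le_min a0 b0
    have e1 : |dl f R x e| * min a b ≤ 1 / 2 * |dl f R x e| ^ 2 + 1 / 2 * (min a b) ^ 2 := by
      nlinarith [sq_nonneg (|dl f R x e| - min a b)]
    rw [sq_abs] at e1
    have e2 : (min a b) ^ 2 ≤ Phi f (p1 e) R x * Phi f (p2 e) R x := by
      rw [sq]
      apply mul_le_mul ((min_le_left a b).trans a1) ((min_le_right a b).trans b1) hm0
      exact Phi_nonneg _ _ _ _
    linarith
  refine h1.trans ((sum_edges_le_pairs hR G hG0).trans ?_)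
  have hPhi : ∑ v, Phi f v R x ≤ 2 := by
    have := sum_Phi_le f R x
    have := Vr_le_one f hf R x
    linarith
  have hPhi0 : 0 ≤ ∑ v, Phi f v R x := sum_nonneg fun v _ => Phi_nonneg f v R x
  rw [hG]
  simp only [sum_add_distrib]
  have t1 : ∑ v, ∑ u ∈ Nb R v, 1 / 4 * dl f R x s(v, u) ^ 2 ≤ 1 / 2 := by
    have e1 := sum_pairs_le R (fun e => 1 / 4 * dl f R x e ^ 2) (fun e => by positivity)
    refine e1.trans ?_
    rw [← mul_sum]
    have e2 := (sum_dl_sq_le f R x).trans (Vr_le_one f hf R x)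
    linarith
  have t2 : ∑ v, ∑ u ∈ Nb R v, 1 / 4 * (Phi f v R x * Phi f u R x) ≤ 1 := by
    have e1 : ∀ v, ∑ u ∈ Nb R v, 1 / 4 * (Phi f v R x * Phi f u R x)
        ≤ 1 / 2 * Phi f v R x := by
      intro v
      rw [← mul_sum, ← mul_sum]
      have e2 : ∑ u ∈ Nb R v, Phi f u R x ≤ 2 :=
        (sum_le_sum_of_subset_of_nonneg (subset_univ _) fun u _ _ => Phi_nonneg f u R x).trans hPhi
      have e3 := Phi_nonneg f v R x
      nlinarith
    refine (sum_le_sum fun v _ => e1 v).trans ?_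
    rw [← mul_sum]
    linarith
  linarith

end Pool.Agent.H297.SF
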