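import Mathlib
import Pool.Agent.H297.Cost

set_option autoImplicit false
set_option linter.unusedSectionVars false

open Finset

namespace Pool.Agent.H297.SF

/-- `(n/N)^(1/8)`. -/
noncomputable def eta (n N : ℕ) : ℝ := ((n : ℝ) / N) ^ ((1 : ℝ) / 8)

lemma eta_nonneg (n N : ℕ) : 0 ≤ eta n N := by unfold eta; positivity

lemma eta_pow (n N : ℕ) : eta n N ^ 8 = (n : ℝ) / N := by
  unfold eta
  rw [← Real.rpow_natCast, ← Real.rpow_mul (by positivity)]
  norm_num

lemma eta_pos {n N : ℕ} (hn : 0 < n) (hN : 0 < N) : 0 < eta n N := by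
  unfold eta
  have : (0 : ℝ) < n := by exact_mod_cast hn
  have : (0 : ℝ) < N := by exact_mod_cast hN
  positivity

lemma eta_le_one {n N : ℕ} (h : n ≤ N) : eta n N ≤ 1 := by
  unfold eta
  apply Real.rpow_le_one (by positivity) _ (by norm_num)
  apply div_le_one_of_le₀ _ (by positivity)
  exact_mod_cast h

lemma eta_mono {n m N : ℕ} (h : n ≤ m) : eta n N ≤ eta m N := by
  unfold eta
  apply Real.rpow_le_rpow (by positivity) _ (by norm_num)
  have : (n : ℝ) ≤ m := by exact_mod_cast h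
  gcongr

lemma sum_eta {N : ℕ} : ∑ r ∈ range N, eta (r + 1) N / ((r : ℝ) + 1) ≤ 8 := by
  rcases Nat.eq_zero_or_pos N with h0 | hN
  · subst h0; simp
  have hN' : (0 : ℝ) < N := by exact_mod_cast hN
  have h1 : ∀ r ∈ range N, eta (r + 1) N / ((r : ℝ) + 1) ≤ 8 * (eta (r + 1) N - eta r N) := by
    intro r _
    have ha := eta_nonneg r N
    have hb := eta_pos (Nat.succ_pos r) hN
    have hab : eta r N ≤ eta (r + 1) N := eta_mono (Nat.le_succ r)
    have ea := eta_pow r N
    have eb := eta_pow (r + 1) N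
    rw [Nat.succ_eq_add_one] at hb
    generalize eta r N = a at *
    generalize eta (r + 1) N = b at *
    have h2 : b ^ 8 - a ^ 8 = 1 / N := by
      rw [ea, eb]; push_cast; ring
    have h3 : b ^ 8 - a ^ 8 ≤ 8 * b ^ 7 * (b - a) := by
      have e1 : b ^ 8 - a ^ 8 = (b ^ 7 + b ^ 6 * a + b ^ 5 * a ^ 2 + b ^ 4 * a ^ 3 + b ^ 3 * a ^ 4
        + b ^ 2 * a ^ 5 + b * a ^ 6 + a ^ 7) * (b - a) := by ring
      rw [e1]
      apply mul_le_mul_of_nonneg_right _ (by linarith)
      have q1 : b ^ 6 * a ≤ b ^ 6 * b := by gcongr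
      have q2 : b ^ 5 * a ^ 2 ≤ b ^ 5 * b ^ 2 := by gcongr
      have q3 : b ^ 4 * a ^ 3 ≤ b ^ 4 * b ^ 3 := by gcongr
      have q4 : b ^ 3 * a ^ 4 ≤ b ^ 3 * b ^ 4 := by gcongr
      have q5 : b ^ 2 * a ^ 5 ≤ b ^ 2 * b ^ 5 := by gcongr
      have q6 : b * a ^ 6 ≤ b * b ^ 6 := by gcongr
      have q7 : a ^ 7 ≤ b ^ 7 := by gcongr
      nlinarith
    rw [h2] at h3
    push_cast at eb
    have hr : (0 : ℝ) < (r : ℝ) + 1 := by positivity
    rw [div_le_iff₀ hr]
    have h4 : (r : ℝ) + 1 = N * b ^ 8 := by rw [eb]; field_simp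
    rw [h4]
    have h5 : 1 ≤ N * (8 * b ^ 7 * (b - a)) := by
      have := mul_le_mul_of_nonneg_left h3 hN'.le
      rw [mul_one_div_cancel hN'.ne'] at this
      exact this
    calc b = b * 1 := by ring
      _ ≤ b * (N * (8 * b ^ 7 * (b - a))) := mul_le_mul_of_nonneg_left h5 hb.le
      _ = 8 * (b - a) * (N * b ^ 8) := by ring
  refine (sum_le_sum h1).trans ?_
  rw [← mul_sum, sum_range_sub (fun r => eta r N)]
  have h2 : eta N N = 1 := by
    unfold eta
    rw [div_self hN'.ne', Real.one_rpow]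
  have h3 := eta_nonneg 0 N
  rw [h2]; linarith

variable {V : Type*} [DecidableEq V] [Fintype V]

lemma cost_level (f : Finset (Sym2 V) → ℝ) (hf : ∀ x, f x = 0 ∨ f x = 1)
    {E0 : Finset (Sym2 V)} (hE0 : E0 ⊆ allE V) {r : ℕ} (hr : r < E0.card) :
    Av E0 (r + 1) (fun R x => ∑ e ∈ R, cost f R x e) / ((r : ℝ) + 1)
      ≤ 4523 * (eta (r + 1) E0.card / ((r : ℝ) + 1)) + 1 / 2 * dd f E0 (r + 1)
        + 11 * ell f E0 (r + 1) := by
  have hN : 0 < E0.card := by omega
  have hN' : (0 : ℝ) < E0.card := by exact_mod_cast hN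
  have hr1 : (0 : ℝ) < (r : ℝ) + 1 := by positivity
  set η : ℝ := eta (r + 1) E0.card with hη
  have hη0 : 0 < η := eta_pos (Nat.succ_pos r) hN
  have hη1 : η ≤ 1 := eta_le_one hr
  have hη8 : η ^ 8 = ((r : ℝ) + 1) / E0.card := by rw [hη, eta_pow]; push_cast; rfl
  have hdd : Av E0 (r + 1) (fun R x => ∑ e ∈ R, dl f R x e ^ 2)
      = ((r : ℝ) + 1) * dd f E0 (r + 1) := by
    unfold dd; push_cast; field_simp
  have hell : Av E0 (r + 1) (Lq f) = ((r : ℝ) + 1) * ell f E0 (r + 1) := by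
    unfold ell; push_cast; field_simp
  have hdd0 : 0 ≤ dd f E0 (r + 1) := by
    unfold dd
    exact div_nonneg (Av_nonneg E0 _ fun R x => sum_nonneg fun _ _ => sq_nonneg _)
      (Nat.cast_nonneg _)
  have hell0 : 0 ≤ ell f E0 (r + 1) := by
    unfold ell
    refine div_nonneg (Av_nonneg E0 _ fun R x => ?_) (Nat.cast_nonneg _)
    unfold Lq
    exact sum_nonneg fun _ _ => sum_nonneg fun _ _ => sq_nonneg _
  have key : Av E0 (r + 1) (fun R x => ∑ e ∈ R, cost f R x e)
      ≤ 4523 * η + 1 / 2 * (((r : ℝ) + 1) * dd f E0 (r + 1))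
        + 11 * (((r : ℝ) + 1) * ell f E0 (r + 1)) := by
    rcases Nat.lt_or_ge E0.card (2 * r) with hbig | hsmall
    · -- large r
      have h1 : Av E0 (r + 1) (fun R x => ∑ e ∈ R, cost f R x e) ≤ 3 / 2 := by
        have := Av_mono E0 (r + 1) (g := fun R x => ∑ e ∈ R, cost f R x e) (h := fun _ _ => 3 / 2)
          (fun R hR _ x => cost_trivial f hf (hR.trans hE0) x)
        rwa [Av_const E0 hr] at this
      have h2 : 1 / 2 ≤ η := by
        by_contra hcon
        push Not at hcon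
        have h3 : η ^ 8 ≤ (1 / 2) ^ 8 := by gcongr
        rw [hη8, div_le_iff₀ hN'] at h3
        have h4 : (E0.card : ℝ) < 2 * r := by exact_mod_cast hbig
        nlinarith
      have : 0 ≤ ((r : ℝ) + 1) * dd f E0 (r + 1) := by positivity
      have : 0 ≤ ((r : ℝ) + 1) * ell f E0 (r + 1) := by positivity
      linarith
    · -- small r
      have h1 : Av E0 (r + 1) (fun R x => ∑ e ∈ R, cost f R x e)
          ≤ (η ^ 2 + 2 * η) + (1 / η ^ 2) * Av E0 (r + 1) (Yq f)
            + 1 / 2 * Av E0 (r + 1) (fun R x => ∑ e ∈ R, dl f R x e ^ 2)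
            + (1 / 2 / η ^ 2) * Av E0 (r + 1) (Y2 f) := by
        have h2 := Av_mono E0 (r + 1) (g := fun R x => ∑ e ∈ R, cost f R x e)
          (h := fun R x => (((η ^ 2 + 2 * η) + (1 / η ^ 2) * Yq f R x)
            + 1 / 2 * ∑ e ∈ R, dl f R x e ^ 2) + (1 / 2 / η ^ 2) * Y2 f R x)
          (fun R hR _ x => by
            have := cost_state f hf (hR.trans hE0) x η hη0
            refine this.trans (le_of_eq ?_)
            ring)
        rw [Av_add, Av_add, Av_add, Av_mul, Av_mul, Av_mul, Av_const E0 hr] at h2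
        exact h2
      have hC1 := choose_pos' (N := E0.card) (r := r + 1) hr
      have hC0 := choose_pos' (N := E0.card) (r := r) hr.le
      have hstep := choose_step hr
      have hs : (2 : ℝ) * r ≤ E0.card := by exact_mod_cast hsmall
      have hNr : (0 : ℝ) < (E0.card : ℝ) - r := by
        have : (r : ℝ) < E0.card := by exact_mod_cast hr
        linarith
      have hrho : (E0.card.choose r : ℝ) / (E0.card.choose (r + 1) : ℝ) ≤ 2 * η ^ 8 := by
        rw [hη8, div_le_iff₀ hC1]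
        have e1 : 2 * (((r : ℝ) + 1) / E0.card) * (E0.card.choose (r + 1) : ℝ)
            = 2 * (((r : ℝ) + 1) * (E0.card.choose (r + 1) : ℝ)) / E0.card := by ring
        rw [e1, hstep, le_div_iff₀ hN']
        nlinarith
      have hY : Av E0 (r + 1) (Yq f) ≤ 2 * η ^ 8 * (702 + 22 / η ^ 4) + 176 * η ^ 4 := by
        have e1 := Yq_avg f hf E0 r (η ^ 4) (by positivity)
        unfold Av
        rw [div_le_iff₀ hC1]
        have e2 : (E0.card.choose r : ℝ) ≤ 2 * η ^ 8 * (E0.card.choose (r + 1) : ℝ) := by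
          rwa [div_le_iff₀ hC1] at hrho
        have e3 : (E0.card.choose r : ℝ) * (702 + 22 / η ^ 4)
            ≤ 2 * η ^ 8 * (E0.card.choose (r + 1) : ℝ) * (702 + 22 / η ^ 4) :=
          mul_le_mul_of_nonneg_right e2 (by positivity)
        nlinarith
      have hY2 : Av E0 (r + 1) (Y2 f) ≤ 2 * η ^ 8 * (2808 + 88 / η ^ 2)
          + 22 * η ^ 2 * Av E0 (r + 1) (Lq f) := by
        have e1 := Y2_avg f hf E0 r (η ^ 2) (by positivity)
        unfold Av
        rw [div_le_iff₀ hC1]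
        have e2 : (E0.card.choose r : ℝ) ≤ 2 * η ^ 8 * (E0.card.choose (r + 1) : ℝ) := by
          rwa [div_le_iff₀ hC1] at hrho
        have e3 : (E0.card.choose r : ℝ) * (2808 + 88 / η ^ 2)
            ≤ 2 * η ^ 8 * (E0.card.choose (r + 1) : ℝ) * (2808 + 88 / η ^ 2) :=
          mul_le_mul_of_nonneg_right e2 (by positivity)
        have e4 : (2 * η ^ 8 * (2808 + 88 / η ^ 2) + 22 * η ^ 2
            * (As E0 (r + 1) (Lq f) / (E0.card.choose (r + 1) : ℝ))) * (E0.card.choose (r + 1) : ℝ)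
            = 2 * η ^ 8 * (E0.card.choose (r + 1) : ℝ) * (2808 + 88 / η ^ 2)
              + 22 * η ^ 2 * As E0 (r + 1) (Lq f) := by
          field_simp
        rw [e4]
        linarith
      rw [hell] at hY2
      rw [hdd] at h1
      have p2 : η ^ 2 ≤ η := by nlinarith
      have p4 : η ^ 4 ≤ η := by
        calc η ^ 4 ≤ η ^ 1 := pow_le_pow_of_le_one hη0.le hη1 (by norm_num)
          _ = η := pow_one η
      have p6 : η ^ 6 ≤ η := by
        calc η ^ 6 ≤ η ^ 1 := pow_le_pow_of_le_one hη0.le hη1 (by norm_num)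
          _ = η := pow_one η
      have g1 : (1 / η ^ 2) * Av E0 (r + 1) (Yq f) ≤ 1624 * η := by
        calc (1 / η ^ 2) * Av E0 (r + 1) (Yq f)
            ≤ (1 / η ^ 2) * (2 * η ^ 8 * (702 + 22 / η ^ 4) + 176 * η ^ 4) :=
              mul_le_mul_of_nonneg_left hY (by positivity)
          _ = 1404 * η ^ 6 + 220 * η ^ 2 := by field_simp; ring
          _ ≤ 1624 * η := by linarith
      have g2 : (1 / 2 / η ^ 2) * Av E0 (r + 1) (Y2 f)
          ≤ 2896 * η + 11 * (((r : ℝ) + 1) * ell f E0 (r + 1)) := by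
        calc (1 / 2 / η ^ 2) * Av E0 (r + 1) (Y2 f)
            ≤ (1 / 2 / η ^ 2) * (2 * η ^ 8 * (2808 + 88 / η ^ 2)
              + 22 * η ^ 2 * (((r : ℝ) + 1) * ell f E0 (r + 1))) :=
              mul_le_mul_of_nonneg_left hY2 (by positivity)
          _ = 2808 * η ^ 6 + 88 * η ^ 4 + 11 * (((r : ℝ) + 1) * ell f E0 (r + 1)) := by
              field_simp; ring
          _ ≤ _ := by linarith
      linarith
  rw [div_le_iff₀ hr1]
  refine key.trans (le_of_eq ?_)
  field_simp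

/-- Total cost. -/
theorem cost_sum (f : Finset (Sym2 V) → ℝ) (hf : ∀ x, f x = 0 ∨ f x = 1)
    {E0 : Finset (Sym2 V)} (hE0 : E0 ⊆ allE V) :
    ∑ r ∈ range E0.card, Av E0 (r + 1) (fun R x => ∑ e ∈ R, cost f R x e) / ((r : ℝ) + 1)
      ≤ 40000 := by
  have h1 : ∀ r ∈ range E0.card,
      Av E0 (r + 1) (fun R x => ∑ e ∈ R, cost f R x e) / ((r : ℝ) + 1)
      ≤ 4523 * (eta (r + 1) E0.card / ((r : ℝ) + 1)) + 1 / 2 * dd f E0 (r + 1)
        + 11 * ell f E0 (r + 1) := fun r hr => cost_level f hf hE0 (mem_range.1 hr)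
  refine (sum_le_sum h1).trans ?_
  rw [sum_add_distrib, sum_add_distrib, ← mul_sum, ← mul_sum, ← mul_sum]
  have h2 := sum_eta (N := E0.card)
  have h3 := sum_dd f hf E0
  have h4 := sum_ell f hf E0
  linarith

end Pool.Agent.H297.SF
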