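import Mathlib
import Pool.Agent.H297.Degen

set_option autoImplicit false

open Finset

namespace Pool.Agent.H297

variable {V : Type*} [DecidableEq V]

open Classical in
/-- A random edge set with `∑ q²` small compared with `k²` is very unlikely to contain a
subgraph of minimum degree `k`. -/
lemma prob_dense [Fintype V] (k : ℕ) (hk : 1024 ≤ k) (s : Finset (Finset V))
    (hs : ∀ e ∈ s, e.card = 2)
    (q : Finset V → ℝ) (hq0 : ∀ e ∈ s, 0 ≤ q e) (hq1 : ∀ e ∈ s, q e ≤ 1)
    (hS : ∑ e ∈ s, (q e) ^ 2 ≤ (k : ℝ) ^ 2 / 16384) :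
    Ex q s (fun J => if Dense k J then 1 else 0) ≤ Real.exp (-((k : ℝ) ^ 2 / 2)) := by
  rcases isEmpty_or_nonempty V with hV | hV
  · have : Ex q s (fun J => if Dense k J then 1 else 0) = Ex q s (fun _ => 0) := by
      refine Ex_congr (fun _ _ => rfl) (fun J _ => ?_)
      rw [if_neg]
      rintro ⟨U, hU, _⟩
      obtain ⟨v, _⟩ := hU
      exact hV.elim v
    rw [this, Ex_const]
    exact (Real.exp_pos _).le
  have hkR : (1024 : ℝ) ≤ k := by exact_mod_cast hk
  set n : ℕ := Fintype.card V with hn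
  have hn0 : (0 : ℝ) < n := by rw [hn]; exact_mod_cast Fintype.card_pos
  set Sg : ℝ := (k : ℝ) ^ 2 / 8192 with hSg
  have hSg0 : 0 < Sg := by rw [hSg]; positivity
  set sv : V → ℝ := fun v => ∑ e ∈ s.filter (fun e => v ∈ e), (q e) ^ 2 with hsv
  have hsv0 : ∀ v, 0 ≤ sv v := fun v => sum_nonneg fun _ _ => sq_nonneg _
  have hsvsum : ∑ v, sv v ≤ Sg := by
    have h1 : ∑ v, sv v = ∑ e ∈ s, 2 * (q e) ^ 2 := by
      rw [hsv]
      dsimp only
      have : ∀ v : V, ∑ e ∈ s.filter (fun e => v ∈ e), (q e) ^ 2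
          = ∑ e ∈ s, if v ∈ e then (q e) ^ 2 else 0 := fun v => by rw [sum_filter]
      rw [sum_congr rfl (fun v _ => this v), sum_comm]
      refine sum_congr rfl fun e he => ?_
      rw [← sum_filter, sum_const]
      have h2 : (univ.filter (fun v => v ∈ e)) = e := by ext v; simp
      rw [h2, hs e he]
      simp
    rw [h1, ← mul_sum, hSg]
    linarith
  set p : V → ℝ := fun v => (sv v / Sg + 1 / n) / 2 with hp
  have hp0 : ∀ v, 0 < p v := by
    intro v
    rw [hp]; dsimp only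
    have := hsv0 v
    positivity
  have hpsum : ∑ v, p v ≤ 1 := by
    rw [hp]; dsimp only
    rw [← sum_div, sum_add_distrib, ← sum_div, sum_const, nsmul_eq_mul]
    have h1 : (∑ v, sv v) / Sg ≤ 1 := by rw [div_le_one hSg0]; exact hsvsum
    have h2 : ((univ : Finset V).card : ℝ) * (1 / n) = 1 := by
      rw [card_univ, ← hn]; field_simp
    rw [h2]
    linarith
  have hB : ∀ v, ∑ e ∈ s.filter (fun e => v ∈ e), (q e) ^ 2 ≤ ((k : ℝ) / 64) ^ 2 * p v := by
    intro v
    have h1 : sv v = Sg * (sv v / Sg) := by field_simp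
    have h2 : 0 ≤ 1 / (n : ℝ) := by positivity
    have h4 : ((k : ℝ) / 64) ^ 2 = 2 * Sg := by rw [hSg]; ring
    change sv v ≤ ((k : ℝ) / 64) ^ 2 * ((sv v / Sg + 1 / n) / 2)
    rw [h4]
    have h3 : 0 ≤ Sg * (1 / (n : ℝ)) := by positivity
    have h5 : 2 * Sg * ((sv v / Sg + 1 / n) / 2) = Sg * (sv v / Sg) + Sg * (1 / (n : ℝ)) := by ring
    rw [h5, ← h1]
    linarith
  -- decomposition of the indicator
  have hind : ∀ J, J ⊆ s → (if Dense k J then (1 : ℝ) else 0) ≤
      ∑ m ∈ Ico k (n + 1), ∑ U ∈ powersetCard m (univ : Finset V),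
        (if (∀ v ∈ U, k ≤ dg J U v) then 1 else 0) := by
    intro J hJ
    have hnn : ∀ m ∈ Ico k (n + 1), 0 ≤ ∑ U ∈ powersetCard m (univ : Finset V),
        (if (∀ v ∈ U, k ≤ dg J U v) then (1 : ℝ) else 0) := by
      intro m _
      refine sum_nonneg fun U _ => ?_
      split_ifs <;> norm_num
    by_cases hD : Dense k J
    · rw [if_pos hD]
      obtain ⟨U, hU, hdeg⟩ := hD
      have hUk : k ≤ U.card := by
        obtain ⟨v, hv⟩ := hU
        exact (hdeg v hv).trans (card_edges_le (fun e he => hs e (hJ he)) U v)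
      have hUn : U.card ≤ n := by rw [hn]; exact card_le_univ U
      have hm : U.card ∈ Ico k (n + 1) := mem_Ico.2 ⟨hUk, by omega⟩
      refine le_trans ?_ (single_le_sum hnn hm)
      have hUm : U ∈ powersetCard U.card (univ : Finset V) :=
        mem_powersetCard.2 ⟨subset_univ U, rfl⟩
      refine le_trans ?_ (single_le_sum (fun W _ => by split_ifs <;> norm_num) hUm)
      rw [if_pos hdeg]
    · rw [if_neg hD]
      exact sum_nonneg hnn
  have h1 := Ex_mono hq0 hq1 hind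
  refine h1.trans ?_
  rw [Ex_sum]
  -- the base of the geometric series
  set ρ : ℝ := Real.exp 1 * (Real.exp 1 / 8) ^ k with hρ
  have he1 : Real.exp 1 < 2.7182818286 := Real.exp_one_lt_d9
  have he0 : 0 < Real.exp 1 := Real.exp_pos 1
  have hρ0 : 0 ≤ ρ := by rw [hρ]; positivity
  have hterm : ∀ m ∈ Ico k (n + 1), Ex q s (fun J => ∑ U ∈ powersetCard m (univ : Finset V),
        (if (∀ v ∈ U, k ≤ dg J U v) then (1 : ℝ) else 0)) ≤ ρ ^ m := by
    intro m hm
    have hmk : k ≤ m := (mem_Ico.1 hm).1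
    rw [Ex_sum]
    have hU : ∀ U ∈ powersetCard m (univ : Finset V),
        Ex q s (fun J => if (∀ v ∈ U, k ≤ dg J U v) then (1 : ℝ) else 0)
          ≤ ((Real.exp 1 / 8) ^ k) ^ m * (m : ℝ) ^ m * ∏ v ∈ U, p v := by
      intro U hU
      have hUc : U.card = m := (mem_powersetCard.1 hU).2
      have hUne : U.Nonempty := by rw [← card_pos]; omega
      have := prob_AU k (by omega) s hs q hq0 hq1 p hp0 U hUne
        ((sum_le_univ_sum_of_nonneg (fun v => (hp0 v).le)).trans hpsum) hB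
        (fun J => if (∀ v ∈ U, k ≤ dg J U v) then (1 : ℝ) else 0)
        (fun J _ => by split_ifs <;> simp_all)
      rw [hUc] at this
      exact this
    refine (sum_le_sum hU).trans ?_
    rw [← mul_sum]
    have h2 := sum_powersetCard_prod_le p (fun v => (hp0 v).le) univ m
    have h3 : (∑ v, p v) ^ m / (m.factorial : ℝ) ≤ 1 / (m.factorial : ℝ) := by
      have : (∑ v, p v) ^ m ≤ 1 := pow_le_one₀ (sum_nonneg fun v _ => (hp0 v).le) hpsum
      gcongr
    have h4 : (m : ℝ) ^ m / (m.factorial : ℝ) ≤ Real.exp m :=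
      Real.pow_div_factorial_le_exp m (Nat.cast_nonneg m) m
    calc ((Real.exp 1 / 8) ^ k) ^ m * (m : ℝ) ^ m *
          ∑ U ∈ powersetCard m (univ : Finset V), ∏ v ∈ U, p v
        ≤ ((Real.exp 1 / 8) ^ k) ^ m * (m : ℝ) ^ m * (1 / (m.factorial : ℝ)) := by
          gcongr
          exact h2.trans h3
      _ = ((Real.exp 1 / 8) ^ k) ^ m * ((m : ℝ) ^ m / (m.factorial : ℝ)) := by ring
      _ ≤ ((Real.exp 1 / 8) ^ k) ^ m * Real.exp m := by gcongr
      _ = ρ ^ m := by
          rw [hρ, mul_pow, ← Real.exp_nat_mul, mul_one]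
          ring
  refine (sum_le_sum hterm).trans ?_
  -- 2ρ ≤ exp (2 - k) ≤ 1
  have hρ2 : 2 * ρ ≤ Real.exp (2 - k) := by
    have h5 : Real.exp 1 / 8 ≤ Real.exp (-1) := by
      rw [Real.exp_neg, div_le_iff₀ (by norm_num : (0 : ℝ) < 8), inv_mul_eq_div,
        le_div_iff₀ he0]
      nlinarith
    have h6 : (Real.exp 1 / 8) ^ k ≤ Real.exp (-(k : ℝ)) := by
      calc (Real.exp 1 / 8) ^ k ≤ (Real.exp (-1)) ^ k := by gcongr
        _ = Real.exp (-(k : ℝ)) := by rw [← Real.exp_nat_mul]; congr 1; ring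
    have h7 : (2 : ℝ) ≤ Real.exp 1 := by
      have := Real.add_one_le_exp (1 : ℝ); linarith
    calc 2 * ρ ≤ Real.exp 1 * (Real.exp 1 * Real.exp (-(k : ℝ))) := by
          rw [hρ]; gcongr
      _ = Real.exp (2 - k) := by
          rw [← Real.exp_add, ← Real.exp_add]; congr 1; ring
  have hρ1 : 2 * ρ ≤ 1 := hρ2.trans (by
    rw [← Real.exp_zero]; exact Real.exp_le_exp.2 (by linarith))
  have hgeom : ∑ m ∈ Ico k (n + 1), ρ ^ m ≤ (2 * ρ) ^ k * 2 := by
    have h8 : ∀ m ∈ Ico k (n + 1), ρ ^ m ≤ (2 * ρ) ^ k * (1 / 2) ^ m := by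
      intro m hm
      have hmk : k ≤ m := (mem_Ico.1 hm).1
      have : ρ ^ m = (2 * ρ) ^ m * (1 / 2) ^ m := by
        rw [← mul_pow]; congr 1; ring
      rw [this]
      have h9 : (2 * ρ) ^ m ≤ (2 * ρ) ^ k := pow_le_pow_of_le_one (by positivity) hρ1 hmk
      gcongr
    refine (sum_le_sum h8).trans ?_
    rw [← mul_sum]
    have h10 : ∑ m ∈ Ico k (n + 1), ((1 : ℝ) / 2) ^ m ≤ 2 := by
      refine le_trans ?_ (sum_geometric_two_le (n + 1))
      refine sum_le_sum_of_subset_of_nonneg ?_ (fun _ _ _ => by positivity)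
      intro m hm
      exact mem_range.2 (mem_Ico.1 hm).2
    gcongr
  refine hgeom.trans ?_
  have h11 : (2 * ρ) ^ k ≤ Real.exp ((2 - k) * k) := by
    calc (2 * ρ) ^ k ≤ (Real.exp (2 - k)) ^ k := by gcongr
      _ = Real.exp ((2 - k) * k) := by rw [← Real.exp_nat_mul]; congr 1; ring
  have h7 : (2 : ℝ) ≤ Real.exp 1 := by
    have := Real.add_one_le_exp (1 : ℝ); linarith
  calc (2 * ρ) ^ k * 2 ≤ Real.exp ((2 - k) * k) * Real.exp 1 := by gcongr
    _ = Real.exp ((2 - k) * k + 1) := by rw [← Real.exp_add]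
    _ ≤ Real.exp (-((k : ℝ) ^ 2 / 2)) := by
        apply Real.exp_le_exp.2
        nlinarith

end Pool.Agent.H297
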