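import Mathlib
import Pool.Agent.H297.DenseMain

set_option autoImplicit false

open Finset

namespace Pool.Agent.H297

variable {V : Type*} [DecidableEq V]

/-- **Main theorem.**  Let `F` be a family of graphs (sets of `2`-subsets of `V`) such that the
intersection of any two members contains a subgraph of minimum degree at least `k ≥ 1`.  Then
`|F| ≤ 2 ^ (C(n,2) - k² / 2²⁰)`. -/
theorem families_bound [Fintype V] (k : ℕ) (hk1 : 1 ≤ k) (F : Finset (Finset (Finset V)))
    (hF : ∀ A ∈ F, A ⊆ powersetCard 2 (univ : Finset V))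
    (hint : ∀ A ∈ F, ∀ B ∈ F, Dense k (A ∩ B)) :
    (F.card : ℝ) ≤ (2 : ℝ) ^ (((Fintype.card V).choose 2 : ℝ) - (k : ℝ) ^ 2 / 2 ^ 20) := by
  classical
  set s : Finset (Finset V) := powersetCard 2 (univ : Finset V) with hs
  have hs2 : ∀ e ∈ s, e.card = 2 := fun e he => (mem_powersetCard.1 he).2
  set N : ℕ := s.card with hN
  have hNc : N = (Fintype.card V).choose 2 := by
    rw [hN, hs, card_powersetCard, card_univ]
  rw [← hNc]
  rcases F.eq_empty_or_nonempty with hFe | hFne
  · rw [hFe, card_empty, Nat.cast_zero]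
    positivity
  -- the up-closure
  set F' : Finset (Finset (Finset V)) := s.powerset.filter (fun A => ∃ B ∈ F, B ⊆ A) with hF'
  have hFF' : F ⊆ F' := fun A hA => mem_filter.2 ⟨mem_powerset.2 (hF A hA), A, hA, Subset.refl A⟩
  have hF's : ∀ A ∈ F', A ⊆ s := fun A hA => mem_powerset.1 (mem_filter.1 hA).1
  have hF'int : ∀ A ∈ F', ∀ B ∈ F', Dense k (A ∩ B) := by
    intro A hA B hB
    obtain ⟨A0, hA0, hA0A⟩ := (mem_filter.1 hA).2
    obtain ⟨B0, hB0, hB0B⟩ := (mem_filter.1 hB).2
    exact (hint A0 hA0 B0 hB0).mono (inter_subset_inter hA0A hB0B)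
  set D : Finset (Finset (Finset V)) := F'.image (fun A => s \ A) with hD
  have hinj : Set.InjOn (fun A => s \ A) (F' : Set (Finset (Finset V))) := by
    intro A hA B hB h
    have h1 : s \ (s \ A) = A := by rw [sdiff_sdiff_right_self]; exact inf_eq_right.2 (hF's A hA)
    have h2 : s \ (s \ B) = B := by rw [sdiff_sdiff_right_self]; exact inf_eq_right.2 (hF's B hB)
    rw [← h1, ← h2]
    simp only at h
    rw [h]
  have hcardD : D.card = F'.card := card_image_of_injOn hinj
  have hF'ne : F'.Nonempty := hFne.mono hFF'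
  have hDne : D.Nonempty := hF'ne.image _
  have hDs : ∀ g ∈ D, g ⊆ s := by
    intro g hg
    obtain ⟨A, _, rfl⟩ := mem_image.1 hg
    exact sdiff_subset
  have hDdown : ∀ g ∈ D, ∀ g', g' ⊆ g → g' ∈ D := by
    intro g hg g' hg'
    obtain ⟨A, hA, rfl⟩ := mem_image.1 hg
    refine mem_image.2 ⟨s \ g', ?_, ?_⟩
    · obtain ⟨B, hB, hBA⟩ := (mem_filter.1 hA).2
      refine mem_filter.2 ⟨mem_powerset.2 sdiff_subset, B, hB, ?_⟩
      intro e he
      refine mem_sdiff.2 ⟨hF's A hA (hBA he), fun h => ?_⟩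
      exact (mem_sdiff.1 (hg' h)).2 (hBA he)
    · have : g' ⊆ s := hg'.trans sdiff_subset
      show s \ (s \ g') = g'
      rw [sdiff_sdiff_right_self]; exact inf_eq_right.2 this
  obtain ⟨a, ha⟩ : ∃ a : ℝ, a = (F'.card : ℝ) := ⟨_, rfl⟩
  have ha0 : 0 < a := by rw [ha]; exact_mod_cast hF'ne.card_pos
  have hFa : (F.card : ℝ) ≤ a := by rw [ha]; exact_mod_cast card_le_card hFF'
  -- the trivial bound a ≤ 2^N / 2
  have hhalf : 2 * a ≤ 2 ^ N := by
    have hdisj : Disjoint F' D := by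
      rw [disjoint_left]
      intro A hA hAD
      obtain ⟨B, hB, hBA⟩ := mem_image.1 hAD
      obtain ⟨U, hU, hdeg⟩ := hF'int A hA B hB
      obtain ⟨v, hv⟩ := hU
      have h1 : A ∩ B = ∅ := by
        rw [← hBA]; exact sdiff_inter_self B s
      have h2 := hdeg v hv
      rw [h1] at h2
      simp [dg] at h2
      omega
    have h3 : (F' ∪ D).card ≤ 2 ^ N := by
      rw [hN, ← card_powerset]
      apply card_le_card
      intro A hA
      rcases mem_union.1 hA with h | h
      · exact mem_powerset.2 (hF's A h)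
      · exact mem_powerset.2 (hDs A h)
    rw [card_union_of_disjoint hdisj, hcardD] at h3
    rw [ha]
    have h4 : ((F'.card + F'.card : ℕ) : ℝ) ≤ ((2 ^ N : ℕ) : ℝ) := by exact_mod_cast h3
    push_cast at h4
    linarith
  rcases lt_or_ge k 1024 with hksmall | hkbig
  · -- small k
    have hkR : (k : ℝ) < 1024 := by exact_mod_cast hksmall
    have hk2 : (k : ℝ) ^ 2 / 2 ^ 20 ≤ 1 := by
      rw [div_le_one (by positivity)]
      have : (0 : ℝ) ≤ k := Nat.cast_nonneg k
      nlinarith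
    calc (F.card : ℝ) ≤ a := hFa
      _ ≤ 2 ^ N / 2 := by linarith
      _ = (2 : ℝ) ^ ((N : ℝ) - 1) := by
          rw [Real.rpow_sub (by norm_num), Real.rpow_natCast, Real.rpow_one]
      _ ≤ (2 : ℝ) ^ ((N : ℝ) - (k : ℝ) ^ 2 / 2 ^ 20) := by
          apply Real.rpow_le_rpow_of_exponent_le (by norm_num)
          linarith
  · -- large k
    have hkR : (1024 : ℝ) ≤ k := by exact_mod_cast hkbig
    obtain ⟨q, hqb, hqφ, hqe⟩ := coupling s D hDne hDs hDdown
    set β : ℝ := Real.exp (-((k : ℝ) ^ 2 / 2)) with hβ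
    set S0 : ℝ := (k : ℝ) ^ 2 / 16384 with hS0
    set η : ℝ := Real.exp (-((1 / 16) * S0)) with hη
    have hmain := hqφ (fun G => if G ∈ F' then (1 : ℝ) else 0)
    have hLHS : ∑ G ∈ s.powerset, (if G ∈ F' then (1 : ℝ) else 0) = a := by
      rw [← sum_filter, sum_const, nsmul_eq_mul, mul_one, ha]
      congr 2
      ext A
      rw [mem_filter]
      exact ⟨fun h => h.2, fun h => ⟨mem_powerset.2 (hF's A h), h⟩⟩
    rw [hLHS, hcardD, ← ha] at hmain
    -- bound each term
    have hterm : ∀ g ∈ D, Ex (q g) s (fun J => if (g ∪ J) ∈ F' then (1 : ℝ) else 0)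
        ≤ β + η * Real.exp ((1 / 16) * ∑ e ∈ s, (q g e) ^ 2) := by
      intro g hg
      obtain ⟨A, hA, hAg⟩ := mem_image.1 hg
      have hq0 : ∀ e ∈ s, 0 ≤ q g e := fun e _ => (hqb g e).1
      have hq1 : ∀ e ∈ s, q g e ≤ 1 := fun e _ => (hqb g e).2.trans (by norm_num)
      have hle1 : Ex (q g) s (fun J => if (g ∪ J) ∈ F' then (1 : ℝ) else 0)
          ≤ Ex (q g) s (fun J => if Dense k J then 1 else 0) := by
        refine Ex_mono hq0 hq1 fun J hJ => ?_
        by_cases hc : g ∪ J ∈ F'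
        · have hd := hF'int _ hc A hA
          have hsub : (g ∪ J) ∩ A ⊆ J := by
            intro e he
            obtain ⟨he1, he2⟩ := mem_inter.1 he
            rcases mem_union.1 he1 with h | h
            · rw [← hAg] at h
              exact absurd he2 (mem_sdiff.1 h).2
            · exact h
          rw [if_pos hc, if_pos (hd.mono hsub)]
        · rw [if_neg hc]
          split_ifs <;> norm_num
      refine hle1.trans ?_
      have hβ0 : 0 ≤ β := (Real.exp_pos _).le
      have hη0 : 0 ≤ η := (Real.exp_pos _).le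
      rcases le_or_gt (∑ e ∈ s, (q g e) ^ 2) S0 with hle | hgt
      · have := prob_dense k hkbig s hs2 (q g) hq0 hq1 hle
        refine this.trans ?_
        have : 0 ≤ η * Real.exp ((1 / 16) * ∑ e ∈ s, (q g e) ^ 2) := by positivity
        linarith
      · have h1 : Ex (q g) s (fun J => if Dense k J then (1 : ℝ) else 0) ≤ 1 := by
          have h3 : Ex (q g) s (fun J => if Dense k J then (1 : ℝ) else 0)
              ≤ Ex (q g) s (fun _ => 1) :=
            Ex_mono hq0 hq1 fun J _ => by split_ifs <;> norm_num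
          rwa [Ex_const] at h3
        have h2 : 1 ≤ η * Real.exp ((1 / 16) * ∑ e ∈ s, (q g e) ^ 2) := by
          rw [hη, ← Real.exp_add]
          apply Real.one_le_exp
          linarith
        linarith
    have hsum : ∑ g ∈ D, Ex (q g) s (fun J => if (g ∪ J) ∈ F' then (1 : ℝ) else 0)
        ≤ a * β + η * √(2 ^ N * a) := by
      refine (sum_le_sum hterm).trans ?_
      rw [sum_add_distrib, sum_const, nsmul_eq_mul, hcardD, ← ha, ← mul_sum]
      have : ∑ g ∈ D, Real.exp ((1 / 16) * ∑ e ∈ s, (q g e) ^ 2) ≤ √(2 ^ N * a) := by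
        rw [ha, ← hcardD]; exact hqe
      have hη0 : 0 ≤ η := (Real.exp_pos _).le
      gcongr
    have hP : (0 : ℝ) < 2 ^ N := by positivity
    have hineq : a * a ≤ 2 ^ N * (a * β + η * √(2 ^ N * a)) := by
      rw [hmain]; gcongr
    -- u = √(a / 2^N)
    set u : ℝ := √(a / 2 ^ N) with hu
    have hu0 : 0 < u := Real.sqrt_pos.2 (by positivity)
    have hu2 : u ^ 2 = a / 2 ^ N := Real.sq_sqrt (by positivity)
    have hau : a = 2 ^ N * u ^ 2 := by rw [hu2]; field_simp
    have hu1 : u ≤ 1 := by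
      have : u ^ 2 ≤ 1 := by
        rw [hu2, div_le_one hP]; linarith
      nlinarith
    have hsq : √(2 ^ N * a) = 2 ^ N * u := by
      rw [hau]
      have : (2 : ℝ) ^ N * (2 ^ N * u ^ 2) = (2 ^ N * u) ^ 2 := by ring
      rw [this, Real.sqrt_sq (by positivity)]
    rw [hsq, hau] at hineq
    have hcube : u ^ 3 ≤ u * β + η := by
      have h1 : ((2 : ℝ) ^ N) ^ 2 * u * u ^ 3 ≤ ((2 : ℝ) ^ N) ^ 2 * u * (u * β + η) := by
        calc ((2 : ℝ) ^ N) ^ 2 * u * u ^ 3 = 2 ^ N * u ^ 2 * (2 ^ N * u ^ 2) := by ring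
          _ ≤ _ := hineq
          _ = ((2 : ℝ) ^ N) ^ 2 * u * (u * β + η) := by ring
      exact le_of_mul_le_mul_left h1 (by positivity)
    have hβ0 : 0 < β := Real.exp_pos _
    set x : ℝ := (k : ℝ) ^ 2 / 2 ^ 18 with hx
    have hx4 : 4 ≤ x := by
      rw [hx, le_div_iff₀ (by positivity)]
      nlinarith
    have hβη : β ≤ Real.exp (-x) := by
      rw [hβ]
      apply Real.exp_le_exp.2
      rw [hx]
      have : (0 : ℝ) ≤ (k : ℝ) ^ 2 := by positivity
      linarith
    have hηx : η = Real.exp (-x) := by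
      rw [hη, hS0, hx]; congr 1; ring
    have hcube2 : u ^ 3 ≤ (Real.exp (-(x / 4))) ^ 3 := by
      have h2e : (2 : ℝ) ≤ Real.exp 1 := by
        have := Real.add_one_le_exp (1 : ℝ); linarith
      calc u ^ 3 ≤ u * β + η := hcube
        _ ≤ 1 * β + η := by gcongr
        _ ≤ Real.exp (-x) + Real.exp (-x) := by rw [one_mul, hηx]; gcongr
        _ = 2 * Real.exp (-x) := by ring
        _ ≤ Real.exp 1 * Real.exp (-x) := by gcongr
        _ = Real.exp (1 - x) := by rw [← Real.exp_add]; congr 1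
        _ ≤ Real.exp (((3 : ℕ) : ℝ) * (-(x / 4))) := by
            apply Real.exp_le_exp.2
            push_cast
            linarith
        _ = (Real.exp (-(x / 4))) ^ 3 := by rw [Real.exp_nat_mul]
    have hule : u ≤ Real.exp (-(x / 4)) :=
      le_of_pow_le_pow_left₀ (by norm_num) (Real.exp_pos _).le hcube2
    have hu2le : u ^ 2 ≤ Real.exp (-(x / 2)) := by
      calc u ^ 2 ≤ (Real.exp (-(x / 4))) ^ 2 := by gcongr
        _ = Real.exp (-(x / 2)) := by rw [← Real.exp_nat_mul]; congr 1; push_cast; ring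
    have hlog : Real.log 2 ≤ 1 := by
      have := Real.log_two_lt_d9; linarith
    calc (F.card : ℝ) ≤ a := hFa
      _ = 2 ^ N * u ^ 2 := hau
      _ ≤ 2 ^ N * Real.exp (-(x / 2)) := by gcongr
      _ ≤ 2 ^ N * Real.exp (-(Real.log 2 * ((k : ℝ) ^ 2 / 2 ^ 20))) := by
          gcongr 2 ^ N * ?_
          apply Real.exp_le_exp.2
          rw [hx]
          have h0 : (0 : ℝ) ≤ (k : ℝ) ^ 2 := by positivity
          have h1 : Real.log 2 * ((k : ℝ) ^ 2 / 2 ^ 20) ≤ 1 * ((k : ℝ) ^ 2 / 2 ^ 20) := by gcongr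
          have h2 : 1 * ((k : ℝ) ^ 2 / 2 ^ 20) ≤ (k : ℝ) ^ 2 / 2 ^ 18 / 2 := by linarith
          linarith
      _ = (2 : ℝ) ^ ((N : ℝ) - (k : ℝ) ^ 2 / 2 ^ 20) := by
          rw [Real.rpow_sub (by norm_num), Real.rpow_natCast,
            Real.rpow_def_of_pos (by norm_num : (0 : ℝ) < 2), Real.exp_neg]
          exact (div_eq_mul_inv _ _).symm

end Pool.Agent.H297
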