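import Mathlib
import Pool.Agent.H297.Families

set_option autoImplicit false

open Finset

namespace Pool.Agent.H297

variable {V : Type*} [DecidableEq V] [Fintype V]

omit [DecidableEq V] [Fintype V] in
/-- `G` has a nonempty vertex set `U` in which every vertex has at least `k` neighbours, i.e. a
(nonempty) subgraph of minimum degree at least `k`. -/
def HasCore (G : SimpleGraph V) (k : ℕ) : Prop :=
  ∃ U : Finset V, U.Nonempty ∧ ∀ v ∈ U, ∃ W : Finset V, W ⊆ U ∧ k ≤ W.card ∧ ∀ u ∈ W, G.Adj v u

open Classical in
/-- The edges of a graph as `2`-subsets. -/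
noncomputable def edg (G : SimpleGraph V) : Finset (Finset V) :=
  (powersetCard 2 (univ : Finset V)).filter (fun e => ∀ u ∈ e, ∀ v ∈ e, u ≠ v → G.Adj u v)

lemma edg_sub (G : SimpleGraph V) : edg G ⊆ powersetCard 2 (univ : Finset V) := by
  classical
  unfold edg
  exact filter_subset _ _

lemma mem_edg {G : SimpleGraph V} {u v : V} : ({u, v} : Finset V) ∈ edg G ↔ G.Adj u v := by
  classical
  unfold edg
  rw [mem_filter, mem_powersetCard]
  constructor
  · rintro ⟨⟨_, hc⟩, h⟩
    have huv : u ≠ v := by
      rintro rfl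
      simp at hc
    exact h u (by simp) v (by simp) huv
  · intro h
    refine ⟨⟨subset_univ _, card_pair h.ne⟩, ?_⟩
    intro a ha b hb hab
    simp only [mem_insert, mem_singleton] at ha hb
    rcases ha with rfl | rfl <;> rcases hb with rfl | rfl
    · exact absurd rfl hab
    · exact h
    · exact h.symm
    · exact absurd rfl hab

lemma edg_inf (G H : SimpleGraph V) : edg (G ⊓ H) = edg G ∩ edg H := by
  classical
  ext e
  unfold edg
  simp only [mem_inter, mem_filter, SimpleGraph.inf_adj]
  constructor
  · rintro ⟨he, h⟩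
    exact ⟨⟨he, fun u hu v hv huv => (h u hu v hv huv).1⟩,
      ⟨he, fun u hu v hv huv => (h u hu v hv huv).2⟩⟩
  · rintro ⟨⟨he, h⟩, ⟨_, h'⟩⟩
    exact ⟨he, fun u hu v hv huv => ⟨h u hu v hv huv, h' u hu v hv huv⟩⟩

lemma edg_injective : Function.Injective (edg : SimpleGraph V → Finset (Finset V)) := by
  intro G H h
  ext u v
  rw [← mem_edg, ← mem_edg, h]

lemma dg_edg (G : SimpleGraph V) (U W : Finset V) (v : V) (hv : v ∈ U) (hW : W ⊆ U)
    (hadj : ∀ u ∈ W, G.Adj v u) : W.card ≤ dg (edg G) U v := by
  unfold dg
  apply card_le_card_of_injOn (fun u => ({v, u} : Finset V))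
  · intro u hu
    rw [mem_coe] at hu
    rw [mem_coe, mem_filter]
    refine ⟨mem_edg.2 (hadj u hu), by simp, ?_⟩
    intro x hx
    simp only [mem_insert, mem_singleton] at hx
    rcases hx with rfl | rfl
    · exact hv
    · exact hW hu
  · intro u hu w hw h
    rw [mem_coe] at hu hw
    simp only at h
    have h1 : u ∈ ({v, w} : Finset V) := by rw [← h]; simp
    simp only [mem_insert, mem_singleton] at h1
    rcases h1 with h1 | h1
    · exact absurd h1 (hadj u hu).ne'
    · exact h1

/-- **Graph version.** If the intersection of any two members of a family `F` of graphs on `V`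
contains a (nonempty) subgraph of minimum degree at least `k`, then
`|F| ≤ 2 ^ (C(n,2) - k² / 2²⁰)`. -/
theorem graph_families_bound (k : ℕ) (hk1 : 1 ≤ k) (F : Finset (SimpleGraph V))
    (hint : ∀ G ∈ F, ∀ H ∈ F, HasCore (G ⊓ H) k) :
    (F.card : ℝ) ≤ (2 : ℝ) ^ (((Fintype.card V).choose 2 : ℝ) - (k : ℝ) ^ 2 / 2 ^ 20) := by
  classical
  have h := families_bound k hk1 (F.image edg) (by
      intro A hA
      obtain ⟨G, _, rfl⟩ := mem_image.1 hA
      exact edg_sub G) (by
      intro A hA B hB
      obtain ⟨G, hG, rfl⟩ := mem_image.1 hA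
      obtain ⟨H, hH, rfl⟩ := mem_image.1 hB
      obtain ⟨U, hU, hd⟩ := hint G hG H hH
      rw [← edg_inf]
      refine ⟨U, hU, fun v hv => ?_⟩
      obtain ⟨W, hWU, hWk, hadj⟩ := hd v hv
      exact hWk.trans (dg_edg (G ⊓ H) U W v hv hWU hadj))
  rwa [card_image_of_injective _ edg_injective] at h

open Classical in
/-- Greedy colouring: a graph in which every nonempty vertex set `U` has a vertex with fewer than
`k` neighbours in `U` is `k`-colourable. -/
lemma colorable_of_degenerate (G : SimpleGraph V) (k : ℕ) (hk : 1 ≤ k)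
    (h : ∀ U : Finset V, U.Nonempty → ∃ v ∈ U, (U.filter (fun u => G.Adj v u)).card < k) :
    G.Colorable k := by
  have key : ∀ m : ℕ, ∀ U : Finset V, U.card = m →
      ∃ c : V → Fin k, ∀ u ∈ U, ∀ v ∈ U, G.Adj u v → c u ≠ c v := by
    intro m
    induction m with
    | zero =>
      intro U hU
      rw [card_eq_zero] at hU
      subst hU
      exact ⟨fun _ => ⟨0, hk⟩, fun u hu => absurd hu (notMem_empty u)⟩
    | succ m ih =>
      intro U hU
      have hne : U.Nonempty := by rw [← card_pos]; omega
      obtain ⟨v, hv, hdeg⟩ := h U hne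
      obtain ⟨c, hc⟩ := ih (U.erase v) (by rw [card_erase_of_mem hv]; omega)
      have hfree : ∃ x : Fin k, x ∉ (U.filter (fun u => G.Adj v u)).image c := by
        by_contra hcon
        push Not at hcon
        have h1 : (univ : Finset (Fin k)) ⊆ (U.filter (fun u => G.Adj v u)).image c :=
          fun x _ => hcon x
        have h2 := card_le_card h1
        rw [card_univ, Fintype.card_fin] at h2
        have h3 : ((U.filter (fun u => G.Adj v u)).image c).card
          ≤ (U.filter (fun u => G.Adj v u)).card := card_image_le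
        omega
      obtain ⟨x, hx⟩ := hfree
      refine ⟨Function.update c v x, ?_⟩
      intro a ha b hb hab
      by_cases hav : a = v
      · subst hav
        have hba : b ≠ a := hab.ne'
        rw [Function.update_self, Function.update_of_ne hba]
        intro hcx
        apply hx
        rw [mem_image]
        exact ⟨b, mem_filter.2 ⟨hb, hab⟩, hcx.symm⟩
      · by_cases hbv : b = v
        · subst hbv
          rw [Function.update_self, Function.update_of_ne hav]
          intro hcx
          apply hx
          rw [mem_image]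
          exact ⟨a, mem_filter.2 ⟨ha, hab.symm⟩, hcx⟩
        · rw [Function.update_of_ne hav, Function.update_of_ne hbv]
          exact hc a (mem_erase.2 ⟨hav, ha⟩) b (mem_erase.2 ⟨hbv, hb⟩) hab
  obtain ⟨c, hc⟩ := key _ univ rfl
  exact ⟨SimpleGraph.Coloring.mk c (fun {u v} huv => hc u (mem_univ u) v (mem_univ v) huv)⟩

/-- A graph of chromatic number at least `k + 1` contains a subgraph of minimum degree `k`. -/
lemma hasCore_of_chromatic (G : SimpleGraph V) (k : ℕ) (hk : 1 ≤ k)
    (h : ((k + 1 : ℕ) : ℕ∞) ≤ G.chromaticNumber) : HasCore G k := by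
  classical
  by_contra hcon
  have hcol := colorable_of_degenerate G k hk (by
    intro U hU
    by_contra hcc
    push Not at hcc
    exact hcon ⟨U, hU, fun v hv => ⟨U.filter (fun u => G.Adj v u), filter_subset _ _, hcc v hv,
      fun u hu => (mem_filter.1 hu).2⟩⟩)
  have h1 := hcol.chromaticNumber_le
  have h2 := h.trans h1
  have h3 : k + 1 ≤ k := by exact_mod_cast h2
  omega

omit [DecidableEq V] [Fintype V] in
/-- A graph containing `K_{t,t}` contains a subgraph of minimum degree `t`. -/
lemma hasCore_of_contains (G : SimpleGraph V) (t : ℕ) (ht : 1 ≤ t)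
    (h : (completeBipartiteGraph (Fin t) (Fin t)).IsContained G) : HasCore G t := by
  classical
  obtain ⟨f⟩ := h
  have hinj : Function.Injective f.toHom := f.injective
  refine ⟨univ.image f.toHom, ⟨f.toHom (Sum.inl ⟨0, ht⟩), mem_image_of_mem _ (mem_univ _)⟩, ?_⟩
  intro v hv
  obtain ⟨x, _, rfl⟩ := mem_image.1 hv
  rcases x with i | i
  · refine ⟨(univ : Finset (Fin t)).image (fun j => f.toHom (Sum.inr j)), ?_, ?_, ?_⟩
    · intro u hu
      obtain ⟨j, _, rfl⟩ := mem_image.1 hu
      exact mem_image_of_mem _ (mem_univ _)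
    · rw [card_image_of_injective _ (fun a b hab => Sum.inr_injective (hinj hab)), card_univ,
        Fintype.card_fin]
    · intro u hu
      obtain ⟨j, _, rfl⟩ := mem_image.1 hu
      exact f.toHom.map_adj (by simp)
  · refine ⟨(univ : Finset (Fin t)).image (fun j => f.toHom (Sum.inl j)), ?_, ?_, ?_⟩
    · intro u hu
      obtain ⟨j, _, rfl⟩ := mem_image.1 hu
      exact mem_image_of_mem _ (mem_univ _)
    · rw [card_image_of_injective _ (fun a b hab => Sum.inl_injective (hinj hab)), card_univ,
        Fintype.card_fin]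
    · intro u hu
      obtain ⟨j, _, rfl⟩ := mem_image.1 hu
      exact f.toHom.map_adj (by simp)

end Pool.Agent.H297
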