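import Mathlib
import Pool.Agent.H297.KtMain
import Pool.Agent.H297.GraphVersion

set_option autoImplicit false

open Finset

namespace Pool.Agent.H297

variable {V : Type*} [DecidableEq V] [Fintype V]

/-- Graph version: if any two members of a family of graphs agree on all pairs inside some
`t`-set of vertices, the family has at most `327^t 2^{C(n,2) - C(t,2)}` members. -/
theorem agree_graph_bound (t : ℕ) (ht : 5 ≤ t) (F : Finset (SimpleGraph V))
    (h : ∀ G ∈ F, ∀ H ∈ F, ∃ U : Finset V, U.card = t ∧
      ∀ u ∈ U, ∀ v ∈ U, (G.Adj u v ↔ H.Adj u v)) :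
    (F.card : ℝ) ≤ 327 ^ t * 2 ^ ((Fintype.card V).choose 2) / 2 ^ (t.choose 2) := by
  classical
  have h1 := agreeing_bound t ht (F.image edg) (by
      intro A hA
      obtain ⟨G, _, rfl⟩ := mem_image.1 hA
      exact edg_sub G) (by
      intro A hA B hB
      obtain ⟨G, hG, rfl⟩ := mem_image.1 hA
      obtain ⟨H, hH, rfl⟩ := mem_image.1 hB
      obtain ⟨U, hU, hd⟩ := h G hG H hH
      refine ⟨U, hU, ?_⟩
      rw [disjoint_left]
      intro e he hes
      obtain ⟨heU, hec⟩ := mem_powersetCard.1 he
      obtain ⟨a, b, hab, rfl⟩ := card_eq_two.1 hec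
      have ha : a ∈ U := heU (by simp)
      have hb : b ∈ U := heU (by simp)
      have hiff := hd a ha b hb
      rw [mem_symmDiff, mem_edg, mem_edg] at hes
      tauto)
  rwa [card_image_of_injective _ edg_injective] at h1

end Pool.Agent.H297
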