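import Mathlib
import Pool.Agent.H297.CostSum

set_option autoImplicit false
set_option linter.unusedSectionVars false
set_option linter.unnecessarySeqFocus false

open Finset

namespace Pool.Agent.H297.SF

variable {V : Type*} [DecidableEq V] [Fintype V]

/-- Set the coordinate `e` to `b`. -/
def setb {α : Type*} [DecidableEq α] (b : Bool) (e : α) (x : Finset α) : Finset α :=
  if b then insert e x else x.erase e

lemma mem_setb_self {α : Type*} [DecidableEq α] (b : Bool) (e : α) (x : Finset α) :
    e ∈ setb b e x ↔ b = true := by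
  unfold setb; cases b <;> simp

lemma mem_setb_ne {α : Type*} [DecidableEq α] (b : Bool) {e a : α} (h : a ≠ e) (x : Finset α) :
    a ∈ setb b e x ↔ a ∈ x := by
  unfold setb; cases b <;> simp [h]

lemma setb_sum {α : Type*} [DecidableEq α] [Fintype α] (b : Bool) (e : α) (x : Finset α)
    (g : Finset α → ℝ) : g (setb b e x) + g (setb (!b) e x) = g x + g (fl e x) := by
  rw [← pair_sum e x g]
  unfold setb
  cases b
  · simp
  · simp [add_comm]

lemma setb_cases {α : Type*} [DecidableEq α] [Fintype α] (b : Bool) (e : α) (x : Finset α) :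
    setb b e x = x ∨ setb b e x = fl e x := by
  by_cases hx : e ∈ x
  · cases b
    · right
      ext a
      by_cases ha : a = e
      · subst ha; rw [mem_setb_self, mem_fl_self]; simp [hx]
      · rw [mem_setb_ne _ ha, mem_fl_ne ha]
    · left
      ext a
      by_cases ha : a = e
      · subst ha; rw [mem_setb_self]; simp [hx]
      · rw [mem_setb_ne _ ha]
  · cases b
    · left
      ext a
      by_cases ha : a = e
      · subst ha; rw [mem_setb_self]; simp [hx]
      · rw [mem_setb_ne _ ha]
    · right
      ext a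
      by_cases ha : a = e
      · subst ha; rw [mem_setb_self, mem_fl_self]; simp [hx]
      · rw [mem_setb_ne _ ha, mem_fl_ne ha]

/-- The preferred value of coordinate `e`. -/
noncomputable def ub (f : Finset (Sym2 V) → ℝ) (R x : Finset (Sym2 V)) (e : Sym2 V) : Bool :=
  decide (coef f R x {e} < 0)

noncomputable def up (f : Finset (Sym2 V) → ℝ) (R x : Finset (Sym2 V)) (e : Sym2 V) :
    Finset (Sym2 V) := setb (ub f R x e) e x

noncomputable def dn (f : Finset (Sym2 V) → ℝ) (R x : Finset (Sym2 V)) (e : Sym2 V) :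
    Finset (Sym2 V) := setb (!ub f R x e) e x

lemma up_dn_sum (f : Finset (Sym2 V) → ℝ) (R x : Finset (Sym2 V)) (e : Sym2 V)
    (g : Finset (Sym2 V) → ℝ) : g (up f R x e) + g (dn f R x e) = g x + g (fl e x) :=
  setb_sum _ _ _ _

lemma coef_setb (f : Finset (Sym2 V) → ℝ) {R : Finset (Sym2 V)} {e : Sym2 V} (he : e ∈ R)
    (b : Bool) (x : Finset (Sym2 V)) :
    coef f (R.erase e) (setb b e x) ∅ = coef f R x ∅ + (if b then -1 else 1) * coef f R x {e} := by
  have h1 := coef_erase f (setb b e x) he (notMem_empty e)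
  have h2 : ∀ T, coef f R (setb b e x) T = coef f R x T := by
    intro T
    rcases setb_cases b e x with h | h
    · rw [h]
    · rw [h, coef_fl f he]
  have h3 : sg e (setb b e x) = if b then -1 else 1 := by
    unfold sg
    cases b
    · rw [if_neg (by rw [mem_setb_self]; simp)]; simp
    · rw [if_pos (by rw [mem_setb_self])]; simp
  rw [h1, h2, h2, h3]; rfl

lemma coef_up (f : Finset (Sym2 V) → ℝ) {R : Finset (Sym2 V)} {e : Sym2 V} (he : e ∈ R)
    (x : Finset (Sym2 V)) :
    coef f (R.erase e) (up f R x e) ∅ = coef f R x ∅ + |dl f R x e| / 2 := by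
  unfold up
  rw [coef_setb f he]
  unfold ub dl
  by_cases h : coef f R x {e} < 0
  · rw [abs_mul, abs_of_neg h]; simp [h]; ring
  · rw [abs_mul, abs_of_nonneg (not_lt.1 h)]; simp [h]

lemma coef_dn (f : Finset (Sym2 V) → ℝ) {R : Finset (Sym2 V)} {e : Sym2 V} (he : e ∈ R)
    (x : Finset (Sym2 V)) :
    coef f (R.erase e) (dn f R x e) ∅ = coef f R x ∅ - |dl f R x e| / 2 := by
  unfold dn
  rw [coef_setb f he]
  unfold ub dl
  by_cases h : coef f R x {e} < 0
  · rw [abs_mul, abs_of_neg h]; simp [h]; ring
  · rw [abs_mul, abs_of_nonneg (not_lt.1 h)]; simp [h]; ring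

/-- Leaf and centre of a pair. -/
noncomputable def lf (f : Finset (Sym2 V) → ℝ) (R x : Finset (Sym2 V)) (e : Sym2 V) : V :=
  if Am f R x e (p1 e) ≤ Am f R x e (p2 e) then p1 e else p2 e

noncomputable def ct (f : Finset (Sym2 V) → ℝ) (R x : Finset (Sym2 V)) (e : Sym2 V) : V :=
  if Am f R x e (p1 e) ≤ Am f R x e (p2 e) then p2 e else p1 e

lemma lf_ct (f : Finset (Sym2 V) → ℝ) (R x : Finset (Sym2 V)) (e : Sym2 V) :
    s(lf f R x e, ct f R x e) = e := by
  unfold lf ct
  split_ifs
  · exact p_eq e
  · exact p_swap e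

lemma lf_mem (f : Finset (Sym2 V) → ℝ) (R x : Finset (Sym2 V)) (e : Sym2 V) :
    lf f R x e ∈ e := by
  unfold lf
  split_ifs
  · exact p1_mem e
  · exact p2_mem e

lemma Am_lf (f : Finset (Sym2 V) → ℝ) (R x : Finset (Sym2 V)) (e : Sym2 V) :
    |dl f R x e| * Am f R x e (lf f R x e) = cost f R x e := by
  unfold cost lf
  split_ifs with h
  · rw [min_eq_left h]
  · rw [min_eq_right (not_le.1 h).le]

/-- Indicator that the edge `e` may be used. -/
noncomputable def ind (f : Finset (Sym2 V) → ℝ) (L : Finset V) (R x : Finset (Sym2 V))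
    (Z : Finset V) (e : Sym2 V) : ℝ :=
  if lf f R x e ∈ L ∧ ct f R x e ∉ L ∧ lf f R x e ∉ Z then 1 else 0

lemma ind_cases (f : Finset (Sym2 V) → ℝ) (L : Finset V) (R x : Finset (Sym2 V))
    (Z : Finset V) (e : Sym2 V) : ind f L R x Z e = 0 ∨ ind f L R x Z e = 1 := by
  unfold ind; split_ifs <;> simp

noncomputable def Acc (f : Finset (Sym2 V) → ℝ) (L : Finset V) (lam : ℝ) :
    ℕ → Finset (Sym2 V) → Finset (Sym2 V) → Finset V → ℝ
  | 0, _, _, _ => 0
  | n + 1, R, x, Z => (∑ e ∈ R, (ind f L R x Z e * dl f R x e ^ 2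
      + (1 / 2 * Acc f L lam n (R.erase e) (dn f R x e) Z
        + (1 / 2 - lam * |dl f R x e| * ind f L R x Z e) * Acc f L lam n (R.erase e) (up f R x e) Z
        + lam * |dl f R x e| * ind f L R x Z e
          * Acc f L lam n (R.erase e) (up f R x e) (insert (lf f R x e) Z)))) / ((n : ℝ) + 1)

noncomputable def EN (f : Finset (Sym2 V) → ℝ) (L : Finset V) :
    ℕ → Finset (Sym2 V) → Finset (Sym2 V) → Finset V → ℝ
  | 0, _, _, _ => 0
  | n + 1, R, x, Z => (∑ e ∈ R, (ind f L R x Z e * dl f R x e ^ 2
      + (EN f L n (R.erase e) x Z + EN f L n (R.erase e) (fl e x) Z) / 2)) / ((n : ℝ) + 1)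

noncomputable def Qf (f : Finset (Sym2 V) → ℝ) :
    ℕ → Finset (Sym2 V) → Finset (Sym2 V) → ℝ
  | 0, _, _ => 0
  | n + 1, R, x => (∑ e ∈ R, (cost f R x e
      + (Qf f n (R.erase e) x + Qf f n (R.erase e) (fl e x)) / 2)) / ((n : ℝ) + 1)

lemma dl_abs_le_one (f : Finset (Sym2 V) → ℝ) (hf : ∀ x, f x = 0 ∨ f x = 1)
    {R : Finset (Sym2 V)} (x : Finset (Sym2 V)) {e : Sym2 V} (he : e ∈ R) :
    |dl f R x e| ≤ 1 := by
  have h1 : dl f R x e ^ 2 ≤ 1 :=
    (single_le_sum (f := fun e => dl f R x e ^ 2) (fun _ _ => sq_nonneg _) he).trans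
      ((sum_dl_sq_le f R x).trans (Vr_le_one f hf R x))
  exact abs_le_one_iff_mul_self_le_one.2 (by rw [← sq]; exact h1)

lemma V_split (f : Finset (Sym2 V) → ℝ) {R : Finset (Sym2 V)} (x : Finset (Sym2 V)) {e : Sym2 V}
    (he : e ∈ R) : (Vr f (R.erase e) (up f R x e) + Vr f (R.erase e) (dn f R x e)) / 2
      = Vr f R x - dl f R x e ^ 2 := by
  rw [up_dn_sum f R x e (fun y => Vr f (R.erase e) y)]
  exact Vr_half f x he

lemma Acc_bounds (f : Finset (Sym2 V) → ℝ) (hf : ∀ x, f x = 0 ∨ f x = 1) (L : Finset V)
    (lam : ℝ) (hl0 : 0 ≤ lam) (hl1 : lam ≤ 1 / 100) (n : ℕ) :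
    ∀ (R x : Finset (Sym2 V)) (Z : Finset V), R.card = n →
      0 ≤ Acc f L lam n R x Z ∧ Acc f L lam n R x Z ≤ Vr f R x := by
  induction n with
  | zero =>
    intro R x Z _
    unfold Acc
    exact ⟨le_rfl, Vr_nonneg f R x⟩
  | succ n ih =>
    intro R x Z hcard
    have hn : (0 : ℝ) < (n : ℝ) + 1 := by positivity
    have key : ∀ e ∈ R, 0 ≤ ind f L R x Z e * dl f R x e ^ 2
      + (1 / 2 * Acc f L lam n (R.erase e) (dn f R x e) Z
        + (1 / 2 - lam * |dl f R x e| * ind f L R x Z e) * Acc f L lam n (R.erase e) (up f R x e) Z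
        + lam * |dl f R x e| * ind f L R x Z e
          * Acc f L lam n (R.erase e) (up f R x e) (insert (lf f R x e) Z)) ∧
        ind f L R x Z e * dl f R x e ^ 2
      + (1 / 2 * Acc f L lam n (R.erase e) (dn f R x e) Z
        + (1 / 2 - lam * |dl f R x e| * ind f L R x Z e) * Acc f L lam n (R.erase e) (up f R x e) Z
        + lam * |dl f R x e| * ind f L R x Z e
          * Acc f L lam n (R.erase e) (up f R x e) (insert (lf f R x e) Z)) ≤ Vr f R x := by
      intro e he
      have hce : (R.erase e).card = n := by rw [card_erase_of_mem he, hcard]; rfl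
      obtain ⟨a0, a1⟩ := ih (R.erase e) (dn f R x e) Z hce
      obtain ⟨b0, b1⟩ := ih (R.erase e) (up f R x e) Z hce
      obtain ⟨c0, c1⟩ := ih (R.erase e) (up f R x e) (insert (lf f R x e) Z) hce
      have hV := V_split f x he
      have hd := dl_abs_le_one f hf x he
      have hd0 := abs_nonneg (dl f R x e)
      have ht0 : 0 ≤ lam * |dl f R x e| * ind f L R x Z e := by
        rcases ind_cases f L R x Z e with h | h <;> rw [h] <;> simp <;> positivity
      have ht1 : lam * |dl f R x e| * ind f L R x Z e ≤ 1 / 2 := by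
        have : lam * |dl f R x e| ≤ 1 / 100 * 1 := mul_le_mul hl1 hd hd0 (by norm_num)
        rcases ind_cases f L R x Z e with h | h <;> rw [h] <;> linarith
      have hi0 : 0 ≤ ind f L R x Z e * dl f R x e ^ 2 := by
        rcases ind_cases f L R x Z e with h | h <;> rw [h] <;> simp <;> positivity
      have hi1 : ind f L R x Z e * dl f R x e ^ 2 ≤ dl f R x e ^ 2 := by
        rcases ind_cases f L R x Z e with h | h <;> rw [h] <;> simp <;> positivity
      set t := lam * |dl f R x e| * ind f L R x Z e with ht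
      have m1 : 0 ≤ (1 / 2 - t) * Acc f L lam n (R.erase e) (up f R x e) Z :=
        mul_nonneg (by linarith) b0
      have m2 : 0 ≤ t * Acc f L lam n (R.erase e) (up f R x e) (insert (lf f R x e) Z) :=
        mul_nonneg ht0 c0
      have m3 : (1 / 2 - t) * Acc f L lam n (R.erase e) (up f R x e) Z
          ≤ (1 / 2 - t) * Vr f (R.erase e) (up f R x e) :=
        mul_le_mul_of_nonneg_left b1 (by linarith)
      have m4 : t * Acc f L lam n (R.erase e) (up f R x e) (insert (lf f R x e) Z)
          ≤ t * Vr f (R.erase e) (up f R x e) := mul_le_mul_of_nonneg_left c1 ht0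
      constructor
      · linarith
      · nlinarith
    unfold Acc
    constructor
    · exact div_nonneg (sum_nonneg fun e he => (key e he).1) hn.le
    · rw [div_le_iff₀ hn]
      refine (sum_le_sum fun e he => (key e he).2).trans (le_of_eq ?_)
      rw [sum_const, nsmul_eq_mul, hcard]
      push_cast
      ring

/-- Effect of enlarging the set of used leaves. -/
lemma EN_insert (f : Finset (Sym2 V) → ℝ) (L : Finset V) (n : ℕ) :
    ∀ (R x : Finset (Sym2 V)) (Z : Finset V) (v : V), R.card = n →
      EN f L n R x Z - Phi f v R x ≤ EN f L n R x (insert v Z) := by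
  induction n with
  | zero =>
    intro R x Z v _
    unfold EN
    have := Phi_nonneg f v R x
    linarith
  | succ n ih =>
    intro R x Z v hcard
    have hn : (0 : ℝ) < (n : ℝ) + 1 := by positivity
    have hA := sum_Am f R x v
    have key : ∀ e ∈ R, (ind f L R x Z e * dl f R x e ^ 2
        + (EN f L n (R.erase e) x Z + EN f L n (R.erase e) (fl e x) Z) / 2)
        - ((if v ∈ e then dl f R x e ^ 2 else 0) + Am f R x e v)
        ≤ ind f L R x (insert v Z) e * dl f R x e ^ 2
        + (EN f L n (R.erase e) x (insert v Z) + EN f L n (R.erase e) (fl e x) (insert v Z)) / 2 := by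
      intro e he
      have hce : (R.erase e).card = n := by rw [card_erase_of_mem he, hcard]; rfl
      have h1 := ih (R.erase e) x Z v hce
      have h2 := ih (R.erase e) (fl e x) Z v hce
      have h3 : ind f L R x Z e * dl f R x e ^ 2 - (if v ∈ e then dl f R x e ^ 2 else 0)
          ≤ ind f L R x (insert v Z) e * dl f R x e ^ 2 := by
        have hsq := sq_nonneg (dl f R x e)
        by_cases hv : v ∈ e
        · rw [if_pos hv]
          have i1 : ind f L R x Z e * dl f R x e ^ 2 ≤ dl f R x e ^ 2 := by
            rcases ind_cases f L R x Z e with h | h <;> rw [h] <;> simp <;> positivity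
          have i2 : 0 ≤ ind f L R x (insert v Z) e * dl f R x e ^ 2 := by
            rcases ind_cases f L R x (insert v Z) e with h | h <;> rw [h] <;> simp <;> positivity
          linarith
        · rw [if_neg hv]
          have hne : lf f R x e ≠ v := fun h => hv (h ▸ lf_mem f R x e)
          have i3 : ind f L R x (insert v Z) e = ind f L R x Z e := by
            unfold ind
            simp only [mem_insert, hne, false_or]
          rw [i3]; linarith
      unfold Am
      linarith
    unfold EN
    rw [le_div_iff₀ hn, sub_mul, div_mul_cancel₀ _ hn.ne']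
    refine le_trans ?_ (sum_le_sum key)
    rw [sum_sub_distrib, sum_add_distrib (f := fun e => if v ∈ e then dl f R x e ^ 2 else 0), hA,
      hcard]
    push_cast
    linarith

/-- The accumulated gain is at least the ideal one minus the cost. -/
lemma Acc_ge (f : Finset (Sym2 V) → ℝ) (hf : ∀ x, f x = 0 ∨ f x = 1) (L : Finset V)
    (lam : ℝ) (hl0 : 0 ≤ lam) (hl1 : lam ≤ 1 / 100) (n : ℕ) :
    ∀ (R x : Finset (Sym2 V)) (Z : Finset V), R.card = n →
      EN f L n R x Z - 2 * lam * Qf f n R x ≤ Acc f L lam n R x Z := by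
  induction n with
  | zero =>
    intro R x Z _
    unfold EN Qf Acc
    simp
  | succ n ih =>
    intro R x Z hcard
    have hn : (0 : ℝ) < (n : ℝ) + 1 := by positivity
    have key : ∀ e ∈ R, (ind f L R x Z e * dl f R x e ^ 2
        + (EN f L n (R.erase e) x Z + EN f L n (R.erase e) (fl e x) Z) / 2)
        - 2 * lam * (cost f R x e + (Qf f n (R.erase e) x + Qf f n (R.erase e) (fl e x)) / 2)
        ≤ ind f L R x Z e * dl f R x e ^ 2
      + (1 / 2 * Acc f L lam n (R.erase e) (dn f R x e) Z
        + (1 / 2 - lam * |dl f R x e| * ind f L R x Z e) * Acc f L lam n (R.erase e) (up f R x e) Z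
        + lam * |dl f R x e| * ind f L R x Z e
          * Acc f L lam n (R.erase e) (up f R x e) (insert (lf f R x e) Z)) := by
      intro e he
      have hce : (R.erase e).card = n := by rw [card_erase_of_mem he, hcard]; rfl
      have h1 := ih (R.erase e) (dn f R x e) Z hce
      have h2 := ih (R.erase e) (up f R x e) Z hce
      have h3 := ih (R.erase e) (up f R x e) (insert (lf f R x e) Z) hce
      have h4 := EN_insert f L n (R.erase e) (up f R x e) Z (lf f R x e) hce
      have e1 := up_dn_sum f R x e (fun y => EN f L n (R.erase e) y Z)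
      have e2 := up_dn_sum f R x e (fun y => Qf f n (R.erase e) y)
      have e3 := up_dn_sum f R x e (fun y => Phi f (lf f R x e) (R.erase e) y)
      have hPhi0 := Phi_nonneg f (lf f R x e) (R.erase e) (dn f R x e)
      have hAm : Phi f (lf f R x e) (R.erase e) (up f R x e) ≤ 2 * Am f R x e (lf f R x e) := by
        unfold Am
        linarith
      have hcost := Am_lf f R x e
      have hd := dl_abs_le_one f hf x he
      have hd0 := abs_nonneg (dl f R x e)
      have hA0 := Am_nonneg f R x e (lf f R x e)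
      have hc0 : 0 ≤ cost f R x e := by rw [← hcost]; positivity
      have ht0 : 0 ≤ lam * |dl f R x e| * ind f L R x Z e := by
        rcases ind_cases f L R x Z e with h | h <;> rw [h] <;> simp <;> positivity
      have ht1 : lam * |dl f R x e| * ind f L R x Z e ≤ 1 / 2 := by
        have : lam * |dl f R x e| ≤ 1 / 100 * 1 := mul_le_mul hl1 hd hd0 (by norm_num)
        rcases ind_cases f L R x Z e with h | h <;> rw [h] <;> linarith
      have hti : lam * |dl f R x e| * ind f L R x Z e ≤ lam * |dl f R x e| := by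
        rcases ind_cases f L R x Z e with h | h <;> rw [h] <;> simp <;> positivity
      set t := lam * |dl f R x e| * ind f L R x Z e with ht
      have htPhi : t * Phi f (lf f R x e) (R.erase e) (up f R x e) ≤ 2 * lam * cost f R x e := by
        calc t * Phi f (lf f R x e) (R.erase e) (up f R x e)
            ≤ t * (2 * Am f R x e (lf f R x e)) := mul_le_mul_of_nonneg_left hAm ht0
          _ ≤ (lam * |dl f R x e|) * (2 * Am f R x e (lf f R x e)) :=
              mul_le_mul_of_nonneg_right hti (by linarith)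
          _ = 2 * lam * (|dl f R x e| * Am f R x e (lf f R x e)) := by ring
          _ = _ := by rw [hcost]
      have m1 := mul_le_mul_of_nonneg_left h2 (show 0 ≤ 1 / 2 - t by linarith)
      have m2 := mul_le_mul_of_nonneg_left h3 ht0
      have m3 := mul_le_mul_of_nonneg_left h4 ht0
      nlinarith
    unfold EN Qf Acc
    rw [le_div_iff₀ hn, sub_mul, div_mul_cancel₀ _ hn.ne']
    refine le_trans (le_of_eq ?_) (sum_le_sum key)
    rw [sum_sub_distrib, ← mul_sum]
    congr 1
    rw [mul_assoc, div_mul_cancel₀ _ hn.ne']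

end Pool.Agent.H297.SF
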