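import Mathlib
import Pool.Agent.H297.Strat

set_option autoImplicit false
set_option linter.unusedSectionVars false
set_option linter.unnecessarySeqFocus false

open Finset

namespace Pool.Agent.H297.SF

variable {V : Type*} [DecidableEq V] [Fintype V]

/-- `J` is a set of pairs, each joining a vertex of `L \ Z` to a vertex outside `L`, such that
each vertex of `L` is in at most one of them. -/
def Valid (L Z : Finset V) (J : Finset (Sym2 V)) : Prop :=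
  (∀ e ∈ J, ∃ l c, e = s(l, c) ∧ l ∈ L ∧ c ∉ L ∧ l ∉ Z) ∧
    ∀ e ∈ J, ∀ e' ∈ J, ∀ l ∈ L, l ∈ e → l ∈ e' → e = e'

lemma Valid_empty (L Z : Finset V) : Valid L Z ∅ :=
  ⟨fun e he => absurd he (notMem_empty e), fun e he => absurd he (notMem_empty e)⟩

lemma Valid_insert {L Z : Finset V} {J : Finset (Sym2 V)} {l c : V} (hl : l ∈ L) (hc : c ∉ L)
    (hZ : l ∉ Z) (hJ : Valid L (insert l Z) J) : Valid L Z (insert s(l, c) J) := by
  obtain ⟨h1, h2⟩ := hJ
  have hkey : ∀ e ∈ J, ∀ l' ∈ L, l' ∈ e → l' ∈ s(l, c) → False := by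
    intro e he l' hl' hle hlc
    obtain ⟨a, b, rfl, ha, hb, haZ⟩ := h1 e he
    rw [Sym2.mem_iff] at hle hlc
    have e1 : l' = a := by
      rcases hle with h | h
      · exact h
      · exact absurd (h ▸ hl') hb
    have e2 : l' = l := by
      rcases hlc with h | h
      · exact h
      · exact absurd (h ▸ hl') hc
    apply haZ
    rw [← e1, e2]
    exact mem_insert_self _ _
  constructor
  · intro e he
    rcases mem_insert.1 he with rfl | he
    · exact ⟨l, c, rfl, hl, hc, hZ⟩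
    · obtain ⟨a, b, hab, ha, hb, haZ⟩ := h1 e he
      exact ⟨a, b, hab, ha, hb, fun h => haZ (mem_insert_of_mem h)⟩
  · intro e he e' he' l' hl' hle hle'
    rcases mem_insert.1 he with rfl | he
    · rcases mem_insert.1 he' with rfl | he'
      · rfl
      · exact (hkey e' he' l' hl' hle' hle).elim
    · rcases mem_insert.1 he' with rfl | he'
      · exact (hkey e he l' hl' hle hle').elim
      · exact h2 e he e' he' l' hl' hle hle'

/-- The hider at `z` can be moved into the family by a valid set of modifications. -/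
def Win (f : Finset (Sym2 V) → ℝ) (L : Finset V) (R x : Finset (Sym2 V)) (Z : Finset V)
    (z : Finset (Sym2 V)) : Prop :=
  ∃ J, J ⊆ R ∧ Valid L Z J ∧ f (mix R x (symmDiff z J)) = 1

open Classical in
noncomputable def Pw (f : Finset (Sym2 V) → ℝ) (L : Finset V) (R x : Finset (Sym2 V))
    (Z : Finset V) : ℝ := Ev fun z => if Win f L R x Z z then 1 else 0

lemma mix_same {R : Finset (Sym2 V)} {e : Sym2 V} (he : e ∈ R) (b : Bool)
    (x z J : Finset (Sym2 V)) (hJ : e ∉ J) :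
    mix (R.erase e) (setb b e x) (symmDiff z J) = mix R x (symmDiff (setb b e z) J) := by
  ext a
  rw [mem_mix, mem_mix, mem_erase, mem_symmDiff, mem_symmDiff]
  by_cases ha : a = e
  · subst ha
    rw [mem_setb_self, mem_setb_self]
    tauto
  · rw [mem_setb_ne _ ha, mem_setb_ne _ ha]
    tauto

lemma mix_flip {R : Finset (Sym2 V)} {e : Sym2 V} (he : e ∈ R) (b : Bool)
    (x z J : Finset (Sym2 V)) (hJ : e ∉ J) :
    mix (R.erase e) (setb b e x) (symmDiff z J)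
      = mix R x (symmDiff (setb (!b) e z) (insert e J)) := by
  ext a
  rw [mem_mix, mem_mix, mem_erase, mem_symmDiff, mem_symmDiff]
  by_cases ha : a = e
  · subst ha
    rw [mem_setb_self, mem_setb_self]
    have : a ∈ insert a J := mem_insert_self _ _
    cases b <;> simp [he, this]
  · rw [mem_setb_ne _ ha, mem_setb_ne _ ha, mem_insert]
    tauto

lemma Win_same {f : Finset (Sym2 V) → ℝ} {L : Finset V} {R : Finset (Sym2 V)} {e : Sym2 V}
    (he : e ∈ R) (b : Bool) {x z : Finset (Sym2 V)} {Z : Finset V}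
    (h : Win f L (R.erase e) (setb b e x) Z z) : Win f L R x Z (setb b e z) := by
  obtain ⟨J, hJ, hv, hw⟩ := h
  have heJ : e ∉ J := fun h => notMem_erase e R (hJ h)
  refine ⟨J, hJ.trans (erase_subset _ _), hv, ?_⟩
  rw [← mix_same he b x z J heJ]
  exact hw

lemma Win_flip {f : Finset (Sym2 V) → ℝ} {L : Finset V} {R : Finset (Sym2 V)} {l c : V}
    (he : s(l, c) ∈ R) (b : Bool) {x z : Finset (Sym2 V)} {Z : Finset V}
    (hl : l ∈ L) (hc : c ∉ L) (hZ : l ∉ Z)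
    (h : Win f L (R.erase s(l, c)) (setb b s(l, c) x) (insert l Z) z) :
    Win f L R x Z (setb (!b) s(l, c) z) := by
  obtain ⟨J, hJ, hv, hw⟩ := h
  have heJ : s(l, c) ∉ J := fun h => notMem_erase _ R (hJ h)
  refine ⟨insert s(l, c) J, insert_subset he (hJ.trans (erase_subset _ _)),
    Valid_insert hl hc hZ hv, ?_⟩
  rw [← mix_flip he b x z J heJ]
  exact hw

lemma Ev_setb (b : Bool) (e : Sym2 V) (g : Finset (Sym2 V) → ℝ) :
    Ev g = Ev (fun z => (g (setb b e z) + g (setb (!b) e z)) / 2) := by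
  rw [← Ev_half e g]
  congr 1
  ext z
  rw [setb_sum b e z g]

lemma Pw_nonneg (f : Finset (Sym2 V) → ℝ) (L : Finset V) (R x : Finset (Sym2 V))
    (Z : Finset V) : 0 ≤ Pw f L R x Z := by
  classical
  exact Ev_nonneg fun z => by split_ifs <;> norm_num

/-- One step of the strategy. -/
lemma Pw_step (f : Finset (Sym2 V) → ℝ) (L : Finset V) {R : Finset (Sym2 V)} {e : Sym2 V}
    (he : e ∈ R) (x : Finset (Sym2 V)) (Z : Finset V) (t : ℝ) (ht0 : 0 ≤ t)
    (ht1 : t * ind f L R x Z e ≤ 1 / 2) :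
    1 / 2 * Pw f L (R.erase e) (up f R x e) Z
      + (1 / 2 - t * ind f L R x Z e) * Pw f L (R.erase e) (dn f R x e) Z
      + t * ind f L R x Z e * Pw f L (R.erase e) (up f R x e) (insert (lf f R x e) Z)
      ≤ Pw f L R x Z := by
  classical
  set b : Bool := ub f R x e with hb
  have hup : up f R x e = setb b e x := rfl
  have hdn : dn f R x e = setb (!b) e x := rfl
  unfold Pw
  rw [Ev_setb b e (fun z => if Win f L R x Z z then (1:ℝ) else 0), ← Ev_mul_left, ← Ev_mul_left,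
    ← Ev_mul_left, ← Ev_add, ← Ev_add]
  refine Ev_mono fun z => ?_
  have a1 : (if Win f L (R.erase e) (up f R x e) Z z then (1:ℝ) else 0)
      ≤ if Win f L R x Z (setb b e z) then 1 else 0 := by
    by_cases h : Win f L (R.erase e) (up f R x e) Z z
    · rw [if_pos h, if_pos (Win_same he b h)]
    · rw [if_neg h]; split_ifs <;> norm_num
  have a2 : (if Win f L (R.erase e) (dn f R x e) Z z then (1:ℝ) else 0)
      ≤ if Win f L R x Z (setb (!b) e z) then 1 else 0 := by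
    by_cases h : Win f L (R.erase e) (dn f R x e) Z z
    · rw [if_pos h, if_pos (Win_same he (!b) h)]
    · rw [if_neg h]; split_ifs <;> norm_num
  have a3 : ind f L R x Z e = 0 ∨
      (if Win f L (R.erase e) (up f R x e) (insert (lf f R x e) Z) z then (1:ℝ) else 0)
      ≤ if Win f L R x Z (setb (!b) e z) then 1 else 0 := by
    by_cases hi : lf f R x e ∈ L ∧ ct f R x e ∉ L ∧ lf f R x e ∉ Z
    · right
      by_cases h : Win f L (R.erase e) (up f R x e) (insert (lf f R x e) Z) z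
      · rw [if_pos h, if_pos]
        have hlc := lf_ct f R x e
        have he' : s(lf f R x e, ct f R x e) ∈ R := by rw [hlc]; exact he
        have := Win_flip (f := f) (L := L) (x := x) (z := z) (Z := Z) he' b hi.1 hi.2.1 hi.2.2
          (by rw [hlc]; exact h)
        rwa [hlc] at this
      · rw [if_neg h]; split_ifs <;> norm_num
    · left
      unfold ind
      rw [if_neg hi]
  have p0 : (0:ℝ) ≤ if Win f L R x Z (setb (!b) e z) then 1 else 0 := by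
    split_ifs <;> norm_num
  generalize (if Win f L (R.erase e) (up f R x e) Z z then (1:ℝ) else 0) = A1 at *
  generalize (if Win f L (R.erase e) (dn f R x e) Z z then (1:ℝ) else 0) = A2 at *
  generalize (if Win f L (R.erase e) (up f R x e) (insert (lf f R x e) Z) z then (1:ℝ) else 0)
    = A3 at *
  generalize (if Win f L R x Z (setb b e z) then (1:ℝ) else 0) = B1 at *
  generalize (if Win f L R x Z (setb (!b) e z) then (1:ℝ) else 0) = B2 at *
  rcases a3 with h | h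
  · rw [h]
    linarith
  · rcases ind_cases f L R x Z e with hi | hi
    · rw [hi]; linarith
    · rw [hi] at ht1 ⊢
      have m1 := mul_le_mul_of_nonneg_left a2 (show 0 ≤ 1 / 2 - t * 1 by linarith)
      have m2 := mul_le_mul_of_nonneg_left h (show 0 ≤ t * 1 by linarith)
      linarith

lemma core_aux (δ y t lam : ℝ) (hδ0 : 0 ≤ δ) (hy0 : 0 ≤ y) (hl0 : 0 ≤ lam)
    (hl1 : lam ≤ 1 / 100) (hδ1 : δ ≤ 1) (ht : t = lam * δ) :
    0 ≤ -(δ * y) + 8 * δ ^ 2 - 32 * lam * δ ^ 2 - 3 * δ ^ 2 + 1 / 4 * y ^ 2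
      + t * (-(1 / 4) * y ^ 2 - 2 * y) - t ^ 2 := by
  have ht0 : 0 ≤ t := by rw [ht]; positivity
  have ht1 : t ≤ 1 / 100 * δ := by rw [ht]; exact mul_le_mul_of_nonneg_right hl1 hδ0
  have ht2 : t ≤ 1 / 100 := by linarith
  have h1 : t * y ^ 2 ≤ 1 / 100 * y ^ 2 := mul_le_mul_of_nonneg_right ht2 (sq_nonneg y)
  have h2 : t * y ≤ 1 / 100 * δ * y := mul_le_mul_of_nonneg_right ht1 hy0
  have h3 : t * t ≤ 1 / 100 * δ * (1 / 100 * δ) :=
    mul_le_mul ht1 ht1 ht0 (by positivity)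
  have h4 : lam * δ ^ 2 ≤ 1 / 100 * δ ^ 2 := mul_le_mul_of_nonneg_right hl1 (sq_nonneg δ)
  have h5 : 0 ≤ (δ - 1 / 4 * y) ^ 2 := sq_nonneg _
  have h6 : 0 ≤ δ ^ 2 := sq_nonneg _
  have h7 : 0 ≤ y ^ 2 := sq_nonneg _
  have e5 : (δ - 1 / 4 * y) ^ 2 = δ ^ 2 - 1 / 2 * (δ * y) + 1 / 16 * y ^ 2 := by ring
  rw [e5] at h5
  have e1 : t * (-(1 / 4) * y ^ 2 - 2 * y) = -(1 / 4) * (t * y ^ 2) - 2 * (t * y) := by ring
  have e2 : t ^ 2 = t * t := sq t
  have e3 : 1 / 100 * δ * (1 / 100 * δ) = 1 / 10000 * δ ^ 2 := by ring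
  have e4 : 32 * lam * δ ^ 2 = 32 * (lam * δ ^ 2) := by ring
  have e6 : 1 / 100 * δ * y = 1 / 100 * (δ * y) := by ring
  rw [e1, e2, e4]
  rw [e3] at h3
  rw [e6] at h2
  linarith

lemma core_ineq (δ B C D t lam Vb Vc a : ℝ) (hδ0 : 0 ≤ δ) (hδ1 : δ ≤ 1)
    (hl0 : 0 ≤ lam) (hl1 : lam ≤ 1 / 100) (ht : t = lam * δ)
    (hV2 : Vb - Vc ≤ 4 * δ) (hB0 : 0 ≤ B) (hB1 : B ≤ 1) (hC0 : 0 ≤ C) (hC1 : C ≤ 1)
    (hD0 : 0 ≤ D) (hD1 : D ≤ 1) (ha : a = 1 / 2 * C + (1 / 2 - t) * B + t * D) :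
    0 ≤ δ * (B - C) + 8 * δ ^ 2 - 8 * t * (Vb - Vc)
        + (1 / 2 * B ^ 2 + (1 / 2 - t) * C ^ 2 + t * D ^ 2) - (δ ^ 2 + a) ^ 2 := by
  have ht0 : 0 ≤ t := by rw [ht]; positivity
  have ht1 : t ≤ 1 / 100 := by
    rw [ht]
    calc lam * δ ≤ 1 / 100 * 1 := mul_le_mul hl1 hδ1 hδ0 (by norm_num)
      _ = 1 / 100 := by ring
  have ha0 : 0 ≤ a := by
    have : 0 ≤ (1 / 2 - t) * B := mul_nonneg (by linarith) hB0
    have : 0 ≤ t * D := mul_nonneg ht0 hD0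
    rw [ha]; linarith
  have ha1 : a ≤ 1 := by
    have m1 : (1 / 2 - t) * B ≤ (1 / 2 - t) * 1 := mul_le_mul_of_nonneg_left hB1 (by linarith)
    have m2 : t * D ≤ t * 1 := mul_le_mul_of_nonneg_left hD1 ht0
    rw [ha]; linarith
  have c1 : 8 * t * (Vb - Vc) ≤ 32 * lam * δ ^ 2 := by
    calc 8 * t * (Vb - Vc) ≤ 8 * t * (4 * δ) := mul_le_mul_of_nonneg_left hV2 (by linarith)
      _ = 32 * lam * δ ^ 2 := by rw [ht]; ring
  have hδ2 : δ ^ 2 ≤ 1 := pow_le_one₀ hδ0 hδ1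
  have c2 : (δ ^ 2 + a) ^ 2 ≤ a ^ 2 + 3 * δ ^ 2 := by
    have m1 : a * δ ^ 2 ≤ 1 * δ ^ 2 := mul_le_mul_of_nonneg_right ha1 (sq_nonneg δ)
    have m2 : δ ^ 2 * δ ^ 2 ≤ 1 * δ ^ 2 := mul_le_mul_of_nonneg_right hδ2 (sq_nonneg δ)
    have m3 : (δ ^ 2 + a) ^ 2 = δ ^ 2 * δ ^ 2 + 2 * (a * δ ^ 2) + a ^ 2 := by ring
    rw [m3]; linarith
  have c3 : (1 / 2 * B ^ 2 + (1 / 2 - t) * C ^ 2 + t * D ^ 2) - a ^ 2
      = 1 / 4 * (B - C) ^ 2 + t * ((D - B) * (D - C) + (B - C) * (B + C))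
        - t ^ 2 * (D - B) ^ 2 := by
    rw [ha]; ring
  have c4 : -(1 / 4) * (B - C) ^ 2 ≤ (D - B) * (D - C) := by
    have := sq_nonneg (2 * D - B - C)
    have e : (2 * D - B - C) ^ 2 = 4 * ((D - B) * (D - C)) + (B - C) ^ 2 := by ring
    rw [e] at this
    linarith
  have c5 : -(2 * |B - C|) ≤ (B - C) * (B + C) := by
    have h5 : |(B - C) * (B + C)| ≤ |B - C| * 2 := by
      rw [abs_mul]
      apply mul_le_mul_of_nonneg_left _ (abs_nonneg _)
      rw [abs_of_nonneg (by linarith)]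
      linarith
    have := neg_abs_le ((B - C) * (B + C))
    linarith
  have c6 : t ^ 2 * (D - B) ^ 2 ≤ t ^ 2 := by
    have h6 : (D - B) ^ 2 ≤ 1 := by
      rw [sq_le_one_iff_abs_le_one, abs_le]
      constructor <;> linarith
    calc t ^ 2 * (D - B) ^ 2 ≤ t ^ 2 * 1 := mul_le_mul_of_nonneg_left h6 (sq_nonneg t)
      _ = t ^ 2 := by ring
  have c7 : -(δ * |B - C|) ≤ δ * (B - C) := by
    have := mul_le_mul_of_nonneg_left (neg_abs_le (B - C)) hδ0
    linarith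
  have c8 : t * (-(1 / 4) * |B - C| ^ 2 - 2 * |B - C|)
      ≤ t * ((D - B) * (D - C) + (B - C) * (B + C)) := by
    apply mul_le_mul_of_nonneg_left _ ht0
    rw [sq_abs]
    linarith
  have c9 := core_aux δ |B - C| t lam hδ0 (abs_nonneg _) hl0 hl1 hδ1 ht
  rw [sq_abs] at c9 c8
  linarith

/-- The numerical inequality behind the induction step. -/
lemma step_ineq (M W δ lam i Vb Vc B C D : ℝ) (hi : i = 0 ∨ i = 1) (hδ0 : 0 ≤ δ) (hδ1 : δ ≤ 1)
    (hl0 : 0 ≤ lam) (hl1 : lam ≤ 1 / 100) (hV : (Vb + Vc) / 2 = W - δ ^ 2)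
    (hV2 : Vb - Vc ≤ 4 * δ) (hB0 : 0 ≤ B) (hB1 : B ≤ 1) (hC0 : 0 ≤ C) (hC1 : C ≤ 1)
    (hD0 : 0 ≤ D) (hD1 : D ≤ 1) :
    M + lam * (i * δ ^ 2 + (1 / 2 * C + (1 / 2 - lam * δ * i) * B + lam * δ * i * D))
      - 8 * lam ^ 2 * W
      + lam ^ 2 * (i * δ ^ 2 + (1 / 2 * C + (1 / 2 - lam * δ * i) * B + lam * δ * i * D)) ^ 2
    ≤ 1 / 2 * (M + δ / 2 + lam * B - lam ^ 2 * (8 * Vb - B ^ 2))
      + (1 / 2 - lam * δ * i) * (M - δ / 2 + lam * C - lam ^ 2 * (8 * Vc - C ^ 2))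
      + lam * δ * i * (M + δ / 2 + lam * D - lam ^ 2 * (8 * Vb - D ^ 2)) := by
  rcases hi with hi | hi
  · subst hi
    have h1 : Vb + Vc = 2 * W - 2 * δ ^ 2 := by linarith
    have key : 0 ≤ lam ^ 2 * (8 * δ ^ 2 + 1 / 4 * (B - C) ^ 2) := by positivity
    have e : (1 / 2 * (M + δ / 2 + lam * B - lam ^ 2 * (8 * Vb - B ^ 2))
      + (1 / 2 - lam * δ * 0) * (M - δ / 2 + lam * C - lam ^ 2 * (8 * Vc - C ^ 2))
      + lam * δ * 0 * (M + δ / 2 + lam * D - lam ^ 2 * (8 * Vb - D ^ 2)))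
      - (M + lam * (0 * δ ^ 2 + (1 / 2 * C + (1 / 2 - lam * δ * 0) * B + lam * δ * 0 * D))
      - 8 * lam ^ 2 * W
      + lam ^ 2 * (0 * δ ^ 2 + (1 / 2 * C + (1 / 2 - lam * δ * 0) * B + lam * δ * 0 * D)) ^ 2)
      = lam ^ 2 * (-4 * (Vb + Vc) + 8 * W + 1 / 4 * (B - C) ^ 2) := by ring
    rw [h1] at e
    have e2 : lam ^ 2 * (-4 * (2 * W - 2 * δ ^ 2) + 8 * W + 1 / 4 * (B - C) ^ 2)
      = lam ^ 2 * (8 * δ ^ 2 + 1 / 4 * (B - C) ^ 2) := by ring
    rw [e2] at e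
    linarith
  · subst hi
    obtain ⟨t, ht⟩ : ∃ t, t = lam * δ := ⟨_, rfl⟩
    obtain ⟨a, ha⟩ : ∃ a, a = 1 / 2 * C + (1 / 2 - t) * B + t * D := ⟨_, rfl⟩
    have core := core_ineq δ B C D t lam Vb Vc a hδ0 hδ1 hl0 hl1 ht hV2 hB0 hB1 hC0 hC1 hD0 hD1 ha
    have hmul := mul_nonneg (sq_nonneg lam) core
    have e1 : t * δ - lam * δ ^ 2 = 0 := by rw [ht]; ring
    have e2 : lam * t - lam ^ 2 * δ = 0 := by rw [ht]; ring
    rw [← ht]
    have e : (1 / 2 * (M + δ / 2 + lam * B - lam ^ 2 * (8 * Vb - B ^ 2))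
      + (1 / 2 - t * 1) * (M - δ / 2 + lam * C - lam ^ 2 * (8 * Vc - C ^ 2))
      + t * 1 * (M + δ / 2 + lam * D - lam ^ 2 * (8 * Vb - D ^ 2)))
      - (M + lam * (1 * δ ^ 2 + (1 / 2 * C + (1 / 2 - t * 1) * B + t * 1 * D))
      - 8 * lam ^ 2 * W
      + lam ^ 2 * (1 * δ ^ 2 + (1 / 2 * C + (1 / 2 - t * 1) * B + t * 1 * D)) ^ 2)
      = (t * δ - lam * δ ^ 2) + (lam * t - lam ^ 2 * δ) * (B - C)
        - 8 * lam ^ 2 * ((Vb + Vc) / 2 - (W - δ ^ 2))
        + lam ^ 2 * (δ * (B - C) + 8 * δ ^ 2 - 8 * t * (Vb - Vc)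
        + (1 / 2 * B ^ 2 + (1 / 2 - t) * C ^ 2 + t * D ^ 2) - (δ ^ 2 + a) ^ 2) := by
      rw [ha]; ring
    rw [e1, e2, hV] at e
    linarith

end Pool.Agent.H297.SF
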