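import Mathlib
import Pool.Agent.H297.Strat2

set_option autoImplicit false
set_option linter.unusedSectionVars false
set_option linter.unnecessarySeqFocus false

open Finset

namespace Pool.Agent.H297.SF

variable {V : Type*} [DecidableEq V] [Fintype V]

lemma coef_nonneg (f : Finset (Sym2 V) → ℝ) (hf : ∀ x, f x = 0 ∨ f x = 1)
    (R x : Finset (Sym2 V)) : 0 ≤ coef f R x ∅ := by
  unfold coef
  refine Ev_nonneg fun z => ?_
  unfold chi
  rw [prod_empty, one_mul]
  rcases hf (mix R x z) with h | h <;> rw [h] <;> norm_num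

lemma Vr_empty (f : Finset (Sym2 V) → ℝ) (x : Finset (Sym2 V)) : Vr f ∅ x = 0 := by
  unfold Vr Sw
  rw [powerset_empty, sum_singleton]
  simp

lemma mix_empty (x z : Finset (Sym2 V)) : mix ∅ x z = x := by
  ext a; rw [mem_mix]; simp

lemma Qf_succ (f : Finset (Sym2 V) → ℝ) (n : ℕ) (R x : Finset (Sym2 V)) :
    Qf f (n + 1) R x = (∑ e ∈ R, (cost f R x e
      + (Qf f n (R.erase e) x + Qf f n (R.erase e) (fl e x)) / 2)) / ((n : ℝ) + 1) := rfl

lemma EN_succ (f : Finset (Sym2 V) → ℝ) (L : Finset V) (n : ℕ) (R x : Finset (Sym2 V))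
    (Z : Finset V) :
    EN f L (n + 1) R x Z = (∑ e ∈ R, (ind f L R x Z e * dl f R x e ^ 2
      + (EN f L n (R.erase e) x Z + EN f L n (R.erase e) (fl e x) Z) / 2)) / ((n : ℝ) + 1) := rfl

/-- **Main induction.** -/
theorem Pw_ge (f : Finset (Sym2 V) → ℝ) (hf : ∀ x, f x = 0 ∨ f x = 1) (L : Finset V)
    (lam : ℝ) (hl0 : 0 ≤ lam) (hl1 : lam ≤ 1 / 100) (n : ℕ) :
    ∀ (R x : Finset (Sym2 V)) (Z : Finset V), R.card = n →
      coef f R x ∅ + lam * Acc f L lam n R x Z
        - lam ^ 2 * (8 * Vr f R x - Acc f L lam n R x Z ^ 2) ≤ Pw f L R x Z := by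
  induction n with
  | zero =>
    intro R x Z hcard
    have hR : R = ∅ := card_eq_zero.1 hcard
    subst hR
    rw [coef_empty_empty, Vr_empty]
    unfold Acc
    have h0 : f x + lam * 0 - lam ^ 2 * (8 * 0 - 0 ^ 2) = f x := by ring
    rw [h0]
    rcases hf x with h | h
    · rw [h]; exact Pw_nonneg _ _ _ _ _
    · unfold Pw
      have hw : ∀ z, Win f L ∅ x Z z := fun z =>
        ⟨∅, Subset.rfl, Valid_empty L Z, by rw [mix_empty]; exact h⟩
      simp only [hw, if_true]
      rw [Ev_const, h]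
  | succ n ih =>
    intro R x Z hcard
    have hn : (0 : ℝ) < (n : ℝ) + 1 := by positivity
    set y : Sym2 V → ℝ := fun e => ind f L R x Z e * dl f R x e ^ 2
      + (1 / 2 * Acc f L lam n (R.erase e) (dn f R x e) Z
        + (1 / 2 - lam * |dl f R x e| * ind f L R x Z e) * Acc f L lam n (R.erase e) (up f R x e) Z
        + lam * |dl f R x e| * ind f L R x Z e
          * Acc f L lam n (R.erase e) (up f R x e) (insert (lf f R x e) Z)) with hy
    have hAcc : Acc f L lam (n + 1) R x Z = (∑ e ∈ R, y e) / ((n : ℝ) + 1) := by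
      rw [hy]; rfl
    have key : ∀ e ∈ R, coef f R x ∅ + lam * y e - 8 * lam ^ 2 * Vr f R x + lam ^ 2 * y e ^ 2
        ≤ Pw f L R x Z := by
      intro e he
      have hce : (R.erase e).card = n := by rw [card_erase_of_mem he, hcard]; rfl
      have h1 := ih (R.erase e) (dn f R x e) Z hce
      have h2 := ih (R.erase e) (up f R x e) Z hce
      have h3 := ih (R.erase e) (up f R x e) (insert (lf f R x e) Z) hce
      obtain ⟨a0, a1⟩ := Acc_bounds f hf L lam hl0 hl1 n (R.erase e) (dn f R x e) Z hce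
      obtain ⟨b0, b1⟩ := Acc_bounds f hf L lam hl0 hl1 n (R.erase e) (up f R x e) Z hce
      obtain ⟨c0, c1⟩ := Acc_bounds f hf L lam hl0 hl1 n (R.erase e) (up f R x e)
        (insert (lf f R x e) Z) hce
      have v1 := Vr_le_one f hf (R.erase e) (dn f R x e)
      have v2 := Vr_le_one f hf (R.erase e) (up f R x e)
      rw [coef_dn f he] at h1
      rw [coef_up f he] at h2 h3
      have hd := dl_abs_le_one f hf x he
      have hd0 := abs_nonneg (dl f R x e)
      have hV := V_split f x he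
      have hV2 : Vr f (R.erase e) (up f R x e) - Vr f (R.erase e) (dn f R x e)
          ≤ 4 * |dl f R x e| := by
        rw [Vr_eq f hf, Vr_eq f hf, coef_up f he, coef_dn f he]
        have := mul_nonneg (coef_nonneg f hf R x) hd0
        nlinarith
      have hstep := Pw_step f L he x Z (lam * |dl f R x e|) (by positivity) (by
        have : lam * |dl f R x e| ≤ 1 / 100 * 1 := mul_le_mul hl1 hd hd0 (by norm_num)
        have h0 : 0 ≤ lam * |dl f R x e| := by positivity
        rcases ind_cases f L R x Z e with h | h <;> rw [h] <;> linarith)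
      have hineq := step_ineq (coef f R x ∅) (Vr f R x) |dl f R x e| lam (ind f L R x Z e)
        (Vr f (R.erase e) (up f R x e)) (Vr f (R.erase e) (dn f R x e))
        (Acc f L lam n (R.erase e) (up f R x e) Z) (Acc f L lam n (R.erase e) (dn f R x e) Z)
        (Acc f L lam n (R.erase e) (up f R x e) (insert (lf f R x e) Z))
        (ind_cases f L R x Z e) hd0 hd hl0 hl1 (by rw [sq_abs]; exact hV) hV2 b0 (b1.trans v2)
        a0 (a1.trans v1) c0 (c1.trans v2)
      rw [sq_abs] at hineq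
      have ht0 : 0 ≤ lam * |dl f R x e| * ind f L R x Z e := by
        rcases ind_cases f L R x Z e with h | h <;> rw [h] <;> simp <;> positivity
      have ht1 : lam * |dl f R x e| * ind f L R x Z e ≤ 1 / 2 := by
        have : lam * |dl f R x e| ≤ 1 / 100 * 1 := mul_le_mul hl1 hd hd0 (by norm_num)
        rcases ind_cases f L R x Z e with h | h <;> rw [h] <;> linarith
      have m1 := mul_le_mul_of_nonneg_left h2 (show (0:ℝ) ≤ 1 / 2 by norm_num)
      have m2 := mul_le_mul_of_nonneg_left h1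
        (show 0 ≤ 1 / 2 - lam * |dl f R x e| * ind f L R x Z e by linarith)
      have m3 := mul_le_mul_of_nonneg_left h3 ht0
      have hyy : y e = ind f L R x Z e * dl f R x e ^ 2
      + (1 / 2 * Acc f L lam n (R.erase e) (dn f R x e) Z
        + (1 / 2 - lam * |dl f R x e| * ind f L R x Z e) * Acc f L lam n (R.erase e) (up f R x e) Z
        + lam * |dl f R x e| * ind f L R x Z e
          * Acc f L lam n (R.erase e) (up f R x e) (insert (lf f R x e) Z)) := rfl
      rw [← hyy] at hineq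
      linarith
    have hsum := sum_le_sum key
    rw [sum_add_distrib, sum_sub_distrib, sum_add_distrib, ← mul_sum, ← mul_sum, sum_const,
      sum_const, sum_const, nsmul_eq_mul, nsmul_eq_mul, nsmul_eq_mul, hcard] at hsum
    push_cast at hsum
    have hq2 : ∑ x ∈ R, lam ^ 2 * y x ^ 2 = lam ^ 2 * ∑ e ∈ R, y e ^ 2 := (mul_sum _ _ _).symm
    rw [hq2] at hsum
    have hcs : (∑ e ∈ R, y e) ^ 2 ≤ ((n : ℝ) + 1) * ∑ e ∈ R, y e ^ 2 := by
      have := sq_sum_le_card_mul_sum_sq (s := R) (f := y)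
      rw [hcard] at this
      push_cast at this
      exact this
    rw [hAcc]
    set Y : ℝ := ∑ e ∈ R, y e with hY
    set Y2 : ℝ := ∑ e ∈ R, y e ^ 2 with hY2
    have hsq : (Y / ((n : ℝ) + 1)) ^ 2 ≤ Y2 / ((n : ℝ) + 1) := by
      rw [div_pow, div_le_div_iff₀ (by positivity) hn]
      calc Y ^ 2 * ((n : ℝ) + 1) ≤ (((n : ℝ) + 1) * Y2) * ((n : ℝ) + 1) :=
            mul_le_mul_of_nonneg_right hcs hn.le
        _ = Y2 * ((n : ℝ) + 1) ^ 2 := by ring
    have hdiv : coef f R x ∅ + lam * (Y / ((n : ℝ) + 1)) - 8 * lam ^ 2 * Vr f R x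
        + lam ^ 2 * (Y2 / ((n : ℝ) + 1)) ≤ Pw f L R x Z := by
      have e1 : coef f R x ∅ + lam * (Y / ((n : ℝ) + 1)) - 8 * lam ^ 2 * Vr f R x
        + lam ^ 2 * (Y2 / ((n : ℝ) + 1))
        = (((n : ℝ) + 1) * coef f R x ∅ + lam * Y - ((n : ℝ) + 1) * (8 * lam ^ 2 * Vr f R x)
          + lam ^ 2 * Y2) / ((n : ℝ) + 1) := by
        field_simp
      rw [e1, div_le_iff₀ hn]
      linarith
    have := mul_le_mul_of_nonneg_left hsq (sq_nonneg lam)
    linarith

/-- Average of `Qf`. -/
lemma Qf_avg (f : Finset (Sym2 V) → ℝ) (E0 : Finset (Sym2 V)) (n : ℕ) (hn : n ≤ E0.card) :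
    Av E0 n (Qf f n)
      = ∑ r ∈ range n, Av E0 (r + 1) (fun R x => ∑ e ∈ R, cost f R x e) / ((r : ℝ) + 1) := by
  induction n with
  | zero =>
    rw [range_zero, sum_empty]
    have : Qf f 0 = fun _ _ => 0 := by
      ext R x; rfl
    rw [this, Av_const E0 (Nat.zero_le _)]
  | succ n ih =>
    rw [sum_range_succ, ← ih (by omega)]
    have h1 : Av E0 (n + 1) (Qf f (n + 1)) = Av E0 (n + 1) (fun R x => (1 / ((n : ℝ) + 1)) *
        (∑ e ∈ R, cost f R x e
          + ∑ e ∈ R, (Qf f n (R.erase e) x + Qf f n (R.erase e) (fl e x)) / 2)) := by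
      apply Av_congr
      intro R _ _ x
      rw [← sum_add_distrib, Qf_succ]
      ring
    rw [h1, Av_mul, Av_add, Av_step' E0 (by omega) (Qf f n)]
    have : ((n : ℝ) + 1) ≠ 0 := by positivity
    field_simp
    ring

/-- A random choice of roles. -/
lemma roles_quarter {l c : V} (h : l ≠ c) :
    Ev (fun L : Finset V => if l ∈ L ∧ c ∉ L ∧ l ∉ (∅ : Finset V) then (1:ℝ) else 0) = 1 / 4 := by
  rw [← Ev_half l]
  have h1 : (fun x : Finset V => ((if l ∈ x ∧ c ∉ x ∧ l ∉ (∅ : Finset V) then (1:ℝ) else 0)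
      + (if l ∈ fl l x ∧ c ∉ fl l x ∧ l ∉ (∅ : Finset V) then (1:ℝ) else 0)) / 2)
      = fun x => (if c ∉ x then (1:ℝ) else 0) / 2 := by
    ext x
    simp only [mem_fl_self, mem_fl_ne h.symm, notMem_empty, not_false_eq_true, and_true]
    by_cases h1 : l ∈ x <;> by_cases h2 : c ∈ x <;> simp [h1, h2]
  rw [h1, Ev_div, ← Ev_half c]
  have h2 : (fun x : Finset V => ((if c ∉ x then (1:ℝ) else 0)
      + (if c ∉ fl c x then (1:ℝ) else 0)) / 2) = fun _ => 1 / 2 := by
    ext x
    simp only [mem_fl_self]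
    by_cases h2 : c ∈ x <;> simp [h2]
  rw [h2, Ev_const]; norm_num

lemma EN_avg (f : Finset (Sym2 V) → ℝ) (n : ℕ) :
    ∀ (R x : Finset (Sym2 V)), R ⊆ allE V → R.card = n →
      Ev (fun L : Finset V => EN f L n R x ∅) = Vr f R x / 4 := by
  induction n with
  | zero =>
    intro R x _ hcard
    have hR : R = ∅ := card_eq_zero.1 hcard
    subst hR
    rw [Vr_empty]
    have : (fun L : Finset V => EN f L 0 ∅ x ∅) = fun _ => (0:ℝ) := by
      ext L; rfl
    rw [this, Ev_const]; norm_num
  | succ n ih =>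
    intro R x hR hcard
    have hn : (0 : ℝ) < (n : ℝ) + 1 := by positivity
    have h1 : Ev (fun L : Finset V => EN f L (n + 1) R x ∅)
        = (∑ e ∈ R, (Ev (fun L : Finset V => ind f L R x ∅ e) * dl f R x e ^ 2
          + (Ev (fun L : Finset V => EN f L n (R.erase e) x ∅)
            + Ev (fun L : Finset V => EN f L n (R.erase e) (fl e x) ∅)) / 2)) / ((n : ℝ) + 1) := by
      simp only [EN_succ]
      rw [Ev_div, Ev_sum]
      congr 1
      refine sum_congr rfl fun e _ => ?_
      rw [Ev_add, Ev_div, Ev_add]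
      congr 1
      have : (fun L : Finset V => ind f L R x ∅ e * dl f R x e ^ 2)
          = fun L => dl f R x e ^ 2 * ind f L R x ∅ e := by ext L; ring
      rw [this, Ev_mul_left, mul_comm]
    rw [h1]
    have h2 : ∀ e ∈ R, (Ev (fun L : Finset V => ind f L R x ∅ e) * dl f R x e ^ 2
          + (Ev (fun L : Finset V => EN f L n (R.erase e) x ∅)
            + Ev (fun L : Finset V => EN f L n (R.erase e) (fl e x) ∅)) / 2) = Vr f R x / 4 := by
      intro e he
      have hce : (R.erase e).card = n := by rw [card_erase_of_mem he, hcard]; rfl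
      have hsub : R.erase e ⊆ allE V := (erase_subset _ _).trans hR
      rw [ih _ x hsub hce, ih _ (fl e x) hsub hce]
      have hne : lf f R x e ≠ ct f R x e := by
        have := p_ne (hR he)
        unfold lf ct
        split_ifs
        · exact this
        · exact this.symm
      have hq : Ev (fun L : Finset V => ind f L R x ∅ e) = 1 / 4 := by
        unfold ind
        exact roles_quarter hne
      have hV := Vr_half f x he
      rw [hq]
      linarith
    rw [sum_congr rfl h2, sum_const, nsmul_eq_mul, hcard]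
    push_cast
    field_simp

lemma Ev_le_exists {α : Type*} [DecidableEq α] [Fintype α] (g : Finset α → ℝ) :
    ∃ x, Ev g ≤ g x := by
  obtain ⟨x, hx⟩ := Ev_le_one_exists (fun x => (-1) * g x)
  rw [Ev_mul_left] at hx
  exact ⟨x, by linarith⟩

lemma Ev_symm (S : Finset (Sym2 V)) (g : Finset (Sym2 V) → ℝ) :
    Ev (fun z => g (symmDiff z S)) = Ev g := by
  unfold Ev
  congr 1
  refine sum_nbij' (fun z => symmDiff z S) (fun z => symmDiff z S) ?_ ?_ ?_ ?_ ?_
  · intro x _; exact mem_univ _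
  · intro x _; exact mem_univ _
  · intro x _; exact symmDiff_symmDiff_cancel_right _ _
  · intro x _; exact symmDiff_symmDiff_cancel_right _ _
  · intro x _; rfl

lemma Valid_mono {L Z : Finset V} {J J' : Finset (Sym2 V)} (h : Valid L Z J) (hJ : J' ⊆ J) :
    Valid L Z J' :=
  ⟨fun e he => h.1 e (hJ he), fun e he e' he' => h.2 e (hJ he) e' (hJ he')⟩

/-- **Star forest pair.** A `{0,1}`-valued function of mean larger than `1/2 - 1/20000000` has two
members whose agreement set is a star forest. -/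
theorem star_pair (f : Finset (Sym2 V) → ℝ) (hf : ∀ x, f x = 0 ∨ f x = 1)
    (hdep : ∀ x, f x = f (x ∩ allE V)) (hbig : 1 / 2 - 1 / 20000000 < Ev f) :
    ∃ A B : Finset (Sym2 V), A ⊆ allE V ∧ B ⊆ allE V ∧ f A = 1 ∧ f B = 1 ∧
      ∃ L : Finset V, Valid L ∅ (allE V \ symmDiff A B) := by
  classical
  set E0 := allE V with hE0
  set a := Ev f with ha
  -- root state
  obtain ⟨x, hx⟩ := Ev_le_one_exists (Qf f E0.card E0)
  have hQ : Qf f E0.card E0 x ≤ 40000 := by
    refine hx.trans ?_
    rw [← Av_full E0 (Qf f E0.card), Qf_avg f E0 E0.card le_rfl]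
    exact cost_sum f hf Subset.rfl
  obtain ⟨L, hL⟩ := Ev_le_exists (fun L : Finset V => EN f L E0.card E0 x ∅)
  rw [EN_avg f E0.card E0 x Subset.rfl rfl] at hL
  have hM : coef f E0 x ∅ = a := by
    unfold coef
    rw [ha]
    congr 1
    ext z
    unfold chi
    rw [prod_empty, one_mul, hdep (mix E0 x z), hdep z]
    congr 1
    ext b
    rw [mem_inter, mem_inter, mem_mix]
    tauto
  have hVr : Vr f E0 x = 4 * (a - a ^ 2) := by rw [Vr_eq f hf, hM]
  have ha1 : a ≤ 1 := by
    have := Ev_mono (g := f) (h := fun _ => 1) (fun x => by rcases hf x with h | h <;> rw [h] <;> norm_num)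
    rwa [Ev_const] at this
  -- the winning probability
  have hP : 1 < Pw f L E0 x ∅ + a := by
    rcases le_or_gt a (1 / 2) with hhalf | hhalf
    · have hl0 : (0:ℝ) ≤ 1 / 1000000 := by norm_num
      have hl1 : (1:ℝ) / 1000000 ≤ 1 / 100 := by norm_num
      have h1 := Pw_ge f hf L (1 / 1000000) hl0 hl1 E0.card E0 x ∅ rfl
      have h2 := Acc_ge f hf L (1 / 1000000) hl0 hl1 E0.card E0 x ∅ rfl
      have h3 := sq_nonneg (Acc f L (1 / 1000000) E0.card E0 x ∅)
      rw [hM, hVr] at h1
      rw [hVr] at hL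
      have h4 : 3 / 4 ≤ 4 * (a - a ^ 2) := by nlinarith
      have h5 : 4 * (a - a ^ 2) ≤ 1 := by nlinarith [sq_nonneg (2 * a - 1)]
      nlinarith
    · have h1 := Pw_ge f hf L 0 le_rfl (by norm_num) E0.card E0 x ∅ rfl
      rw [hM] at h1
      have : a ≤ Pw f L E0 x ∅ := by nlinarith
      linarith
  -- find a common point
  have hex : ∃ z, Win f L E0 x ∅ z ∧ f (symmDiff z E0) = 1 := by
    by_contra hcon
    push Not at hcon
    have h1 : ∀ z, (if Win f L E0 x ∅ z then (1:ℝ) else 0) + f (symmDiff z E0) ≤ 1 := by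
      intro z
      by_cases hw : Win f L E0 x ∅ z
      · rw [if_pos hw]
        rcases hf (symmDiff z E0) with h | h
        · rw [h]; norm_num
        · exact absurd h (hcon z hw)
      · rw [if_neg hw]
        rcases hf (symmDiff z E0) with h | h <;> rw [h] <;> norm_num
    have h2 := Ev_mono h1
    rw [Ev_const, Ev_add, Ev_symm E0 f, ← ha] at h2
    have h3 : Pw f L E0 x ∅ = Ev (fun z => if Win f L E0 x ∅ z then (1:ℝ) else 0) := rfl
    rw [← h3] at h2
    linarith
  obtain ⟨z, ⟨J, hJ, hv, hw⟩, hz⟩ := hex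
  refine ⟨symmDiff z E0 ∩ E0, mix E0 x (symmDiff z J) ∩ E0, inter_subset_right,
    inter_subset_right, ?_, ?_, L, Valid_mono hv ?_⟩
  · rw [← hdep]; exact hz
  · rw [← hdep]; exact hw
  · intro e he
    rw [mem_sdiff, mem_symmDiff] at he
    obtain ⟨heE, hns⟩ := he
    simp only [mem_inter, mem_symmDiff, mem_mix] at hns
    by_contra heJ
    apply hns
    by_cases hez : e ∈ z
    · right
      refine ⟨⟨Or.inr ⟨Or.inl ⟨hez, heJ⟩, heE⟩, heE⟩, ?_⟩
      tauto
    · left
      refine ⟨⟨Or.inr ⟨heE, hez⟩, heE⟩, ?_⟩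
      tauto

end Pool.Agent.H297.SF
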