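import Mathlib
import Pool.Agent.H297.Strat3

set_option autoImplicit false
set_option linter.unusedSectionVars false

open Finset

namespace Pool.Agent.H297.SF

/-- Averages of functions depending only on the coordinates in `E0`. -/
lemma Ev_inter {α : Type*} [DecidableEq α] [Fintype α] (E0 : Finset α) (g : Finset α → ℝ) :
    Ev (fun x => g (x ∩ E0)) = (∑ A ∈ E0.powerset, g A) / 2 ^ E0.card := by
  unfold Ev
  have hmaps : ∀ x ∈ (univ : Finset (Finset α)), x ∩ E0 ∈ E0.powerset := fun x _ =>
    mem_powerset.2 inter_subset_right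
  rw [← sum_fiberwise_of_maps_to hmaps]
  have h1 : ∀ A ∈ E0.powerset, ∑ x ∈ (univ : Finset (Finset α)).filter (fun x => x ∩ E0 = A),
      g (x ∩ E0) = 2 ^ (E0ᶜ).card * g A := by
    intro A hA
    have h2 : ∀ x ∈ (univ : Finset (Finset α)).filter (fun x => x ∩ E0 = A),
        g (x ∩ E0) = g A := by
      intro x hx
      rw [(mem_filter.1 hx).2]
    rw [sum_congr rfl h2, sum_const, nsmul_eq_mul]
    congr 1
    have h3 : ((univ : Finset (Finset α)).filter (fun x => x ∩ E0 = A)).card
        = (E0ᶜ).powerset.card := by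
      refine card_bij (fun x _ => x \ E0) ?_ ?_ ?_
      · intro x _
        rw [mem_powerset]
        intro a ha
        rw [mem_compl]
        exact (mem_sdiff.1 ha).2
      · intro x hx y hy hxy
        have e1 := (mem_filter.1 hx).2
        have e2 := (mem_filter.1 hy).2
        rw [← sdiff_union_inter x E0, ← sdiff_union_inter y E0, hxy, e1, e2]
      · intro B hB
        rw [mem_powerset] at hB
        rw [mem_powerset] at hA
        refine ⟨A ∪ B, ?_, ?_⟩
        · rw [mem_filter]
          refine ⟨mem_univ _, ?_⟩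
          ext a
          rw [mem_inter, mem_union]
          constructor
          · rintro ⟨h | h, h'⟩
            · exact h
            · exact absurd h' (mem_compl.1 (hB h))
          · intro h
            exact ⟨Or.inl h, hA h⟩
        · ext a
          rw [mem_sdiff, mem_union]
          constructor
          · rintro ⟨h | h, h'⟩
            · exact absurd (hA h) h'
            · exact h
          · intro h
            exact ⟨Or.inr h, mem_compl.1 (hB h)⟩
    rw [h3, card_powerset]
    push_cast
    rfl
  rw [sum_congr rfl h1, ← mul_sum, Fintype.card_finset, ← card_compl_add_card E0, pow_add]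
  push_cast
  have h4 : (2 : ℝ) ^ (E0ᶜ).card ≠ 0 := by positivity
  have h5 : (2 : ℝ) ^ E0.card ≠ 0 := by positivity
  field_simp

variable {V : Type*} [DecidableEq V] [Fintype V]

/-- **Graph version.** A family of more than `(1/2 - 1/20000000) 2^C(n,2)` graphs on `V` has two
members whose common edges form a star forest: there is a set `L` of vertices such that every
common edge joins `L` to its complement, and every vertex of `L` has at most one neighbour. -/
theorem star_graph (F : Finset (SimpleGraph V))
    (h : (1 / 2 - 1 / 20000000) * 2 ^ ((Fintype.card V).choose 2) < (F.card : ℝ)) :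
    ∃ G ∈ F, ∃ G' ∈ F, ∃ L : Finset V,
      (∀ u w, (G ⊓ G').Adj u w → (u ∈ L ∧ w ∉ L) ∨ (w ∈ L ∧ u ∉ L)) ∧
      ∀ l ∈ L, ∀ u w, (G ⊓ G').Adj l u → (G ⊓ G').Adj l w → u = w := by
  classical
  set g : Finset (Sym2 V) → ℝ := fun A => if ∃ G ∈ F, G.edgeFinset = A then 1 else 0 with hg
  set f : Finset (Sym2 V) → ℝ := fun x => g (x ∩ allE V) with hf
  have hf01 : ∀ x, f x = 0 ∨ f x = 1 := by
    intro x
    rw [hf, hg]
    dsimp only
    split_ifs
    · exact Or.inr rfl
    · exact Or.inl rfl
  have hdep : ∀ x, f x = f (x ∩ allE V) := by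
    intro x
    rw [hf]
    dsimp only
    rw [inter_assoc, inter_self]
  have hcard : (allE V).card = (Fintype.card V).choose 2 := by
    unfold allE
    exact SimpleGraph.card_edgeFinset_top_eq_card_choose_two
  have hsum : ∑ A ∈ (allE V).powerset, g A = F.card := by
    have h1 : ∑ A ∈ (allE V).powerset, g A = ∑ A ∈ (allE V).powerset.filter
        (fun A => ∃ G ∈ F, G.edgeFinset = A), (1:ℝ) := by
      rw [sum_filter]
    rw [h1, sum_const, nsmul_eq_mul, mul_one]
    congr 1
    have h2 : (allE V).powerset.filter (fun A => ∃ G ∈ F, G.edgeFinset = A)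
        = F.image (fun G => G.edgeFinset) := by
      ext A
      rw [mem_filter, mem_powerset, mem_image]
      constructor
      · exact fun h => h.2
      · rintro ⟨G, hG, rfl⟩
        refine ⟨?_, G, hG, rfl⟩
        unfold allE
        exact SimpleGraph.edgeFinset_mono le_top
    rw [h2, card_image_of_injective]
    intro G G' hGG'
    exact SimpleGraph.edgeFinset_inj.1 hGG'
  have hEv : Ev f = (F.card : ℝ) / 2 ^ ((Fintype.card V).choose 2) := by
    rw [hf, Ev_inter (allE V) g, hsum, hcard]
  have hbig : 1 / 2 - 1 / 20000000 < Ev f := by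
    rw [hEv, lt_div_iff₀ (by positivity)]
    exact h
  obtain ⟨A, B, hA, hB, hfA, hfB, L, hv⟩ := star_pair f hf01 hdep hbig
  have hex : ∀ A, A ⊆ allE V → f A = 1 → ∃ G ∈ F, G.edgeFinset = A := by
    intro A hA hfA
    by_contra hcon
    have h1 : A ∩ allE V = A := inter_eq_left.2 hA
    rw [hf, hg] at hfA
    dsimp only at hfA
    rw [h1, if_neg hcon] at hfA
    exact zero_ne_one hfA
  obtain ⟨G, hG, hGA⟩ := hex A hA hfA
  obtain ⟨G', hG', hGB⟩ := hex B hB hfB
  have hmem : ∀ u w, (G ⊓ G').Adj u w → s(u, w) ∈ allE V \ symmDiff A B := by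
    intro u w huw
    rw [SimpleGraph.inf_adj] at huw
    have e1 : s(u, w) ∈ A := by
      rw [← hGA, SimpleGraph.mem_edgeFinset]; exact huw.1
    have e2 : s(u, w) ∈ B := by
      rw [← hGB, SimpleGraph.mem_edgeFinset]; exact huw.2
    rw [mem_sdiff, mem_symmDiff]
    exact ⟨hA e1, by tauto⟩
  refine ⟨G, hG, G', hG', L, ?_, ?_⟩
  · intro u w huw
    obtain ⟨l, c, hlc, hl, hc, _⟩ := hv.1 _ (hmem u w huw)
    rw [Sym2.eq_iff] at hlc
    rcases hlc with ⟨rfl, rfl⟩ | ⟨rfl, rfl⟩
    · exact Or.inl ⟨hl, hc⟩
    · exact Or.inr ⟨hl, hc⟩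
  · intro l hl u w hlu hlw
    have := hv.2 _ (hmem l u hlu) _ (hmem l w hlw) l hl (Sym2.mem_mk_left _ _)
      (Sym2.mem_mk_left _ _)
    exact Sym2.congr_right.1 this

/-- Every connected component is a star `K_{1,m}` (`m ≥ 0`): it has a vertex `c` incident with
all edges of the component. -/
def IsStarForest {W : Type*} (H : SimpleGraph W) : Prop :=
  ∀ C : H.ConnectedComponent, ∃ c ∈ C.supp, ∀ u w, H.Adj u w → u ∈ C.supp → u = c ∨ w = c

lemma isStarForest_of {W : Type*} (H : SimpleGraph W) (L : Set W)
    (h1 : ∀ u w, H.Adj u w → (u ∈ L ∧ w ∉ L) ∨ (w ∈ L ∧ u ∉ L))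
    (h2 : ∀ l ∈ L, ∀ u w, H.Adj l u → H.Adj l w → u = w) : IsStarForest H := by
  intro C
  by_cases hc : ∃ c ∈ C.supp, c ∉ L
  · obtain ⟨c, hcC, hcL⟩ := hc
    refine ⟨c, hcC, ?_⟩
    have hS : ∀ v, H.Reachable c v → v = c ∨ H.Adj c v := by
      intro v hv
      rw [SimpleGraph.reachable_iff_reflTransGen] at hv
      induction hv with
      | refl => exact Or.inl rfl
      | @tail b v _ hbv ih =>
        rcases ih with rfl | ih
        · exact Or.inr hbv
        · left
          have hbL : b ∈ L := by
            rcases h1 c b ih with h | h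
            · exact absurd h.1 hcL
            · exact h.1
          exact (h2 b hbL c v ih.symm hbv).symm
    intro u w huw hu
    rw [SimpleGraph.ConnectedComponent.mem_supp_iff] at hu hcC
    have hr : H.Reachable c u := by
      rw [← SimpleGraph.ConnectedComponent.eq, hcC, hu]
    rcases hS u hr with h | h
    · exact Or.inl h
    · right
      have huL : u ∈ L := by
        rcases h1 c u h with h | h
        · exact absurd h.1 hcL
        · exact h.1
      exact (h2 u huL c w h.symm huw).symm
  · push Not at hc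
    obtain ⟨c, hcC⟩ := C.nonempty_supp
    refine ⟨c, hcC, ?_⟩
    intro u w huw hu
    exfalso
    have hw : w ∈ C.supp := by
      rw [SimpleGraph.ConnectedComponent.mem_supp_iff] at hu ⊢
      rw [← hu, SimpleGraph.ConnectedComponent.eq]
      exact huw.symm.reachable
    rcases h1 u w huw with h | h
    · exact h.2 (hc w hw)
    · exact h.2 (hc u hu)

/-- An `H`-intersecting family of graphs on `V`, with `H` not a forest of stars, has at most
`(1/2 - 1/20000000) 2^C(n,2)` members. -/
theorem not_star_bound {W : Type*} (H : SimpleGraph W) (hH : ¬ IsStarForest H)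
    (F : Finset (SimpleGraph V)) (hF : ∀ G ∈ F, ∀ G' ∈ F, H.IsContained (G ⊓ G')) :
    (F.card : ℝ) ≤ (1 / 2 - 1 / 20000000) * 2 ^ ((Fintype.card V).choose 2) := by
  by_contra hcon
  push Not at hcon
  obtain ⟨G, hG, G', hG', L, h1, h2⟩ := star_graph F hcon
  obtain ⟨φ⟩ := hF G hG G' hG'
  apply hH
  apply isStarForest_of H {w | φ w ∈ L}
  · intro u w huw
    exact h1 _ _ (φ.toHom.map_adj huw)
  · intro l hl u w hlu hlw
    exact φ.injective (h2 _ hl _ _ (φ.toHom.map_adj hlu) (φ.toHom.map_adj hlw))

end Pool.Agent.H297.SF
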