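import Mathlib
import Pool.Agent.H297.StarFinal

set_option autoImplicit false
set_option linter.unusedSectionVars false

open Finset

namespace Pool.Agent.H297.SF

/-! ### Central binomial coefficients -/

lemma cb_sq (p : ℕ) : (p.centralBinom : ℝ) ^ 2 * (2 * (p : ℝ) + 1) ≤ 16 ^ p := by
  induction p with
  | zero => simp [Nat.centralBinom]
  | succ n ih =>
    have h1 : ((n : ℝ) + 1) * ((n + 1).centralBinom : ℝ)
        = 2 * (2 * (n : ℝ) + 1) * (n.centralBinom : ℝ) := by
      exact_mod_cast Nat.succ_mul_centralBinom_succ n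
    have hn : (0 : ℝ) < (n : ℝ) + 1 := by positivity
    have h2 : ((n : ℝ) + 1) ^ 2 * (((n + 1).centralBinom : ℝ) ^ 2 * (2 * ((n + 1 : ℕ) : ℝ) + 1))
        ≤ ((n : ℝ) + 1) ^ 2 * 16 ^ (n + 1) := by
      calc ((n : ℝ) + 1) ^ 2 * (((n + 1).centralBinom : ℝ) ^ 2 * (2 * ((n + 1 : ℕ) : ℝ) + 1))
          = (((n : ℝ) + 1) * ((n + 1).centralBinom : ℝ)) ^ 2 * (2 * (n : ℝ) + 3) := by
            push_cast; ring
        _ = (2 * (2 * (n : ℝ) + 1) * (n.centralBinom : ℝ)) ^ 2 * (2 * (n : ℝ) + 3) := by rw [h1]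
        _ = 4 * (2 * (n : ℝ) + 1) * (2 * (n : ℝ) + 3)
            * ((n.centralBinom : ℝ) ^ 2 * (2 * (n : ℝ) + 1)) := by ring
        _ ≤ 4 * (2 * (n : ℝ) + 1) * (2 * (n : ℝ) + 3) * 16 ^ n :=
            mul_le_mul_of_nonneg_left ih (by positivity)
        _ ≤ ((n : ℝ) + 1) ^ 2 * 16 ^ (n + 1) := by
            have e : (16 : ℝ) ^ (n + 1) = 16 ^ n * 16 := pow_succ _ _
            rw [e]
            have : (0 : ℝ) < 16 ^ n := by positivity
            nlinarith
    exact le_of_mul_le_mul_left h2 (by positivity)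

/-- Normalised central binomial coefficient. -/
noncomputable def cb (p : ℕ) : ℝ := (p.centralBinom : ℝ) / 4 ^ p

lemma cb_nonneg (p : ℕ) : 0 ≤ cb p := by unfold cb; positivity

lemma cb_small (ε : ℝ) (hε : 0 < ε) : ∃ p0 : ℕ, ∀ p, p0 ≤ p → cb p < ε := by
  obtain ⟨p0, hp0⟩ := exists_nat_gt (1 / ε ^ 2)
  refine ⟨p0, fun p hp => ?_⟩
  by_contra hcon
  push Not at hcon
  have h1 := cb_sq p
  have h2 : cb p ^ 2 * (2 * (p : ℝ) + 1) ≤ 1 := by
    unfold cb
    rw [div_pow, div_mul_eq_mul_div, div_le_one (by positivity)]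
    refine h1.trans (le_of_eq ?_)
    rw [← pow_mul, mul_comm p 2, pow_mul]; norm_num
  have h3 : ε ^ 2 ≤ cb p ^ 2 := by gcongr
  have h4 : (p0 : ℝ) ≤ p := by exact_mod_cast hp
  rw [div_lt_iff₀ (by positivity)] at hp0
  have h5 : ε ^ 2 * (2 * (p : ℝ) + 1) ≤ cb p ^ 2 * (2 * (p : ℝ) + 1) :=
    mul_le_mul_of_nonneg_right h3 (by positivity)
  have h6 : 0 < ε ^ 2 := by positivity
  nlinarith

/-- Sum of binomial coefficients over a window. -/
lemma window_sum (q s : ℕ) (P : ℕ → Prop) [DecidablePred P]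
    (hP : ∀ j, P j → q ≤ j + s ∧ j ≤ q + s) :
    ∑ j ∈ range (2 * q + 2), (if P j then ((2 * q + 1).choose j : ℝ) else 0)
      ≤ (2 * s + 1) * (2 ^ (2 * q + 1) * cb q) := by
  have h1 : ∀ j, ((2 * q + 1).choose j : ℝ) ≤ 2 ^ (2 * q + 1) * cb q := by
    intro j
    have e1 : (2 * q + 1).choose j ≤ 2 * q.centralBinom := by
      have h2 : (2 * q + 1).choose j ≤ (2 * q + 1).choose ((2 * q + 1) / 2) :=
        Nat.choose_le_middle j _
      have h3 : (2 * q + 1) / 2 = q := by omega
      rw [h3] at h2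
      refine h2.trans ?_
      rw [← Nat.choose_symm_half, Nat.choose_succ_succ']
      have h4 := Nat.choose_le_centralBinom q q
      have h5 := Nat.choose_le_centralBinom (q + 1) q
      omega
    have e2 : (2 : ℝ) ^ (2 * q + 1) * cb q = 2 * (q.centralBinom : ℝ) := by
      unfold cb
      have : (2 : ℝ) ^ (2 * q + 1) = 2 * 4 ^ q := by
        rw [pow_succ, pow_mul]; norm_num; ring
      rw [this]
      field_simp
    rw [e2]
    exact_mod_cast e1
  have h0 : 0 ≤ (2 : ℝ) ^ (2 * q + 1) * cb q := mul_nonneg (by positivity) (cb_nonneg q)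
  rw [← sum_filter]
  calc ∑ j ∈ (range (2 * q + 2)).filter P, ((2 * q + 1).choose j : ℝ)
      ≤ ∑ _j ∈ (range (2 * q + 2)).filter P, 2 ^ (2 * q + 1) * cb q :=
        sum_le_sum fun j _ => h1 j
    _ = (((range (2 * q + 2)).filter P).card : ℝ) * (2 ^ (2 * q + 1) * cb q) := by
        rw [sum_const, nsmul_eq_mul]
    _ ≤ _ := by
        apply mul_le_mul_of_nonneg_right _ h0
        have h2 : ((range (2 * q + 2)).filter P).card ≤ 2 * s + 1 := by
          calc ((range (2 * q + 2)).filter P).card ≤ (Icc (q - s) (q + s)).card := by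
                apply card_le_card
                intro j hj
                have := hP j (mem_filter.1 hj).2
                rw [mem_Icc]
                omega
            _ ≤ 2 * s + 1 := by
                rw [Nat.card_Icc]; omega
        exact_mod_cast h2

lemma window_sum_even (p s : ℕ) (P : ℕ → Prop) [DecidablePred P]
    (hP : ∀ j, P j → p ≤ j + s ∧ j ≤ p + s) :
    ∑ j ∈ range (2 * p + 1), (if P j then ((2 * p).choose j : ℝ) else 0)
      ≤ (2 * s + 1) * (2 ^ (2 * p) * cb p) := by
  have h1 : ∀ j, ((2 * p).choose j : ℝ) ≤ 2 ^ (2 * p) * cb p := by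
    intro j
    have e1 := Nat.choose_le_centralBinom j p
    have e2 : (2 : ℝ) ^ (2 * p) * cb p = (p.centralBinom : ℝ) := by
      unfold cb
      have : (2 : ℝ) ^ (2 * p) = 4 ^ p := by
        rw [pow_mul]; norm_num
      rw [this]
      field_simp
    rw [e2]
    exact_mod_cast e1
  have h0 : 0 ≤ (2 : ℝ) ^ (2 * p) * cb p := mul_nonneg (by positivity) (cb_nonneg p)
  rw [← sum_filter]
  calc ∑ j ∈ (range (2 * p + 1)).filter P, ((2 * p).choose j : ℝ)
      ≤ ∑ _j ∈ (range (2 * p + 1)).filter P, 2 ^ (2 * p) * cb p :=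
        sum_le_sum fun j _ => h1 j
    _ = (((range (2 * p + 1)).filter P).card : ℝ) * (2 ^ (2 * p) * cb p) := by
        rw [sum_const, nsmul_eq_mul]
    _ ≤ _ := by
        apply mul_le_mul_of_nonneg_right _ h0
        have h2 : ((range (2 * p + 1)).filter P).card ≤ 2 * s + 1 := by
          calc ((range (2 * p + 1)).filter P).card ≤ (Icc (p - s) (p + s)).card := by
                apply card_le_card
                intro j hj
                have := hP j (mem_filter.1 hj).2
                rw [mem_Icc]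
                omega
            _ ≤ 2 * s + 1 := by
                rw [Nat.card_Icc]; omega
        exact_mod_cast h2

/-! ### Uniformity of the majority vector -/

section Maj

variable {α : Type*} [DecidableEq α] [Fintype α] {M : ℕ}

lemma Ev_comm {β : Type*} [DecidableEq β] [Fintype β] (g : Finset α → Finset β → ℝ) :
    Ev (fun x => Ev (fun y => g x y)) = Ev (fun y => Ev (fun x => g x y)) := by
  unfold Ev
  rw [← sum_div, ← sum_div, sum_comm, div_div, div_div, mul_comm]

lemma Ev_symmDiff (S : Finset α) (g : Finset α → ℝ) :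
    Ev (fun z => g (symmDiff z S)) = Ev g := by
  unfold Ev
  congr 1
  refine sum_nbij' (fun z => symmDiff z S) (fun z => symmDiff z S) ?_ ?_ ?_ ?_ ?_
  · intro x _; exact mem_univ _
  · intro x _; exact mem_univ _
  · intro x _; exact symmDiff_symmDiff_cancel_right _ _
  · intro x _; exact symmDiff_symmDiff_cancel_right _ _
  · intro x _; rfl

/-- Indices with a majority. -/
def Smaj (St : Fin M → Finset α) (q : ℕ) (x : Finset α) : Finset (Fin M) :=
  univ.filter fun i => q + 1 ≤ (x ∩ St i).card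

lemma card_flip (St : Fin M → Finset α) (hdisj : ∀ i j, i ≠ j → Disjoint (St i) (St j))
    (I : Finset (Fin M)) (x : Finset α) (i : Fin M) :
    ((symmDiff x (I.biUnion St)) ∩ St i).card
      = if i ∈ I then (St i).card - (x ∩ St i).card else (x ∩ St i).card := by
  split_ifs with hi
  · have h1 : (symmDiff x (I.biUnion St)) ∩ St i = St i \ (x ∩ St i) := by
      ext a
      rw [mem_inter, mem_symmDiff, mem_biUnion, mem_sdiff, mem_inter]
      constructor
      · rintro ⟨h, ha⟩
        refine ⟨ha, ?_⟩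
        rintro ⟨hx, _⟩
        rcases h with ⟨_, h⟩ | ⟨_, h⟩
        · exact h ⟨i, hi, ha⟩
        · exact h hx
      · rintro ⟨ha, h⟩
        refine ⟨Or.inr ⟨⟨i, hi, ha⟩, fun hx => h ⟨hx, ha⟩⟩, ha⟩
    rw [h1, card_sdiff_of_subset inter_subset_right]
  · congr 1
    ext a
    rw [mem_inter, mem_symmDiff, mem_biUnion, mem_inter]
    constructor
    · rintro ⟨h, ha⟩
      refine ⟨?_, ha⟩
      rcases h with ⟨h, _⟩ | ⟨⟨j, hj, haj⟩, _⟩
      · exact h
      · exfalso
        have hne : j ≠ i := fun h => hi (h ▸ hj)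
        exact (disjoint_left.1 (hdisj j i hne)) haj ha
    · rintro ⟨hx, ha⟩
      refine ⟨Or.inl ⟨hx, ?_⟩, ha⟩
      rintro ⟨j, hj, haj⟩
      have hne : j ≠ i := fun h => hi (h ▸ hj)
      exact (disjoint_left.1 (hdisj j i hne)) haj ha

lemma Smaj_flip (St : Fin M → Finset α) (q : ℕ) (hcard : ∀ i, (St i).card = 2 * q + 1)
    (hdisj : ∀ i j, i ≠ j → Disjoint (St i) (St j)) (I : Finset (Fin M)) (x : Finset α) :
    Smaj St q (symmDiff x (I.biUnion St)) = symmDiff (Smaj St q x) I := by
  ext i
  unfold Smaj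
  rw [mem_filter, mem_symmDiff, mem_filter, card_flip St hdisj]
  have h1 : (x ∩ St i).card ≤ 2 * q + 1 := by
    rw [← hcard i]; exact card_le_card inter_subset_right
  rw [hcard]
  by_cases hi : i ∈ I
  · rw [if_pos hi]
    simp only [mem_univ, true_and, hi, not_true_eq_false, and_false, false_or]
    omega
  · rw [if_neg hi]
    simp only [mem_univ, true_and, hi, not_false_eq_true, and_true, false_and, or_false]

lemma Smaj_uniform (St : Fin M → Finset α) (q : ℕ) (hcard : ∀ i, (St i).card = 2 * q + 1)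
    (hdisj : ∀ i j, i ≠ j → Disjoint (St i) (St j)) (h : Finset (Fin M) → ℝ) :
    Ev (fun x => h (Smaj St q x)) = Ev h := by
  have h1 : ∀ I : Finset (Fin M), Ev (fun x => h (symmDiff (Smaj St q x) I))
      = Ev (fun x => h (Smaj St q x)) := by
    intro I
    have := Ev_symmDiff (I.biUnion St) (fun x => h (Smaj St q x))
    rw [← this]
    congr 1
    ext x
    rw [Smaj_flip St q hcard hdisj]
  have h2 : Ev (fun I : Finset (Fin M) => Ev (fun x => h (symmDiff (Smaj St q x) I)))
      = Ev (fun x => h (Smaj St q x)) := by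
    simp only [h1]
    rw [Ev_const]
  rw [← h2, Ev_comm]
  have h3 : ∀ x : Finset α, Ev (fun I : Finset (Fin M) => h (symmDiff (Smaj St q x) I)) = Ev h := by
    intro x
    have := Ev_symmDiff (Smaj St q x) h
    rw [← this]
    congr 1
    ext I
    rw [symmDiff_comm]
  simp only [h3]
  rw [Ev_const]

/-- Indices with a large majority. -/
def Xup (St : Fin M → Finset α) (q s : ℕ) (x : Finset α) : Finset (Fin M) :=
  univ.filter fun i => q + 1 + s ≤ (x ∩ St i).card

lemma tie_prob (St : Fin M → Finset α) (q s : ℕ) (hcard : ∀ i, (St i).card = 2 * q + 1)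
    (i : Fin M) :
    Ev (fun x => if q + 1 ≤ (x ∩ St i).card + s ∧ (x ∩ St i).card ≤ q + s then (1:ℝ) else 0)
      ≤ (2 * s + 1) * cb q := by
  have h1 := Ev_inter (St i) (fun A : Finset α =>
    if q + 1 ≤ A.card + s ∧ A.card ≤ q + s then (1:ℝ) else 0)
  rw [h1]
  have h2 := sum_powerset_apply_card (x := St i)
    (fun j => if q + 1 ≤ j + s ∧ j ≤ q + s then (1:ℝ) else 0)
  rw [h2, hcard, div_le_iff₀ (by positivity)]
  have h3 := window_sum q s (fun j => q + 1 ≤ j + s ∧ j ≤ q + s) (fun j hj => by omega)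
  have h4 : ∑ m ∈ range (2 * q + 1 + 1), (2 * q + 1).choose m •
      (if q + 1 ≤ m + s ∧ m ≤ q + s then (1:ℝ) else 0)
      = ∑ j ∈ range (2 * q + 2), (if q + 1 ≤ j + s ∧ j ≤ q + s then
        ((2 * q + 1).choose j : ℝ) else 0) := by
    refine sum_congr rfl fun j _ => ?_
    rw [nsmul_eq_mul]
    split_ifs <;> simp
  rw [h4]
  refine h3.trans (le_of_eq ?_)
  ring

lemma window_prob (p s : ℕ) :
    Ev (fun J : Finset (Fin (2 * p)) => if 2 * p < 2 * J.card + s ∧ 2 * J.card < 2 * p + s
      then (1:ℝ) else 0) ≤ (2 * s + 1) * cb p := by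
  have h1 := Ev_inter (univ : Finset (Fin (2 * p))) (fun A =>
    if 2 * p < 2 * A.card + s ∧ 2 * A.card < 2 * p + s then (1:ℝ) else 0)
  simp only [inter_univ] at h1
  rw [h1]
  have h2 := sum_powerset_apply_card (x := (univ : Finset (Fin (2 * p))))
    (fun j => if 2 * p < 2 * j + s ∧ 2 * j < 2 * p + s then (1:ℝ) else 0)
  rw [h2, card_univ, Fintype.card_fin, div_le_iff₀ (by positivity)]
  have h3 := window_sum_even p s (fun j => 2 * p < 2 * j + s ∧ 2 * j < 2 * p + s)
    (fun j hj => by omega)
  have h4 : ∑ m ∈ range (2 * p + 1), (2 * p).choose m •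
      (if 2 * p < 2 * m + s ∧ 2 * m < 2 * p + s then (1:ℝ) else 0)
      = ∑ j ∈ range (2 * p + 1), (if 2 * p < 2 * j + s ∧ 2 * j < 2 * p + s then
        ((2 * p).choose j : ℝ) else 0) := by
    refine sum_congr rfl fun j _ => ?_
    rw [nsmul_eq_mul]
    split_ifs <;> simp
  rw [h4]
  refine h3.trans (le_of_eq ?_)
  ring

/-- The measure of the family of configurations with many large majorities. -/
lemma family_measure (p q s : ℕ) (St : Fin (2 * p) → Finset α)
    (hcard : ∀ i, (St i).card = 2 * q + 1) (hdisj : ∀ i j, i ≠ j → Disjoint (St i) (St j)) :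
    1 - 2 * p * ((2 * s + 1) * cb q) - (2 * s + 1) * cb p
      ≤ 2 * Ev (fun x => if 2 * p + s ≤ 2 * (Xup St q s x).card then (1:ℝ) else 0) := by
  set U : Finset α := (univ : Finset (Fin (2 * p))).biUnion St with hU
  set g : Finset α → ℝ := fun x => if 2 * p + s ≤ 2 * (Xup St q s x).card then (1:ℝ) else 0 with hg
  set tie : Fin (2 * p) → Finset α → ℝ := fun i x =>
    if q + 1 ≤ (x ∩ St i).card + s ∧ (x ∩ St i).card ≤ q + s then (1:ℝ) else 0 with htie
  set win : Finset (Fin (2 * p)) → ℝ := fun J =>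
    if 2 * p < 2 * J.card + s ∧ 2 * J.card < 2 * p + s then (1:ℝ) else 0 with hwin
  have hpt : ∀ x, 1 - ∑ i, tie i x - win (Smaj St q x) ≤ g x + g (symmDiff x U) := by
    intro x
    have htie0 : ∀ i, 0 ≤ tie i x := fun i => by rw [htie]; dsimp only; split_ifs <;> norm_num
    have hg0 : ∀ y, 0 ≤ g y := fun y => by rw [hg]; dsimp only; split_ifs <;> norm_num
    have hw0 : 0 ≤ win (Smaj St q x) := by rw [hwin]; dsimp only; split_ifs <;> norm_num
    have hs0 : 0 ≤ ∑ i, tie i x := sum_nonneg fun i _ => htie0 i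
    by_cases ht : ∃ i, q + 1 ≤ (x ∩ St i).card + s ∧ (x ∩ St i).card ≤ q + s
    · obtain ⟨i, hi⟩ := ht
      have h1 : tie i x = 1 := by rw [htie]; dsimp only; rw [if_pos hi]
      have h2 : 1 ≤ ∑ i, tie i x := by
        rw [← h1]
        exact single_le_sum (f := fun i => tie i x) (fun i _ => htie0 i) (mem_univ i)
      linarith [hg0 x, hg0 (symmDiff x U)]
    · push Not at ht
      have hc : ∀ i, (x ∩ St i).card ≤ 2 * q + 1 := by
        intro i; rw [← hcard i]; exact card_le_card inter_subset_right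
      have e1 : Xup St q s x = Smaj St q x := by
        ext i
        unfold Xup Smaj
        rw [mem_filter, mem_filter]
        have := ht i
        simp only [mem_univ, true_and]
        omega
      have e2 : Xup St q s (symmDiff x U) = univ \ Smaj St q x := by
        ext i
        unfold Xup Smaj
        rw [mem_filter, mem_sdiff, mem_filter, hU, card_flip St hdisj, if_pos (mem_univ i), hcard]
        have := ht i
        have := hc i
        simp only [mem_univ, true_and]
        omega
      have e3 : (univ \ Smaj St q x).card = 2 * p - (Smaj St q x).card := by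
        rw [card_sdiff_of_subset (subset_univ _), card_univ, Fintype.card_fin]
      have e4 : (Smaj St q x).card ≤ 2 * p := by
        have := card_le_univ (Smaj St q x)
        rwa [Fintype.card_fin] at this
      by_cases hwn : 2 * p < 2 * (Smaj St q x).card + s ∧ 2 * (Smaj St q x).card < 2 * p + s
      · have h1 : win (Smaj St q x) = 1 := by rw [hwin]; dsimp only; rw [if_pos hwn]
        linarith [hg0 x, hg0 (symmDiff x U)]
      · rw [not_and_or, not_lt, not_lt] at hwn
        rcases hwn with h | h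
        · have h1 : g (symmDiff x U) = 1 := by
            rw [hg]; dsimp only
            rw [e2, e3, if_pos]
            omega
          linarith [hg0 x]
        · have h1 : g x = 1 := by
            rw [hg]; dsimp only
            rw [e1, if_pos]
            omega
          linarith [hg0 (symmDiff x U)]
  have h1 := Ev_mono hpt
  rw [Ev_sub, Ev_sub, Ev_const, Ev_sum, Ev_add, Ev_symmDiff U g,
    Smaj_uniform St q hcard hdisj win] at h1
  have h2 : ∑ i, Ev (tie i) ≤ 2 * p * ((2 * s + 1) * cb q) := by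
    have : ∑ i, Ev (tie i) ≤ ∑ _i : Fin (2 * p), ((2 * s + 1) * cb q) :=
      sum_le_sum fun i _ => tie_prob St q s hcard i
    rw [sum_const, card_univ, Fintype.card_fin, nsmul_eq_mul] at this
    push_cast at this
    exact this
  have h3 := window_prob p s
  have h4 : Ev win ≤ (2 * s + 1) * cb p := h3
  linarith

end Maj

end Pool.Agent.H297.SF
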