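import Mathlib
import Pool.Agent.H297.StarLower

set_option autoImplicit false
set_option linter.unusedSectionVars false

open Finset

namespace Pool.Agent.H297.SF

variable {V : Type*} [DecidableEq V] [Fintype V]

/-- Embedding a star forest. -/
lemma embed_star {m : ℕ} (H : SimpleGraph (Fin m)) (hH : IsStarForest H) (K : SimpleGraph V)
    {ι : Type*} [DecidableEq ι] (I0 : Finset ι) (ctr : ι → V) (hinj : Function.Injective ctr)
    (hI0 : m ≤ I0.card) (W : Finset V) (hW : ∀ i, ctr i ∉ W)
    (hN : ∀ i ∈ I0, ∃ N ⊆ W, m ≤ N.card ∧ ∀ w ∈ N, K.Adj (ctr i) w) : H.IsContained K := by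
  classical
  choose c hc1 hc2 using hH
  have hcard : Fintype.card (Fin m) ≤ Fintype.card {x // x ∈ I0} := by
    rw [Fintype.card_fin, Fintype.card_coe]; exact hI0
  obtain ⟨e⟩ := Function.Embedding.nonempty_of_card_le hcard
  choose N hNW hNm hNadj using fun i : {x // x ∈ I0} => hN i.1 i.2
  set cc : Fin m → Fin m := fun u => c (H.connectedComponentMk u) with hcc
  set t : Fin m → Finset V := fun u => N (e (cc u)) with ht
  have hall : ∀ s : Finset (Fin m), s.card ≤ (s.biUnion t).card := by
    intro s
    rcases s.eq_empty_or_nonempty with h | ⟨u, hu⟩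
    · subst h; simp
    · calc s.card ≤ m := by
            have := card_le_univ s
            rwa [Fintype.card_fin] at this
        _ ≤ (t u).card := hNm _
        _ ≤ (s.biUnion t).card := card_le_card (subset_biUnion_of_mem t hu)
  obtain ⟨g, hginj, hg⟩ := (Finset.all_card_le_biUnion_card_iff_exists_injective t).1 hall
  have hgW : ∀ u, g u ∈ W := fun u => hNW _ (hg u)
  set φ : Fin m → V := fun u => if u = cc u then ctr (e (cc u)).1 else g u with hφ
  have hcomp : ∀ u, H.connectedComponentMk (cc u) = H.connectedComponentMk u := by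
    intro u
    have := hc1 (H.connectedComponentMk u)
    rwa [SimpleGraph.ConnectedComponent.mem_supp_iff] at this
  have hφinj : Function.Injective φ := by
    intro u w huw
    rw [hφ] at huw
    dsimp only at huw
    by_cases hu : u = cc u
    · by_cases hw : w = cc w
      · rw [if_pos hu, if_pos hw] at huw
        have h1 := e.injective (Subtype.ext (hinj huw))
        rw [hu, hw, h1]
      · rw [if_pos hu, if_neg hw] at huw
        exact absurd (huw ▸ hgW w) (hW _)
    · by_cases hw : w = cc w
      · rw [if_neg hu, if_pos hw] at huw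
        exact absurd (huw.symm ▸ hgW u) (hW _)
      · rw [if_neg hu, if_neg hw] at huw
        exact hginj huw
  have hφadj : ∀ u w, H.Adj u w → K.Adj (φ u) (φ w) := by
    have key : ∀ u w, H.Adj u w → u = cc u → K.Adj (φ u) (φ w) := by
      intro u w huw hu
      have hcw : H.connectedComponentMk w = H.connectedComponentMk u := by
        rw [SimpleGraph.ConnectedComponent.eq]; exact huw.symm.reachable
      have hccw : cc w = cc u := by
        rw [hcc]; dsimp only; rw [hcw]
      have hw : w ≠ cc w := by
        rw [hccw, ← hu]; exact huw.ne'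
      rw [hφ]
      dsimp only
      rw [if_pos hu, if_neg hw]
      have h1 := hNadj (e (cc w)) (g w) (hg w)
      rwa [hccw] at h1
    intro u w huw
    have h1 := hc2 (H.connectedComponentMk u) u w huw
      ((SimpleGraph.ConnectedComponent.mem_supp_iff _ _).2 rfl)
    rcases h1 with h | h
    · exact key u w huw h
    · have hcw : H.connectedComponentMk w = H.connectedComponentMk u := by
        rw [SimpleGraph.ConnectedComponent.eq]; exact huw.symm.reachable
      have h2 : w = cc w := by
        rw [hcc]; dsimp only; rw [hcw]; exact h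
      exact (key w u huw.symm h2).symm
  exact ⟨⟨⟨φ, fun {u w} h => hφadj u w h⟩, hφinj⟩⟩

/-- The measure of a family of graphs. -/
lemma card_graphs (P : Finset (Sym2 V) → Prop) [DecidablePred P] (hP : ∀ x, P x ↔ P (x ∩ allE V))
    (F : Finset (SimpleGraph V))
    (hF : ∀ (G : SimpleGraph V) (x : Finset (Sym2 V)), (x : Set (Sym2 V)) = G.edgeSet →
      (G ∈ F ↔ P x)) :
    (F.card : ℝ) = 2 ^ ((Fintype.card V).choose 2) * Ev (fun x => if P x then (1:ℝ) else 0) := by
  classical
  have hcard : (allE V).card = (Fintype.card V).choose 2 := by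
    unfold allE
    exact SimpleGraph.card_edgeFinset_top_eq_card_choose_two
  have h0 : (fun x => if P x then (1:ℝ) else 0)
      = fun x => (fun A => if P A then (1:ℝ) else 0) (x ∩ allE V) := by
    ext x
    dsimp only
    by_cases h : P x
    · rw [if_pos h, if_pos ((hP x).1 h)]
    · rw [if_neg h, if_neg (fun h' => h ((hP x).2 h'))]
  rw [h0, Ev_inter (allE V) (fun A => if P A then (1:ℝ) else 0), hcard, mul_div_cancel₀ _ (by positivity), ← sum_filter, sum_const,
    nsmul_eq_mul, mul_one]
  congr 1
  apply card_bij (fun (G : SimpleGraph V) _ => G.edgeFinset)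
  · intro G hG
    rw [mem_filter, mem_powerset]
    refine ⟨?_, (hF G G.edgeFinset (by simp)).1 hG⟩
    unfold allE
    exact SimpleGraph.edgeFinset_mono le_top
  · intro G _ G' _ h
    exact SimpleGraph.edgeFinset_inj.1 h
  · intro A hA
    rw [mem_filter, mem_powerset] at hA
    have h1 : (A : Set (Sym2 V)) = (SimpleGraph.fromEdgeSet (A : Set (Sym2 V))).edgeSet := by
      rw [SimpleGraph.edgeSet_fromEdgeSet]
      ext e
      rw [Set.mem_sdiff]
      constructor
      · intro he
        refine ⟨he, ?_⟩
        have := hA.1 he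
        unfold allE at this
        rw [SimpleGraph.mem_edgeFinset] at this
        exact SimpleGraph.not_isDiag_of_mem_edgeSet _ this
      · exact fun h => h.1
    refine ⟨SimpleGraph.fromEdgeSet (A : Set (Sym2 V)), (hF _ A h1).2 hA.2, ?_⟩
    apply coe_injective
    rw [SimpleGraph.coe_edgeFinset, ← h1]

/-- Lower bound construction. -/
theorem lower_family {m : ℕ} (H : SimpleGraph (Fin m)) (hH : IsStarForest H) (p q : ℕ)
    (ctr : Fin (2 * p) → V) (hinj : Function.Injective ctr) (W : Finset V)
    (hW : ∀ i, ctr i ∉ W) (hWc : W.card = 2 * q + 1) :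
    ∃ F : Finset (SimpleGraph V), (∀ G ∈ F, ∀ G' ∈ F, H.IsContained (G ⊓ G')) ∧
      (1 - 2 * p * ((2 * m + 1) * cb q) - (2 * m + 1) * cb p)
        * (2 ^ ((Fintype.card V).choose 2) / 2) ≤ (F.card : ℝ) := by
  classical
  set St : Fin (2 * p) → Finset (Sym2 V) := fun i => W.image (fun w => s(ctr i, w)) with hSt
  have hcard : ∀ i, (St i).card = 2 * q + 1 := by
    intro i
    rw [hSt]; dsimp only
    rw [card_image_of_injective, hWc]
    intro a b hab
    exact Sym2.congr_right.1 hab
  have hdisj : ∀ i j, i ≠ j → Disjoint (St i) (St j) := by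
    intro i j hij
    rw [disjoint_left]
    intro e hi hj
    rw [hSt] at hi hj
    obtain ⟨w, hw, rfl⟩ := mem_image.1 hi
    obtain ⟨w', hw', h⟩ := mem_image.1 hj
    rw [Sym2.eq_iff] at h
    rcases h with ⟨h, _⟩ | ⟨h, _⟩
    · exact hij (hinj h).symm
    · exact hW j (h ▸ hw)
  have hsub : ∀ i, St i ⊆ allE V := by
    intro i e he
    obtain ⟨w, hw, rfl⟩ := mem_image.1 he
    unfold allE
    rw [SimpleGraph.mem_edgeFinset, SimpleGraph.mem_edgeSet, SimpleGraph.top_adj]
    intro h
    exact hW i (h ▸ hw)
  set P : Finset (Sym2 V) → Prop := fun x => 2 * p + m ≤ 2 * (Xup St q m x).card with hPdef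
  have hP : ∀ x, P x ↔ P (x ∩ allE V) := by
    intro x
    rw [hPdef]
    dsimp only
    have : Xup St q m (x ∩ allE V) = Xup St q m x := by
      unfold Xup
      apply filter_congr
      intro i _
      rw [inter_assoc, inter_eq_right.2 (hsub i)]
    rw [this]
  set F : Finset (SimpleGraph V) := univ.filter (fun G => P G.edgeFinset) with hFdef
  refine ⟨F, ?_, ?_⟩
  · intro G hG G' hG'
    have h1 : 2 * p + m ≤ 2 * (Xup St q m G.edgeFinset).card := (mem_filter.1 hG).2
    have h2 : 2 * p + m ≤ 2 * (Xup St q m G'.edgeFinset).card := (mem_filter.1 hG').2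
    set I0 := Xup St q m G.edgeFinset ∩ Xup St q m G'.edgeFinset with hI0
    have h3 : m ≤ I0.card := by
      have e1 := card_union_add_card_inter (Xup St q m G.edgeFinset) (Xup St q m G'.edgeFinset)
      have e2 := card_le_univ (Xup St q m G.edgeFinset ∪ Xup St q m G'.edgeFinset)
      rw [Fintype.card_fin] at e2
      rw [← hI0] at e1
      omega
    apply embed_star H hH (G ⊓ G') I0 ctr hinj h3 W hW
    intro i hi
    rw [hI0, mem_inter] at hi
    unfold Xup at hi
    have h4 := (mem_filter.1 hi.1).2
    have h5 := (mem_filter.1 hi.2).2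
    refine ⟨W.filter (fun w => (G ⊓ G').Adj (ctr i) w), filter_subset _ _, ?_,
      fun w hw => (mem_filter.1 hw).2⟩
    have h6 : ((G.edgeFinset ∩ St i) ∩ (G'.edgeFinset ∩ St i)).card
        ≤ (W.filter (fun w => (G ⊓ G').Adj (ctr i) w)).card := by
      have : (G.edgeFinset ∩ St i) ∩ (G'.edgeFinset ∩ St i)
          ⊆ (W.filter (fun w => (G ⊓ G').Adj (ctr i) w)).image (fun w => s(ctr i, w)) := by
        intro e he
        simp only [mem_inter] at he
        obtain ⟨w, hw, rfl⟩ := mem_image.1 he.1.2
        rw [mem_image]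
        refine ⟨w, mem_filter.2 ⟨hw, ?_⟩, rfl⟩
        rw [SimpleGraph.inf_adj]
        have e1 := he.1.1
        have e2 := he.2.1
        rw [SimpleGraph.mem_edgeFinset] at e1 e2
        exact ⟨e1, e2⟩
      exact (card_le_card this).trans card_image_le
    have h7 := card_union_add_card_inter (G.edgeFinset ∩ St i) (G'.edgeFinset ∩ St i)
    have h8 : ((G.edgeFinset ∩ St i) ∪ (G'.edgeFinset ∩ St i)).card ≤ 2 * q + 1 := by
      rw [← hcard i]
      exact card_le_card (union_subset inter_subset_right inter_subset_right)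
    omega
  · have h1 := card_graphs P hP F (by
      intro G x hx
      rw [hFdef, mem_filter]
      have : x = G.edgeFinset := by
        apply coe_injective
        rw [hx, SimpleGraph.coe_edgeFinset]
      rw [this]
      simp)
    have h2 := family_measure p q m St hcard hdisj
    rw [h1]
    have h3 : (0:ℝ) < 2 ^ ((Fintype.card V).choose 2) := by positivity
    have h4 : Ev (fun x => if P x then (1:ℝ) else 0)
        = Ev (fun x => if 2 * p + m ≤ 2 * (Xup St q m x).card then (1:ℝ) else 0) := rfl
    rw [h4]
    nlinarith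

end Pool.Agent.H297.SF
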