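import Mathlib
import Pool.Agent.H297.StarLower2

set_option autoImplicit false
set_option linter.unusedSectionVars false

open Finset

namespace Pool.Agent.H297.SF

/-- Number of graphs on `V`. -/
lemma card_all (V : Type*) [DecidableEq V] [Fintype V] [Fintype (SimpleGraph V)] :
    (Fintype.card (SimpleGraph V) : ℝ) = 2 ^ ((Fintype.card V).choose 2) := by
  classical
  have h := card_graphs (V := V) (fun _ => True) (fun _ => Iff.rfl) (univ : Finset (SimpleGraph V))
    (by intro G x _; simp)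
  simp only [if_true] at h
  rw [Ev_const, mul_one, card_univ] at h
  exact h

/-- Trivial upper bound. -/
lemma trivial_upper {V : Type*} [DecidableEq V] [Fintype V] {W : Type*} (H : SimpleGraph W)
    (hH : H ≠ ⊥) (F : Finset (SimpleGraph V))
    (hF : ∀ G ∈ F, ∀ G' ∈ F, H.IsContained (G ⊓ G')) :
    (F.card : ℝ) ≤ 2 ^ ((Fintype.card V).choose 2) / 2 := by
  classical
  have hdisj : Disjoint F (F.image fun G => Gᶜ) := by
    rw [disjoint_left]
    intro G hG hGi
    obtain ⟨G', hG', rfl⟩ := mem_image.1 hGi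
    obtain ⟨φ⟩ := hF _ hG _ hG'
    apply hH
    ext u w
    rw [SimpleGraph.bot_adj, iff_false]
    intro huw
    have h1 := φ.toHom.map_adj huw
    rw [SimpleGraph.inf_adj, SimpleGraph.compl_adj] at h1
    exact h1.1.2 h1.2
  have h1 : (F ∪ F.image fun G => Gᶜ).card ≤ Fintype.card (SimpleGraph V) := card_le_univ _
  rw [card_union_of_disjoint hdisj, card_image_of_injective F compl_injective] at h1
  have h2 : ((F.card + F.card : ℕ) : ℝ) ≤ (Fintype.card (SimpleGraph V) : ℝ) := by
    exact_mod_cast h1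
  rw [card_all] at h2
  push_cast at h2
  linarith

/-- Lower bound for star forests, in the limit. -/
theorem star_lower {m : ℕ} (H : SimpleGraph (Fin m)) (hH : IsStarForest H) (ε : ℝ) (hε : 0 < ε) :
    ∃ n0 : ℕ, ∀ n, n0 ≤ n → ∃ F : Finset (SimpleGraph (Fin n)),
      (∀ G ∈ F, ∀ G' ∈ F, H.IsContained (G ⊓ G')) ∧
      (1 - ε) * (2 ^ (n.choose 2) / 2) ≤ (F.card : ℝ) := by
  classical
  obtain ⟨p, hp⟩ := cb_small (ε / (2 * (2 * m + 1))) (by positivity)
  obtain ⟨q0, hq0⟩ := cb_small (ε / (2 * (2 * p * (2 * m + 1) + 1))) (by positivity)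
  refine ⟨2 * p + 2 * q0 + 1, fun n hn => ?_⟩
  set q : ℕ := (n - 2 * p - 1) / 2 with hq
  have hqq0 : q0 ≤ q := by omega
  have hqn : 2 * p + 2 * q + 1 ≤ n := by omega
  set ctr : Fin (2 * p) → Fin n := fun i => ⟨i.1, by omega⟩ with hctr
  have hinj : Function.Injective ctr := by
    intro i j hij
    rw [hctr] at hij
    have := Fin.mk.inj_iff.1 hij
    exact Fin.ext this
  have hc : 2 * q + 1 ≤ (univ \ univ.image ctr).card := by
    rw [card_sdiff_of_subset (subset_univ _), card_univ, Fintype.card_fin,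
      card_image_of_injective _ hinj, card_univ, Fintype.card_fin]
    omega
  obtain ⟨W, hWsub, hWc⟩ := exists_subset_card_eq hc
  have hW : ∀ i, ctr i ∉ W := by
    intro i hi
    have := hWsub hi
    rw [mem_sdiff] at this
    exact this.2 (mem_image_of_mem _ (mem_univ i))
  obtain ⟨F, hF, hcard⟩ := lower_family H hH p q ctr hinj W hW hWc
  refine ⟨F, hF, ?_⟩
  rw [Fintype.card_fin] at hcard
  refine le_trans ?_ hcard
  apply mul_le_mul_of_nonneg_right _ (by positivity)
  have h1 := hp p le_rfl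
  have h2 := hq0 q hqq0
  have h3 : (2 * (m : ℝ) + 1) * cb p ≤ ε / 2 := by
    have : (2 * (m : ℝ) + 1) * cb p ≤ (2 * (m : ℝ) + 1) * (ε / (2 * (2 * m + 1))) :=
      mul_le_mul_of_nonneg_left h1.le (by positivity)
    refine this.trans (le_of_eq ?_)
    field_simp
  have h4 : 2 * (p : ℝ) * ((2 * m + 1) * cb q) ≤ ε / 2 := by
    have h5 : 2 * (p : ℝ) * (2 * m + 1) * cb q
        ≤ (2 * (p : ℝ) * (2 * m + 1) + 1) * (ε / (2 * (2 * p * (2 * m + 1) + 1))) := by
      apply mul_le_mul (by linarith) h2.le (cb_nonneg q) (by positivity)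
    have h6 : (2 * (p : ℝ) * (2 * m + 1) + 1) * (ε / (2 * (2 * p * (2 * m + 1) + 1))) = ε / 2 := by
      field_simp
    rw [h6] at h5
    linarith
  linarith

end Pool.Agent.H297.SF
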